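import Pool.Agent.Helper74.MH.NTa

/-! Module NTc (MP_f028d2_al): trees from unique closer neighbours. -/

set_option autoImplicit false

namespace Pool.Agent.Helper74.MH

variable {α : Type*} {d : α → α → ℕ}

private theorem pm_of_closer (h0 : ∀ x y, d x y = 0 ↔ x = y) (hs : ∀ x y, d x y = d y x)
    (ht : ∀ x y z, d x z ≤ d x y + d y z)
    (hex : ∀ x y, x ≠ y → ∃ y', d y y' = 1 ∧ d x y' + 1 = d x y) : IsPathMetric d := by
  refine ⟨h0, hs, ht, ?_⟩
  intro x y k hk
  induction hn : d x y generalizing y k with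
  | zero =>
    refine ⟨y, ?_, ?_⟩
    · unfold Btw; rw [(h0 y y).2 rfl]; omega
    · omega
  | succ n ih =>
    by_cases hkn : k = n + 1
    · refine ⟨y, ?_, ?_⟩
      · unfold Btw; rw [(h0 y y).2 rfl]; omega
      · omega
    · have hne : x ≠ y := fun h => by
        have := (h0 x y).2 h
        omega
      obtain ⟨y', h1, h2⟩ := hex x y hne
      obtain ⟨z, h3, h4⟩ := ih y' k (by omega) (by omega)
      refine ⟨z, ?_, h4⟩
      have h5 := ht x z y
      have h6 := ht z y' y
      have h7 := hs y y'
      unfold Btw at *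
      omega

private theorem no_max (hd : IsPathMetric d)
    (hun : ∀ x y y₁ y₂, d y y₁ = 1 → d y y₂ = 1 → d x y₁ + 1 = d x y → d x y₂ + 1 = d x y →
      y₁ = y₂)
    (hne : ∀ x y y', d y y' = 1 → d x y ≠ d x y') (x z : α) (n : ℕ) :
    ∀ m m₁, d m m₁ = 1 → d x m₁ = d x m + 1 → Btw d m m₁ z → d m₁ z = n →
      d x z = d x m₁ + n := by
  induction n with
  | zero =>
    intro m m₁ _ _ _ h
    rw [(hd.zero_iff _ _).1 h]
    rfl
  | succ n ih =>
    intro m m₁ h1 h2 h3 h4
    obtain ⟨m₂, h5, h6⟩ := hd.geod m₁ z 1 (by omega)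
    have h7 := hne x m₁ m₂ h6
    have h8 := hd.tri x m₁ m₂
    have h9 := hd.tri x m₂ m₁
    have h10 := hd.symm m₂ m₁
    have h11 : d x m₂ = d x m₁ + 1 := by
      by_contra hc
      have h12 : d x m₂ + 1 = d x m₁ := by omega
      have h13 : m = m₂ := hun x m₁ m m₂ (by rw [hd.symm]; exact h1) h6 (by omega) h12
      subst h13
      unfold Btw at h3 h5
      omega
    have h12 := ih m₁ m₂ h6 h11 h5 (by unfold Btw at h5; omega)
    omega

/-- Trees from unique closer neighbours. -/
theorem isNTree_of_closer (h0 : ∀ x y, d x y = 0 ↔ x = y) (hs : ∀ x y, d x y = d y x)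
    (ht : ∀ x y z, d x z ≤ d x y + d y z)
    (hex : ∀ x y, x ≠ y → ∃ y', d y y' = 1 ∧ d x y' + 1 = d x y)
    (hun : ∀ x y y₁ y₂, d y y₁ = 1 → d y y₂ = 1 → d x y₁ + 1 = d x y → d x y₂ + 1 = d x y →
      y₁ = y₂)
    (hne : ∀ x y y', d y y' = 1 → d x y ≠ d x y') : IsNTree d := by
  have hd := pm_of_closer h0 hs ht hex
  refine ⟨hd, ?_, ?_⟩
  · -- uniqueness
    have key : ∀ n x y z z', d z y = n → Btw d x z y → Btw d x z' y → d x z = d x z' →
        z = z' := by
      intro n
      induction n with
      | zero =>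
        intro x y z z' hn h1 h2 h3
        have h4 := (h0 z y).1 hn
        unfold Btw at h1 h2
        have h5 : d z' y = 0 := by omega
        rw [h4, (h0 z' y).1 h5]
      | succ n ih =>
        intro x y z z' hn h1 h2 h3
        have hzy : z ≠ y := fun h => by
          have := (h0 z y).2 h
          omega
        have hz'y : z' ≠ y := fun h => by
          have := (h0 z' y).2 h
          unfold Btw at h1 h2
          omega
        obtain ⟨y₁, a1, a2⟩ := hex z y hzy
        obtain ⟨y₂, b1, b2⟩ := hex z' y hz'y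
        have a3 := ht x z y₁
        have b3 := ht x z' y₂
        have a4 := ht x y₁ y
        have b4 := ht x y₂ y
        have a5 := hs y₁ y
        have b5 := hs y₂ y
        unfold Btw at h1 h2
        have hy : y₁ = y₂ := hun x y y₁ y₂ a1 b1 (by omega) (by omega)
        subst hy
        refine ih x y₁ z z' (by omega) ?_ ?_ h3
        · unfold Btw; omega
        · unfold Btw; omega
    intro x y z z' h1 h2 h3
    exact key _ x y z z' rfl h1 h2 h3
  · -- medians
    intro x y z
    classical
    have hexm : ∃ k, ∃ p, Btw d y p z ∧ d x p = k := ⟨d x y, y, hd.btw_left y z, rfl⟩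
    obtain ⟨m, hm, hk⟩ := Nat.find_spec hexm
    have hmin : ∀ p, Btw d y p z → d x m ≤ d x p := by
      intro p hp
      rw [hk]
      exact Nat.find_min' hexm ⟨p, hp, rfl⟩
    have side : ∀ z', (∀ p, Btw d m p z' → d x m ≤ d x p) → Btw d x m z' := by
      intro z' hz'
      by_cases hmz : m = z'
      · rw [← hmz]; exact hd.btw_right x m
      · obtain ⟨m₁, h1, h2⟩ := hd.exists_succ hmz
        have h3 := hz' m₁ h1
        have h4 := hne x m m₁ h2
        have h5 := hd.tri x m m₁
        have h6 := no_max hd hun hne x z' (d m₁ z') m m₁ h2 (by omega) h1 rfl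
        unfold Btw at h1 ⊢
        omega
    refine ⟨m, ?_, hm, ?_⟩
    · refine side y fun p hp => hmin p ?_
      exact hd.btw_symm (hd.trans_right (hd.btw_symm hm) hp).1
    · refine side z fun p hp => hmin p ?_
      exact (hd.trans_right hm hp).1

end Pool.Agent.Helper74.MH
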