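import Pool.Agent.Helper74.MH.Defs2
import Pool.Agent.Helper74.MH.NTc

/-! Module Fa (MP_f028d2_al): the tree metric of a free group. -/

set_option autoImplicit false

namespace Pool.Agent.Helper74.MH

variable {X : Type*} [DecidableEq X]

omit [DecidableEq X] in
private theorem mk_inv_singleton (p : X × Bool) :
    (FreeGroup.mk [p])⁻¹ = FreeGroup.mk [(p.1, !p.2)] := by
  rw [FreeGroup.inv_mk]
  rfl

private theorem norm_one_iff' (s : FreeGroup X) :
    FreeGroup.norm s = 1 ↔ ∃ p : X × Bool, s = FreeGroup.mk [p] := by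
  constructor
  · intro h
    obtain ⟨p, hp⟩ := List.length_eq_one_iff.1 h
    exact ⟨p, by rw [← hp, FreeGroup.mk_toWord]⟩
  · rintro ⟨p, rfl⟩
    show (FreeGroup.toWord (FreeGroup.mk [p])).length = 1
    rw [FreeGroup.toWord_mk, FreeGroup.reduce_singleton]
    rfl

private theorem toWord_mk_prefix {w : FreeGroup X} {l m : List (X × Bool)}
    (h : w.toWord = l ++ m) : (FreeGroup.mk l).toWord = l := by
  rw [FreeGroup.toWord_mk]
  refine FreeGroup.IsReduced.reduce_eq ?_
  have h1 : FreeGroup.IsReduced (l ++ m) := h ▸ FreeGroup.isReduced_toWord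
  exact (List.isChain_append.1 h1).1

private theorem step_word (v : FreeGroup X) (p : X × Bool) :
    (v * FreeGroup.mk [p]).toWord = v.toWord ++ [p] ∨
      v.toWord = (v * FreeGroup.mk [p]).toWord ++ [(p.1, !p.2)] := by
  have hp : (FreeGroup.mk [p]).toWord = [p] := by
    rw [FreeGroup.toWord_mk, FreeGroup.reduce_singleton]
  rcases List.eq_nil_or_concat' v.toWord with h | ⟨l, q, h⟩
  · left
    have hv : v = 1 := FreeGroup.toWord_eq_nil_iff.1 h
    rw [hv, one_mul, hp, FreeGroup.toWord_one, List.nil_append]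
  · by_cases hq : q = (p.1, !p.2)
    · right
      have hv : v = FreeGroup.mk l * (FreeGroup.mk [p])⁻¹ := by
        rw [mk_inv_singleton, ← hq, FreeGroup.mul_mk, ← h, FreeGroup.mk_toWord]
      have h1 : v * FreeGroup.mk [p] = FreeGroup.mk l := by
        rw [hv, inv_mul_cancel_right]
      rw [h1, toWord_mk_prefix h, h, hq]
    · left
      rw [FreeGroup.toWord_mul, hp, h]
      refine FreeGroup.IsReduced.reduce_eq ?_
      have h1 : FreeGroup.IsReduced (l ++ [q]) := h ▸ FreeGroup.isReduced_toWord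
      refine FreeGroup.IsReduced.append_overlap h1 ?_ (by simp)
      rw [List.singleton_append, FreeGroup.isReduced_cons_cons]
      refine ⟨fun h2 => ?_, FreeGroup.IsReduced.singleton⟩
      by_contra h3
      refine hq (Prod.ext h2 ?_)
      show q.2 = !p.2
      cases h4 : q.2 <;> cases h5 : p.2 <;> simp_all

private theorem dF_mul (x y s : FreeGroup X) : dF x (y * s) = FreeGroup.norm (x⁻¹ * y * s) := by
  rw [dF, mul_assoc]

private theorem adj_dF {y y' : FreeGroup X} (h : dF y y' = 1) :
    ∃ p : X × Bool, y' = y * FreeGroup.mk [p] := by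
  obtain ⟨p, hp⟩ := (norm_one_iff' _).1 h
  exact ⟨p, by rw [← hp, mul_inv_cancel_left]⟩

theorem ltree_dF : LTree (FreeGroup X) (dF (X := X)) := by
  have h0 : ∀ x y : FreeGroup X, dF x y = 0 ↔ x = y := by
    intro x y
    unfold dF
    rw [FreeGroup.norm_eq_zero, inv_mul_eq_one]
  refine ⟨isNTree_of_closer h0 ?_ ?_ ?_ ?_ ?_, ?_⟩
  · intro x y
    unfold dF
    rw [← FreeGroup.norm_inv_eq, mul_inv_rev, inv_inv]
  · intro x y z
    unfold dF
    have : x⁻¹ * z = (x⁻¹ * y) * (y⁻¹ * z) := by group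
    rw [this]
    exact FreeGroup.norm_mul_le _ _
  · intro x y hxy
    have hw : x⁻¹ * y ≠ 1 := fun h => hxy (inv_mul_eq_one.1 h)
    rcases List.eq_nil_or_concat' (x⁻¹ * y).toWord with h | ⟨l, q, h⟩
    · exact absurd (FreeGroup.toWord_eq_nil_iff.1 h) hw
    · refine ⟨y * (FreeGroup.mk [q])⁻¹, ?_, ?_⟩
      · unfold dF
        rw [inv_mul_cancel_left, FreeGroup.norm_inv_eq]
        exact (norm_one_iff' _).2 ⟨q, rfl⟩
      · rw [dF_mul]
        have h1 : x⁻¹ * y = FreeGroup.mk l * FreeGroup.mk [q] := by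
          rw [FreeGroup.mul_mk, ← h, FreeGroup.mk_toWord]
        have h2 : x⁻¹ * y * (FreeGroup.mk [q])⁻¹ = FreeGroup.mk l := by
          rw [h1, mul_inv_cancel_right]
        rw [h2]
        unfold dF FreeGroup.norm
        rw [toWord_mk_prefix h, h]
        simp
  · intro x y y₁ y₂ h1 h2 h1' h2'
    obtain ⟨p, rfl⟩ := adj_dF h1
    obtain ⟨q, rfl⟩ := adj_dF h2
    rw [dF_mul] at h1' h2'
    have e0 : dF x y = (x⁻¹ * y).toWord.length := rfl
    have hp : (x⁻¹ * y).toWord = (x⁻¹ * y * FreeGroup.mk [p]).toWord ++ [(p.1, !p.2)] := by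
      rcases step_word (x⁻¹ * y) p with h | h
      · exfalso
        unfold FreeGroup.norm at h1'
        rw [h, e0, List.length_append] at h1'
        simp at h1'
        omega
      · exact h
    have hq : (x⁻¹ * y).toWord = (x⁻¹ * y * FreeGroup.mk [q]).toWord ++ [(q.1, !q.2)] := by
      rcases step_word (x⁻¹ * y) q with h | h
      · exfalso
        unfold FreeGroup.norm at h2'
        rw [h, e0, List.length_append] at h2'
        simp at h2'
        omega
      · exact h
    rw [hp] at hq
    have h3 := (List.append_inj' hq rfl).2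
    have h4 : (p.1, !p.2) = (q.1, !q.2) := by simpa using h3
    have h5 : p.1 = q.1 := (Prod.mk.inj h4).1
    have h6 : (!p.2) = (!q.2) := (Prod.mk.inj h4).2
    have h7 : p = q := Prod.ext h5 (by simpa using h6)
    rw [h7]
  · intro x y y' h
    obtain ⟨p, rfl⟩ := adj_dF h
    rw [dF_mul]
    have e0 : dF x y = (x⁻¹ * y).toWord.length := rfl
    rw [e0]
    unfold FreeGroup.norm
    rcases step_word (x⁻¹ * y) p with h | h
    · rw [h]
      simp
    · intro h1
      have h2 := congrArg List.length h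
      rw [List.length_append] at h2
      simp only [List.length_cons, List.length_nil] at h2
      omega
  · intro g x y
    unfold dF
    congr 1
    group

theorem dF_one_iff (s : FreeGroup X) :
    dF 1 s = 1 ↔ ∃ x, s = FreeGroup.of x ∨ s = (FreeGroup.of x)⁻¹ := by
  have : dF 1 s = FreeGroup.norm s := by
    unfold dF
    rw [inv_one, one_mul]
  rw [this, norm_one_iff']
  constructor
  · rintro ⟨⟨x, b⟩, rfl⟩
    cases b
    · exact ⟨x, Or.inr rfl⟩
    · exact ⟨x, Or.inl rfl⟩
  · rintro ⟨x, rfl | rfl⟩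
    · exact ⟨(x, true), rfl⟩
    · exact ⟨(x, false), rfl⟩

end Pool.Agent.Helper74.MH
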