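import Pool.Agent.Helper74.MH.Defs2

/-! Module Fd (MP_f028d2_al): combinatorics of the words `WW`. -/

set_option autoImplicit false

namespace Pool.Agent.Helper74.MH

variable {A T : Type} {p : ℕ} {M : Mach A T} {Z : Noise A T p} {L P : ℕ}

/-- Number of letters of `W t x` which are not noise letters. -/
private def st0 (M : Mach A T) (t : T) : XX A p → ℕ
  | Sum.inl _ => 1
  | Sum.inr (Sum.inl _) => (M.g t).length + 1
  | Sum.inr (Sum.inr _) => 0

private theorem nV_eq (M : Mach A T) (Z : Noise A T p) (L : ℕ) (t : T) (x : XX A p) :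
    nV M Z L t x = Z.V L t x (st0 M t x) := by
  rcases x with y | u | n <;> rfl

private theorem preW_length (M : Mach A T) (t : T) (x : XX A p) :
    (preW M t x).length = st0 M t x := by
  rcases x with y | u | n
  · rfl
  · simp [preW, st0]
  · rfl

private theorem preW_kk (M : Mach A T) (t : T) (x : XX A p) : ∀ a ∈ preW M t x, kk a = false := by
  intro a ha
  rcases x with y | u | n
  · simp only [preW, List.mem_singleton] at ha
    subst ha
    rfl
  · simp only [preW, List.mem_append, List.mem_map, List.mem_singleton] at ha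
    rcases ha with ⟨b, -, rfl⟩ | rfl <;> rfl
  · simp [preW] at ha

private theorem WW_get_ge (M : Mach A T) (Z : Noise A T p) (L : ℕ) (t : T) (x : XX A p) (i : ℕ)
    (hi : st0 M t x ≤ i) (hi' : i < L) :
    (WW M Z L t x)[i]? = some (Sum.inr (Sum.inr (Z.letter t x i))) := by
  unfold WW
  rw [List.getElem?_append_right (by rw [preW_length]; exact hi), preW_length, nV_eq]
  unfold Noise.V
  rw [List.map_map, List.getElem?_map, List.getElem?_range' (by omega)]
  simp only [Option.map_some, Function.comp_apply]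
  congr 4
  omega

private theorem WW_get_lt (M : Mach A T) (Z : Noise A T p) (L : ℕ) (t : T) (x : XX A p) (i : ℕ)
    (hi : i < st0 M t x) : (WW M Z L t x)[i]? = (preW M t x)[i]? := by
  unfold WW
  rw [List.getElem?_append_left (by rw [preW_length]; exact hi)]

private theorem WW_get_kk (M : Mach A T) (Z : Noise A T p) (L : ℕ) (t : T) (x : XX A p) (i : ℕ)
    (hi : i < st0 M t x) (a : XX A p) (ha : (WW M Z L t x)[i]? = some a) : kk a = false := by
  rw [WW_get_lt M Z L t x i hi] at ha
  exact preW_kk M t x a (List.mem_of_getElem? ha)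

private theorem get_of_take {B : Type*} {l l' : List B} {n : ℕ} (h : l.take n = l'.take n) (i : ℕ)
    (hi : i < n) : l[i]? = l'[i]? := by
  have h1 : (l.take n)[i]? = (l'.take n)[i]? := by rw [h]
  rwa [List.getElem?_take_of_lt hi, List.getElem?_take_of_lt hi] at h1

theorem WW_length (hL : 1 ≤ L) (hP : ∀ t, (M.g t).length + 1 ≤ L) (t : T) (x : XX A p) :
    (WW M Z L t x).length = L := by
  unfold WW
  rw [List.length_append, List.length_map, preW_length, nV_eq]
  unfold Noise.V
  rw [List.length_map, List.length_range']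
  have h1 : st0 M t x ≤ L := by
    rcases x with y | u | n
    · exact hL
    · exact hP t
    · exact Nat.zero_le _
  omega

theorem WW_get (hP : ∀ t, (M.g t).length + 1 ≤ P) (hP1 : 1 ≤ P) (t : T) (x : XX A p) (i : ℕ)
    (hi : P ≤ i) (hi' : i < L) :
    (WW M Z L t x)[i]? = some (Sum.inr (Sum.inr (Z.letter t x i))) := by
  refine WW_get_ge M Z L t x i (le_trans ?_ hi) hi'
  rcases x with y | u | n
  · exact hP1
  · exact hP t
  · exact Nat.zero_le _

/-- Two consecutive noise letters determine everything. -/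
theorem letter_pair (hZ : Z.Good L) {t t' : T} {x x' : XX A p} {i i' : ℕ} (hi : i < L)
    (hi' : i' < L) (h₀ : Z.letter t x i = Z.letter t' x' i')
    (h₁ : Z.letter t x (i + 1) = Z.letter t' x' (i' + 1)) : t = t' ∧ x = x' ∧ i = i' := by
  have h₂ : Z.s t (kk x) i = Z.s t' (kk x') i' := by
    unfold Noise.letter at h₀ h₁
    rw [Finset.sum_range_succ, Finset.sum_range_succ, ← add_assoc, ← add_assoc, h₀] at h₁
    exact add_left_cancel h₁
  obtain ⟨rfl, hk, rfl⟩ := hZ.inj_s _ _ _ _ _ _ hi hi' h₂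
  refine ⟨rfl, ?_, rfl⟩
  unfold Noise.letter at h₀
  rw [hk] at h₀
  have h₃ : Z.base x = Z.base x' := add_right_cancel h₀
  rcases x with y | u | n <;> rcases x' with y' | u' | n'
  · have h₄ : Z.bs (some y) = Z.bs (some y') := h₃
    have := hZ.inj_bs h₄
    simp only [Option.some.injEq] at this
    rw [this]
  · have h₄ : Z.bs (some y) = Z.bs none := h₃
    have := hZ.inj_bs h₄
    simp at this
  · simp [kk] at hk
  · have h₄ : Z.bs none = Z.bs (some y') := h₃
    have := hZ.inj_bs h₄
    simp at this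
  · rfl
  · simp [kk] at hk
  · simp [kk] at hk
  · simp [kk] at hk
  · have h₄ : n = n' := h₃
    rw [h₄]

theorem WW_pair (hZ : Z.Good L) (hP : ∀ t, (M.g t).length + 1 ≤ P) (hP1 : 1 ≤ P) (t t' : T)
    (x x' : XX A p) (i i' : ℕ) (hi : P ≤ i) (hi' : P ≤ i') (hi₁ : i + 1 < L)
    (hi₁' : i' + 1 < L) (h₀ : (WW M Z L t x)[i]? = (WW M Z L t' x')[i']?)
    (h₁ : (WW M Z L t x)[i + 1]? = (WW M Z L t' x')[i' + 1]?) : t = t' ∧ x = x' ∧ i = i' := by
  rw [WW_get hP hP1 t x i hi (by omega), WW_get hP hP1 t' x' i' hi' (by omega)] at h₀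
  rw [WW_get hP hP1 t x (i + 1) (by omega) hi₁,
    WW_get hP hP1 t' x' (i' + 1) (by omega) hi₁'] at h₁
  simp only [Option.some.injEq, Sum.inr.injEq] at h₀ h₁
  exact letter_pair hZ (by omega) (by omega) h₀ h₁

theorem WW_take_ne (hL : 2 ≤ L) (hP : ∀ t, (M.g t).length + 1 ≤ L) (t : T) (x x' : XX A p)
    (hx : x ≠ x') : (WW M Z L t x).take 2 ≠ (WW M Z L t x').take 2 := by
  intro h
  have g0 := get_of_take h 0 (by omega)
  have g1 := get_of_take h 1 (by omega)
  have key : ∀ (y : A) (u : Unit), (WW M Z L t (Sum.inl y))[0]? = (WW M Z L t (Sum.inr (Sum.inl u)))[0]? →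
      (WW M Z L t (Sum.inl y))[1]? = (WW M Z L t (Sum.inr (Sum.inl u)))[1]? → False := by
    intro y u k0 k1
    by_cases hg : M.g t = []
    · rw [WW_get_lt M Z L t _ 0 (by simp [st0]), WW_get_lt M Z L t _ 0 (by simp [st0])] at k0
      simp [preW, hg] at k0
    · rw [WW_get_ge M Z L t (Sum.inl y) 1 (by simp [st0]) (by omega)] at k1
      have h2 := WW_get_kk M Z L t (Sum.inr (Sum.inl u)) 1 (by
        have := List.length_pos_of_ne_nil hg
        simp only [st0]
        omega) _ k1.symm
      simp [kk] at h2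
  rcases x with y | u | n <;> rcases x' with y' | u' | n'
  · rw [WW_get_lt M Z L t _ 0 (by simp [st0]), WW_get_lt M Z L t _ 0 (by simp [st0])] at g0
    simp only [preW, List.getElem?_cons_zero, Option.some.injEq, Sum.inl.injEq,
      EmbeddingLike.apply_eq_iff_eq] at g0
    exact hx (by rw [g0])
  · exact key y u' g0 g1
  · rw [WW_get_ge M Z L t (Sum.inr (Sum.inr n')) 0 (by simp [st0]) (by omega)] at g0
    have h2 := WW_get_kk M Z L t _ 0 (by simp [st0]) _ g0
    simp [kk] at h2
  · exact key y' u g0.symm g1.symm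
  · exact hx rfl
  · rw [WW_get_ge M Z L t (Sum.inr (Sum.inr n')) 0 (by simp [st0]) (by omega)] at g0
    have h2 := WW_get_kk M Z L t _ 0 (by simp [st0]) _ g0
    simp [kk] at h2
  · rw [WW_get_ge M Z L t (Sum.inr (Sum.inr n)) 0 (by simp [st0]) (by omega)] at g0
    have h2 := WW_get_kk M Z L t _ 0 (by simp [st0]) _ g0.symm
    simp [kk] at h2
  · rw [WW_get_ge M Z L t (Sum.inr (Sum.inr n)) 0 (by simp [st0]) (by omega)] at g0
    have h2 := WW_get_kk M Z L t _ 0 (by simp [st0]) _ g0.symm
    simp [kk] at h2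
  · rw [WW_get_ge M Z L t (Sum.inr (Sum.inr n)) 0 (by simp [st0]) (by omega),
      WW_get_ge M Z L t (Sum.inr (Sum.inr n')) 0 (by simp [st0]) (by omega)] at g0
    simp only [Noise.letter, Finset.range_zero, Finset.sum_empty, add_zero, Noise.base,
      Option.some.injEq, Sum.inr.injEq] at g0
    exact hx (by rw [g0])

theorem WW_drop_ne (hZ : Z.Good L) (hP : ∀ t, (M.g t).length + 1 ≤ P) (hP1 : 1 ≤ P)
    (hL : P + 2 ≤ L) (t : T) (x x' : XX A p) (hx : x ≠ x') :
    (WW M Z L t x).drop (L - 2) ≠ (WW M Z L t x').drop (L - 2) := by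
  intro h
  have h0 : ((WW M Z L t x).drop (L - 2))[0]? = ((WW M Z L t x').drop (L - 2))[0]? := by rw [h]
  have h1 : ((WW M Z L t x).drop (L - 2))[1]? = ((WW M Z L t x').drop (L - 2))[1]? := by rw [h]
  rw [List.getElem?_drop, List.getElem?_drop, Nat.add_zero] at h0
  rw [List.getElem?_drop, List.getElem?_drop] at h1
  exact hx (WW_pair hZ hP hP1 t t x x' (L - 2) (L - 2) (by omega) (by omega) (by omega)
    (by omega) h0 h1).2.1

/-- Noise parameters exist. -/
theorem exists_noise (A T : Type) [Finite A] [Finite T] (L : ℕ) :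
    ∃ p : ℕ, ∃ _ : NeZero p, ∃ Z : Noise A T p, Z.Good L := by
  classical
  have _ : Fintype A := Fintype.ofFinite A
  have _ : Fintype T := Fintype.ofFinite T
  let p := Fintype.card (T × Bool × Fin L) + Fintype.card (Option A)
  have hp : p ≠ 0 := by
    have : 0 < Fintype.card (Option A) := Fintype.card_pos
    omega
  have hne : NeZero p := ⟨hp⟩
  obtain ⟨f⟩ := Function.Embedding.nonempty_of_card_le (α := T × Bool × Fin L) (β := ZMod p) (by
    rw [ZMod.card]; omega)
  obtain ⟨g⟩ := Function.Embedding.nonempty_of_card_le (α := Option A) (β := ZMod p) (by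
    rw [ZMod.card]; omega)
  refine ⟨p, hne, ⟨fun t b i => if h : i < L then f (t, b, ⟨i, h⟩) else 0, g⟩, ⟨?_, g.injective⟩⟩
  intro t b i t' b' i' hi hi' h
  simp only [hi, hi', dif_pos] at h
  have h2 := f.injective h
  simp only [Prod.mk.injEq, Fin.mk.injEq] at h2
  exact h2

end Pool.Agent.Helper74.MH
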