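import Pool.Agent.Helper74.MH.Fc
import Pool.Agent.Helper74.MH.Fd

/-! Module Fe (MP_f028d2_al): the words `WW` are stretch data. -/

set_option autoImplicit false

namespace Pool.Agent.Helper74.MH

theorem stretch_WW {A T : Type} [DecidableEq A] {p : ℕ} {M : Mach A T} {Z : Noise A T p}
    {L P h Q : ℕ} (hZ : Z.Good L) (hL : L = 2 * h + 1)
    (hP : ∀ t, (M.g t).length + 1 ≤ P) (hP1 : 1 ≤ P) (hQ : P + 2 ≤ Q) (hh : 3 * Q ≤ h) :
    Stretch (FreeGroup (XX A p)) T dF (phi (WW M Z L)) h Q where
  ltree := ltree_dF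
  hQ := by omega
  hh := hh
  len := fun t s hs => by
    rw [phi_len (WW M Z L) L (fun t x => WW_length (by omega)
      (fun t => (hP t).trans (by omega)) t x) t s hs, hL]
  sep := fun t s s' hs hs' hne => by
    have := phi_sep (WW M Z L) L (by omega) (fun t x => WW_length (by omega)
      (fun t => (hP t).trans (by omega)) t x)
      (fun t x x' hx => WW_take_ne (by omega) (fun t => (hP t).trans (by omega)) t x x' hx)
      (fun t x x' hx => WW_drop_ne hZ hP hP1 (by omega) t x x' hx) t s s' hs hs' hne
    omega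
  turn := by
    subst hL
    exact turn_of_words (WW M Z (2 * h + 1)) h Q P (fun t x => WW_length (by omega)
      (fun t => (hP t).trans (by omega)) t x) (by omega) (by omega)
      (fun t t' x x' i i' hi hi' h1 h2 h3 h4 => WW_pair hZ hP hP1 t t' x x' i i' hi hi' h1 h2 h3 h4)

end Pool.Agent.Helper74.MH
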