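import Pool.Agent.Helper74.MH.Defs3

/-! Module Hc (MP_f028d2_al): the combinatorial lemma on the machine dynamics. -/

set_option autoImplicit false

namespace Pool.Agent.Helper74.MH

variable {A T : Type} {M : Mach A T}

theorem Mach.run_append (x : FreeGroup A) (τ τ' : List (T × Bool)) :
    M.run x (τ ++ τ') = M.run (M.run x τ) τ' := by
  simp [Mach.run, List.foldl_append]

private theorem hc_run_cons (x : FreeGroup A) (q : T × Bool) (τ : List (T × Bool)) :
    M.run x (q :: τ) = M.run (if q.2 then M.star q.1 x else (M.star q.1).symm x) τ := rfl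

private theorem hc_cancel (x : FreeGroup A) (t : T) (b : Bool) :
    M.run x [(t, b), (t, !b)] = x := by
  cases b <;> simp [Mach.run]

private theorem hc_red {x : FreeGroup A} {τ τ' : List (T × Bool)} (h : FreeGroup.Red τ τ') :
    M.run x τ = M.run x τ' := by
  induction h with
  | refl => rfl
  | tail _ h ih =>
    rw [ih]
    obtain @⟨L₁, L₂, t, b⟩ := h
    have e : L₁ ++ (t, b) :: (t, !b) :: L₂ = L₁ ++ ([(t, b), (t, !b)] ++ L₂) := by simp
    rw [e, Mach.run_append, Mach.run_append, hc_cancel, Mach.run_append]

theorem Mach.run_reduce [DecidableEq T] (x : FreeGroup A) (τ : List (T × Bool)) :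
    M.run x (FreeGroup.reduce τ) = M.run x τ :=
  (hc_red FreeGroup.reduce.red).symm

theorem Mach.run_invRev (x : FreeGroup A) (τ : List (T × Bool)) :
    M.run (M.run x τ) (FreeGroup.invRev τ) = x := by
  induction τ generalizing x with
  | nil => rfl
  | cons q τ ih =>
    have e : FreeGroup.invRev (q :: τ) = FreeGroup.invRev τ ++ [(q.1, !q.2)] := by
      simp [FreeGroup.invRev]
    have e2 : M.run x (q :: τ) = M.run (M.run x [q]) τ := rfl
    rw [e, Mach.run_append, e2, ih]
    have e3 : M.run (M.run x [q]) [(q.1, !q.2)] = M.run x ([q] ++ [(q.1, !q.2)]) :=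
      (Mach.run_append x [q] [(q.1, !q.2)]).symm
    rw [e3]
    exact hc_cancel x q.1 q.2

/-! ### Words in free groups -/

section Words

variable {B : Type} [DecidableEq B]

private theorem hc_cons {q : B × Bool} {x : FreeGroup B}
    (h : ∀ z, x.toWord ≠ (q.1, !q.2) :: z) :
    (FreeGroup.mk [q] * x).toWord = q :: x.toWord := by
  rw [FreeGroup.toWord_mul, FreeGroup.toWord_mk, FreeGroup.reduce_singleton,
    List.singleton_append]
  apply FreeGroup.IsReduced.reduce_eq
  have hx := FreeGroup.isReduced_toWord (x := x)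
  rcases hw : x.toWord with _ | ⟨a, z⟩
  · exact FreeGroup.IsReduced.singleton
  · rw [hw] at hx
    rw [FreeGroup.isReduced_cons_cons]
    refine ⟨fun h1 => ?_, hx⟩
    by_contra h2
    apply h z
    rw [hw]
    congr 1
    obtain ⟨a1, a2⟩ := a
    obtain ⟨q1, q2⟩ := q
    simp only at h1 h2 ⊢
    subst h1
    cases a2 <;> cases q2 <;> simp_all

private theorem hc_mul_list (L : List (B × Bool)) : ∀ (l : B × Bool),
    FreeGroup.IsReduced (l :: L) → ∀ v : FreeGroup B,
      (∃ z, (FreeGroup.mk (l :: L) * v).toWord = l :: z) ∨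
        ∃ z, v.toWord = FreeGroup.invRev (l :: L) ++ z := by
  induction L with
  | nil =>
    intro l _ v
    by_cases h : ∃ z, v.toWord = (l.1, !l.2) :: z
    · right
      obtain ⟨z, hz⟩ := h
      exact ⟨z, by rw [hz]; simp [FreeGroup.invRev]⟩
    · left
      push Not at h
      exact ⟨_, hc_cons h⟩
  | cons l' L ih =>
    intro l hl v
    rw [FreeGroup.isReduced_cons_cons] at hl
    have e : FreeGroup.mk (l :: l' :: L) * v =
        FreeGroup.mk [l] * (FreeGroup.mk (l' :: L) * v) := by
      rw [← mul_assoc, FreeGroup.mul_mk, List.singleton_append]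
    rw [e]
    by_cases h : ∃ z, (FreeGroup.mk (l' :: L) * v).toWord = (l.1, !l.2) :: z
    · right
      obtain ⟨z, hz⟩ := h
      rcases ih l' hl.2 v with ⟨z', hz'⟩ | ⟨z', hz'⟩
      · exfalso
        rw [hz] at hz'
        have h1 : (l.1, !l.2) = l' := (List.cons.inj hz').1
        have h2 := hl.1 (by rw [← h1])
        rw [← h1] at h2
        simp at h2
      · have h1 : FreeGroup.mk (l' :: L) * v = FreeGroup.mk z' := by
          have h2 : v = FreeGroup.mk (FreeGroup.invRev (l' :: L)) * FreeGroup.mk z' := by
            rw [FreeGroup.mul_mk, ← hz', FreeGroup.mk_toWord]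
          rw [h2, ← mul_assoc, ← FreeGroup.inv_mk, mul_inv_cancel, one_mul]
        have h3 : FreeGroup.IsReduced z' := by
          have h4 := FreeGroup.isReduced_toWord (x := v)
          rw [hz'] at h4
          exact List.IsChain.suffix h4 ⟨FreeGroup.invRev (l' :: L), rfl⟩
        rw [h1, FreeGroup.toWord_mk, h3.reduce_eq] at hz
        refine ⟨z, ?_⟩
        rw [hz', hz]
        simp [FreeGroup.invRev]
    · left
      push Not at h
      exact ⟨_, hc_cons h⟩

private theorem hc_mul {u v : FreeGroup B} {l : B × Bool} {z : List (B × Bool)}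
    (hu : u.toWord = l :: z) : (∃ z', (u * v).toWord = l :: z') ∨
      ∃ z', v.toWord = FreeGroup.invRev u.toWord ++ z' := by
  have h1 := FreeGroup.isReduced_toWord (x := u)
  rw [hu] at h1
  have h2 := hc_mul_list z l h1 v
  rw [← hu, FreeGroup.mk_toWord] at h2
  exact h2

omit [DecidableEq B] in
private theorem hc_pos_red (l : List B) :
    FreeGroup.IsReduced (l.map fun y => (y, true)) := by
  induction l with
  | nil => exact FreeGroup.IsReduced.nil
  | cons x l ih =>
    rcases l with _ | ⟨y, l⟩
    · exact FreeGroup.IsReduced.singleton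
    · rw [List.map_cons, List.map_cons, FreeGroup.isReduced_cons_cons]
      exact ⟨fun _ => rfl, ih⟩

omit [DecidableEq B] in
private theorem hc_pw_mk (l : List B) : pw l = FreeGroup.mk (l.map fun y => (y, true)) := by
  induction l with
  | nil => rfl
  | cons x l ih =>
    have h : pw (x :: l) = FreeGroup.of x * pw l := by simp [pw]
    rw [h, ih, FreeGroup.of, FreeGroup.mul_mk]
    rfl

private theorem hc_pw_word (l : List B) : (pw l).toWord = l.map fun y => (y, true) := by
  rw [hc_pw_mk, FreeGroup.toWord_mk, (hc_pos_red l).reduce_eq]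

private theorem hc_pw_inj {l l' : List B} (h : pw l = pw l') : l = l' := by
  have h1 := congrArg FreeGroup.toWord h
  rw [hc_pw_word, hc_pw_word] at h1
  exact List.map_injective_iff.2 (fun a b hab => (Prod.mk.inj hab).1) h1

omit [DecidableEq B] in
private theorem hc_map_red {f : B → B} (hf : Function.Injective f) (L : List (B × Bool))
    (h : FreeGroup.IsReduced L) : FreeGroup.IsReduced (L.map fun q => (f q.1, q.2)) := by
  induction L with
  | nil => exact FreeGroup.IsReduced.nil
  | cons x L ih =>
    rcases L with _ | ⟨y, L⟩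
    · exact FreeGroup.IsReduced.singleton
    · rw [FreeGroup.isReduced_cons_cons] at h
      rw [List.map_cons, List.map_cons, FreeGroup.isReduced_cons_cons]
      exact ⟨fun h1 => h.1 (hf h1), ih h.2⟩

private theorem hc_map_word {f : B → B} (hf : Function.Injective f) (x : FreeGroup B) :
    (FreeGroup.map f x).toWord = x.toWord.map fun q => (f q.1, q.2) := by
  conv_lhs => rw [← FreeGroup.mk_toWord (x := x)]
  rw [FreeGroup.map.mk, FreeGroup.toWord_mk]
  exact (hc_map_red hf _ FreeGroup.isReduced_toWord).reduce_eq

end Words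

/-! ### The charge -/

/-- the charge of an element of the free group -/
private noncomputable def hcX (M : Mach A T) (x : FreeGroup A) : ℤ :=
  Multiplicative.toAdd (FreeGroup.lift (fun y => Multiplicative.ofAdd (M.chi y : ℤ)) x)

private theorem hcX_mul (x y : FreeGroup A) : hcX M (x * y) = hcX M x + hcX M y := by
  simp [hcX]

private theorem hcX_inv (x : FreeGroup A) : hcX M x⁻¹ = - hcX M x := by
  simp [hcX]

private theorem hcX_of (y : A) : hcX M (FreeGroup.of y) = M.chi y := by
  simp [hcX]

private theorem hcX_one : hcX M 1 = 0 := by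
  simp [hcX]

private theorem hcX_pw (l : List A) : hcX M (pw l) = ((l.map M.chi).sum : ℕ) := by
  induction l with
  | nil => exact hcX_one
  | cons x l ih =>
    have h : pw (x :: l) = FreeGroup.of x * pw l := by simp [pw]
    rw [h, hcX_mul, ih, hcX_of, List.map_cons, List.sum_cons]
    push_cast
    rfl

private theorem hcX_map (hM : M.Good) (t : T) (x : FreeGroup A) :
    hcX M (FreeGroup.map (M.sg t) x) = hcX M x := by
  have h : (FreeGroup.lift (fun y => Multiplicative.ofAdd (M.chi y : ℤ))).comp
      (FreeGroup.map (M.sg t)) = FreeGroup.lift (fun y => Multiplicative.ofAdd (M.chi y : ℤ)) := by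
    ext y
    simp [hM.chi_sg]
  exact congrArg Multiplicative.toAdd (DFunLike.congr_fun h x)

private theorem hcX_map_symm (hM : M.Good) (t : T) (x : FreeGroup A) :
    hcX M (FreeGroup.map (M.sg t).symm x) = hcX M x := by
  rw [← hcX_map hM t (FreeGroup.map (M.sg t).symm x), FreeGroup.map.comp]
  simp

private theorem hcX_g (hM : M.Good) (t : T) : hcX M (pw (M.g t)) = M.chi (M.a t) := by
  rw [hcX_pw, hM.chi_g]

private theorem hcX_star (hM : M.Good) (t : T) (x : FreeGroup A) :
    hcX M (M.star t x) = hcX M x := by
  show hcX M (FreeGroup.map (M.sg t) ((FreeGroup.of (M.a t))⁻¹ * x) * pw (M.g t)) = _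
  rw [hcX_mul, hcX_map hM, hcX_mul, hcX_inv, hcX_of, hcX_g hM]
  ring

private theorem hcX_star_symm (hM : M.Good) (t : T) (x : FreeGroup A) :
    hcX M ((M.star t).symm x) = hcX M x := by
  rw [← hcX_star hM t ((M.star t).symm x), Equiv.apply_symm_apply]

/-- the part of a positive word has nonnegative charge -/
private theorem hc_mk_pos (l : List A) : 0 ≤ hcX M (FreeGroup.mk (l.map fun y => (y, true))) := by
  rw [← hc_pw_mk, hcX_pw]
  positivity

/-! ### The two kinds of illegal steps -/

private theorem hc_append_map {α β : Type} (f : α → β) (l : List α) :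
    ∀ (u v : List β), l.map f = u ++ v → ∃ l₁ l₂, l = l₁ ++ l₂ ∧ u = l₁.map f ∧ v = l₂.map f := by
  intro u v h
  obtain ⟨l₁, l₂, h1, h2, h3⟩ := List.map_eq_append_iff.1 h
  exact ⟨l₁, l₂, h1, h2.symm, h3.symm⟩

private theorem hc_fwd [DecidableEq A] (hM : M.Good) (t : T) {x : FreeGroup A}
    (hx : hcX M x = 2) (h : ∀ z, x.toWord ≠ (M.a t, true) :: z) :
    ∃ z, (M.star t x).toWord = (M.sg t (M.a t), false) :: z := by
  have h1 : ((FreeGroup.of (M.a t))⁻¹ * x).toWord = (M.a t, false) :: x.toWord := by
    have h2 := hc_cons (q := (M.a t, false)) (x := x) (by simpa using h)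
    have h3 : (FreeGroup.of (M.a t))⁻¹ = FreeGroup.mk [(M.a t, false)] := by
      rw [FreeGroup.of, FreeGroup.inv_mk]
      rfl
    rw [h3]
    exact h2
  have h4 : (FreeGroup.map (M.sg t) ((FreeGroup.of (M.a t))⁻¹ * x)).toWord =
      (M.sg t (M.a t), false) :: x.toWord.map fun q => (M.sg t q.1, q.2) := by
    rw [hc_map_word (M.sg t).injective, h1, List.map_cons]
  rcases hc_mul (v := pw (M.g t)) h4 with ⟨z, hz⟩ | ⟨z, hz⟩
  · exact ⟨z, hz⟩
  · exfalso
    rw [hc_pw_word] at hz
    obtain ⟨l₁, l₂, -, h5, -⟩ := hc_append_map _ _ _ _ hz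
    have h6 : (FreeGroup.map (M.sg t) ((FreeGroup.of (M.a t))⁻¹ * x))⁻¹ =
        FreeGroup.mk (l₁.map fun y => (y, true)) := by
      rw [← h5, ← FreeGroup.inv_mk, FreeGroup.mk_toWord]
    have h7 := hc_mk_pos (M := M) l₁
    rw [← h6, hcX_inv, hcX_map hM, hcX_mul, hcX_inv, hcX_of, hx] at h7
    have h8 : (M.chi (M.a t) : ℤ) ≤ 1 := by exact_mod_cast hM.chi_le _
    linarith

private theorem hc_bwd [DecidableEq A] (hM : M.Good) (t : T) {x : FreeGroup A}
    (hx : hcX M x = 2) (h : ∀ z, x.toWord ≠ (M.sg t (M.a t), false) :: z) :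
    ∃ z, ((M.star t).symm x).toWord = (M.a t, true) :: z := by
  show ∃ z, (FreeGroup.of (M.a t) *
    FreeGroup.map (M.sg t).symm (x * (pw (M.g t))⁻¹)).toWord = (M.a t, true) :: z
  rcases hw : x.toWord with _ | ⟨l, z⟩
  · exfalso
    rw [FreeGroup.toWord_eq_nil_iff] at hw
    rw [hw, hcX_one] at hx
    norm_num at hx
  have h1 : ∃ z', (x * (pw (M.g t))⁻¹).toWord = l :: z' := by
    rcases hc_mul (v := (pw (M.g t))⁻¹) hw with ⟨z', hz'⟩ | ⟨z', hz'⟩
    · exact ⟨z', hz'⟩
    · exfalso
      rw [FreeGroup.toWord_inv, hc_pw_word] at hz'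
      have h2 := congrArg FreeGroup.invRev hz'
      rw [FreeGroup.invRev_invRev, FreeGroup.invRev_append, FreeGroup.invRev_invRev] at h2
      obtain ⟨l₁, l₂, h3, -, h5⟩ := hc_append_map _ _ _ _ h2
      have h6 : x = pw l₂ := by
        rw [hc_pw_mk, ← h5, FreeGroup.mk_toWord]
      have h7 : hcX M (pw (M.g t)) = hcX M (pw l₁) + hcX M (pw l₂) := by
        rw [← hcX_mul, h3]
        congr 1
        simp [pw]
      rw [← h6, hx, hcX_g hM] at h7
      have h8 : (M.chi (M.a t) : ℤ) ≤ 1 := by exact_mod_cast hM.chi_le _
      have h9 : 0 ≤ hcX M (pw l₁) := by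
        rw [hcX_pw]
        positivity
      linarith
  obtain ⟨z', hz'⟩ := h1
  have h2 : (FreeGroup.map (M.sg t).symm (x * (pw (M.g t))⁻¹)).toWord =
      ((M.sg t).symm l.1, l.2) :: z'.map fun q => ((M.sg t).symm q.1, q.2) := by
    rw [hc_map_word (M.sg t).symm.injective, hz', List.map_cons]
  refine ⟨_, hc_cons (q := (M.a t, true)) ?_⟩
  intro z'' hz''
  rw [h2] at hz''
  have h3 := (List.cons.inj hz'').1
  have h4 : l = (M.sg t (M.a t), false) := by
    obtain ⟨l1, l2⟩ := l
    simp only [Prod.mk.injEq, Bool.not_true] at h3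
    rw [Equiv.symm_apply_eq] at h3
    rw [h3.1, h3.2]
  rw [h4] at hw
  exact h z hw

/-- the first letter produced by the step `q` -/
private def hcL (M : Mach A T) (q : T × Bool) : A × Bool :=
  if q.2 then (M.sg q.1 (M.a q.1), false) else (M.a q.1, true)

private theorem hc_chain [DecidableEq A] (hM : M.Good) (τ : List (T × Bool)) :
    ∀ (q₀ : T × Bool) (x : FreeGroup A), FreeGroup.IsReduced (q₀ :: τ) → hcX M x = 2 →
      (∃ z, x.toWord = hcL M q₀ :: z) → ∃ q z, (M.run x τ).toWord = hcL M q :: z := by
  induction τ with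
  | nil =>
    intro q₀ x _ _ h
    exact ⟨q₀, h⟩
  | cons q τ ih =>
    rintro q₀ x hτ hx ⟨z, hz⟩
    rw [FreeGroup.isReduced_cons_cons] at hτ
    obtain ⟨t, b⟩ := q
    obtain ⟨t₀, b₀⟩ := q₀
    rw [hc_run_cons]
    cases b with
    | true =>
      refine ih (t, true) _ hτ.2 ?_ ?_
      · simpa using (hcX_star hM t x).trans hx
      · have h1 := hc_fwd hM t hx (by
          intro z' hz'
          rw [hz'] at hz
          have h2 := (List.cons.inj hz).1
          cases b₀ with
          | true => simp [hcL] at h2
          | false =>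
            simp only [hcL, Bool.false_eq_true, if_false, Prod.mk.injEq, and_true] at h2
            have h3 := hM.inj_a h2
            have h4 := hτ.1 h3.symm
            simp at h4)
        simpa [hcL] using h1
    | false =>
      refine ih (t, false) _ hτ.2 ?_ ?_
      · simpa using (hcX_star_symm hM t x).trans hx
      · have h1 := hc_bwd hM t hx (by
          intro z' hz'
          rw [hz'] at hz
          have h2 := (List.cons.inj hz).1
          cases b₀ with
          | false => simp [hcL] at h2
          | true =>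
            simp only [hcL, if_true, Prod.mk.injEq, and_true] at h2
            have h3 := hM.inj_a' h2
            have h4 := hτ.1 h3.symm
            simp at h4)
        simpa [hcL] using h1

/-- an illegal first step is impossible -/
private theorem hc_illegal [DecidableEq A] (hM : M.Good) (q : T × Bool) (τ : List (T × Bool))
    (x : FreeGroup A) (hτ : FreeGroup.IsReduced (q :: τ)) (hx : hcX M x = 2)
    (h1 : ∃ z, x.toWord = hcL M q :: z) (h : M.run x τ = pw [M.r1, M.r2]) : False := by
  obtain ⟨q', z, hz⟩ := hc_chain hM τ q x hτ hx h1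
  rw [h, hc_pw_word] at hz
  have h2 := (List.cons.inj hz).1
  obtain ⟨t, b⟩ := q'
  cases b with
  | true => simp [hcL] at h2
  | false =>
    simp only [hcL, Bool.false_eq_true, if_false, Prod.mk.injEq, and_true] at h2
    exact hM.r1_not t h2.symm

/-- Combinatorial lemma: a reduced word of instructions and inverse instructions leading from a
tape of charge 2 to the halting tape is a legal computation. -/
theorem comb_lemma (hM : M.Good) (w : List A) (hw : (w.map M.chi).sum = 2)
    (τ : List (T × Bool)) (hτ : FreeGroup.IsReduced τ)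
    (h : M.run (pw w) τ = pw [M.r1, M.r2]) :
    M.Reach w [M.r1, M.r2] ∧ (w = [M.r1, M.r2] → τ = []) := by
  classical
  induction τ generalizing w with
  | nil =>
    have h1 : w = [M.r1, M.r2] := hc_pw_inj h
    subst h1
    exact ⟨Relation.ReflTransGen.refl, fun _ => rfl⟩
  | cons q τ ih =>
    obtain ⟨t, b⟩ := q
    have hX : hcX M (pw w) = 2 := by
      rw [hcX_pw, hw]
      rfl
    have hτ' : FreeGroup.IsReduced τ := List.IsChain.suffix hτ ⟨[(t, b)], rfl⟩
    rw [hc_run_cons] at h
    cases b with
    | false =>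
      exfalso
      simp only [Bool.false_eq_true, if_false] at h
      refine hc_illegal hM (t, false) τ _ hτ ((hcX_star_symm hM t _).trans hX) ?_ h
      have h1 := hc_bwd hM t hX (by
        intro z hz
        rw [hc_pw_word] at hz
        rcases w with _ | ⟨y, w⟩
        · simp at hz
        · rw [List.map_cons] at hz
          have := (List.cons.inj hz).1
          simp at this)
      simpa [hcL] using h1
    | true =>
      simp only [if_true] at h
      by_cases hleg : ∃ z, w = M.a t :: z
      · obtain ⟨z, rfl⟩ := hleg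
        have h1 : M.star t (pw (M.a t :: z)) = pw (z.map (M.sg t) ++ M.g t) := by
          show FreeGroup.map (M.sg t) ((FreeGroup.of (M.a t))⁻¹ * pw (M.a t :: z)) *
            pw (M.g t) = _
          have h2 : pw (M.a t :: z) = FreeGroup.of (M.a t) * pw z := by simp [pw]
          rw [h2, inv_mul_cancel_left]
          have h3 : FreeGroup.map (M.sg t) (pw z) = pw (z.map (M.sg t)) := by
            simp [pw, map_list_prod, List.map_map, Function.comp_def]
          rw [h3]
          simp [pw]
        rw [h1] at h
        have h4 : ((z.map (M.sg t) ++ M.g t).map M.chi).sum = 2 := by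
          rw [List.map_append, List.sum_append, hM.chi_g, List.map_map]
          have h5 : M.chi ∘ M.sg t = M.chi := by
            funext y
            exact hM.chi_sg t y
          rw [h5]
          rw [List.map_cons, List.sum_cons] at hw
          omega
        have h6 := ih _ h4 hτ' h
        refine ⟨Relation.ReflTransGen.head ⟨t, z, rfl, rfl⟩ h6.1, ?_⟩
        intro h7
        exact absurd (List.cons.inj h7).1 (hM.r1_not t)
      · exfalso
        refine hc_illegal hM (t, true) τ _ hτ ((hcX_star hM t _).trans hX) ?_ h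
        have h1 := hc_fwd hM t hX (by
          intro z hz
          rw [hc_pw_word] at hz
          rcases w with _ | ⟨y, w⟩
          · simp at hz
          · rw [List.map_cons] at hz
            have h2 := (List.cons.inj hz).1
            simp only [Prod.mk.injEq, and_true] at h2
            exact hleg ⟨w, by rw [h2]⟩)
        simpa [hcL] using h1

end Pool.Agent.Helper74.MH
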