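import Pool.Agent.Helper74.MH.Ha
import Pool.Agent.Helper74.MH.Hc

/-! Module Hd (MP_f028d2_al): membership gives a computation. -/

set_option autoImplicit false

namespace Pool.Agent.Helper74.MH

variable {A T : Type} {p : ℕ} {M : Mach A T} {Z : Noise A T p} {L : ℕ}

namespace HdAux

open Classical

/-- The orbit of the halting tape. -/
private def Orb (M : Mach A T) (x : FreeGroup A) : Prop := ∃ τ, M.run (pw [M.r1, M.r2]) τ = x

private theorem orb_star (t : T) (x : FreeGroup A) : Orb M (M.star t x) ↔ Orb M x := by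
  constructor
  · rintro ⟨τ, h⟩
    refine ⟨τ ++ [(t, false)], ?_⟩
    rw [Mach.run_append, h]
    simp [Mach.run]
  · rintro ⟨τ, h⟩
    refine ⟨τ ++ [(t, true)], ?_⟩
    rw [Mach.run_append, h]
    simp [Mach.run]

/-- The space. -/
private abbrev Om (A : Type) := FreeGroup A × ℤ × Bool

/-- The action of a tape letter. -/
private def aA (y : A) : Equiv.Perm (Om A) where
  toFun ω := if ω.2.1 = 0 then (ω.1 * FreeGroup.of y, ω.2) else ω
  invFun ω := if ω.2.1 = 0 then (ω.1 * (FreeGroup.of y)⁻¹, ω.2) else ω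
  left_inv ω := by
    by_cases h : ω.2.1 = 0 <;> simp [h]
  right_inv ω := by
    by_cases h : ω.2.1 = 0 <;> simp [h]

/-- The action of `e`. -/
private def aE (A : Type) : Equiv.Perm (Om A) where
  toFun ω := (ω.1, ω.2.1 + 1, ω.2.2)
  invFun ω := (ω.1, ω.2.1 - 1, ω.2.2)
  left_inv ω := by simp
  right_inv ω := by simp

/-- The action of a noise letter. -/
private noncomputable def aN (M : Mach A T) : Equiv.Perm (Om A) where
  toFun ω := if ω.2.1 = 1 ∧ ¬ Orb M ω.1 then (ω.1, ω.2.1, !ω.2.2) else ω
  invFun ω := if ω.2.1 = 1 ∧ ¬ Orb M ω.1 then (ω.1, ω.2.1, !ω.2.2) else ω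
  left_inv := by
    rintro ⟨x, i, s⟩
    by_cases h : i = 1 <;> by_cases h' : Orb M x <;> simp [h, h']
  right_inv := by
    rintro ⟨x, i, s⟩
    by_cases h : i = 1 <;> by_cases h' : Orb M x <;> simp [h, h']

/-- The action of the generators of the base group. -/
private noncomputable def al (M : Mach A T) : XX A p → Equiv.Perm (Om A)
  | Sum.inl y => aA y
  | Sum.inr (Sum.inl _) => aE A
  | Sum.inr (Sum.inr _) => aN M

/-- The substitution part of an instruction. -/
private def sub (M : Mach A T) (t : T) : Equiv.Perm (FreeGroup A) where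
  toFun x := FreeGroup.map (M.sg t) ((FreeGroup.of (M.a t))⁻¹ * x)
  invFun x := FreeGroup.of (M.a t) * FreeGroup.map (M.sg t).symm x
  left_inv x := by
    have h : ∀ y, FreeGroup.map (M.sg t).symm (FreeGroup.map (M.sg t) y) = y := fun y => by
      rw [FreeGroup.map.comp]; simp
    simp only [h, mul_inv_cancel_left]
  right_inv x := by
    have h : ∀ y, FreeGroup.map (M.sg t) (FreeGroup.map (M.sg t).symm y) = y := fun y => by
      rw [FreeGroup.map.comp]; simp
    simp only [inv_mul_cancel_left, h]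

/-- The action of the stable letters. -/
private noncomputable def ta (M : Mach A T) (t : T) : Equiv.Perm (Om A) where
  toFun ω := if ω.2.1 ≤ 0 then (sub M t ω.1, ω.2) else
    (M.star t ω.1, ω.2.1, if Odd (M.g t).length ∧ ¬ Orb M (M.star t ω.1) then !ω.2.2 else ω.2.2)
  invFun ω := if ω.2.1 ≤ 0 then ((sub M t).symm ω.1, ω.2) else
    ((M.star t).symm ω.1, ω.2.1, if Odd (M.g t).length ∧ ¬ Orb M ω.1 then !ω.2.2 else ω.2.2)
  left_inv ω := by
    by_cases h : ω.2.1 ≤ 0
    · simp [h]
    · by_cases h1 : Odd (M.g t).length ∧ ¬ Orb M (M.star t ω.1) <;> simp [h, h1]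
  right_inv ω := by
    by_cases h : ω.2.1 ≤ 0
    · simp [h]
    · by_cases h1 : Odd (M.g t).length ∧ ¬ Orb M ω.1 <;> simp [h, h1]

private theorem fold_noise (l : List (ZMod p)) (x : FreeGroup A) (i : ℤ) (s : Bool) :
    (l.map (fun n => (Sum.inr (Sum.inr n) : XX A p))).foldl (fun ω y => al M y ω) (x, i, s) =
      (x, i, if (i = 1 ∧ ¬ Orb M x) ∧ Odd l.length then !s else s) := by
  induction l generalizing s with
  | nil => simp
  | cons n l ih =>
    rw [List.map_cons, List.foldl_cons]
    have h : al M (Sum.inr (Sum.inr n) : XX A p) (x, i, s) =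
        (x, i, if i = 1 ∧ ¬ Orb M x then !s else s) := by
      simp only [al, aN, Equiv.coe_fn_mk]
      by_cases h : i = 1 ∧ ¬ Orb M x <;> simp [h]
    rw [h, ih, List.length_cons]
    by_cases h1 : i = 1 ∧ ¬ Orb M x <;> by_cases h2 : Odd l.length <;>
      simp [h1, h2, Nat.odd_add_one]

private theorem fold_tape (l : List A) (x : FreeGroup A) (i : ℤ) (s : Bool) :
    (l.map (fun y => (Sum.inl y : XX A p))).foldl (fun ω y => al M y ω) (x, i, s) =
      (if i = 0 then x * pw l else x, i, s) := by
  induction l generalizing x with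
  | nil => simp [pw]
  | cons y l ih =>
    rw [List.map_cons, List.foldl_cons]
    have h : al M (Sum.inl y : XX A p) (x, i, s) =
        (if i = 0 then x * FreeGroup.of y else x, i, s) := by
      simp only [al, aA, Equiv.coe_fn_mk]
      by_cases h : i = 0 <;> simp [h]
    rw [h, ih]
    by_cases h1 : i = 0 <;> simp [h1, pw, mul_assoc]

private theorem length_V (t : T) (x : XX A p) (i₀ : ℕ) : (Z.V L t x i₀).length = L - i₀ := by
  simp [Noise.V]

private theorem ta_apply (t : T) (x : FreeGroup A) (i : ℤ) (s : Bool) :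
    ta M t (x, i, s) = if i ≤ 0 then (sub M t x, i, s) else
      (M.star t x, i, if Odd (M.g t).length ∧ ¬ Orb M x then !s else s) := by
  simp only [ta, Equiv.coe_fn_mk, orb_star]

private theorem star_eq (t : T) (x : FreeGroup A) : M.star t x = sub M t x * pw (M.g t) := rfl

private theorem rel (hL : Odd L) (hP : ∀ t, (M.g t).length + 1 ≤ L) (t : T) (x : XX A p)
    (ω : Om A) :
    ta M t (al M x ω) = (WW M Z L t x).foldl (fun ω y => al M y ω) (ta M t ω) := by
  obtain ⟨x', i, s⟩ := ω
  rcases x with y | _ | n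
  · -- tape letter
    have hlen : ¬ Odd (nV M Z L t (Sum.inl y)).length := by
      rw [show nV M Z L t (Sum.inl y) = Z.V L t (Sum.inl y) 1 from rfl, length_V]
      obtain ⟨k, hk⟩ := hL
      rw [hk]
      simp
    have hW : WW M Z L t (Sum.inl y) = [Sum.inl (M.sg t y)].map id ++
        (nV M Z L t (Sum.inl y)).map (fun n => Sum.inr (Sum.inr n)) := rfl
    rw [hW, List.foldl_append, List.map_id]
    have h1 : al M (Sum.inl y : XX A p) (x', i, s) =
        (if i = 0 then x' * FreeGroup.of y else x', i, s) := by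
      simp only [al, aA, Equiv.coe_fn_mk]
      by_cases h : i = 0 <;> simp [h]
    rw [h1, ta_apply, ta_apply]
    have h2 : ∀ (x'' : FreeGroup A) (s' : Bool),
        ([Sum.inl (M.sg t y)] : List (XX A p)).foldl (fun ω y => al M y ω) (x'', i, s') =
        (if i = 0 then x'' * FreeGroup.of (M.sg t y) else x'', i, s') := by
      intro x'' s'
      simp only [List.foldl_cons, List.foldl_nil, al, aA, Equiv.coe_fn_mk]
      by_cases h : i = 0 <;> simp [h]
    by_cases hi : i ≤ 0
    · rw [if_pos hi, if_pos hi, h2, fold_noise]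
      by_cases hi0 : i = 0
      · simp [hi0, sub, mul_assoc]
      · simp [hi0, hlen]
    · rw [if_neg hi, if_neg hi, h2, fold_noise]
      have hi0 : i ≠ 0 := by rintro rfl; exact hi le_rfl
      simp [hi0, hlen]
  · -- the letter e
    have hW : WW M Z L t (Sum.inr (Sum.inl ())) = ((M.g t).map (fun y => Sum.inl y) ++
        [Sum.inr (Sum.inl ())]) ++
        (nV M Z L t (Sum.inr (Sum.inl ()))).map (fun n => Sum.inr (Sum.inr n)) := rfl
    have hlen : Odd (nV M Z L t (Sum.inr (Sum.inl ()))).length ↔ Odd (M.g t).length := by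
      rw [show nV M Z L t (Sum.inr (Sum.inl ())) =
        Z.V L t (Sum.inr (Sum.inl ())) ((M.g t).length + 1) from rfl, length_V]
      have := hP t
      obtain ⟨k, hk⟩ := hL
      rw [Nat.odd_iff, Nat.odd_iff]
      omega
    rw [hW, List.foldl_append, List.foldl_append]
    have h1 : ∀ (x' : FreeGroup A) s, al M (Sum.inr (Sum.inl ()) : XX A p) (x', i, s) =
      (x', i + 1, s) := fun _ _ => rfl
    rw [h1, ta_apply, ta_apply]
    by_cases hi : i + 1 ≤ 0
    · have hi' : i ≤ 0 := by omega
      have hi0 : i ≠ 0 := by omega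
      have hi1 : i + 1 ≠ 1 := by omega
      rw [if_pos hi, if_pos hi', fold_tape, if_neg hi0, List.foldl_cons, List.foldl_nil, h1,
        fold_noise, if_neg (fun h => hi1 h.1.1)]
    · by_cases hi' : i ≤ 0
      · have hi0 : i = 0 := by omega
        subst hi0
        rw [if_neg hi, if_pos le_rfl, fold_tape, if_pos rfl, List.foldl_cons, List.foldl_nil, h1,
          fold_noise, ← star_eq]
        simp only [orb_star, hlen, zero_add, true_and, and_comm]
      · have hi0 : i ≠ 0 := by omega
        have hi1 : i + 1 ≠ 1 := by omega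
        rw [if_neg hi, if_neg hi', fold_tape, if_neg hi0, List.foldl_cons, List.foldl_nil, h1,
          fold_noise, if_neg (c := (i + 1 = 1 ∧ _) ∧ _) (fun h => hi1 h.1.1)]
  · -- noise letter
    have hW : WW M Z L t (Sum.inr (Sum.inr n)) =
        (nV M Z L t (Sum.inr (Sum.inr n))).map (fun n => Sum.inr (Sum.inr n)) := rfl
    have hlen : Odd (nV M Z L t (Sum.inr (Sum.inr n))).length := by
      rw [show nV M Z L t (Sum.inr (Sum.inr n)) = Z.V L t (Sum.inr (Sum.inr n)) 0 from rfl,
        length_V]
      exact hL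
    have h1 : al M (Sum.inr (Sum.inr n) : XX A p) (x', i, s) =
        (x', i, if i = 1 ∧ ¬ Orb M x' then !s else s) := by
      simp only [al, aN, Equiv.coe_fn_mk]
      by_cases h : i = 1 ∧ ¬ Orb M x' <;> simp [h]
    rw [hW, h1, ta_apply, ta_apply]
    by_cases hi : i ≤ 0
    · have hi1 : i ≠ 1 := by omega
      rw [if_pos hi, if_pos hi, fold_noise, if_neg (fun h => hi1 h.1),
        if_neg (fun h => hi1 h.1.1)]
    · rw [if_neg hi, if_neg hi, fold_noise, orb_star]
      by_cases h2 : i = 1 <;> by_cases h3 : Odd (M.g t).length <;> by_cases h5 : Orb M x' <;>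
        simp [h2, h3, h5, hlen]

end HdAux

open Classical HdAux in
theorem orbit_of_test_mem (hL : Odd L) (hP : ∀ t, (M.g t).length + 1 ≤ L) (w : List A)
    (h : testEl M Z L w ∈ (hPhi M Z L).range) :
    ∃ τ, M.run (pw [M.r1, M.r2]) τ = pw w := by
  obtain ⟨ra, h1, h2, h3, h4⟩ := exists_ra (WW M Z L) (al M) (ta M) (rel hL hP)
  have hinv : ∀ ω g, ra (ra ω g) g⁻¹ = ω := fun ω g => by rw [← h2, mul_inv_cancel, h1]
  have hinv' : ∀ ω g, ra (ra ω g⁻¹) g = ω := fun ω g => by rw [← h2, inv_mul_cancel, h1]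
  have hfa : ∀ x s y, ra (x, 0, s) (iX _ (fa y)) = (x * FreeGroup.of y, 0, s) := by
    intro x s y
    rw [fa, h3]
    simp [al, aA]
  have hfe : ∀ x i s, ra (x, i, s) (iX _ fe) = (x, i + 1, s) := by
    intro x i s
    rw [fe, h3]
    rfl
  have hfn : ∀ n x i s, ra (x, i, s) (iX _ (fn n)) =
      if i = 1 ∧ ¬ Orb M x then (x, i, !s) else (x, i, s) := by
    intro n x i s
    rw [fn, h3]
    rfl
  have hprod : ∀ (l : List A) x s, ra (x, 0, s) (iX _ ((l.map fa).prod)) = (x * pw l, 0, s) := by
    intro l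
    induction l with
    | nil => intro x s; rw [List.map_nil, List.prod_nil, map_one, h1]; simp [pw]
    | cons y l ih =>
      intro x s
      rw [List.map_cons, List.prod_cons, map_mul, h2, hfa, ih]
      simp [pw, mul_assoc]
  have hconj : ∀ ω g n, ra (ra ω g) n = ra ω g → ra ω (g * n * g⁻¹) = ω := by
    intro ω g n h
    rw [h2, h2, h, hinv]
  let o : Om A := (1, 0, false)
  let S : Subgroup (GG M Z L) :=
    { carrier := {g | ra o g = o}
      mul_mem' := fun {g k} hg hk => by
        change ra o (g * k) = o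
        rw [h2, show ra o g = o from hg]
        exact hk
      one_mem' := h1 o
      inv_mem' := fun {g} hg => by
        change ra o g⁻¹ = o
        have h5 := hinv o g
        rwa [show ra o g = o from hg] at h5 }
  have hS : (hPhi M Z L).range ≤ S := by
    refine FreeGroup.range_lift_le ?_
    rintro _ ⟨t | ⟨i, n⟩, rfl⟩
    · change ra o (iX _ (fa (M.a t)) * tt _ t) = o
      rw [h2, show o = ((1 : FreeGroup A), (0 : ℤ), false) from rfl, hfa, h4, ta_apply,
        if_pos le_rfl]
      simp [sub]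
    · change ra o (iX _ (cc p M i * fn n * (cc p M i)⁻¹)) = o
      rw [map_mul, map_mul, map_inv]
      apply hconj
      have ho : o = ((1 : FreeGroup A), (0 : ℤ), false) := rfl
      fin_cases i
      · change ra (ra o (iX _ 1)) _ = ra o (iX _ 1)
        rw [map_one, h1, ho, hfn, if_neg (by simp)]
      · change ra (ra o (iX _ (fa M.r1))) _ = ra o (iX _ (fa M.r1))
        rw [ho, hfa, hfn, if_neg (by simp)]
      · change ra (ra o (iX _ (fa M.r1 * fa M.r2))) _ = ra o (iX _ (fa M.r1 * fa M.r2))
        rw [map_mul, h2, ho, hfa, hfa, hfn, if_neg (by simp)]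
      · change ra (ra o (iX _ (fa M.r1 * fa M.r2 * fe))) _ =
          ra o (iX _ (fa M.r1 * fa M.r2 * fe))
        rw [map_mul, map_mul, h2, h2, ho, hfa, hfa, hfe, hfn, if_neg]
        rintro ⟨_, h5⟩
        exact h5 ⟨[], by simp [Mach.run, pw]⟩
  have h5 : ra o (testEl M Z L w) = o := hS h
  have h6 : testEl M Z L w = iX _ ((w.map fa).prod * fe) * iX _ (fn 0) *
      (iX _ ((w.map fa).prod * fe))⁻¹ := by
    simp only [testEl, map_mul, map_inv]
    group
  rw [h6, h2, h2] at h5
  have h7 : ra (ra o (iX _ ((w.map fa).prod * fe))) (iX _ (fn 0)) =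
      ra o (iX _ ((w.map fa).prod * fe)) := by
    have := congrArg (fun ω => ra ω (iX _ ((w.map fa).prod * fe))) h5
    simpa only [hinv'] using this
  have h8 : ra o (iX _ ((w.map fa).prod * fe)) = (pw w, 1, false) := by
    rw [map_mul, h2, show o = ((1 : FreeGroup A), (0 : ℤ), false) from rfl, hprod, hfe, one_mul]
    rfl
  rw [h8, hfn] at h7
  by_contra hcon
  rw [if_pos ⟨rfl, hcon⟩] at h7
  simp at h7

end Pool.Agent.Helper74.MH
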