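import Pool.Agent.Helper74.MH.Hb
import Pool.Agent.Helper74.MH.Hd

/-! Module He (MP_f028d2_al): membership is equivalent to halting. -/

set_option autoImplicit false

namespace Pool.Agent.Helper74.MH

variable {A T : Type} {p : ℕ} {M : Mach A T} {Z : Noise A T p} {L : ℕ}

theorem test_mem_iff (hM : M.Good) (hL : Odd L) (hP : ∀ t, (M.g t).length + 1 ≤ L)
    (w : List A) (hw : (w.map M.chi).sum = 2) :
    testEl M Z L w ∈ (hPhi M Z L).range ↔ M.Reach w [M.r1, M.r2] := by
  classical
  refine ⟨fun h => ?_, fun h => test_mem_of_reach w h⟩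
  obtain ⟨τ, hτ⟩ := orbit_of_test_mem hL hP w h
  have h2 : M.run (pw w) (FreeGroup.reduce (FreeGroup.invRev τ)) = pw [M.r1, M.r2] := by
    rw [Mach.run_reduce, ← hτ, Mach.run_invRev]
  exact (comb_lemma hM w hw _ (FreeGroup.IsReduced.of_reduce_eq FreeGroup.reduce.idem) h2).1

end Pool.Agent.Helper74.MH
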