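import Mathlib

/-! Module Ka (MP_f028d2_al): a free subgroup of an HNN extension. -/

set_option autoImplicit false

namespace Pool.Agent.Helper74.MH

open HNNExtension HNNExtension.NormalWord

universe uA uB uG

/-- The two index types in a common universe. -/
private def XT (α : Type uA) (β : Type uB) : Bool → Type (max uA uB)
  | true => ULift.{uB} α
  | false => ULift.{uA} β

section

variable {G₁ : Type uG} [Group G₁] (C D : Subgroup G₁) (φ : C ≃* D) {α : Type uA} {β : Type uB}
  (b : FreeGroup α →* G₁) (c : FreeGroup β →* G₁) (v : G₁)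

private noncomputable def FF : ∀ i : Bool, FreeGroup (XT α β i) →* HNNExtension G₁ C D φ
  | true => (HNNExtension.of.comp b).comp
      (FreeGroup.map (fun a : ULift.{uB} α => a.down))
  | false => (MulAut.conj (HNNExtension.of v * HNNExtension.t⁻¹ :
      HNNExtension G₁ C D φ)).toMonoidHom.comp
      ((HNNExtension.of.comp c).comp (FreeGroup.map (fun a : ULift.{uA} β => a.down)))

private def XE (d : NormalWord.TransversalPair G₁ C D) : Set (HNNExtension G₁ C D φ) :=
  {k | (k • (empty : NormalWord d)).toList.head?.map Prod.fst = some (-1) ∧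
    v⁻¹ * (k • (empty : NormalWord d)).head ∈ C}

private def XS (d : NormalWord.TransversalPair G₁ C D) : Bool → Set (HNNExtension G₁ C D φ)
  | true => (XE C D φ v d)ᶜ
  | false => XE C D φ v d

private theorem map_down_inj_left : Function.Injective
    (FreeGroup.map (fun a : ULift.{uB} α => a.down)) := by
  have : Function.LeftInverse (FreeGroup.map (fun a : α => (ULift.up a : ULift.{uB} α)))
      (FreeGroup.map (fun a : ULift.{uB} α => a.down)) := by
    intro x
    rw [FreeGroup.map.comp]
    have : ((fun a : α => (ULift.up a : ULift.{uB} α)) ∘ fun a : ULift.{uB} α => a.down) = id := by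
      funext a; rfl
    rw [this]
    exact FreeGroup.map.id x
  exact this.injective

private theorem pp_left (d : NormalWord.TransversalPair G₁ C D)
    (h1 : ∀ x, v⁻¹ * b x * v ∈ C → x = 1) (x : FreeGroup (ULift.{uB} α)) (hx : x ≠ 1)
    (k : HNNExtension G₁ C D φ) (hk : k ∈ XE C D φ v d) :
    (FF C D φ b c v true x) * k ∉ XE C D φ v d := by
  rintro ⟨_, h3⟩
  obtain ⟨_, h4⟩ := hk
  apply hx
  apply map_down_inj_left
  rw [map_one]
  apply h1
  have e : ((FF C D φ b c v true x) * k) • (empty : NormalWord d) =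
      (b (FreeGroup.map (fun a : ULift.{uB} α => a.down) x)) • (k • (empty : NormalWord d)) := by
    rw [mul_smul]
    change (HNNExtension.of (b (FreeGroup.map (fun a : ULift.{uB} α => a.down) x)) :
      HNNExtension G₁ C D φ) • _ = _
    rw [of_smul_eq_smul]
  rw [e, group_smul_head] at h3
  have := C.mul_mem h3 (C.inv_mem h4)
  convert! this using 1
  group

private theorem pp_right (d : NormalWord.TransversalPair G₁ C D)
    (h2 : ∀ x, c x ∈ D → x = 1) (x : FreeGroup (ULift.{uA} β)) (hx : x ≠ 1)
    (k : HNNExtension G₁ C D φ) (hk : k ∉ XE C D φ v d) :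
    (FF C D φ b c v false x) * k ∈ XE C D φ v d := by
  set y := FreeGroup.map (fun a : ULift.{uA} β => a.down) x with hy
  have hy1 : c y ∉ D := by
    intro h
    apply hx
    apply map_down_inj_left
    rw [map_one]
    exact h2 _ h
  set w := k • (empty : NormalWord d) with hw
  have e : ((FF C D φ b c v false x) * k) • (empty : NormalWord d) =
      v • (unitsSMul φ (-1) ((c y) • (unitsSMul φ 1 (v⁻¹ • w)))) := by
    rw [mul_smul, ← hw]
    change ((HNNExtension.of v * HNNExtension.t⁻¹) * HNNExtension.of (c y) *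
      (HNNExtension.of v * HNNExtension.t⁻¹)⁻¹ : HNNExtension G₁ C D φ) • w = _
    rw [← of_smul_eq_smul (φ := φ) v, ← t_pow_smul_eq_unitsSMul, ← of_smul_eq_smul (φ := φ) (c y),
      ← t_pow_smul_eq_unitsSMul, ← of_smul_eq_smul (φ := φ) v⁻¹]
    simp only [← mul_smul]
    congr 1
  have hc1 : ¬ Cancels 1 (v⁻¹ • w) := by
    rintro ⟨h3, h4⟩
    exact hk ⟨h4, h3⟩
  have hc2 : Cancels (-1) (unitsSMul φ 1 (v⁻¹ • w)) := (unitsSMul_cancels_iff φ 1 _).2 hc1
  have hc3 : ¬ Cancels (-1) ((c y) • (unitsSMul φ 1 (v⁻¹ • w))) := by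
    rintro ⟨h3, _⟩
    apply hy1
    have h4 := hc2.1
    rw [group_smul_head] at h3
    exact (D.mul_mem_cancel_right h4).1 h3
  have hc4 : Cancels (-(-1)) (unitsSMul φ (-1) ((c y) • (unitsSMul φ 1 (v⁻¹ • w)))) :=
    (unitsSMul_cancels_iff φ (-1) _).2 hc3
  rw [neg_neg] at hc4
  constructor
  · rw [e, group_smul_toList]
    exact hc4.2
  · rw [e, group_smul_head, inv_mul_cancel_left]
    exact hc4.1

private theorem FF_inj [Nonempty α] [Nonempty β]
    (h1 : ∀ x, v⁻¹ * b x * v ∈ C → x = 1) (h2 : ∀ x, c x ∈ D → x = 1) :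
    Function.Injective (Monoid.CoprodI.lift (FF C D φ b c v)) := by
  obtain ⟨d⟩ := TransversalPair.nonempty G₁ C D
  refine Monoid.CoprodI.lift_injective_of_ping_pong (FF C D φ b c v) ?_ (XS C D φ v d) ?_ ?_ ?_
  · right
    refine ⟨true, ?_⟩
    obtain ⟨a⟩ := (inferInstance : Nonempty α)
    have : Nonempty (XT α β true) := ⟨(ULift.up a : ULift.{uB} α)⟩
    have : Infinite (FreeGroup (XT α β true)) := inferInstance
    calc (3 : Cardinal) ≤ Cardinal.aleph0 := (Cardinal.natCast_lt_aleph0 (n := 3)).le
      _ ≤ _ := Cardinal.aleph0_le_mk _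
  · rintro (_ | _)
    · refine ⟨HNNExtension.of v * HNNExtension.t⁻¹, ?_⟩
      have hc : ¬ Cancels (-1) (empty : NormalWord d) := by
        rintro ⟨_, h⟩
        simp at h
      have hc2 : Cancels (-(-1)) (unitsSMul φ (-1) (empty : NormalWord d)) :=
        (unitsSMul_cancels_iff φ (-1) _).2 hc
      rw [neg_neg] at hc2
      have e : (HNNExtension.of v * HNNExtension.t⁻¹ : HNNExtension G₁ C D φ) •
          (empty : NormalWord d) = v • (unitsSMul φ (-1) (empty : NormalWord d)) := by
        rw [← of_smul_eq_smul (φ := φ) v, ← t_pow_smul_eq_unitsSMul, ← mul_smul]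
        simp
      change _ ∈ XE C D φ v d
      constructor
      · rw [e, group_smul_toList]
        exact hc2.2
      · rw [e, group_smul_head, inv_mul_cancel_left]
        exact hc2.1
    · refine ⟨1, ?_⟩
      change _ ∉ XE C D φ v d
      rintro ⟨h, _⟩
      rw [one_smul] at h
      simp at h
  · rintro (_ | _) (_ | _) hij
    · exact absurd rfl hij
    · exact Set.disjoint_compl_right_iff_subset.2 (le_refl _)
    · exact Set.disjoint_compl_left_iff_subset.2 (le_refl _)
    · exact absurd rfl hij
  · rintro (_ | _) (_ | _) hij h hh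
    · exact absurd rfl hij
    · rintro _ ⟨k, hk, rfl⟩
      exact pp_right C D φ b c v d h2 h hh k hk
    · rintro _ ⟨k, hk, rfl⟩
      exact pp_left C D φ b c v d h1 h hh k hk
    · exact absurd rfl hij

end

theorem hnn_free {G₁ : Type*} [Group G₁] (C D : Subgroup G₁) (φ : C ≃* D) {α β : Type*}
    [Nonempty α] [Nonempty β]
    (b : FreeGroup α →* G₁) (c : FreeGroup β →* G₁) (v : G₁) (hb : Function.Injective b)
    (hc : Function.Injective c) (h1 : ∀ x, v⁻¹ * b x * v ∈ C → x = 1)
    (h2 : ∀ x, c x ∈ D → x = 1) :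
    Function.Injective (FreeGroup.lift (Sum.elim
      (fun i => (HNNExtension.of (b (FreeGroup.of i)) : HNNExtension G₁ C D φ))
      (fun j => HNNExtension.of v * HNNExtension.t⁻¹ * HNNExtension.of (c (FreeGroup.of j)) *
        HNNExtension.t * (HNNExtension.of v)⁻¹))) := by
  have key := FF_inj C D φ b c v h1 h2
  let g : FreeGroup (α ⊕ β) →* Monoid.CoprodI (fun i : Bool => FreeGroup (XT α β i)) :=
    FreeGroup.lift (Sum.elim
      (fun i => Monoid.CoprodI.of (i := true) (M := fun i : Bool => FreeGroup (XT α β i))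
        (FreeGroup.of (ULift.up i : XT α β true)))
      (fun j => Monoid.CoprodI.of (i := false) (M := fun i : Bool => FreeGroup (XT α β i))
        (FreeGroup.of (ULift.up j : XT α β false))))
  let r0 : ∀ i : Bool, FreeGroup (XT α β i) →* FreeGroup (α ⊕ β) := fun i =>
    match i with
    | true => FreeGroup.lift (fun a : ULift.{_} α => FreeGroup.of (Sum.inl a.down))
    | false => FreeGroup.lift (fun a : ULift.{_} β => FreeGroup.of (Sum.inr a.down))
  have hg : Function.Injective g := by
    have hl : (Monoid.CoprodI.lift r0).comp g = MonoidHom.id _ := by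
      ext i
      rcases i with i | i
      · simp only [g, MonoidHom.comp_apply, FreeGroup.lift_apply_of, Sum.elim_inl,
          Monoid.CoprodI.lift_of]
        exact FreeGroup.lift_apply_of
      · simp only [g, MonoidHom.comp_apply, FreeGroup.lift_apply_of, Sum.elim_inr,
          Monoid.CoprodI.lift_of]
        exact FreeGroup.lift_apply_of
    exact Function.LeftInverse.injective (fun x => DFunLike.congr_fun hl x)
  have hcomp : (FreeGroup.lift (Sum.elim
      (fun i => (HNNExtension.of (b (FreeGroup.of i)) : HNNExtension G₁ C D φ))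
      (fun j => HNNExtension.of v * HNNExtension.t⁻¹ * HNNExtension.of (c (FreeGroup.of j)) *
        HNNExtension.t * (HNNExtension.of v)⁻¹))) =
      (Monoid.CoprodI.lift (FF C D φ b c v)).comp g := by
    ext i
    rcases i with i | i
    · simp only [g, MonoidHom.comp_apply, FreeGroup.lift_apply_of, Sum.elim_inl,
        Monoid.CoprodI.lift_of]
      exact (rfl : HNNExtension.of (b (FreeGroup.of i)) =
        HNNExtension.of (b (FreeGroup.of i)))
    · simp only [g, MonoidHom.comp_apply, FreeGroup.lift_apply_of, Sum.elim_inr,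
        Monoid.CoprodI.lift_of]
      change _ = (HNNExtension.of v * HNNExtension.t⁻¹) *
        HNNExtension.of (c (FreeGroup.of i)) *
        (HNNExtension.of v * HNNExtension.t⁻¹)⁻¹
      simp [mul_assoc]
  rw [hcomp, MonoidHom.coe_comp]
  exact key.comp hg

end Pool.Agent.Helper74.MH
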