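import Pool.Agent.Helper74.MH.Defs3

/-! Module Kb (MP_f028d2_al): `G` maps to an HNN extension of `G1`. -/

set_option autoImplicit false

namespace Pool.Agent.Helper74.MH

variable {A T : Type} {p : ℕ} {M : Mach A T} {Z : Noise A T p} {L : ℕ}

/-- Retraction of `G1` onto the free group on `T`. -/
private theorem exists_retr' : ∃ r : G1 M Z L →* FreeGroup T, (∀ f, r (iX _ f) = 1) ∧
    ∀ t, r (tt _ t) = FreeGroup.of t := by
  obtain ⟨r, h1, h2⟩ := hg_lift (K := FreeGroup T) (W1 M Z L) (fun _ => 1) FreeGroup.of (by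
    intro t x
    simp)
  refine ⟨r, fun f => ?_, h2⟩
  rw [h1]
  have : FreeGroup.lift (fun _ : A ⊕ ZMod p => (1 : FreeGroup T)) = 1 := by
    ext x
    simp
  rw [this]
  rfl

theorem cC_injective : Function.Injective (cC M Z L) := by
  obtain ⟨r, h1, h2⟩ := exists_retr' (M := M) (Z := Z) (L := L)
  have h : r.comp (cC M Z L) = MonoidHom.id _ := by
    ext t
    simp [cC, h1, h2]
  intro x y hxy
  have h3 := congrArg r hxy
  have h4 := DFunLike.congr_fun h x
  have h5 := DFunLike.congr_fun h y
  simp only [MonoidHom.coe_comp, Function.comp_apply, MonoidHom.id_apply] at h4 h5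
  rw [← h4, ← h5, h3]

theorem cD_injective : Function.Injective (cD M Z L) := by
  obtain ⟨r, h1, h2⟩ := exists_retr' (M := M) (Z := Z) (L := L)
  have h : r.comp (cD M Z L) = MonoidHom.id _ := by
    ext t
    simp [cD, h1, h2]
  intro x y hxy
  have h3 := congrArg r hxy
  have h4 := DFunLike.congr_fun h x
  have h5 := DFunLike.congr_fun h y
  simp only [MonoidHom.coe_comp, Function.comp_apply, MonoidHom.id_apply] at h4 h5
  rw [← h4, ← h5, h3]

/-- Retraction of `G1` onto the free group on `T`. -/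
theorem exists_retr : ∃ r : G1 M Z L →* FreeGroup T, (∀ f, r (iX _ f) = 1) ∧
    ∀ t, r (tt _ t) = FreeGroup.of t := exists_retr'

private theorem prod_of {X G : Type*} [Group G] (f : FreeGroup X →* G) (l : List X) :
    (l.map (fun x => f (FreeGroup.of x))).prod = f (pw l) := by
  unfold pw
  rw [map_list_prod, List.map_map]
  rfl

theorem exists_level2 : ∃ (e : (cC M Z L).range ≃* (cD M Z L).range)
    (Ψ : GG M Z L →* HNNExtension (G1 M Z L) (cC M Z L).range (cD M Z L).range e),
    (∀ y, Ψ (iX _ (fa y)) = HNNExtension.of (iX _ (ga y))) ∧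
    (∀ n, Ψ (iX _ (fn n)) = HNNExtension.of (iX _ (gn n))) ∧
    Ψ (iX _ fe) = HNNExtension.t⁻¹ ∧
    ∀ t, Ψ (tt _ t) = HNNExtension.of (tt _ t) := by
  set e : (cC M Z L).range ≃* (cD M Z L).range :=
    (MonoidHom.ofInjective (cC_injective (M := M) (Z := Z) (L := L))).symm.trans
      (MonoidHom.ofInjective (cD_injective (M := M) (Z := Z) (L := L))) with he
  set K := HNNExtension (G1 M Z L) (cC M Z L).range (cD M Z L).range e with hK
  set j : G1 M Z L →* K := HNNExtension.of with hj
  set f : FreeGroup (A ⊕ ZMod p) →* K := j.comp (iX (W1 M Z L)) with hf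
  -- the relation of the stable letter
  have hrel : ∀ t, (j (tt _ t))⁻¹ * (HNNExtension.t : K)⁻¹ * j (tt _ t) =
      f (pw ((M.g t).map Sum.inl)) * (HNNExtension.t : K)⁻¹ *
        f (pw ((nV M Z L t (Sum.inr (Sum.inl ()))).map Sum.inr)) := by
    intro t
    have h1 := HNNExtension.t_mul_of (φ := e)
      (⟨cC M Z L (FreeGroup.of t), ⟨_, rfl⟩⟩ : (cC M Z L).range)
    have h2 : (e ⟨cC M Z L (FreeGroup.of t), ⟨_, rfl⟩⟩ : G1 M Z L) =
        cD M Z L (FreeGroup.of t) := by
      have h3 : (⟨cC M Z L (FreeGroup.of t), ⟨_, rfl⟩⟩ : (cC M Z L).range) =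
          MonoidHom.ofInjective (cC_injective (M := M) (Z := Z) (L := L)) (FreeGroup.of t) := by
        apply Subtype.ext
        exact (MonoidHom.ofInjective_apply _).symm
      rw [h3, he, MulEquiv.trans_apply, MulEquiv.symm_apply_apply]
      exact MonoidHom.ofInjective_apply _
    rw [h2] at h1
    have h4 : cC M Z L (FreeGroup.of t) = tt _ t * iX _ (pw ((M.g t).map Sum.inl)) := by
      simp [cC]
    have h5 : cD M Z L (FreeGroup.of t) = tt _ t *
        (iX _ (pw ((nV M Z L t (Sum.inr (Sum.inl ()))).map Sum.inr)))⁻¹ := by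
      simp [cD]
    simp only [h4, h5, map_mul, map_inv] at h1
    have h6 : ∀ a g v s : K, s * (a * g) = a * v⁻¹ * s → a⁻¹ * s⁻¹ * a = g * s⁻¹ * v := by
      intro a g v s h
      have h7 : g = a⁻¹ * s⁻¹ * (s * (a * g)) := by group
      rw [h7, h]
      group
    exact h6 _ _ _ _ h1
  obtain ⟨Ψ, h1, h2⟩ := hg_lift (K := K) (WW M Z L)
    (fun x => match x with
      | Sum.inl y => f (FreeGroup.of (Sum.inl y))
      | Sum.inr (Sum.inl _) => (HNNExtension.t : K)⁻¹
      | Sum.inr (Sum.inr n) => f (FreeGroup.of (Sum.inr n)))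
    (fun t => j (tt _ t)) (by
      intro t x
      rcases x with y | u | n
      · have h3 := congrArg j (hg_rel_gen (W1 M Z L) t (Sum.inl y))
        simp only [map_mul, map_inv] at h3
        show (j (tt _ t))⁻¹ * f (FreeGroup.of (Sum.inl y)) * j (tt _ t) = _
        refine h3.trans ?_
        show f (pw (W1 M Z L t (Sum.inl y))) = _
        rw [← prod_of]
        simp [WW, preW, W1, Function.comp_def]
      · show (j (tt _ t))⁻¹ * (HNNExtension.t : K)⁻¹ * j (tt _ t) = _
        rw [hrel t, ← prod_of, ← prod_of]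
        simp [WW, preW, Function.comp_def, mul_assoc]
      · have h3 := congrArg j (hg_rel_gen (W1 M Z L) t (Sum.inr n))
        simp only [map_mul, map_inv] at h3
        show (j (tt _ t))⁻¹ * f (FreeGroup.of (Sum.inr n)) * j (tt _ t) = _
        refine h3.trans ?_
        show f (pw (W1 M Z L t (Sum.inr n))) = _
        rw [← prod_of]
        simp [WW, preW, W1, Function.comp_def])
  refine ⟨e, Ψ, ?_, ?_, ?_, h2⟩
  · intro y
    rw [h1]
    simp only [fa, FreeGroup.lift_apply_of]
    rfl
  · intro n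
    rw [h1]
    simp only [fn, FreeGroup.lift_apply_of]
    rfl
  · rw [h1]
    simp only [fe, FreeGroup.lift_apply_of]

end Pool.Agent.Helper74.MH
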