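import Pool.Agent.Helper74.MH.Ha
import Pool.Agent.Helper74.MH.Hc
import Pool.Agent.Helper74.MH.Kb

/-! Module Kc (MP_f028d2_al): the associated subgroups meet `H` trivially. -/

set_option autoImplicit false

namespace Pool.Agent.Helper74.MH

variable {A T : Type} {p : ℕ} {M : Mach A T} {Z : Noise A T p} {L : ℕ}

/-- the action of a generator of the base group on the free group of the tape -/
private def kcAct (A : Type) (p : ℕ) : A ⊕ ZMod p → Equiv.Perm (FreeGroup A)
  | Sum.inl y => Equiv.mulRight (FreeGroup.of y)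
  | Sum.inr _ => Equiv.refl _

/-- the action of a stable letter on the free group of the tape -/
private def kcTau (M : Mach A T) (t : T) : Equiv.Perm (FreeGroup A) where
  toFun x := FreeGroup.map (M.sg t) ((FreeGroup.of (M.a t))⁻¹ * x)
  invFun x := FreeGroup.of (M.a t) * FreeGroup.map (M.sg t).symm x
  left_inv x := by
    have h : ∀ y, FreeGroup.map (M.sg t).symm (FreeGroup.map (M.sg t) y) = y := fun y => by
      rw [FreeGroup.map.comp]; simp
    simp only [h, mul_inv_cancel_left]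
  right_inv x := by
    have h : ∀ y, FreeGroup.map (M.sg t) (FreeGroup.map (M.sg t).symm y) = y := fun y => by
      rw [FreeGroup.map.comp]; simp
    simp only [h, inv_mul_cancel_left]

private theorem kc_foldl_noise (l : List (ZMod p)) (ω : FreeGroup A) :
    (l.map (Sum.inr : ZMod p → A ⊕ ZMod p)).foldl (fun ω y => kcAct A p y ω) ω = ω := by
  induction l generalizing ω with
  | nil => rfl
  | cons n l ih =>
    rw [List.map_cons, List.foldl_cons]
    exact ih _

private theorem kc_rel (t : T) (x : A ⊕ ZMod p) (ω : FreeGroup A) :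
    kcTau M t (kcAct A p x ω) =
      (W1 M Z L t x).foldl (fun ω y => kcAct A p y ω) (kcTau M t ω) := by
  rcases x with y | n
  · show kcTau M t (ω * FreeGroup.of y) =
      (Sum.inl (M.sg t y) :: (nV M Z L t (Sum.inl y)).map Sum.inr).foldl
        (fun ω y => kcAct A p y ω) (kcTau M t ω)
    rw [List.foldl_cons, kc_foldl_noise]
    show FreeGroup.map (M.sg t) ((FreeGroup.of (M.a t))⁻¹ * (ω * FreeGroup.of y)) =
      FreeGroup.map (M.sg t) ((FreeGroup.of (M.a t))⁻¹ * ω) * FreeGroup.of (M.sg t y)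
    rw [← mul_assoc, map_mul, FreeGroup.map.of]
  · show kcTau M t ω = ((nV M Z L t (Sum.inr (Sum.inr n))).map Sum.inr).foldl
        (fun ω y => kcAct A p y ω) (kcTau M t ω)
    rw [kc_foldl_noise]

/-- the right action of `G1` on the free group of the tape -/
private theorem kc_exists_ra : ∃ ra : FreeGroup A → G1 M Z L → FreeGroup A,
    (∀ ω, ra ω 1 = ω) ∧ (∀ ω g k, ra ω (g * k) = ra (ra ω g) k) ∧
      (∀ ω y, ra ω (iX _ (ga y)) = ω * FreeGroup.of y) ∧
      (∀ ω n, ra ω (iX _ (gn n)) = ω) ∧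
      (∀ ω t, ra ω (tt _ t) = kcTau M t ω) := by
  obtain ⟨ra, h1, h2, h3, h4⟩ := exists_ra (W1 M Z L) (kcAct A p) (kcTau M) kc_rel
  refine ⟨ra, h1, h2, fun ω y => ?_, fun ω n => ?_, h4⟩
  · exact h3 ω (Sum.inl y)
  · exact h3 ω (Sum.inr n)

private theorem kc_pw (ra : FreeGroup A → G1 M Z L → FreeGroup A) (h1 : ∀ ω, ra ω 1 = ω)
    (h2 : ∀ ω g k, ra ω (g * k) = ra (ra ω g) k)
    (h3 : ∀ ω y, ra ω (iX _ (ga y)) = ω * FreeGroup.of y) (l : List A) (ω : FreeGroup A) :
    ra ω (iX (W1 M Z L) (pw (l.map Sum.inl))) = ω * pw l := by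
  induction l generalizing ω with
  | nil => simp [pw, h1]
  | cons y l ih =>
    have e1 : pw ((y :: l).map (Sum.inl : A → A ⊕ ZMod p)) = ga y * pw (l.map Sum.inl) := by
      simp [pw, ga]
    have e2 : pw (y :: l) = FreeGroup.of y * pw l := by simp [pw]
    rw [e1, map_mul, h2, h3, ih, e2, mul_assoc]

theorem gen1_meet (hM : M.Good) (x : FreeGroup (T ⊕ (Fin 3 × ZMod p)))
    (h : (iX _ (ga M.r1 * ga M.r2))⁻¹ * FreeGroup.lift (gen1 M Z L) x *
      iX _ (ga M.r1 * ga M.r2) ∈ (cC M Z L).range) : FreeGroup.lift (gen1 M Z L) x = 1 := by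
  classical
  obtain ⟨ra, h1, h2, h3, h4, h5⟩ := kc_exists_ra (M := M) (Z := Z) (L := L)
  obtain ⟨τ, hτ⟩ := h
  have hinv : ∀ ω ω' g, ra ω g = ω' → ra ω' g⁻¹ = ω := by
    intro ω ω' g e
    rw [← e, ← h2, mul_inv_cancel, h1]
  -- the word acts by the machine
  have hgen : ∀ ω t, ra ω (cC M Z L (FreeGroup.of t)) = M.star t ω := by
    intro ω t
    have e : cC M Z L (FreeGroup.of t) = tt _ t * iX _ (pw ((M.g t).map Sum.inl)) := by
      simp [cC]
    rw [e, h2, h5, kc_pw ra h1 h2 h3]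
    rfl
  have hrun : ∀ (l : List (T × Bool)) (ω : FreeGroup A),
      ra ω (cC M Z L (FreeGroup.mk l)) = M.run ω l := by
    intro l
    induction l with
    | nil =>
      intro ω
      rw [← FreeGroup.one_eq_mk, map_one, h1]
      rfl
    | cons q l ih =>
      intro ω
      obtain ⟨t, b⟩ := q
      have e1 : FreeGroup.mk ((t, b) :: l) = FreeGroup.mk [(t, b)] * FreeGroup.mk l := by
        rw [FreeGroup.mul_mk]
        rfl
      rw [e1, map_mul, h2, ih]
      cases b
      · have e2 : FreeGroup.mk [(t, false)] = (FreeGroup.of t)⁻¹ := rfl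
        have e3 : ra ω (cC M Z L (FreeGroup.mk [(t, false)])) = (M.star t).symm ω := by
          rw [e2, map_inv]
          apply hinv
          rw [hgen]
          exact Equiv.apply_symm_apply _ _
        rw [e3]
        rfl
      · have e2 : FreeGroup.mk [(t, true)] = FreeGroup.of t := rfl
        rw [e2, hgen]
        rfl
  -- the generators fix the empty tape
  have hfix : ∀ i, ra 1 (gen1 M Z L i) = 1 := by
    rintro (t | ⟨i, n⟩)
    · show ra 1 (iX _ (ga (M.a t)) * tt _ t) = 1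
      rw [h2, h3, h5]
      show FreeGroup.map (M.sg t) ((FreeGroup.of (M.a t))⁻¹ * (1 * FreeGroup.of (M.a t))) = 1
      rw [one_mul, inv_mul_cancel, map_one]
    · show ra 1 (iX _ (c1 p M i * gn n * (c1 p M i)⁻¹)) = 1
      rw [map_mul, map_mul, map_inv, h2, h2, h4]
      exact hinv _ _ _ rfl
  have hfix' : ∀ y : FreeGroup (T ⊕ (Fin 3 × ZMod p)),
      ra 1 (FreeGroup.lift (gen1 M Z L) y) = 1 := by
    intro y
    induction y using FreeGroup.induction_on with
    | C1 => rw [map_one, h1]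
    | of i => rw [FreeGroup.lift_apply_of]; exact hfix i
    | inv_of i hi => rw [map_inv]; exact hinv _ _ _ hi
    | mul a b ha hb => rw [map_mul, h2, ha, hb]
  set β := FreeGroup.lift (gen1 M Z L) x with hβ
  set v := iX (W1 M Z L) (ga M.r1 * ga M.r2) with hv
  have hrv : ra 1 v = pw [M.r1, M.r2] := by
    rw [hv, map_mul, h2, h3, h3, one_mul]
    simp [pw]
  have e1 : v * cC M Z L τ = β * v := by
    rw [hτ]
    group
  have e2 : ra (pw [M.r1, M.r2]) (cC M Z L τ) = pw [M.r1, M.r2] := by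
    rw [← hrv, ← h2, e1, h2, hfix' x, hrv]
  have e3 : M.run (pw [M.r1, M.r2]) τ.toWord = pw [M.r1, M.r2] := by
    rw [← hrun, FreeGroup.mk_toWord]
    exact e2
  have e4 := (comb_lemma hM [M.r1, M.r2] (by simp [hM.chi_r1, hM.chi_r2]) τ.toWord
    FreeGroup.isReduced_toWord e3).2 rfl
  have e5 : τ = 1 := FreeGroup.toWord_eq_nil_iff.1 e4
  rw [e5, map_one] at hτ
  have e6 : β = v * 1 * v⁻¹ := by
    rw [hτ]
    group
  rw [e6, mul_one, mul_inv_cancel]

theorem noise_meet (x : FreeGroup (ZMod p))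
    (h : iX (W1 M Z L) (FreeGroup.map Sum.inr x) ∈ (cD M Z L).range) :
    iX (W1 M Z L) (FreeGroup.map Sum.inr x) = 1 := by
  obtain ⟨τ, hτ⟩ := h
  obtain ⟨r, hr1, hr2⟩ := exists_retr (M := M) (Z := Z) (L := L)
  have e1 : r.comp (cD M Z L) = MonoidHom.id _ := by
    ext t
    simp [cD, hr1, hr2]
  have e2 : r (cD M Z L τ) = τ := DFunLike.congr_fun e1 τ
  rw [hτ, hr1] at e2
  rw [← hτ, ← e2, map_one]

end Pool.Agent.Helper74.MH
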