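import Pool.Agent.Helper74.MH.Pd
import Pool.Agent.Helper74.MH.Ka
import Pool.Agent.Helper74.MH.Kc

/-! Module Kd (MP_f028d2_al): the subgroup `H` is free. -/

set_option autoImplicit false

namespace Pool.Agent.Helper74.MH

variable {A T : Type} {p : ℕ} {M : Mach A T} {Z : Noise A T p} {L : ℕ}

/-- Reindexing of the generators of `H`. -/
private def kdE (T : Type) (p : ℕ) :
    T ⊕ (Fin 4 × ZMod p) → (T ⊕ (Fin 3 × ZMod p)) ⊕ ZMod p
  | Sum.inl t => Sum.inl (Sum.inl t)
  | Sum.inr (0, n) => Sum.inl (Sum.inr (0, n))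
  | Sum.inr (1, n) => Sum.inl (Sum.inr (1, n))
  | Sum.inr (2, n) => Sum.inl (Sum.inr (2, n))
  | Sum.inr (3, n) => Sum.inr n

/-- The inverse reindexing. -/
private def kdE' (T : Type) (p : ℕ) :
    (T ⊕ (Fin 3 × ZMod p)) ⊕ ZMod p → T ⊕ (Fin 4 × ZMod p)
  | Sum.inl (Sum.inl t) => Sum.inl t
  | Sum.inl (Sum.inr (0, n)) => Sum.inr (0, n)
  | Sum.inl (Sum.inr (1, n)) => Sum.inr (1, n)
  | Sum.inl (Sum.inr (2, n)) => Sum.inr (2, n)
  | Sum.inr n => Sum.inr (3, n)

private theorem kdE_injective (T : Type) (p : ℕ) : Function.Injective (kdE T p) := by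
  apply Function.LeftInverse.injective (g := kdE' T p)
  rintro (t | ⟨i, n⟩)
  · rfl
  · fin_cases i <;> rfl

private theorem iX_pw_map {X T' N : Type*} (W : T' → X → List X) (f : N → X) (l : List N) :
    iX W (pw (l.map f)) = (l.map (fun n => iX W (FreeGroup.of (f n)))).prod := by
  unfold pw
  rw [map_list_prod, List.map_map, List.map_map]
  rfl

theorem hPhi_injective (hM : M.Good)
    (hinj : Function.Injective (iX (WW M Z L))) : Function.Injective (hPhi M Z L) := by
  have hnn : Function.Injective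
      (FreeGroup.lift (fun n : ZMod p => iX (WW M Z L) (fn n))) := by
    have h : FreeGroup.lift (fun n : ZMod p => iX (WW M Z L) (fn n)) =
        (iX (WW M Z L)).comp (FreeGroup.map (fun n : ZMod p => Sum.inr (Sum.inr n))) := by
      ext n
      simp [fn]
    rw [h, MonoidHom.coe_comp]
    exact hinj.comp (FreeGroup.map_injective (fun a b hab => by simpa using hab))
  have hb : Function.Injective (FreeGroup.lift (gen1 M Z L)) := by
    refine gen1_injective hM (fun n : ZMod p => iX (WW M Z L) (fn n))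
      (fun t => tt (WW M Z L) t) ?_ hnn
    intro t n
    have h := hg_rel_gen (WW M Z L) t (Sum.inr (Sum.inr n))
    have h2 : WW M Z L t (Sum.inr (Sum.inr n)) =
        (nV M Z L t (Sum.inr (Sum.inr n))).map (fun n => Sum.inr (Sum.inr n)) := by
      simp [WW, preW]
    rw [h2, iX_pw_map] at h
    exact h
  have hc : Function.Injective ((iX (W1 M Z L)).comp (FreeGroup.map Sum.inr)) := by
    have h : (iX (W1 M Z L)).comp (FreeGroup.map Sum.inr) =
        (FreeGroup.lift (gen1 M Z L)).comp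
          (FreeGroup.map (fun n : ZMod p => (Sum.inr (0, n) : T ⊕ (Fin 3 × ZMod p)))) := by
      ext n
      simp [gen1, c1, gn]
    rw [h, MonoidHom.coe_comp]
    exact hb.comp (FreeGroup.map_injective (fun a b hab => by simpa using hab))
  obtain ⟨e, Ψ, hΨa, hΨn, hΨe, hΨt⟩ := exists_level2 (M := M) (Z := Z) (L := L)
  have main := hnn_free (cC M Z L).range (cD M Z L).range e (FreeGroup.lift (gen1 M Z L))
    ((iX (W1 M Z L)).comp (FreeGroup.map Sum.inr)) (iX _ (ga M.r1 * ga M.r2)) hb hc
    (fun x hx => hb (by rw [gen1_meet hM x hx, map_one]))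
    (fun x hx => hc (by rw [map_one]; exact noise_meet x hx))
  have key : Ψ.comp (hPhi M Z L) = (FreeGroup.lift (Sum.elim
      (fun i => (HNNExtension.of (FreeGroup.lift (gen1 M Z L) (FreeGroup.of i)) :
        HNNExtension (G1 M Z L) (cC M Z L).range (cD M Z L).range e))
      (fun j => HNNExtension.of (iX _ (ga M.r1 * ga M.r2)) * HNNExtension.t⁻¹ *
        HNNExtension.of (((iX (W1 M Z L)).comp (FreeGroup.map Sum.inr)) (FreeGroup.of j)) *
        HNNExtension.t * (HNNExtension.of (iX _ (ga M.r1 * ga M.r2)))⁻¹))).comp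
      (FreeGroup.map (kdE T p)) := by
    ext q
    rcases q with t | ⟨i, n⟩
    · simp [hPhi, hgen, kdE, gen1, hΨa, hΨt]
    · fin_cases i
      · simp [hPhi, hgen, kdE, gen1, hΨn, cc, c1]
      · simp [hPhi, hgen, kdE, gen1, hΨn, hΨa, cc, c1]
      · simp [hPhi, hgen, kdE, gen1, hΨn, hΨa, cc, c1]
      · simp [hPhi, hgen, kdE, hΨn, hΨa, hΨe, cc, gn, mul_assoc]
  have hinj2 : Function.Injective (Ψ.comp (hPhi M Z L)) := by
    rw [key, MonoidHom.coe_comp]
    exact main.comp (FreeGroup.map_injective (kdE_injective T p))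
  rw [MonoidHom.coe_comp] at hinj2
  exact hinj2.of_comp

end Pool.Agent.Helper74.MH
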