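import Mathlib

/-!
Definitions for MP_f028d2_al (S03499): metric part (guessing geodesics, integer trees,
trees of trees, local structure).
-/

set_option autoImplicit false

namespace Pool.Agent.Helper74.MH

/-! ### Metrics -/

/-- `m` lies between `x` and `y`. -/
def Btw {α : Type*} (d : α → α → ℕ) (x m y : α) : Prop := d x m + d m y = d x y

/-- Integer valued geodesic (path) metric. -/
structure IsPathMetric {α : Type*} (d : α → α → ℕ) : Prop where
  zero_iff : ∀ x y, d x y = 0 ↔ x = y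
  symm : ∀ x y, d x y = d y x
  tri : ∀ x y z, d x z ≤ d x y + d y z
  geod : ∀ x y k, k ≤ d x y → ∃ z, Btw d x z y ∧ d x z = k

/-- Integer tree: a path metric with unique geodesics and medians. -/
structure IsNTree {α : Type*} (d : α → α → ℕ) : Prop extends IsPathMetric d where
  uniq : ∀ x y z z', Btw d x z y → Btw d x z' y → d x z = d x z' → z = z'
  med : ∀ x y z, ∃ m, Btw d x m y ∧ Btw d y m z ∧ Btw d x m z

/-- Gromov's four point condition, exactly in the form of the frozen statement. -/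
def FourPt {α : Type*} (d : α → α → ℕ) : Prop :=
  ∃ δ : ℕ, ∀ x y z w : α,
    min ((d w x : ℤ) + (d w y : ℤ) - (d x y : ℤ))
        ((d w y : ℤ) + (d w z : ℤ) - (d y z : ℤ)) - 2 * (δ : ℤ)
      ≤ (d w x : ℤ) + (d w z : ℤ) - (d x z : ℤ)

/-- A chain from `x` to `y` inside `S` with steps of length at most `h`. -/
def Chain {α : Type*} (d : α → α → ℕ) (S : Set α) (h : ℕ) (x y : α) : Prop :=
  Relation.ReflTransGen (fun p q => p ∈ S ∧ q ∈ S ∧ d p q ≤ h) x y

/-! ### Local structure (fibre tree with its children) -/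

/-- Local data: one fibre tree `M`, an index type `J` of children.  `io j` embeds the fibre of the
child `j`, `pr j` projects to it, `Y j` is the hull of the image of `io j`. -/
structure Loc (M J : Type*) where
  d : M → M → ℕ
  io : J → M → M
  pr : J → M → M
  Y : J → Set M
  Lam : ℕ
  kap : ℕ
  L0 : ℕ

structure Loc.Good {M J : Type*} (S : Loc M J) : Prop where
  tree : IsNTree S.d
  pr_io : ∀ j m, S.pr j (S.io j m) = m
  io_mem : ∀ j m, S.io j m ∈ S.Y j
  conv : ∀ j p m q, p ∈ S.Y j → q ∈ S.Y j → Btw S.d p m q → m ∈ S.Y j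
  lip : ∀ j p q, S.d (S.pr j p) (S.pr j q) ≤ S.d p q
  mono : ∀ j p m q, Btw S.d p m q → Btw S.d (S.pr j p) (S.pr j m) (S.pr j q)
  mem_Y : ∀ j p m q, Btw S.d p m q → (S.pr j p ≠ S.pr j m ∨ p ∈ S.Y j) →
    (S.pr j m ≠ S.pr j q ∨ q ∈ S.Y j) → m ∈ S.Y j
  near : ∀ j m, m ∈ S.Y j → S.d m (S.io j (S.pr j m)) ≤ S.Lam
  diam : ∀ j j', j ≠ j' → ∀ p q, p ∈ S.Y j → q ∈ S.Y j → p ∈ S.Y j' → q ∈ S.Y j' →
    S.d p q ≤ S.kap
  far : ∀ j p q, 2 ≤ S.d (S.pr j p) (S.pr j q) → S.L0 ≤ S.d p q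
  hL : S.kap + 5 ≤ S.L0

/-! ### Trees of trees -/

/-- A tree `V` with an indexed child relation; `Ch j u w` says that `u` is the child of `w` with
index `j`.  Over every vertex sits a copy of the fibre tree `M`. -/
structure TT (V M J : Type*) where
  loc : Loc M J
  dV : V → V → ℕ
  Ch : J → V → V → Prop

structure TT.Good {V M J : Type*} (S : TT V M J) : Prop where
  gloc : S.loc.Good
  tree : IsNTree S.dV
  adj : ∀ u w, S.dV u w = 1 ↔ (∃ j, S.Ch j u w) ∨ (∃ j, S.Ch j w u)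
  idx : ∀ j j' u w, S.Ch j u w → S.Ch j' u w → j = j'
  fn : ∀ j u u' w, S.Ch j u w → S.Ch j u' w → u = u'
  asym : ∀ j j' u w, S.Ch j u w → ¬ S.Ch j' w u

/-- `u` is the neighbour of `w` towards the vertex `x`. -/
def TT.Tow {V M J : Type*} (S : TT V M J) (x w u : V) : Prop :=
  S.dV u w = 1 ∧ S.dV x u + 1 = S.dV x w

/-- `γ x v` is the gate of the point `x` in the fibre over `v`. -/
structure TT.IsGate {V M J : Type*} (S : TT V M J) (γ : V × M → V → M) : Prop where
  self : ∀ x, γ x x.1 = x.2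
  up : ∀ x j u w, S.Ch j u w → S.Tow x.1 w u → γ x w = S.loc.io j (γ x u)
  down : ∀ x j u w, S.Ch j u w → γ x u = S.loc.pr j (γ x w)

/-- The point `x` is far from `p` (a point of the fibre over `w`) through the child `u = u_j`. -/
def TT.Far {V M J : Type*} (S : TT V M J) (γ : V × M → V → M) (j : J) (u w : V) (p : M)
    (x : V × M) : Prop :=
  S.Tow x.1 w u ∨ 3 ≤ S.loc.d (S.loc.pr j p) (γ x u)

/-- The point `p` of the fibre over `w` is hidden with respect to `x, y`. -/
def TT.Hid {V M J : Type*} (S : TT V M J) (γ : V × M → V → M) (w : V) (p : M)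
    (x y : V × M) : Prop :=
  ∃ j u, S.Ch j u w ∧ S.Far γ j u w p x ∧ S.Far γ j u w p y

/-- The vertex `v` is relevant for `x, y`. -/
def TT.Rel {V M J : Type*} (S : TT V M J) (γ : V × M → V → M) (v : V) (x y : V × M) : Prop :=
  (∀ u, ¬ (S.Tow x.1 v u ∧ S.Tow y.1 v u)) ∨ 3 ≤ S.loc.d (γ x v) (γ y v)

/-- The guessed geodesic between `x` and `y`. -/
def TT.LL {V M J : Type*} (S : TT V M J) (γ : V × M → V → M) (x y : V × M) : Set (V × M) :=
  {p | S.Rel γ p.1 x y ∧ Btw S.loc.d (γ x p.1) p.2 (γ y p.1) ∧ ¬ S.Hid γ p.1 p.2 x y}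

/-- The total metric on points. -/
structure TT.Metric {V M J : Type*} (S : TT V M J) (D : V × M → V × M → ℕ) : Prop where
  path : IsPathMetric D
  fib : ∀ v m m', D (v, m) (v, m') ≤ S.loc.d m m'
  edge : ∀ j u w m, S.Ch j u w → D (u, m) (w, S.loc.io j m) ≤ 1
  adj : ∀ p q, D p q ≤ 1 → (p.1 = q.1 ∧ S.loc.d p.2 q.2 ≤ 1) ∨
    (∃ j, S.Ch j p.1 q.1 ∧ q.2 = S.loc.io j p.2) ∨ (∃ j, S.Ch j q.1 p.1 ∧ p.2 = S.loc.io j q.2)

/-! ### Groups with left invariant tree metric -/

/-- A group `F` with a left invariant integer tree metric. -/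
structure LTree (F : Type*) [Group F] (d : F → F → ℕ) : Prop where
  tree : IsNTree d
  inv : ∀ g x y, d (g * x) (g * y) = d x y

/-- Stretch data: homomorphisms `φ t : F →* F`, `t ∈ T`, whose generators have odd length
`2h+1`, pairwise common beginnings of length at most 1, and whose turns determine everything. -/
structure Stretch (F T : Type*) [Group F] (d : F → F → ℕ) (φ : T → F →* F) (h Q : ℕ) : Prop where
  ltree : LTree F d
  hQ : 3 ≤ Q
  hh : 3 * Q ≤ h
  len : ∀ t s, d 1 s = 1 → d 1 (φ t s) = 2 * h + 1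
  sep : ∀ t s s', d 1 s = 1 → d 1 s' = 1 → s ≠ s' → 4 * h ≤ d (φ t s) (φ t s')
  turn : ∀ t t' s s' g g' m m₁ m₂, d 1 s = 1 → d 1 s' = 1 → d m₁ m = 1 → d m m₂ = 1 → m₁ ≠ m₂ →
    Q ≤ d g m → d g m ≤ h → Btw d g m (g * φ t s) → Btw d g m₁ (g * φ t s) →
    Btw d g m₂ (g * φ t s) → Q ≤ d g' m → d g' m ≤ h → Btw d g' m (g' * φ t' s') →
    Btw d g' m₁ (g' * φ t' s') → Btw d g' m₂ (g' * φ t' s') →
    t = t' ∧ g⁻¹ * g' ∈ (φ t).range

/-- Projection data for a family of homomorphisms: `pr t f` is the index of the lattice point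
`φ t u` nearest to `f`. -/
def IsProj {F T : Type*} [Group F] (d : F → F → ℕ) (φ : T → F →* F) (pr : T → F → F) : Prop :=
  ∀ t f, ∀ s, d 1 s = 1 → d f (φ t (pr t f)) < d f (φ t (pr t f * s))

/-- Child indices: pairs `(t, r)` with `pr t r⁻¹ = 1`. -/
def JJ {F T : Type*} [Group F] (pr : T → F → F) : Type _ := {j : T × F // pr j.1 j.2⁻¹ = 1}

/-- The hull of the lattice `φ t F`. -/
def hullY {F T : Type*} [Group F] (d : F → F → ℕ) (φ : T → F →* F) (pr : T → F → F) (t : T) :
    Set F :=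
  {f | ∃ s, d 1 s ≤ 1 ∧ Btw d (φ t (pr t f)) f (φ t (pr t f * s))}

/-- The local structure attached to stretch data. -/
def locOf {F T : Type*} [Group F] (d : F → F → ℕ) (φ : T → F →* F) (pr : T → F → F) (h Q : ℕ) :
    Loc F (JJ pr) where
  d := d
  io := fun j m => j.1.2 * φ j.1.1 m
  pr := fun j m => pr j.1.1 (j.1.2⁻¹ * m)
  Y := fun j => {m | j.1.2⁻¹ * m ∈ hullY d φ pr j.1.1}
  Lam := h
  kap := 4 * Q - 1
  L0 := 2 * h

/-! ### Lists as a rooted tree -/

/-- Distance in the tree of lists (the parent of `a :: l` is `l`). -/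
noncomputable def dL {α : Type*} (l l' : List α) : ℕ :=
  sInf {n | ∃ i j, i ≤ l.length ∧ j ≤ l'.length ∧ l.drop i = l'.drop j ∧ n = i + j}

/-! ### Normal forms -/

/-- Admissible neighbours in a normal form (`a` is written after `b`); symbols are
`(t, none)` (the letter `t`) and `(t, some r)` (the syllable `r t⁻¹`). -/
def Okp {F T : Type*} [Group F] (a b : T × Option F) : Prop :=
  ¬ (a.1 = b.1 ∧ ((a.2 = some 1 ∧ b.2 = none) ∨ (a.2 = none ∧ b.2 ≠ none)))

/-- Vertices of the Bass-Serre tree: reduced lists of symbols (head = last symbol). -/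
def VV {F T : Type*} [Group F] (pr : T → F → F) : Type _ :=
  {l : List (T × Option F) // (∀ a ∈ l, ∀ r, a.2 = some r → pr a.1 r⁻¹ = 1) ∧ l.IsChain Okp}

/-- The child relation between reduced lists. -/
def ChV {F T : Type*} [Group F] (pr : T → F → F) (j : JJ pr) (u w : VV pr) : Prop :=
  u.1 = (j.1.1, some j.1.2) :: w.1 ∨ (j.1.2 = 1 ∧ w.1 = (j.1.1, none) :: u.1)

/-- The tree of trees attached to stretch data. -/
noncomputable def ttOf {F T : Type*} [Group F] (d : F → F → ℕ) (φ : T → F →* F) (pr : T → F → F)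
    (h Q : ℕ) : TT (VV pr) F (JJ pr) where
  loc := locOf d φ pr h Q
  dV := fun u w => dL u.1 w.1
  Ch := ChV pr

end Pool.Agent.Helper74.MH
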