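import Mathlib

/-!
Machine data for MP_f028d2_al (S03499): the exact output statement of Part M.
-/

set_option autoImplicit false

namespace Pool.Agent.Helper74.MH

/-- Machine data.  `A` is the tape alphabet, `T` the set of instructions.  Instruction `t` reads
the first letter `a t` of the tape (a positive word), removes it, renames every remaining letter
by the permutation `sg t` and appends the word `g t` at the end. -/
structure Mach (A T : Type) where
  a : T → A
  sg : T → Equiv.Perm A
  g : T → List A
  chi : A → ℕ
  r1 : A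
  r2 : A

/-- The standing assumptions: determinism, co-determinism, conserved charge `chi`, and the
halting tape `[r1, r2]`. -/
structure Mach.Good {A T : Type} (M : Mach A T) : Prop where
  inj_a : Function.Injective M.a
  inj_a' : Function.Injective (fun t => M.sg t (M.a t))
  chi_sg : ∀ t y, M.chi (M.sg t y) = M.chi y
  chi_g : ∀ t, ((M.g t).map M.chi).sum = M.chi (M.a t)
  chi_le : ∀ y, M.chi y ≤ 1
  r1_not : ∀ t, M.a t ≠ M.r1
  r12 : M.r1 ≠ M.r2
  chi_r1 : M.chi M.r1 = 1
  chi_r2 : M.chi M.r2 = 1

/-- One legal step of the machine on tapes. -/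
def Mach.Step {A T : Type} (M : Mach A T) (x y : List A) : Prop :=
  ∃ t z, x = M.a t :: z ∧ y = z.map (M.sg t) ++ M.g t

/-- Reachability by legal steps. -/
def Mach.Reach {A T : Type} (M : Mach A T) : List A → List A → Prop :=
  Relation.ReflTransGen M.Step

/-- Exact output statement of Part M. -/
def PartM : Prop :=
  ∃ (nA nT : ℕ) (M : Mach (Fin nA) (Fin nT)), M.Good ∧
    ∃ enc : ℕ → List (Fin nA), Computable enc ∧
      (∀ k, ((enc k).map M.chi).sum = 2) ∧
      ¬ ComputablePred (fun k => M.Reach (enc k) [M.r1, M.r2])

/-- Instructions of a two-register (two-stack) machine in base `k`. -/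
inductive TOp (P : Type) (k : ℕ) : Type
  | right (d : Fin k) (f : Fin k → P)
  | left (d : Fin k) (f : Fin k → P)
  | jump (p : P)
  | halt

/-- Step function of a two-register machine: configurations are `(state, L, R)`. -/
def TOp.step {P : Type} {k : ℕ} (op : P → TOp P k) (hk : 0 < k) :
    P × ℕ × ℕ → Option (P × ℕ × ℕ)
  | (p, L, R) =>
    match op p with
    | TOp.right d f => some (f ⟨R % k, Nat.mod_lt _ hk⟩, k * L + d, R / k)
    | TOp.left d f => some (f ⟨L % k, Nat.mod_lt _ hk⟩, L / k, k * R + d)
    | TOp.jump p' => some (p', L, R)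
    | TOp.halt => none

/-- Halting of a two-register machine. -/
def TOp.Halts {P : Type} {k : ℕ} (op : P → TOp P k) (hk : 0 < k) (c : P × ℕ × ℕ) : Prop :=
  ∃ c', Relation.ReflTransGen (fun c₁ c₂ => TOp.step op hk c₁ = some c₂) c c' ∧
    TOp.step op hk c' = none

/-- Intermediate statement (half M1 of Part M): a two-register machine with undecidable halting
on inputs `(p0, 0, R n)` with `R` computable. -/
def PartM1 : Prop :=
  ∃ (nP k : ℕ) (hk : 0 < k) (op : Fin nP → TOp (Fin nP) k) (p0 : Fin nP) (R : ℕ → ℕ),
    Computable R ∧ ¬ ComputablePred (fun n => TOp.Halts op hk (p0, 0, R n))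

end Pool.Agent.Helper74.MH
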