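import Pool.Agent.Helper74.MH.Defs
import Pool.Agent.Helper74.MH.Mach

/-!
Definitions for MP_f028d2_al (S03499): the group `HG X T W`, the noise words and the subgroup.
-/

set_option autoImplicit false

namespace Pool.Agent.Helper74.MH

/-! ### The multiple ascending HNN extension -/

/-- The element of the free group given by a positive word. -/
def pw {X : Type*} (l : List X) : FreeGroup X := (l.map FreeGroup.of).prod

/-- The relators `t⁻¹ x t = W t x`. -/
def hrels (X T : Type*) (W : T → X → List X) : Set (FreeGroup (X ⊕ T)) :=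
  {r | ∃ t x, r = (FreeGroup.of (Sum.inr t))⁻¹ * FreeGroup.of (Sum.inl x) *
    FreeGroup.of (Sum.inr t) * (FreeGroup.map Sum.inl (pw (W t x)))⁻¹}

/-- The group `⟨X, T | t⁻¹ x t = W t x⟩`. -/
abbrev HG (X T : Type*) (W : T → X → List X) := PresentedGroup (hrels X T W)

/-- The homomorphism from the free group on `X`. -/
def iX {X T : Type*} (W : T → X → List X) : FreeGroup X →* HG X T W :=
  FreeGroup.lift (fun x => PresentedGroup.of (Sum.inl x))

/-- The stable letters. -/
def tt {X T : Type*} (W : T → X → List X) (t : T) : HG X T W := PresentedGroup.of (Sum.inr t)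

/-- The substitution `φ t`. -/
def phi {X T : Type*} (W : T → X → List X) (t : T) : FreeGroup X →* FreeGroup X :=
  FreeGroup.lift (fun x => pw (W t x))

/-- The tree metric of a free group. -/
def dF {X : Type*} [DecidableEq X] (f g : FreeGroup X) : ℕ := FreeGroup.norm (f⁻¹ * g)

/-- Word length metric of a group with respect to a family of generators. -/
noncomputable def wd {G ι : Type*} [Group G] (g : ι → G) (x y : G) : ℕ :=
  sInf {k : ℕ | ∃ l : List (ι × Bool), l.length = k ∧
    (l.map (fun p => if p.2 then g p.1 else (g p.1)⁻¹)).prod = x⁻¹ * y}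

/-! ### Noise words -/

/-- Noise parameters: `s` is injective on `T × Bool × {0,…,L-1}`, `bs` is injective. -/
structure Noise (A T : Type) (p : ℕ) where
  s : T → Bool → ℕ → ZMod p
  bs : Option A → ZMod p

structure Noise.Good {A T : Type} {p : ℕ} (Z : Noise A T p) (L : ℕ) : Prop where
  inj_s : ∀ t b i t' b' i', i < L → i' < L → Z.s t b i = Z.s t' b' i' → t = t' ∧ b = b' ∧ i = i'
  inj_bs : Function.Injective Z.bs

/-- The alphabet of the free base group: tape letters, the letter `e`, the noise letters. -/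
abbrev XX (A : Type) (p : ℕ) := A ⊕ (Unit ⊕ ZMod p)

/-- The type of a generator: `false` for tape letters and `e`, `true` for noise letters. -/
def kk {A : Type} {p : ℕ} : XX A p → Bool
  | Sum.inl _ => false
  | Sum.inr (Sum.inl _) => false
  | Sum.inr (Sum.inr _) => true

/-- The base value of a generator. -/
def Noise.base {A T : Type} {p : ℕ} (Z : Noise A T p) : XX A p → ZMod p
  | Sum.inl y => Z.bs (some y)
  | Sum.inr (Sum.inl _) => Z.bs none
  | Sum.inr (Sum.inr n) => n

/-- The noise letter at position `i` of the word `W t x`. -/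
def Noise.letter {A T : Type} {p : ℕ} (Z : Noise A T p) (t : T) (x : XX A p) (i : ℕ) : ZMod p :=
  Z.base x + ∑ j ∈ Finset.range i, Z.s t (kk x) j

/-- The noise part of `W t x` from position `i₀` to position `L - 1`. -/
def Noise.V {A T : Type} {p : ℕ} (Z : Noise A T p) (L : ℕ) (t : T) (x : XX A p) (i₀ : ℕ) :
    List (ZMod p) :=
  (List.range' i₀ (L - i₀)).map (fun i => Z.letter t x i)

/-- The noise letters of `W t x`. -/
def nV {A T : Type} {p : ℕ} (M : Mach A T) (Z : Noise A T p) (L : ℕ) (t : T) :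
    XX A p → List (ZMod p)
  | Sum.inl y => Z.V L t (Sum.inl y) 1
  | Sum.inr (Sum.inl u) => Z.V L t (Sum.inr (Sum.inl u)) ((M.g t).length + 1)
  | Sum.inr (Sum.inr n) => Z.V L t (Sum.inr (Sum.inr n)) 0

/-- The machine part of `W t x`. -/
def preW {A T : Type} {p : ℕ} (M : Mach A T) (t : T) : XX A p → List (XX A p)
  | Sum.inl y => [Sum.inl (M.sg t y)]
  | Sum.inr (Sum.inl u) => (M.g t).map Sum.inl ++ [Sum.inr (Sum.inl u)]
  | Sum.inr (Sum.inr _) => []

/-- The words `W t x` of the group `G`. -/
def WW {A T : Type} {p : ℕ} (M : Mach A T) (Z : Noise A T p) (L : ℕ) (t : T) (x : XX A p) :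
    List (XX A p) :=
  preW M t x ++ (nV M Z L t x).map (fun n => Sum.inr (Sum.inr n))

/-- The group `G` of the construction. -/
abbrev GG {A T : Type} {p : ℕ} (M : Mach A T) (Z : Noise A T p) (L : ℕ) :=
  HG (XX A p) T (WW M Z L)

/-- Tape letters, `e` and noise letters as elements of the free group on `XX A p`. -/
def fa {A : Type} {p : ℕ} (y : A) : FreeGroup (XX A p) := FreeGroup.of (Sum.inl y)
def fe {A : Type} {p : ℕ} : FreeGroup (XX A p) := FreeGroup.of (Sum.inr (Sum.inl ()))
def fn {A : Type} {p : ℕ} (n : ZMod p) : FreeGroup (XX A p) := FreeGroup.of (Sum.inr (Sum.inr n))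

/-- The conjugating elements `1, r₁, r₁ r₂, r₁ r₂ e`. -/
def cc {A T : Type} (p : ℕ) (M : Mach A T) : Fin 4 → FreeGroup (XX A p)
  | 0 => 1
  | 1 => fa M.r1
  | 2 => fa M.r1 * fa M.r2
  | 3 => fa M.r1 * fa M.r2 * fe

/-- The generators of the subgroup `H`. -/
def hgen {A T : Type} {p : ℕ} (M : Mach A T) (Z : Noise A T p) (L : ℕ) :
    T ⊕ (Fin 4 × ZMod p) → GG M Z L
  | Sum.inl t => iX _ (fa (M.a t)) * tt _ t
  | Sum.inr (i, n) => iX _ (cc p M i * fn n * (cc p M i)⁻¹)

/-- The homomorphism whose image is `H`. -/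
def hPhi {A T : Type} {p : ℕ} (M : Mach A T) (Z : Noise A T p) (L : ℕ) :
    FreeGroup (T ⊕ (Fin 4 × ZMod p)) →* GG M Z L :=
  FreeGroup.lift (hgen M Z L)

/-- The test element `w e n₀ e⁻¹ w⁻¹`. -/
def testEl {A T : Type} {p : ℕ} (M : Mach A T) (Z : Noise A T p) (L : ℕ) (w : List A) :
    GG M Z L :=
  iX _ ((w.map fa).prod * fe * fn 0 * fe⁻¹ * ((w.map fa).prod)⁻¹)

end Pool.Agent.Helper74.MH
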