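import Pool.Agent.Helper74.MH.Defs2

/-!
Definitions for MP_f028d2_al (S03499): machine dynamics on the free group, the group `G1` and the
homomorphisms used for the freeness of `H`.
-/

set_option autoImplicit false

namespace Pool.Agent.Helper74.MH

/-! ### Machine dynamics on the free group -/

/-- The action `x ↦ sg_t (a_t⁻¹ x) g(t)` of an instruction on the free group. -/
def Mach.star {A T : Type} (M : Mach A T) (t : T) : Equiv.Perm (FreeGroup A) where
  toFun x := FreeGroup.map (M.sg t) ((FreeGroup.of (M.a t))⁻¹ * x) * pw (M.g t)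
  invFun x := FreeGroup.of (M.a t) * FreeGroup.map (M.sg t).symm (x * (pw (M.g t))⁻¹)
  left_inv x := by
    have h : ∀ y, FreeGroup.map (M.sg t).symm (FreeGroup.map (M.sg t) y) = y := fun y => by
      rw [FreeGroup.map.comp]; simp
    simp only [mul_inv_cancel_right, h, mul_inv_cancel_left]
  right_inv x := by
    have h : ∀ y, FreeGroup.map (M.sg t) (FreeGroup.map (M.sg t).symm y) = y := fun y => by
      rw [FreeGroup.map.comp]; simp
    simp only [inv_mul_cancel_left, h, inv_mul_cancel_right]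

/-- Running a word in the instructions and their inverses. -/
def Mach.run {A T : Type} (M : Mach A T) (x : FreeGroup A) (τ : List (T × Bool)) : FreeGroup A :=
  τ.foldl (fun x q => if q.2 then M.star q.1 x else (M.star q.1).symm x) x

/-! ### Homomorphisms out of `HG` -/

theorem map_inl_pw {X T : Type*} (W : T → X → List X) (l : List X) :
    PresentedGroup.mk (hrels X T W) (FreeGroup.map Sum.inl (pw l)) = iX W (pw l) := by
  induction l with
  | nil => simp only [pw, List.map_nil, List.prod_nil, map_one]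
  | cons x l ih =>
    have h : pw (x :: l) = FreeGroup.of x * pw l := by simp [pw]
    rw [h, map_mul, map_mul, map_mul, ih, FreeGroup.map.of]
    simp only [iX, FreeGroup.lift_apply_of]
    rfl

theorem hg_rel_gen {X T : Type*} (W : T → X → List X) (t : T) (x : X) :
    (tt W t)⁻¹ * iX W (FreeGroup.of x) * tt W t = iX W (pw (W t x)) := by
  have h : (FreeGroup.of (Sum.inr t))⁻¹ * FreeGroup.of (Sum.inl x) *
    FreeGroup.of (Sum.inr t) * (FreeGroup.map Sum.inl (pw (W t x)))⁻¹ ∈ hrels X T W :=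
    ⟨t, x, rfl⟩
  have h2 := PresentedGroup.one_of_mem h
  rw [map_mul, map_mul, map_mul, map_inv, map_inv, map_inl_pw, mul_inv_eq_one] at h2
  rw [← h2]
  simp only [iX, FreeGroup.lift_apply_of]
  rfl

theorem hg_rel {X T : Type*} (W : T → X → List X) (t : T) (f : FreeGroup X) :
    (tt W t)⁻¹ * iX W f * tt W t = iX W (phi W t f) := by
  have : (MulAut.conj (tt W t)⁻¹).toMonoidHom.comp (iX W) = (iX W).comp (phi W t) := by
    ext x
    have := hg_rel_gen W t x
    simp only [MonoidHom.coe_comp, Function.comp_apply, MulEquiv.toMonoidHom_eq_coe,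
      MonoidHom.coe_coe, MulAut.conj_apply, inv_inv, this, phi, FreeGroup.lift_apply_of]
  have := DFunLike.congr_fun this f
  simpa using this

theorem hg_lift {X T K : Type*} [Group K] (W : T → X → List X) (a : X → K) (b : T → K)
    (h : ∀ t x, (b t)⁻¹ * a x * b t = ((W t x).map a).prod) :
    ∃ f : HG X T W →* K, (∀ w, f (iX W w) = FreeGroup.lift a w) ∧ ∀ t, f (tt W t) = b t := by
  have hW : ∀ l : List X, FreeGroup.lift (Sum.elim a b)
      (FreeGroup.map Sum.inl (pw l)) = (l.map a).prod := by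
    intro l
    induction l with
    | nil => simp [pw]
    | cons x l ih =>
      have h : pw (x :: l) = FreeGroup.of x * pw l := by simp [pw]
      rw [h, map_mul, map_mul, ih, FreeGroup.map.of]
      simp
  have hr : ∀ r ∈ hrels X T W, FreeGroup.lift (Sum.elim a b) r = 1 := by
    rintro r ⟨t, x, rfl⟩
    simp only [map_mul, map_inv, FreeGroup.lift_apply_of, Sum.elim_inl, Sum.elim_inr, hW]
    rw [h, mul_inv_cancel]
  refine ⟨PresentedGroup.toGroup hr, fun w => ?_, fun t => ?_⟩
  · have : (PresentedGroup.toGroup hr).comp (iX W) = FreeGroup.lift a := by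
      ext x
      simp [iX]
    exact DFunLike.congr_fun this w
  · simp [tt]

/-! ### The group `G1` (without the letter `e`) -/

/-- The defining words of `G1`. -/
def W1 {A T : Type} {p : ℕ} (M : Mach A T) (Z : Noise A T p) (L : ℕ) (t : T) :
    A ⊕ ZMod p → List (A ⊕ ZMod p)
  | Sum.inl y => Sum.inl (M.sg t y) :: (nV M Z L t (Sum.inl y)).map Sum.inr
  | Sum.inr n => (nV M Z L t (Sum.inr (Sum.inr n))).map Sum.inr

/-- The subgroup of `G` without the letter `e`, as a presented group. -/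
abbrev G1 {A T : Type} {p : ℕ} (M : Mach A T) (Z : Noise A T p) (L : ℕ) :=
  HG (A ⊕ ZMod p) T (W1 M Z L)

/-- Tape letters and noise letters in the free group on `A ⊕ ZMod p`. -/
def ga {A : Type} {p : ℕ} (y : A) : FreeGroup (A ⊕ ZMod p) := FreeGroup.of (Sum.inl y)
def gn {A : Type} {p : ℕ} (n : ZMod p) : FreeGroup (A ⊕ ZMod p) := FreeGroup.of (Sum.inr n)

/-- The conjugating elements `1, r₁, r₁ r₂`. -/
def c1 {A T : Type} (p : ℕ) (M : Mach A T) : Fin 3 → FreeGroup (A ⊕ ZMod p)
  | 0 => 1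
  | 1 => ga M.r1
  | 2 => ga M.r1 * ga M.r2

/-- The generators of the intersection of `H` with `G1`. -/
def gen1 {A T : Type} {p : ℕ} (M : Mach A T) (Z : Noise A T p) (L : ℕ) :
    T ⊕ (Fin 3 × ZMod p) → G1 M Z L
  | Sum.inl t => iX _ (ga (M.a t)) * tt _ t
  | Sum.inr (i, n) => iX _ (c1 p M i * gn n * (c1 p M i)⁻¹)

/-- The homomorphism onto the first associated subgroup, `t ↦ t g(t)`. -/
def cC {A T : Type} {p : ℕ} (M : Mach A T) (Z : Noise A T p) (L : ℕ) :
    FreeGroup T →* G1 M Z L :=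
  FreeGroup.lift (fun t => tt _ t * iX _ (pw ((M.g t).map Sum.inl)))

/-- The homomorphism onto the second associated subgroup, `t ↦ t V(t,e)⁻¹`. -/
def cD {A T : Type} {p : ℕ} (M : Mach A T) (Z : Noise A T p) (L : ℕ) :
    FreeGroup T →* G1 M Z L :=
  FreeGroup.lift (fun t => tt _ t *
    (iX _ (pw ((nV M Z L t (Sum.inr (Sum.inl ()))).map Sum.inr)))⁻¹)

/-! ### Length functions on a free product `K * F(A)` -/

/-- A letter of the free group. -/
def ltr {A : Type*} (y : A) (b : Bool) : FreeGroup A := FreeGroup.mk [(y, b)]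

/-- `ℓ` counts the letters of `A` in the normal form of an element of the free product. -/
structure LenFn {K A : Type*} [Group K] (ℓ : Monoid.Coprod K (FreeGroup A) → ℕ) : Prop where
  zero : ∀ k, ℓ (Monoid.Coprod.inl k) = 0
  left : ∀ k γ, ℓ (Monoid.Coprod.inl k * γ) = ℓ γ
  step : ∀ y b γ, ℓ (Monoid.Coprod.inr (ltr y b) * γ) = ℓ γ + 1 ∨
    ℓ (Monoid.Coprod.inr (ltr y b) * γ) + 1 = ℓ γ
  uniq : ∀ γ k y b k' y' b',
    ℓ ((Monoid.Coprod.inl k * Monoid.Coprod.inr (ltr y b))⁻¹ * γ) < ℓ γ →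
    ℓ ((Monoid.Coprod.inl k' * Monoid.Coprod.inr (ltr y' b'))⁻¹ * γ) < ℓ γ →
    k = k' ∧ y = y' ∧ b = b'
  hom : ∀ f : Monoid.Coprod K (FreeGroup A) →* Monoid.Coprod K (FreeGroup A),
    (∀ k, ∃ k', f (Monoid.Coprod.inl k) = Monoid.Coprod.inl k') →
    (∀ y, ∃ k y' k', f (Monoid.Coprod.inr (FreeGroup.of y)) =
      Monoid.Coprod.inl k * Monoid.Coprod.inr (FreeGroup.of y') * Monoid.Coprod.inl k') →
    ∀ γ, ℓ (f γ) ≤ ℓ γ

/-- Elements whose normal form begins with `k y^b`. -/
def Beg {K A : Type*} [Group K] (ℓ : Monoid.Coprod K (FreeGroup A) → ℕ) (k : K) (y : A)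
    (b : Bool) : Set (Monoid.Coprod K (FreeGroup A)) :=
  {γ | ℓ ((Monoid.Coprod.inl k * Monoid.Coprod.inr (ltr y b))⁻¹ * γ) < ℓ γ}

end Pool.Agent.Helper74.MH
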