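import Pool.Agent.Helper74.MH.Fa

/-! Module Fb (MP_f028d2_al): positive words in the tree of a free group. -/

set_option autoImplicit false

namespace Pool.Agent.Helper74.MH

variable {X : Type*} [DecidableEq X]

private theorem fb_pw (l : List X) : pw l = FreeGroup.mk (l.map fun x => (x, true)) := by
  induction l with
  | nil => rfl
  | cons x l ih =>
    have h : pw (x :: l) = FreeGroup.of x * pw l := by simp [pw]
    rw [h, ih]
    rfl

private theorem fb_app (l l' : List X) : pw (l ++ l') = pw l * pw l' := by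
  simp [pw]

private theorem fb_inv (l : List X) :
    (pw l)⁻¹ = FreeGroup.mk ((l.map fun x => (x, false)).reverse) := by
  rw [fb_pw, FreeGroup.inv_mk]
  congr 1
  simp [FreeGroup.invRev, Function.comp_def]

private theorem fb_norm {L : List (X × Bool)} (h : FreeGroup.IsReduced L) :
    (FreeGroup.mk L).norm = L.length := by
  rw [FreeGroup.norm, FreeGroup.toWord_mk, h.reduce_eq]

private theorem fb_red (b : Bool) (l : List X) :
    FreeGroup.IsReduced (l.map fun x => (x, b)) := by
  unfold FreeGroup.IsReduced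
  rw [List.isChain_map]
  induction l with
  | nil => exact List.IsChain.nil
  | cons x l ih =>
    cases l with
    | nil => exact List.isChain_singleton x
    | cons y l => exact List.isChain_cons_cons.2 ⟨fun _ => rfl, ih⟩

private theorem fb_norm_pw (l : List X) : (pw l).norm = l.length := by
  rw [fb_pw, fb_norm (fb_red true l), List.length_map]

theorem dF_pw (l : List X) : dF 1 (pw l) = l.length := by
  rw [dF, inv_one, one_mul, fb_norm_pw]

private theorem fb_btw (l : List X) (i : ℕ) (hi : i ≤ l.length) :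
    Btw dF 1 (pw (l.take i)) (pw l) ∧ dF 1 (pw (l.take i)) = i := by
  have h1 : dF 1 (pw (l.take i)) = i := by
    rw [dF_pw, List.length_take, min_eq_left hi]
  refine ⟨?_, h1⟩
  have h2 : (pw (l.take i))⁻¹ * pw l = pw (l.drop i) := by
    conv_lhs => rw [← List.take_append_drop i l, fb_app]
    simp
  unfold Btw
  rw [h1, dF_pw, dF, h2, fb_norm_pw, List.length_drop]
  omega

theorem btw_pw_iff (l : List X) (m : FreeGroup X) :
    Btw dF 1 m (pw l) ↔ ∃ i ≤ l.length, m = pw (l.take i) := by
  constructor
  · intro h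
    have h1 : dF 1 m ≤ l.length := by
      have := h
      unfold Btw at this
      rw [dF_pw] at this
      omega
    refine ⟨dF 1 m, h1, ?_⟩
    obtain ⟨h2, h3⟩ := fb_btw l (dF 1 m) h1
    exact ltree_dF.tree.uniq 1 (pw l) m _ h h2 h3.symm
  · rintro ⟨i, hi, rfl⟩
    exact (fb_btw l i hi).1

theorem dF_pw_inv (l l' : List X) : dF (pw l) (pw l')⁻¹ = l.length + l'.length := by
  rw [dF, ← mul_inv_rev, FreeGroup.norm_inv_eq, ← fb_app, fb_norm_pw, List.length_append]
  omega

private theorem fb_chain {L L' : List (X × Bool)} {a b : X × Bool}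
    (h : FreeGroup.IsReduced (L ++ [a])) (h' : FreeGroup.IsReduced (b :: L'))
    (hab : a.1 ≠ b.1) : FreeGroup.IsReduced ((L ++ [a]) ++ b :: L') := by
  unfold FreeGroup.IsReduced at *
  rw [List.isChain_append]
  refine ⟨h, h', ?_⟩
  intro u hu v hv
  simp only [List.getLast?_append, List.getLast?_singleton, Option.some_or,
    Option.mem_def, Option.some.injEq, List.head?_cons] at hu hv
  subst hu
  subst hv
  intro he
  exact absurd he hab

theorem dF_fork {x y : X} (hxy : x ≠ y) (a b c : List X) :
    dF (pw (c ++ x :: a)) (pw (c ++ y :: b)) = a.length + b.length + 2 := by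
  have h : (pw (c ++ x :: a))⁻¹ * pw (c ++ y :: b) =
      FreeGroup.mk (((a.map fun z => (z, false)).reverse ++ [(x, false)]) ++
        (y, true) :: (b.map fun z => (z, true))) := by
    rw [fb_app, fb_app, mul_inv_rev, mul_assoc, inv_mul_cancel_left, fb_inv, fb_pw (y :: b),
      FreeGroup.mul_mk]
    simp
  rw [dF, h, fb_norm]
  · simp
    omega
  · refine fb_chain ?_ (fb_red true (y :: b)) hxy
    have h1 : (a.map fun z => (z, false)).reverse ++ [(x, false)] =
        ((a.reverse ++ [x]).map fun z => (z, false)) := by simp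
    rw [h1]
    exact fb_red false _

theorem dF_inv_fork {x y : X} (hxy : x ≠ y) (a b c : List X) :
    dF (pw (a ++ x :: c))⁻¹ (pw (b ++ y :: c))⁻¹ = a.length + b.length + 2 := by
  have h : (pw (a ++ x :: c))⁻¹⁻¹ * (pw (b ++ y :: c))⁻¹ =
      FreeGroup.mk (((a.map fun z => (z, true)) ++ [(x, true)]) ++
        (y, false) :: (b.map fun z => (z, false)).reverse) := by
    have e1 : pw (a ++ x :: c) = pw (a ++ [x]) * pw c := by rw [← fb_app]; simp
    have e2 : pw (b ++ y :: c) = pw (b ++ [y]) * pw c := by rw [← fb_app]; simp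
    rw [inv_inv, e1, e2, mul_inv_rev, mul_assoc, mul_inv_cancel_left, fb_inv, fb_pw (a ++ [x]),
      FreeGroup.mul_mk]
    simp
  rw [dF, h, fb_norm]
  · simp
    omega
  · have h1 : (a.map fun z => (z, true)) ++ [(x, true)] =
        ((a ++ [x]).map fun z => (z, true)) := by simp
    have h2 : (y, false) :: (b.map fun z => (z, false)).reverse =
        ((y :: b.reverse).map fun z => (z, false)) := by simp
    refine fb_chain ?_ ?_ hxy
    · rw [h1]
      exact fb_red true _
    · rw [h2]
      exact fb_red false _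

private theorem fb_phi {T : Type*} (W : T → X → List X) (t : T) (x : X) :
    phi W t (FreeGroup.of x) = pw (W t x) := by
  simp [phi]

/-- Lengths and separation for a substitution by positive words. -/
theorem phi_len {T : Type*} (W : T → X → List X) (L : ℕ) (hlen : ∀ t x, (W t x).length = L)
    (t : T) (s : FreeGroup X) (hs : dF 1 s = 1) : dF 1 (phi W t s) = L := by
  obtain ⟨x, rfl | rfl⟩ := (dF_one_iff s).1 hs
  · rw [fb_phi, dF_pw, hlen]
  · rw [map_inv, fb_phi, dF, inv_one, one_mul, FreeGroup.norm_inv_eq, fb_norm_pw, hlen]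

private theorem fb_split {u v : List X} {L : ℕ} (hL : 2 ≤ L) (hu : u.length = L)
    (hv : v.length = L) (h : u.take 2 ≠ v.take 2) :
    ∃ (y y' : X) (a b c : List X), y ≠ y' ∧ u = c ++ y :: a ∧ v = c ++ y' :: b ∧
      2 * L - 2 ≤ a.length + b.length + 2 := by
  match u, v, hu, hv, h with
  | [], _, hu, _, _ => simp at hu; omega
  | [_], _, hu, _, _ => simp at hu; omega
  | _ :: _ :: _, [], _, hv, _ => simp at hv; omega
  | _ :: _ :: _, [_], _, hv, _ => simp at hv; omega
  | u0 :: u1 :: u, v0 :: v1 :: v, hu, hv, h =>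
    simp only [List.length_cons] at hu hv
    by_cases h0 : u0 = v0
    · subst h0
      refine ⟨u1, v1, u, v, [u0], ?_, rfl, rfl, by omega⟩
      rintro rfl
      exact h rfl
    · exact ⟨u0, v0, u1 :: u, v1 :: v, [], h0, rfl, rfl, by simp only [List.length_cons]; omega⟩

private theorem fb_split' {u v : List X} {L : ℕ} (hL : 2 ≤ L) (hu : u.length = L)
    (hv : v.length = L) (h : u.drop (L - 2) ≠ v.drop (L - 2)) :
    ∃ (y y' : X) (a b c : List X), y ≠ y' ∧ u = a ++ y :: c ∧ v = b ++ y' :: c ∧
      2 * L - 2 ≤ a.length + b.length + 2 := by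
  have key : ∀ w : List X, w.length = L → w.reverse.take 2 = (w.drop (L - 2)).reverse := by
    intro w hw
    rw [List.take_reverse, hw]
  have h' : u.reverse.take 2 ≠ v.reverse.take 2 := by
    rw [key u hu, key v hv]
    intro he
    exact h (List.reverse_injective he)
  obtain ⟨y, y', a, b, c, h1, h2, h3, h4⟩ := fb_split hL (by rw [List.length_reverse]; exact hu)
    (by rw [List.length_reverse]; exact hv) h'
  refine ⟨y, y', a.reverse, b.reverse, c.reverse, h1, ?_, ?_, by simpa using h4⟩
  · have := congrArg List.reverse h2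
    rw [List.reverse_reverse] at this
    rw [this]
    simp
  · have := congrArg List.reverse h3
    rw [List.reverse_reverse] at this
    rw [this]
    simp

theorem phi_sep {T : Type*} (W : T → X → List X) (L : ℕ) (hL : 2 ≤ L)
    (hlen : ∀ t x, (W t x).length = L)
    (hpre : ∀ t x x', x ≠ x' → (W t x).take 2 ≠ (W t x').take 2)
    (hsuf : ∀ t x x', x ≠ x' → (W t x).drop (L - 2) ≠ (W t x').drop (L - 2))
    (t : T) (s s' : FreeGroup X) (hs : dF 1 s = 1) (hs' : dF 1 s' = 1) (hne : s ≠ s') :
    2 * L - 2 ≤ dF (phi W t s) (phi W t s') := by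
  obtain ⟨x, rfl | rfl⟩ := (dF_one_iff s).1 hs
  · obtain ⟨x', rfl | rfl⟩ := (dF_one_iff s').1 hs'
    · have hxx : x ≠ x' := fun h => hne (by rw [h])
      rw [fb_phi, fb_phi]
      obtain ⟨y, y', a, b, c, h1, h2, h3, h4⟩ := fb_split hL (hlen t x) (hlen t x')
        (hpre t x x' hxx)
      rw [h2, h3, dF_fork h1]
      exact h4
    · rw [fb_phi, map_inv, fb_phi, dF_pw_inv, hlen, hlen]
      omega
  · obtain ⟨x', rfl | rfl⟩ := (dF_one_iff s').1 hs'
    · rw [fb_phi, map_inv, fb_phi, ltree_dF.tree.symm, dF_pw_inv, hlen, hlen]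
      omega
    · have hxx : x ≠ x' := fun h => hne (by rw [h])
      rw [map_inv, map_inv, fb_phi, fb_phi]
      obtain ⟨y, y', a, b, c, h1, h2, h3, h4⟩ := fb_split' hL (hlen t x) (hlen t x')
        (hsuf t x x' hxx)
      rw [h2, h3, dF_inv_fork h1]
      exact h4

end Pool.Agent.Helper74.MH
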