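import Pool.Agent.Helper74.MH.Fb

/-! Module Fc (MP_f028d2_al): turns determine the lattice. -/

set_option autoImplicit false

namespace Pool.Agent.Helper74.MH

variable {X : Type*} [DecidableEq X]

private theorem fc_dist (g m : FreeGroup X) : dF 1 (g⁻¹ * m) = dF g m := by
  unfold dF
  rw [inv_one, one_mul]

private theorem fc_btw {g m n : FreeGroup X} (h : Btw dF g m (g * n)) :
    Btw dF 1 (g⁻¹ * m) n := by
  have hn : n = g⁻¹ * (g * n) := by group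
  rw [hn]
  unfold Btw at *
  have h1 := ltree_dF.inv g⁻¹ g m
  have h2 := ltree_dF.inv g⁻¹ m (g * n)
  have h3 := ltree_dF.inv g⁻¹ g (g * n)
  rw [inv_mul_cancel] at h1 h3
  rw [h1, h2, h3]
  exact h

private theorem fc_take_succ (l : List X) (i : ℕ) (a : X) (ha : l[i]? = some a) :
    pw (l.take (i + 1)) = pw (l.take i) * FreeGroup.of a := by
  rw [List.take_add_one, ha]
  simp [pw]

/-- Three consecutive points on the segment `[g₀, g₀ * pw l]`. -/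
private theorem fc_aux (l : List X) (g₀ m m₁ m₂ : FreeGroup X) (h₁ : dF m₁ m = 1)
    (h₂ : dF m m₂ = 1) (h₁₂ : m₁ ≠ m₂) (hj : 1 ≤ dF g₀ m) (hj' : dF g₀ m < l.length)
    (hb : Btw dF g₀ m (g₀ * pw l)) (hb₁ : Btw dF g₀ m₁ (g₀ * pw l))
    (hb₂ : Btw dF g₀ m₂ (g₀ * pw l)) :
    ∃ a b, l[dF g₀ m - 1]? = some a ∧ l[dF g₀ m - 1 + 1]? = some b ∧
      ((m₁ = m * (FreeGroup.of a)⁻¹ ∧ m₂ = m * FreeGroup.of b) ∨
        (m₂ = m * (FreeGroup.of a)⁻¹ ∧ m₁ = m * FreeGroup.of b)) ∧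
      m = g₀ * pw (l.take (dF g₀ m - 1 + 1)) := by
  have hT := (ltree_dF (X := X)).tree
  have hP := hT.toIsPathMetric
  have pt : ∀ n : FreeGroup X, Btw dF g₀ n (g₀ * pw l) →
      ∃ i ≤ l.length, n = g₀ * pw (l.take i) ∧ dF g₀ n = i := by
    intro n hn
    obtain ⟨i, hi, hi'⟩ := (btw_pw_iff l _).1 (fc_btw hn)
    refine ⟨i, hi, by rw [← hi']; group, ?_⟩
    rw [← fc_dist, hi', dF_pw, List.length_take]
    omega
  obtain ⟨j, hjl, hm, hdm⟩ := pt m hb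
  obtain ⟨j₁, hjl₁, hm₁, hdm₁⟩ := pt m₁ hb₁
  obtain ⟨j₂, hjl₂, hm₂, hdm₂⟩ := pt m₂ hb₂
  rw [hdm] at hj hj' ⊢
  have t1 := hP.tri g₀ m₁ m
  have t2 := hP.tri g₀ m m₁
  have t3 := hP.tri g₀ m₂ m
  have t4 := hP.tri g₀ m m₂
  have e1 := hP.symm m m₁
  have e2 := hP.symm m m₂
  have n1 : j₁ ≠ j := by
    intro h
    rw [h, ← hm] at hm₁
    rw [hm₁, hP.self] at h₁
    omega
  have n2 : j₂ ≠ j := by
    intro h
    rw [h, ← hm] at hm₂
    rw [hm₂, hP.self] at h₂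
    omega
  have n3 : j₁ ≠ j₂ := by
    intro h
    rw [h, ← hm₂] at hm₁
    exact h₁₂ hm₁
  obtain ⟨i, rfl⟩ : ∃ i, j = i + 1 := ⟨j - 1, by omega⟩
  have ha : l[i]? = some (l[i]'(by omega)) := List.getElem?_eq_getElem (by omega)
  have hb' : l[i + 1]? = some (l[i + 1]'(by omega)) := List.getElem?_eq_getElem (by omega)
  have s1 := fc_take_succ l i _ ha
  have s2 := fc_take_succ l (i + 1) _ hb'
  refine ⟨_, _, ha, hb', ?_, hm⟩
  have hma : g₀ * pw (l.take i) = m * (FreeGroup.of (l[i]'(by omega)))⁻¹ := by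
    rw [hm, s1]; group
  have hmb : g₀ * pw (l.take (i + 1 + 1)) = m * FreeGroup.of (l[i + 1]'(by omega)) := by
    rw [hm, s2]; group
  rw [← hma, ← hmb]
  have c1 : j₁ = i ∨ j₁ = i + 1 + 1 := by omega
  have c2 : j₂ = i ∨ j₂ = i + 1 + 1 := by omega
  rcases c1 with c1 | c1 <;> rcases c2 with c2 | c2
  · omega
  · left; rw [hm₁, hm₂, c1, c2]; exact ⟨rfl, rfl⟩
  · right; rw [hm₁, hm₂, c1, c2]; exact ⟨rfl, rfl⟩
  · omega

private theorem fc_phi_of {T : Type*} (W : T → X → List X) (t : T) (x : X) :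
    phi W t (FreeGroup.of x) = pw (W t x) := by
  unfold phi
  rw [FreeGroup.lift_apply_of]

private theorem fc_of_ne_inv (a b : X) : (FreeGroup.of a)⁻¹ ≠ FreeGroup.of b := by
  intro h
  have h' := congrArg FreeGroup.toWord h
  rw [FreeGroup.toWord_inv, FreeGroup.toWord_of, FreeGroup.toWord_of] at h'
  simp [FreeGroup.invRev] at h'

/-- Three consecutive points on a translate of `φ t s` are separated by two consecutive letters
of a word `W t x`. -/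
theorem turn_letters {T : Type*} (W : T → X → List X) (h Q P : ℕ)
    (hlen : ∀ t x, (W t x).length = 2 * h + 1) (hP : P + 1 ≤ Q) (hQ : Q ≤ h) (t : T)
    (s g m m₁ m₂ : FreeGroup X) (hs : dF 1 s = 1) (h₁ : dF m₁ m = 1) (h₂ : dF m m₂ = 1)
    (h₁₂ : m₁ ≠ m₂) (hm : Q ≤ dF g m) (hm' : dF g m ≤ h) (hb : Btw dF g m (g * phi W t s))
    (hb₁ : Btw dF g m₁ (g * phi W t s)) (hb₂ : Btw dF g m₂ (g * phi W t s)) :
    ∃ x i a b g₀, P ≤ i ∧ i + 1 < 2 * h + 1 ∧ (W t x)[i]? = some a ∧ (W t x)[i + 1]? = some b ∧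
      ((m₁ = m * (FreeGroup.of a)⁻¹ ∧ m₂ = m * FreeGroup.of b) ∨
        (m₂ = m * (FreeGroup.of a)⁻¹ ∧ m₁ = m * FreeGroup.of b)) ∧
      m = g₀ * pw ((W t x).take (i + 1)) ∧ g₀⁻¹ * g ∈ (phi W t).range := by
  have hT := (ltree_dF (X := X)).tree
  have hP := hT.toIsPathMetric
  obtain ⟨x, rfl | rfl⟩ := (dF_one_iff s).1 hs
  · rw [fc_phi_of] at hb hb₁ hb₂
    have hl := hlen t x
    obtain ⟨a, b, e1, e2, e3, e4⟩ := fc_aux (W t x) g m m₁ m₂ h₁ h₂ h₁₂ (by omega) (by omega)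
      hb hb₁ hb₂
    refine ⟨x, dF g m - 1, a, b, g, by omega, by omega, e1, e2, e3, e4, ?_⟩
    rw [inv_mul_cancel]
    exact one_mem _
  · rw [map_inv, fc_phi_of] at hb hb₁ hb₂
    have hl := hlen t x
    have hg : g = g * (pw (W t x))⁻¹ * pw (W t x) := by group
    have hsw : ∀ n, Btw dF g n (g * (pw (W t x))⁻¹) →
        Btw dF (g * (pw (W t x))⁻¹) n (g * (pw (W t x))⁻¹ * pw (W t x)) := by
      intro n hn
      rw [← hg]
      exact hP.btw_symm hn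
    have hd : dF g (g * (pw (W t x))⁻¹) = 2 * h + 1 := by
      rw [hP.symm]
      have h1 : dF (g * (pw (W t x))⁻¹) (g * (pw (W t x))⁻¹ * pw (W t x)) = 2 * h + 1 := by
        rw [← fc_dist, inv_mul_cancel_left, dF_pw, hl]
      rwa [← hg] at h1
    have hdm : dF (g * (pw (W t x))⁻¹) m + dF g m = 2 * h + 1 := by
      unfold Btw at hb
      rw [hd, hP.symm m] at hb
      omega
    obtain ⟨a, b, e1, e2, e3, e4⟩ := fc_aux (W t x) (g * (pw (W t x))⁻¹) m m₁ m₂ h₁ h₂ h₁₂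
      (by omega) (by omega) (hsw _ hb) (hsw _ hb₁) (hsw _ hb₂)
    refine ⟨x, _, a, b, _, ?_, ?_, e1, e2, e3, e4, ?_⟩
    · omega
    · omega
    · refine ⟨FreeGroup.of x, ?_⟩
      rw [fc_phi_of]
      group

theorem turn_of_words {T : Type*} (W : T → X → List X) (h Q P : ℕ)
    (hlen : ∀ t x, (W t x).length = 2 * h + 1) (hP : P + 1 ≤ Q) (hQ : Q ≤ h)
    (hPU : ∀ t t' x x' i i', P ≤ i → P ≤ i' → i + 1 < 2 * h + 1 → i' + 1 < 2 * h + 1 →
      (W t x)[i]? = (W t' x')[i']? → (W t x)[i + 1]? = (W t' x')[i' + 1]? →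
      t = t' ∧ x = x' ∧ i = i')
    (t t' : T) (s s' g g' m m₁ m₂ : FreeGroup X) (hs : dF 1 s = 1) (hs' : dF 1 s' = 1)
    (h₁ : dF m₁ m = 1) (h₂ : dF m m₂ = 1) (h₁₂ : m₁ ≠ m₂)
    (hm : Q ≤ dF g m) (hm' : dF g m ≤ h) (hb : Btw dF g m (g * phi W t s))
    (hb₁ : Btw dF g m₁ (g * phi W t s)) (hb₂ : Btw dF g m₂ (g * phi W t s))
    (hn : Q ≤ dF g' m) (hn' : dF g' m ≤ h) (hc : Btw dF g' m (g' * phi W t' s'))
    (hc₁ : Btw dF g' m₁ (g' * phi W t' s')) (hc₂ : Btw dF g' m₂ (g' * phi W t' s')) :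
    t = t' ∧ g⁻¹ * g' ∈ (phi W t).range := by
  obtain ⟨x, i, a, b, g₀, p1, p2, p3, p4, p5, p6, p7⟩ := turn_letters W h Q P hlen hP hQ t s g
    m m₁ m₂ hs h₁ h₂ h₁₂ hm hm' hb hb₁ hb₂
  obtain ⟨x', i', a', b', g₀', q1, q2, q3, q4, q5, q6, q7⟩ := turn_letters W h Q P hlen hP hQ t' s'
    g' m m₁ m₂ hs' h₁ h₂ h₁₂ hn hn' hc hc₁ hc₂
  have key : a = a' ∧ b = b' := by
    rcases p5 with ⟨u1, u2⟩ | ⟨u1, u2⟩ <;> rcases q5 with ⟨v1, v2⟩ | ⟨v1, v2⟩
    · rw [u1] at v1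
      rw [u2] at v2
      exact ⟨FreeGroup.of_injective (inv_injective (mul_left_cancel v1)),
        FreeGroup.of_injective (mul_left_cancel v2)⟩
    · rw [u1] at v2
      exact absurd (mul_left_cancel v2) (fc_of_ne_inv _ _)
    · rw [u1] at v2
      exact absurd (mul_left_cancel v2) (fc_of_ne_inv _ _)
    · rw [u1] at v1
      rw [u2] at v2
      exact ⟨FreeGroup.of_injective (inv_injective (mul_left_cancel v1)),
        FreeGroup.of_injective (mul_left_cancel v2)⟩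
  obtain ⟨rfl, rfl⟩ := key
  obtain ⟨rfl, rfl, rfl⟩ := hPU t t' x x' i i' p1 q1 p2 q2 (p3.trans q3.symm) (p4.trans q4.symm)
  refine ⟨rfl, ?_⟩
  have hg : g₀ = g₀' := mul_right_cancel (p6.symm.trans q6)
  subst hg
  have := mul_mem (inv_mem p7) q7
  rwa [mul_inv_rev, inv_inv, mul_assoc, mul_inv_cancel_left] at this

end Pool.Agent.Helper74.MH
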