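import Pool.Agent.Helper74.MH.Defs

/-! Module GGa (MP_f028d2_al): geodesics and the logarithmic bound. -/

set_option autoImplicit false

namespace Pool.Agent.Helper74.MH

/-- `c` is a geodesic path of length `n`. -/
def IsGeo {α : Type*} (D : α → α → ℕ) (n : ℕ) (c : ℕ → α) : Prop :=
  ∀ i j, i ≤ j → j ≤ n → D (c i) (c j) + i = j

theorem exists_geo {α : Type*} {D : α → α → ℕ} (hD : IsPathMetric D) (x y : α) :
    ∃ c : ℕ → α, c 0 = x ∧ c (D x y) = y ∧ IsGeo D (D x y) c := by
  have hself : ∀ z, D z z = 0 := fun z => (hD.zero_iff z z).2 rfl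
  have key : ∀ n : ℕ, ∀ x y : α, D x y = n →
      ∃ c : ℕ → α, c 0 = x ∧ c n = y ∧ IsGeo D n c := by
    intro n
    induction n with
    | zero =>
      intro x y h
      have hxy : x = y := (hD.zero_iff x y).1 h
      refine ⟨fun _ => x, rfl, hxy, ?_⟩
      intro i j hij hj
      have h0 := hself x
      show D x x + i = j
      omega
    | succ n ih =>
      intro x y h
      obtain ⟨z, hz, hxz⟩ := hD.geod x y 1 (by omega)
      have hzy : D z y = n := by
        unfold Btw at hz
        omega
      obtain ⟨c, hc0, hcn, hc⟩ := ih z y hzy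
      refine ⟨fun i => if i = 0 then x else c (i - 1), ?_, ?_, ?_⟩
      · simp
      · simp [hcn]
      · intro i j hij hj
        show D (if i = 0 then x else c (i - 1)) (if j = 0 then x else c (j - 1)) + i = j
        by_cases hi : i = 0
        · by_cases hj0 : j = 0
          · rw [if_pos hi, if_pos hj0, hself]
            omega
          · rw [if_pos hi, if_neg hj0]
            have h1 := hc 0 (j - 1) (Nat.zero_le _) (by omega)
            have h2 := hc (j - 1) n (by omega) le_rfl
            rw [hc0] at h1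
            rw [hcn] at h2
            have h3 := hD.tri x z (c (j - 1))
            have h4 := hD.tri x (c (j - 1)) y
            omega
        · have hj0 : j ≠ 0 := by omega
          rw [if_neg hi, if_neg hj0]
          have h1 := hc (i - 1) (j - 1) (by omega) (by omega)
          omega
  exact key (D x y) x y rfl

/-- Points of a guessed geodesic are logarithmically close to any path. -/
theorem gg_log {α : Type*} {D : α → α → ℕ} (hD : IsPathMetric D) {Lc : α → α → Set α} {h : ℕ}
    (h1 : ∀ x y, D x y ≤ 1 → ∀ p ∈ Lc x y, D x p ≤ h)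
    (h2 : ∀ x y z, ∀ p ∈ Lc x y, ∃ q ∈ Lc x z ∪ Lc z y, D p q ≤ h)
    (k n : ℕ) (c : ℕ → α) (hn : n ≤ 2 ^ k) (hc : ∀ i < n, D (c i) (c (i + 1)) ≤ 1) :
    ∀ p ∈ Lc (c 0) (c n), ∃ i ≤ n, D (c i) p ≤ h * (k + 1) := by
  induction k generalizing n c with
  | zero =>
    intro p hp
    have hn1 : n ≤ 1 := by simpa using hn
    have hd : D (c 0) (c n) ≤ 1 := by
      rcases Nat.eq_zero_or_pos n with h0 | h0
      · subst h0
        rw [(hD.zero_iff (c 0) (c 0)).2 rfl]
        exact Nat.zero_le _
      · have : n = 1 := by omega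
        subst this
        exact hc 0 Nat.one_pos
    refine ⟨0, Nat.zero_le _, ?_⟩
    have := h1 _ _ hd p hp
    simpa using this
  | succ k ih =>
    intro p hp
    by_cases hk : n ≤ 2 ^ k
    · obtain ⟨i, hi, hDi⟩ := ih n c hk hc p hp
      refine ⟨i, hi, hDi.trans ?_⟩
      exact Nat.mul_le_mul_left _ (by omega)
    · have hpow : 2 ^ (k + 1) = 2 ^ k + 2 ^ k := by rw [pow_succ]; omega
      obtain ⟨q, hq, hpq⟩ := h2 (c 0) (c n) (c (2 ^ k)) p hp
      have hqp : D q p ≤ h := by rw [hD.symm]; exact hpq
      rcases hq with hq | hq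
      · obtain ⟨i, hi, hDi⟩ := ih (2 ^ k) c le_rfl (fun i hi => hc i (by omega)) q hq
        refine ⟨i, by omega, ?_⟩
        have h3 := hD.tri (c i) q p
        have h4 : h * (k + 1 + 1) = h * (k + 1) + h := by ring
        omega
      · have hq' : q ∈ Lc ((fun i => c (2 ^ k + i)) 0) ((fun i => c (2 ^ k + i)) (n - 2 ^ k)) := by
          have e1 : 2 ^ k + (n - 2 ^ k) = n := by omega
          show q ∈ Lc (c (2 ^ k + 0)) (c (2 ^ k + (n - 2 ^ k)))
          rw [e1, Nat.add_zero]
          exact hq
        obtain ⟨i, hi, hDi⟩ := ih (n - 2 ^ k) (fun i => c (2 ^ k + i)) (by omega)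
          (fun i hi => by
            have := hc (2 ^ k + i) (by omega)
            exact this) q hq'
        refine ⟨2 ^ k + i, by omega, ?_⟩
        have hDi' : D (c (2 ^ k + i)) q ≤ h * (k + 1) := hDi
        have h3 := hD.tri (c (2 ^ k + i)) q p
        have h4 : h * (k + 1 + 1) = h * (k + 1) + h := by ring
        omega

end Pool.Agent.Helper74.MH
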