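import Pool.Agent.Helper74.MH.GGa

/-! Module GGb (MP_f028d2_al): guessed geodesics are uniformly close to geodesics. -/

set_option autoImplicit false

namespace Pool.Agent.Helper74.MH

private theorem geo_prefix {α : Type*} {D : α → α → ℕ} {n : ℕ} {c : ℕ → α} (hc : IsGeo D n c)
    {m : ℕ} (hm : m ≤ n) : IsGeo D m c :=
  fun i j hij hj => hc i j hij (by omega)

private theorem geo_shift {α : Type*} {D : α → α → ℕ} {n : ℕ} {c : ℕ → α} (hc : IsGeo D n c)
    {m l : ℕ} (hm : m + l ≤ n) : IsGeo D l (fun i => c (m + i)) := by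
  intro i j hij hj
  have := hc (m + i) (m + j) (by omega) (by omega)
  show D (c (m + i)) (c (m + j)) + i = j
  omega

private theorem geo_step {α : Type*} {D : α → α → ℕ} {n : ℕ} {c : ℕ → α} (hc : IsGeo D n c) :
    ∀ i < n, D (c i) (c (i + 1)) ≤ 1 := by
  intro i hi
  have := hc i (i + 1) (by omega) (by omega)
  omega

private theorem sqrt_bound (s h : ℕ) (hs : s ≤ h * (2 * Nat.sqrt s + 3 + 1) + 2 * h) :
    s ≤ (2 * h + 6) ^ 2 := by
  set r := Nat.sqrt s with hr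
  have h1 : r * r ≤ s := Nat.sqrt_le s
  have h2 : s < (r + 1) * (r + 1) := Nat.lt_succ_sqrt s
  have h3 : r < 2 * h + 6 := by
    by_contra hc
    push Not at hc
    nlinarith
  nlinarith

private theorem six_le (s : ℕ) : 6 * s ≤ 2 ^ (2 * Nat.sqrt s + 3) := by
  have h2 : s < (Nat.sqrt s + 1) * (Nat.sqrt s + 1) := Nat.lt_succ_sqrt s
  have h3 : Nat.sqrt s + 1 ≤ 2 ^ Nat.sqrt s := Nat.lt_two_pow_self
  have h4 : 2 ^ (2 * Nat.sqrt s + 3) = 8 * (2 ^ Nat.sqrt s * 2 ^ Nat.sqrt s) := by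
    rw [pow_add, two_mul, pow_add]; ring
  rw [h4]
  have h5 := Nat.mul_le_mul h3 h3
  omega

/-- Every point of a guessed geodesic is uniformly close to the geodesic. -/
theorem gg_near {α : Type*} {D : α → α → ℕ} (hD : IsPathMetric D) {Lc : α → α → Set α} {h : ℕ}
    (h1 : ∀ x y, D x y ≤ 1 → ∀ p ∈ Lc x y, D x p ≤ h)
    (h2 : ∀ x y z, ∀ p ∈ Lc x y, ∃ q ∈ Lc x z ∪ Lc z y, D p q ≤ h) :
    ∃ R : ℕ, ∀ (n : ℕ) (c : ℕ → α), IsGeo D n c → ∀ p ∈ Lc (c 0) (c n), ∃ i ≤ n, D (c i) p ≤ R := by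
  refine ⟨(2 * h + 6) ^ 2, ?_⟩
  intro N c0 hc0 p0 hp0
  by_contra hcon
  push Not at hcon
  set S : Set ℕ := {s | ∃ n, n ≤ N ∧ ∃ c : ℕ → α, IsGeo D n c ∧ ∃ p ∈ Lc (c 0) (c n),
    ∀ i ≤ n, s ≤ D (c i) p} with hS
  have hbdd : BddAbove S := by
    refine ⟨h * (N + 1), ?_⟩
    rintro s ⟨n, hn, c, hc, p, hp, hs⟩
    obtain ⟨i, hi, hi'⟩ := gg_log hD h1 h2 n n c Nat.lt_two_pow_self.le (geo_step hc) p hp
    have h3 := hs i hi
    have h4 : h * (n + 1) ≤ h * (N + 1) := Nat.mul_le_mul_left _ (by omega)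
    omega
  have hmem0 : (2 * h + 6) ^ 2 + 1 ∈ S :=
    ⟨N, le_rfl, c0, hc0, p0, hp0, fun i hi => hcon i hi⟩
  have hsup : sSup S ∈ S := Nat.sSup_mem ⟨_, hmem0⟩ hbdd
  have hle : (2 * h + 6) ^ 2 + 1 ≤ sSup S := le_csSup hbdd hmem0
  have hmax : ∀ (n : ℕ), n ≤ N → ∀ c : ℕ → α, IsGeo D n c → ∀ p ∈ Lc (c 0) (c n),
      ∃ i ≤ n, D (c i) p ≤ sSup S := by
    intro n hn c hc p hp
    by_contra hcc
    push Not at hcc
    have h3 : sSup S + 1 ∈ S := ⟨n, hn, c, hc, p, hp, fun i hi => hcc i hi⟩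
    have h4 := le_csSup hbdd h3
    omega
  generalize sSup S = s at hsup hle hmax
  obtain ⟨n, hn, c, hc, p, hp, hs⟩ := hsup
  obtain ⟨i0, hi0, hi0'⟩ := hmax n hn c hc p hp
  have hsq := fun h' => sqrt_bound s h h'
  have h3h : 3 * h ≤ (2 * h + 6) ^ 2 := by nlinarith
  -- the left point
  have hleft : ∀ p' ∈ Lc (c 0) (c (i0 - 3 * s)), D p p' ≤ 2 * h → False := by
    intro p' hp' hpp
    by_cases hi1 : i0 - 3 * s = 0
    · rw [hi1] at hp'
      have h3 := h1 (c 0) (c 0) (by rw [(hD.zero_iff _ _).2 rfl]; omega) p' hp'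
      have h4 := hs 0 (Nat.zero_le _)
      have h5 := hD.tri (c 0) p' p
      have h6 := hD.symm p' p
      omega
    · obtain ⟨j, hj, hj'⟩ := hmax (i0 - 3 * s) (by omega) c (geo_prefix hc (by omega)) p' hp'
      have h3 := hc j i0 (by omega) hi0
      have h4 := hD.tri (c j) p' p
      have h5 := hD.tri (c j) p (c i0)
      have h6 := hD.symm p' p
      have h7 := hD.symm p (c i0)
      omega
  -- the right point
  have hright : ∀ p' ∈ Lc (c (min (i0 + 3 * s) n)) (c n), D p p' ≤ 2 * h → False := by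
    intro p' hp' hpp
    by_cases hi2 : n ≤ i0 + 3 * s
    · rw [min_eq_right hi2] at hp'
      have h3 := h1 (c n) (c n) (by rw [(hD.zero_iff _ _).2 rfl]; omega) p' hp'
      have h4 := hs n le_rfl
      have h5 := hD.tri (c n) p' p
      have h6 := hD.symm p' p
      omega
    · push Not at hi2
      rw [min_eq_left hi2.le] at hp'
      have hg : IsGeo D (n - (i0 + 3 * s)) (fun i => c (i0 + 3 * s + i)) :=
        geo_shift hc (by omega)
      obtain ⟨j, hj, hj'⟩ := hmax (n - (i0 + 3 * s)) (by omega) _ hg p' (by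
        show p' ∈ Lc (c (i0 + 3 * s + 0)) (c (i0 + 3 * s + (n - (i0 + 3 * s))))
        rw [show i0 + 3 * s + (n - (i0 + 3 * s)) = n by omega, add_zero]
        exact hp')
      have h3 := hc i0 (i0 + 3 * s + j) (by omega) (by omega)
      have h4 := hD.tri (c (i0 + 3 * s + j)) p' p
      have h5 := hD.tri (c (i0 + 3 * s + j)) p (c i0)
      have h6 := hD.symm p' p
      have h7 := hD.symm p (c i0)
      have h8 := hD.symm (c (i0 + 3 * s + j)) (c i0)
      omega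
  -- the middle
  have hmid : ∀ p' ∈ Lc (c (i0 - 3 * s)) (c (min (i0 + 3 * s) n)), D p p' ≤ 2 * h → False := by
    intro p' hp' hpp
    have hm1 : min (i0 + 3 * s) n ≤ n := min_le_right _ _
    have hm2 : min (i0 + 3 * s) n ≤ i0 + 3 * s := min_le_left _ _
    have hm3 : i0 ≤ min (i0 + 3 * s) n := le_min (by omega) hi0
    generalize min (i0 + 3 * s) n = i2 at hp' hm1 hm2 hm3
    have hg : IsGeo D (i2 - (i0 - 3 * s)) (fun i => c ((i0 - 3 * s) + i)) :=
      geo_shift hc (by omega)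
    have hsix := six_le s
    obtain ⟨j, hj, hj'⟩ := gg_log hD h1 h2 (2 * Nat.sqrt s + 3) (i2 - (i0 - 3 * s))
      (fun i => c ((i0 - 3 * s) + i)) (by omega) (geo_step hg) p' (by
        show p' ∈ Lc (c (i0 - 3 * s + 0)) (c (i0 - 3 * s + (i2 - (i0 - 3 * s))))
        rw [show i0 - 3 * s + (i2 - (i0 - 3 * s)) = i2 by omega, add_zero]
        exact hp')
    have h3 := hs (i0 - 3 * s + j) (by omega)
    have h4 := hD.tri (c (i0 - 3 * s + j)) p' p
    have h6 := hD.symm p' p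
    have hj'' : D (c (i0 - 3 * s + j)) p' ≤ h * (2 * Nat.sqrt s + 3 + 1) := hj'
    have h7 := hsq (by omega)
    omega
  obtain ⟨q1, hq1, hq1'⟩ := h2 (c 0) (c n) (c (i0 - 3 * s)) p hp
  rcases hq1 with hq1 | hq1
  · exact hleft q1 hq1 (by omega)
  · obtain ⟨q2, hq2, hq2'⟩ := h2 (c (i0 - 3 * s)) (c n) (c (min (i0 + 3 * s) n)) q1 hq1
    have h3 := hD.tri p q1 q2
    rcases hq2 with hq2 | hq2
    · exact hmid q2 hq2 (by omega)
    · exact hright q2 hq2 (by omega)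

end Pool.Agent.Helper74.MH
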