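import Pool.Agent.Helper74.MH.GGa

/-! Module GGc (MP_f028d2_al): geodesics are uniformly close to guessed geodesics. -/

set_option autoImplicit false

namespace Pool.Agent.Helper74.MH

private theorem gg_back_aux {α : Type*} {D : α → α → ℕ} (hD : IsPathMetric D) {S : Set α}
    {h R n : ℕ} {c : ℕ → α} (hc : IsGeo D n c) (h0 : c 0 ∈ S)
    (hS : ∀ p ∈ S, ∃ i ≤ n, D (c i) p ≤ R) (q : α) (hch : Chain D S h (c 0) q) :
    ∀ t ≤ n, D (c t) q ≤ R → ∀ i ≤ t, ∃ p ∈ S, D (c i) p ≤ 3 * R + h := by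
  have hch' : Relation.ReflTransGen (fun p q => p ∈ S ∧ q ∈ S ∧ D p q ≤ h) (c 0) q := hch
  induction hch' with
  | refl =>
    intro t ht hR i hi
    refine ⟨c 0, h0, ?_⟩
    have h1 := hc 0 t (Nat.zero_le _) ht
    have h2 := hc 0 i (Nat.zero_le _) (hi.trans ht)
    rw [hD.symm] at hR ⊢
    omega
  | @tail q q' hq hqq ih =>
    intro t' ht' hR i hi
    obtain ⟨hqS, hq'S, hqh⟩ := hqq
    obtain ⟨t, ht, htR⟩ := hS q hqS
    rcases le_or_gt i t with hit | hit
    · exact ih hq t ht htR i hit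
    · refine ⟨q, hqS, ?_⟩
      have h1 := hc t i hit.le (hi.trans ht')
      have h2 := hc t t' (hit.le.trans hi) ht'
      have h3 := hD.tri (c t) q (c t')
      have h4 := hD.tri q q' (c t')
      have h5 := hD.tri (c i) (c t) q
      have h6 := hD.symm (c i) (c t)
      have h7 := hD.symm q' (c t')
      omega

/-- If `S` contains a chain from `c 0` to `c n` and lies near the geodesic `c`, then `c` lies
near `S`. -/
theorem gg_back {α : Type*} {D : α → α → ℕ} (hD : IsPathMetric D) {S : Set α} {h R n : ℕ}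
    {c : ℕ → α} (hc : IsGeo D n c) (h0 : c 0 ∈ S) (hS : ∀ p ∈ S, ∃ i ≤ n, D (c i) p ≤ R)
    (hch : Chain D S h (c 0) (c n)) :
    ∀ i ≤ n, ∃ p ∈ S, D (c i) p ≤ 3 * R + h := by
  refine gg_back_aux hD hc h0 hS (c n) hch n le_rfl ?_
  rw [(hD.zero_iff (c n) (c n)).2 rfl]
  exact Nat.zero_le _

end Pool.Agent.Helper74.MH
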