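import Pool.Agent.Helper74.MH.GGa

/-! Module GGd (MP_f028d2_al): slim triangles give the four point condition. -/

set_option autoImplicit false

namespace Pool.Agent.Helper74.MH

private theorem geo_btw {α : Type*} {D : α → α → ℕ} {n : ℕ} {c : ℕ → α} (hc : IsGeo D n c)
    {i : ℕ} (hi : i ≤ n) : D (c 0) (c i) + D (c i) (c n) = D (c 0) (c n) := by
  have h1 := hc 0 i (Nat.zero_le _) hi
  have h2 := hc i n hi le_rfl
  have h3 := hc 0 n (Nat.zero_le _) le_rfl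
  omega

/-- A point of `[x,z]` close to `[x,w]` and to `[w,z]`. -/
private theorem exists_center {α : Type*} {D : α → α → ℕ} (hD : IsPathMetric D) (δ : ℕ)
    (hslim : ∀ (n n' n'' : ℕ) (c c' c'' : ℕ → α), IsGeo D n c → IsGeo D n' c' → IsGeo D n'' c'' →
      c 0 = c' 0 → c' n' = c'' 0 → c n = c'' n'' →
      ∀ i ≤ n, (∃ j ≤ n', D (c i) (c' j) ≤ δ) ∨ (∃ j ≤ n'', D (c i) (c'' j) ≤ δ))
    (n n' n'' : ℕ) (c c' c'' : ℕ → α) (hc : IsGeo D n c) (hc' : IsGeo D n' c')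
    (hc'' : IsGeo D n'' c'') (e0 : c 0 = c' 0) (e1 : c' n' = c'' 0) (e2 : c n = c'' n'') :
    ∃ i ≤ n, (∃ j ≤ n', D (c i) (c' j) ≤ δ + 1) ∧ (∃ j ≤ n'', D (c i) (c'' j) ≤ δ + 1) := by
  classical
  have hQn : ∃ i, i ≤ n ∧ ∃ j ≤ n'', D (c i) (c'' j) ≤ δ :=
    ⟨n, le_rfl, n'', le_rfl, by rw [e2, (hD.zero_iff _ _).2 rfl]; omega⟩
  obtain ⟨hi, j, hj, hj'⟩ := Nat.find_spec hQn
  have hmin := fun m => Nat.find_min hQn (m := m)
  generalize Nat.find hQn = i at hi hj' hmin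
  refine ⟨i, hi, ?_, j, hj, by omega⟩
  rcases Nat.eq_zero_or_pos i with h0 | h0
  · subst h0
    exact ⟨0, Nat.zero_le _, by rw [e0, (hD.zero_iff _ _).2 rfl]; omega⟩
  · have h1 := hmin (i - 1) (by omega)
    rcases hslim n n' n'' c c' c'' hc hc' hc'' e0 e1 e2 (i - 1) (by omega) with h2 | h2
    · obtain ⟨k, hk, hk'⟩ := h2
      refine ⟨k, hk, ?_⟩
      have h3 := hc (i - 1) i (by omega) hi
      have h4 := hD.tri (c i) (c (i - 1)) (c' k)
      have h5 := hD.symm (c i) (c (i - 1))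
      omega
    · exact absurd ⟨by omega, h2⟩ h1

theorem fourPt_of_slim {α : Type*} {D : α → α → ℕ} (hD : IsPathMetric D) (δ : ℕ)
    (hslim : ∀ (n n' n'' : ℕ) (c c' c'' : ℕ → α), IsGeo D n c → IsGeo D n' c' → IsGeo D n'' c'' →
      c 0 = c' 0 → c' n' = c'' 0 → c n = c'' n'' →
      ∀ i ≤ n, (∃ j ≤ n', D (c i) (c' j) ≤ δ) ∨ (∃ j ≤ n'', D (c i) (c'' j) ≤ δ)) :
    FourPt D := by
  refine ⟨3 * (δ + 1), ?_⟩
  intro x y z w
  obtain ⟨c, hc0, hcn, hc⟩ := exists_geo hD x z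
  obtain ⟨c', hc'0, hc'n, hc'⟩ := exists_geo hD x w
  obtain ⟨c'', hc''0, hc''n, hc''⟩ := exists_geo hD w z
  obtain ⟨a, ha0, han, ha⟩ := exists_geo hD x y
  obtain ⟨b, hb0, hbn, hb⟩ := exists_geo hD y z
  obtain ⟨i, hi, ⟨j, hj, hj'⟩, ⟨k, hk, hk'⟩⟩ := exists_center hD δ hslim _ _ _ c c' c'' hc hc' hc''
    (by rw [hc0, hc'0]) (by rw [hc'n, hc''0]) (by rw [hcn, hc''n])
  have e1 := geo_btw hc hi
  have e2 := geo_btw hc' hj
  have e3 := geo_btw hc'' hk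
  rw [hc0, hcn] at e1
  rw [hc'0, hc'n] at e2
  rw [hc''0, hc''n] at e3
  have key : 2 * D w (c i) + D x z ≤ D w x + D w z + 4 * (δ + 1) := by
    have t1 := hD.tri x (c' j) (c i)
    have t2 := hD.tri w (c' j) (c i)
    have t3 := hD.tri w (c'' k) (c i)
    have t4 := hD.tri (c i) (c'' k) z
    have s1 := hD.symm (c' j) (c i)
    have s2 := hD.symm w (c' j)
    have s3 := hD.symm (c'' k) (c i)
    have s4 := hD.symm w x
    omega
  have hcase := hslim _ _ _ c a b hc ha hb (by rw [hc0, ha0]) (by rw [han, hb0])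
    (by rw [hcn, hbn]) i hi
  rcases hcase with ⟨l, hl, hl'⟩ | ⟨l, hl, hl'⟩
  · have e4 := geo_btw ha hl
    rw [ha0, han] at e4
    have t1 := hD.tri w (a l) x
    have t2 := hD.tri w (a l) y
    have t3 := hD.tri w (c i) (a l)
    have s1 := hD.symm (a l) x
    have fin : D w x + D w y ≤ 2 * D w (c i) + 2 * δ + D x y := by omega
    have h5 := min_le_left ((D w x : ℤ) + (D w y : ℤ) - (D x y : ℤ))
      ((D w y : ℤ) + (D w z : ℤ) - (D y z : ℤ))
    push_cast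
    omega
  · have e4 := geo_btw hb hl
    rw [hb0, hbn] at e4
    have t1 := hD.tri w (b l) y
    have t2 := hD.tri w (b l) z
    have t3 := hD.tri w (c i) (b l)
    have s1 := hD.symm (b l) y
    have fin : D w y + D w z ≤ 2 * D w (c i) + 2 * δ + D y z := by omega
    have h5 := min_le_right ((D w x : ℤ) + (D w y : ℤ) - (D x y : ℤ))
      ((D w y : ℤ) + (D w z : ℤ) - (D y z : ℤ))
    push_cast
    omega

end Pool.Agent.Helper74.MH
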