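import Pool.Agent.Helper74.MH.GGb
import Pool.Agent.Helper74.MH.GGc
import Pool.Agent.Helper74.MH.GGd

/-! Module GGe (MP_f028d2_al): the guessing geodesics theorem. -/

set_option autoImplicit false

namespace Pool.Agent.Helper74.MH

/-- Guessing geodesics. -/
theorem fourPt_of_guess {α : Type*} {D : α → α → ℕ} (hD : IsPathMetric D)
    (Lc : α → α → Set α) (h : ℕ) (h0 : ∀ x y, x ∈ Lc x y)
    (h1 : ∀ x y, D x y ≤ 1 → ∀ p ∈ Lc x y, D x p ≤ h)
    (h2 : ∀ x y z, ∀ p ∈ Lc x y, ∃ q ∈ Lc x z ∪ Lc z y, D p q ≤ h)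
    (h3 : ∀ x y, Chain D (Lc x y) h x y) : FourPt D := by
  obtain ⟨R, hR⟩ := gg_near hD h1 h2
  refine fourPt_of_slim hD (3 * R + h + h + R) ?_
  intro n n' n'' c c' c'' hc hc' hc'' e1 e2 e3 i hi
  obtain ⟨p, hp, hip⟩ := gg_back hD hc (h0 (c 0) (c n)) (hR n c hc) (h3 (c 0) (c n)) i hi
  obtain ⟨q, hq, hpq⟩ := h2 (c 0) (c n) (c' n') p hp
  have h4 := hD.tri (c i) p q
  rcases hq with hq | hq
  · left
    rw [e1] at hq
    obtain ⟨j, hj, hjq⟩ := hR n' c' hc' q hq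
    refine ⟨j, hj, ?_⟩
    have h5 := hD.tri (c i) q (c' j)
    have h6 := hD.symm q (c' j)
    omega
  · right
    rw [e2, e3] at hq
    obtain ⟨j, hj, hjq⟩ := hR n'' c'' hc'' q hq
    refine ⟨j, hj, ?_⟩
    have h5 := hD.tri (c i) q (c'' j)
    have h6 := hD.symm q (c'' j)
    omega

end Pool.Agent.Helper74.MH
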