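import Pool.Agent.Helper74.MH.Defs3

/-! Module Ha (MP_f028d2_al): right actions of `HG X T W`. -/

set_option autoImplicit false

namespace Pool.Agent.Helper74.MH

private theorem foldl_perm {X Ω : Type*} (α : X → Equiv.Perm Ω) (l : List X) :
    ∀ ω : Ω, ((l.map (fun x => (α x)⁻¹)).prod)⁻¹ ω = l.foldl (fun ω y => α y ω) ω := by
  induction l with
  | nil => intro ω; simp
  | cons x l ih =>
    intro ω
    rw [List.map_cons, List.prod_cons, mul_inv_rev, Equiv.Perm.mul_apply, ih, inv_inv,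
      List.foldl_cons]

/-- Right actions of the presented group from actions of the generators. -/
theorem exists_ra {X T Ω : Type*} (W : T → X → List X) (α : X → Equiv.Perm Ω)
    (τ : T → Equiv.Perm Ω)
    (h : ∀ t x ω, τ t (α x ω) = (W t x).foldl (fun ω y => α y ω) (τ t ω)) :
    ∃ ra : Ω → HG X T W → Ω, (∀ ω, ra ω 1 = ω) ∧ (∀ ω g k, ra ω (g * k) = ra (ra ω g) k) ∧
      (∀ ω x, ra ω (iX W (FreeGroup.of x)) = α x ω) ∧ (∀ ω t, ra ω (tt W t) = τ t ω) := by
  obtain ⟨f, hf1, hf2⟩ := hg_lift (K := Equiv.Perm Ω) W (fun x => (α x)⁻¹) (fun t => (τ t)⁻¹)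
    (by
      intro t x
      rw [← inv_inj]
      ext ω
      rw [foldl_perm]
      have h1 := h t x ((τ t)⁻¹ ω)
      have h2 : (τ t) ((τ t)⁻¹ ω) = ω := (τ t).apply_symm_apply ω
      rw [h2] at h1
      rw [← h1]
      simp)
  refine ⟨fun ω g => (f g)⁻¹ ω, ?_, ?_, ?_, ?_⟩
  · intro ω
    simp
  · intro ω g k
    simp [mul_inv_rev]
  · intro ω x
    simp only [hf1, FreeGroup.lift_apply_of, inv_inv]
  · intro ω t
    simp only [hf2, inv_inv]

end Pool.Agent.Helper74.MH
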