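import Pool.Agent.Helper74.MH.Defs3

/-! Module Hb (MP_f028d2_al): legal computations give membership. -/

set_option autoImplicit false

namespace Pool.Agent.Helper74.MH

variable {A T : Type} {p : ℕ} {M : Mach A T} {Z : Noise A T p} {L : ℕ}

/-- The subgroup generated by the noise letters. -/
private def Ns (A : Type) (p : ℕ) : Subgroup (FreeGroup (XX A p)) :=
  Subgroup.closure (Set.range fn)

private theorem fn_mem (n : ZMod p) : (fn n : FreeGroup (XX A p)) ∈ Ns A p :=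
  Subgroup.subset_closure ⟨n, rfl⟩

private theorem pw_append {X : Type*} (l l' : List X) : pw (l ++ l') = pw l * pw l' := by
  simp [pw]

private theorem pw_noise_mem (l : List (ZMod p)) :
    pw (l.map (fun n => (Sum.inr (Sum.inr n) : XX A p))) ∈ Ns A p := by
  induction l with
  | nil => simp only [List.map_nil, pw, List.prod_nil]; exact (Ns A p).one_mem
  | cons n l ih =>
    have h : pw ((n :: l).map (fun n => (Sum.inr (Sum.inr n) : XX A p))) =
        fn n * pw (l.map (fun n => (Sum.inr (Sum.inr n) : XX A p))) := by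
      simp [pw, fn]
    rw [h]
    exact (Ns A p).mul_mem (fn_mem n) ih

private theorem pw_fa (l : List A) :
    pw (l.map (Sum.inl : A → XX A p)) = (l.map fa).prod := by
  simp only [pw, List.map_map]
  rfl

private theorem phi_Ns (t : T) {n : FreeGroup (XX A p)} (hn : n ∈ Ns A p) :
    phi (WW M Z L) t n ∈ Ns A p := by
  have h : Ns A p ≤ (Ns A p).comap (phi (WW M Z L) t) := by
    unfold Ns
    rw [Subgroup.closure_le]
    rintro _ ⟨m, rfl⟩
    show phi (WW M Z L) t (fn m) ∈ Ns A p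
    have e : phi (WW M Z L) t (fn m) = pw ((nV M Z L t (Sum.inr (Sum.inr m))).map
        (fun n => (Sum.inr (Sum.inr n) : XX A p))) := by
      simp [phi, fn, WW, preW]
    rw [e]
    exact pw_noise_mem _
  exact h hn

private theorem phi_fa (t : T) (y : A) : ∃ n ∈ Ns A p,
    phi (WW M Z L) t (fa y) = fa (M.sg t y) * n := by
  refine ⟨_, pw_noise_mem (nV M Z L t (Sum.inl y)), ?_⟩
  have e : phi (WW M Z L) t (fa y) = pw (preW M t (Sum.inl y) ++
      (nV M Z L t (Sum.inl y)).map (fun n => (Sum.inr (Sum.inr n) : XX A p))) := by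
    simp [phi, fa, WW]
  rw [e, pw_append]
  congr 1

private theorem phi_fe (t : T) : ∃ n ∈ Ns A p,
    phi (WW M Z L) t fe = ((M.g t).map fa).prod * fe * n := by
  refine ⟨_, pw_noise_mem (nV M Z L t (Sum.inr (Sum.inl ()))), ?_⟩
  have e : phi (WW M Z L) t fe = pw (preW M t (Sum.inr (Sum.inl ())) ++
      (nV M Z L t (Sum.inr (Sum.inl ()))).map (fun n => (Sum.inr (Sum.inr n) : XX A p))) := by
    simp [phi, fe, WW]
  rw [e, pw_append]
  congr 1
  rw [← pw_fa]
  simp [pw, preW, fe]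

/-- Noisy words with given content: `x₁ n₁ x₂ n₂ … x_m n_m e n_{m+1}`. -/
private def Noisy : List A → FreeGroup (XX A p) → Prop
  | [], c => ∃ n ∈ Ns A p, c = fe * n
  | y :: x, c => ∃ n ∈ Ns A p, ∃ c', Noisy x c' ∧ c = fa y * n * c'

private theorem noisy_clean (x : List A) {n : FreeGroup (XX A p)} (hn : n ∈ Ns A p) :
    Noisy x ((x.map fa).prod * fe * n) := by
  induction x with
  | nil => exact ⟨n, hn, by simp⟩
  | cons y x ih =>
    exact ⟨1, (Ns A p).one_mem, _, ih, by simp [mul_assoc]⟩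

private theorem noisy_phi (t : T) (x : List A) : ∀ c : FreeGroup (XX A p), Noisy x c →
    Noisy (x.map (M.sg t) ++ M.g t) (phi (WW M Z L) t c) := by
  induction x with
  | nil =>
    rintro c ⟨n, hn, rfl⟩
    obtain ⟨m, hm, e⟩ := phi_fe (M := M) (Z := Z) (L := L) (A := A) (p := p) t
    rw [map_mul, e, mul_assoc _ m]
    exact noisy_clean _ ((Ns A p).mul_mem hm (phi_Ns t hn))
  | cons y x ih =>
    rintro c ⟨n, hn, c', hc', rfl⟩
    obtain ⟨m, hm, e⟩ := phi_fa (M := M) (Z := Z) (L := L) (A := A) (p := p) t y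
    rw [map_mul, map_mul, e]
    exact ⟨m * phi (WW M Z L) t n, (Ns A p).mul_mem hm (phi_Ns t hn), _, ih c' hc',
      by simp only [mul_assoc]⟩

private theorem conj_mem (i : Fin 4) {n : FreeGroup (XX A p)} (hn : n ∈ Ns A p) :
    iX (WW M Z L) (cc p M i * n * (cc p M i)⁻¹) ∈ (hPhi M Z L).range := by
  have h : Ns A p ≤ (hPhi M Z L).range.comap
      ((iX (WW M Z L)).comp (MulAut.conj (cc p M i)).toMonoidHom) := by
    unfold Ns
    rw [Subgroup.closure_le]
    rintro _ ⟨m, rfl⟩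
    show iX (WW M Z L) (cc p M i * fn m * (cc p M i)⁻¹) ∈ (hPhi M Z L).range
    exact ⟨FreeGroup.of (Sum.inr (i, m)), by simp [hPhi, hgen]⟩
  exact h hn

private theorem noise_mem {n : FreeGroup (XX A p)} (hn : n ∈ Ns A p) :
    iX (WW M Z L) n ∈ (hPhi M Z L).range := by
  have h := conj_mem (M := M) (Z := Z) (L := L) 0 hn
  simpa [cc] using h

private theorem s_mem (t : T) :
    iX (WW M Z L) (fa (M.a t)) * tt (WW M Z L) t ∈ (hPhi M Z L).range :=
  ⟨FreeGroup.of (Sum.inl t), by simp [hPhi, hgen]⟩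

/-- The positive words in the stable letters. -/
private def Tp (M : Mach A T) (Z : Noise A T p) (L : ℕ) : Submonoid (GG M Z L) :=
  Submonoid.closure (Set.range (tt (WW M Z L)))

private theorem conj_Tp {τ : GG M Z L} (hτ : τ ∈ Tp M Z L) : ∀ n ∈ Ns A p,
    ∃ m ∈ Ns A p, τ⁻¹ * iX (WW M Z L) n * τ = iX (WW M Z L) m := by
  induction hτ using Submonoid.closure_induction with
  | mem x hx =>
    obtain ⟨t, rfl⟩ := hx
    intro n hn
    exact ⟨_, phi_Ns t hn, hg_rel _ _ _⟩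
  | one => intro n hn; exact ⟨n, hn, by simp⟩
  | mul x y _ _ hx hy =>
    intro n hn
    obtain ⟨m, hm, e1⟩ := hx n hn
    obtain ⟨m', hm', e2⟩ := hy m hm
    refine ⟨m', hm', ?_⟩
    rw [← e2, ← e1]
    simp only [mul_inv_rev, mul_assoc]

private theorem claim (x : List A) (h : M.Reach x [M.r1, M.r2]) :
    ∀ c : FreeGroup (XX A p), Noisy x c → ∃ hh ∈ (hPhi M Z L).range, ∃ n ∈ Ns A p,
      ∃ τ ∈ Tp M Z L, iX (WW M Z L) c = hh * iX (WW M Z L) (cc p M 3 * n) * τ⁻¹ := by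
  induction h using Relation.ReflTransGen.head_induction_on with
  | refl =>
    rintro c ⟨n1, hn1, c1, ⟨n2, hn2, c2, ⟨n3, hn3, rfl⟩, rfl⟩, rfl⟩
    refine ⟨_, (hPhi M Z L).range.mul_mem (conj_mem 1 hn1) (conj_mem 2 hn2), n3, hn3, 1,
      (Tp M Z L).one_mem, ?_⟩
    rw [inv_one, mul_one, ← map_mul, ← map_mul]
    congr 1
    simp only [cc]
    group
  | head hstep _ ih =>
    obtain ⟨t, z, rfl, rfl⟩ := hstep
    rintro c ⟨n, hn, c', hc', rfl⟩
    obtain ⟨hh, h1, m, hm, τ, hτ, e⟩ := ih _ (noisy_phi t z c' hc')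
    refine ⟨iX (WW M Z L) (fa (M.a t)) * tt (WW M Z L) t * iX (WW M Z L) (phi (WW M Z L) t n) * hh,
      (hPhi M Z L).range.mul_mem ((hPhi M Z L).range.mul_mem (s_mem t) (noise_mem (phi_Ns t hn)))
        h1, m, hm, tt (WW M Z L) t * τ,
      (Tp M Z L).mul_mem (Submonoid.subset_closure ⟨t, rfl⟩) hτ, ?_⟩
    have e1 := hg_rel (WW M Z L) t (n * c')
    rw [map_mul (phi (WW M Z L) t), map_mul (iX (WW M Z L)) (phi (WW M Z L) t n), e] at e1
    rw [mul_assoc (fa (M.a t)), map_mul]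
    have e2 : iX (WW M Z L) (n * c') = tt (WW M Z L) t *
        ((tt (WW M Z L) t)⁻¹ * iX (WW M Z L) (n * c') * tt (WW M Z L) t) *
          (tt (WW M Z L) t)⁻¹ := by group
    rw [e2, e1]
    simp only [mul_assoc, mul_inv_rev]

theorem test_mem_of_reach (w : List A) (h : M.Reach w [M.r1, M.r2]) :
    testEl M Z L w ∈ (hPhi M Z L).range := by
  obtain ⟨hh, h1, n, hn, τ, hτ, e⟩ := claim (Z := Z) (L := L) w h _
    (noisy_clean w (Ns A p).one_mem)
  obtain ⟨m, hm, e2⟩ := conj_Tp hτ _ (fn_mem (A := A) (0 : ZMod p))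
  have e3 : testEl M Z L w = iX (WW M Z L) ((w.map fa).prod * fe * 1) * iX (WW M Z L) (fn 0) *
      (iX (WW M Z L) ((w.map fa).prod * fe * 1))⁻¹ := by
    rw [← map_inv, ← map_mul, ← map_mul]
    unfold testEl
    congr 1
    group
  have e4 : testEl M Z L w = hh * iX (WW M Z L) (cc p M 3 * (n * m * n⁻¹) * (cc p M 3)⁻¹) *
      hh⁻¹ := by
    rw [e3, e]
    have e5 : hh * iX (WW M Z L) (cc p M 3 * n) * τ⁻¹ * iX (WW M Z L) (fn 0) *
        (hh * iX (WW M Z L) (cc p M 3 * n) * τ⁻¹)⁻¹ =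
        hh * iX (WW M Z L) (cc p M 3 * n) * (τ⁻¹ * iX (WW M Z L) (fn 0) * τ) *
          (iX (WW M Z L) (cc p M 3 * n))⁻¹ * hh⁻¹ := by group
    rw [e5, e2, ← map_inv, mul_assoc hh, ← map_mul, mul_assoc hh, ← map_mul]
    congr 3
    group
  rw [e4]
  exact (hPhi M Z L).range.mul_mem ((hPhi M Z L).range.mul_mem h1 (conj_mem 3
    ((Ns A p).mul_mem ((Ns A p).mul_mem hn hm) ((Ns A p).inv_mem hn))))
    ((hPhi M Z L).range.inv_mem h1)

end Pool.Agent.Helper74.MH
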