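import Pool.Agent.Helper74.MH.Defs

/-! Module NTa (MP_f028d2_al): basic lemmas on integer trees. -/

set_option autoImplicit false

namespace Pool.Agent.Helper74.MH

variable {α : Type*} {d : α → α → ℕ}

theorem IsPathMetric.self (hd : IsPathMetric d) (x : α) : d x x = 0 := by
  exact (hd.zero_iff x x).2 rfl

theorem IsPathMetric.btw_symm (hd : IsPathMetric d) {x m y : α} (h : Btw d x m y) :
    Btw d y m x := by
  unfold Btw at *
  rw [hd.symm y m, hd.symm m x, hd.symm y x]
  omega

theorem IsPathMetric.btw_left (hd : IsPathMetric d) (x y : α) : Btw d x x y := by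
  unfold Btw
  rw [hd.self, Nat.zero_add]

theorem IsPathMetric.btw_right (hd : IsPathMetric d) (x y : α) : Btw d x y y := by
  unfold Btw
  rw [hd.self, Nat.add_zero]

theorem IsPathMetric.btw_self (hd : IsPathMetric d) {x m : α} (h : Btw d x m x) : m = x := by
  unfold Btw at h
  rw [hd.self] at h
  have : d x m = 0 := by omega
  exact ((hd.zero_iff _ _).1 this).symm

/-- `r ∈ [x,m]`, `m ∈ [x,y]`. -/
theorem IsPathMetric.trans_left (hd : IsPathMetric d) {x r m y : α} (h : Btw d x m y)
    (h' : Btw d x r m) : Btw d x r y ∧ Btw d r m y := by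
  unfold Btw at *
  have h1 := hd.tri x r y
  have h2 := hd.tri r m y
  omega

/-- `r ∈ [m,y]`, `m ∈ [x,y]`. -/
theorem IsPathMetric.trans_right (hd : IsPathMetric d) {x r m y : α} (h : Btw d x m y)
    (h' : Btw d m r y) : Btw d x r y ∧ Btw d x m r := by
  unfold Btw at *
  have h1 := hd.tri x m r
  have h2 := hd.tri x r y
  omega

/-- Next point from `x` towards `y`. -/
theorem IsPathMetric.exists_succ (hd : IsPathMetric d) {x y : α} (h : x ≠ y) :
    ∃ x', Btw d x x' y ∧ d x x' = 1 := by
  have h0 : d x y ≠ 0 := fun h' => h ((hd.zero_iff _ _).1 h')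
  exact hd.geod x y 1 (by omega)

/-- First point of `[p,q]` with property `P`. -/
private theorem first_aux (hd : IsPathMetric d) {p q : α} (P : α → Prop) (hp : ¬ P p)
    (hq : P q) : ∃ e e', Btw d p e e' ∧ Btw d p e' q ∧ Btw d e e' q ∧ Btw d p e q ∧ d e e' = 1 ∧
      P e' ∧ ∀ r, Btw d p r e → ¬ P r := by
  classical
  have hex : ∃ k, ∃ z, Btw d p z q ∧ d p z = k ∧ P z := ⟨d p q, q, hd.btw_right p q, rfl, hq⟩
  obtain ⟨e', he', hk, hPe'⟩ := Nat.find_spec hex
  have hmin : ∀ r, Btw d p r q → P r → Nat.find hex ≤ d p r := fun r hr hPr =>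
    Nat.find_min' hex ⟨r, hr, rfl, hPr⟩
  have hk0 : Nat.find hex ≠ 0 := by
    intro h0
    rw [h0] at hk
    have : p = e' := (hd.zero_iff _ _).1 hk
    exact hp (this ▸ hPe')
  obtain ⟨e, he, hde⟩ := hd.geod p e' (d p e' - 1) (Nat.sub_le _ _)
  obtain ⟨h1, h2⟩ := hd.trans_left he' he
  refine ⟨e, e', he, he', h2, h1, ?_, hPe', ?_⟩
  · unfold Btw at he
    omega
  · intro r hr hPr
    obtain ⟨h3, -⟩ := hd.trans_left h1 hr
    have h4 := hmin r h3 hPr
    unfold Btw at hr
    omega

/-- First point of `[p,q]` with property `P`, and its predecessor. -/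
theorem IsPathMetric.exists_first (hd : IsPathMetric d) {p q : α} (P : α → Prop) (hp : ¬ P p)
    (hq : P q) : ∃ e e', Btw d p e e' ∧ Btw d p e' q ∧ Btw d e e' q ∧ Btw d p e q ∧ d e e' = 1 ∧
      ¬ P e ∧ P e' := by
  obtain ⟨e, e', h1, h2, h3, h4, h5, h6, h7⟩ := first_aux hd P hp hq
  exact ⟨e, e', h1, h2, h3, h4, h5, h7 e (hd.btw_right p e), h6⟩

/-- Points of a tree segment are linearly ordered. -/
theorem IsNTree.order (hd : IsNTree d) {x y r s : α} (hr : Btw d x r y) (hs : Btw d x s y)
    (h : d x r ≤ d x s) : Btw d x r s ∧ Btw d r s y := by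
  have hdp := hd.toIsPathMetric
  obtain ⟨r', hr', hdr'⟩ := hd.geod x s (d x r) h
  obtain ⟨h1, h2⟩ := hdp.trans_left hs hr'
  have : r = r' := hd.uniq x y r r' hr h1 hdr'.symm
  subst this
  exact ⟨hr', h2⟩

theorem IsNTree.split (hd : IsNTree d) {x y m p : α} (hm : Btw d x m y) (hp : Btw d x p y) :
    Btw d x p m ∨ Btw d m p y := by
  rcases le_total (d x p) (d x m) with h | h
  · exact Or.inl (hd.order hp hm h).1
  · exact Or.inr (hd.order hm hp h).2

/-- First point of `[p,q]` with property `P`: nothing before it has the property. -/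
theorem IsNTree.exists_first (hd : IsNTree d) {p q : α} (P : α → Prop) (hp : ¬ P p)
    (hq : P q) : ∃ e e', Btw d p e e' ∧ Btw d p e' q ∧ Btw d e e' q ∧ Btw d p e q ∧ d e e' = 1 ∧
      P e' ∧ ∀ r, Btw d p r e → ¬ P r := by
  exact first_aux hd.toIsPathMetric P hp hq

theorem IsNTree.adj (hd : IsNTree d) (x : α) {y y' : α} (h : d y y' = 1) :
    d x y' = d x y + 1 ∨ d x y' + 1 = d x y := by
  obtain ⟨m, h1, h2, h3⟩ := hd.med x y y'
  unfold Btw at h2
  rcases Nat.eq_zero_or_pos (d y m) with h0 | h0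
  · have : y = m := (hd.zero_iff _ _).1 h0
    subst this
    left
    unfold Btw at h3
    omega
  · have h4 : d m y' = 0 := by omega
    have : m = y' := (hd.zero_iff _ _).1 h4
    subst this
    right
    unfold Btw at h1
    rw [hd.symm m y] at h1
    omega

theorem IsNTree.closer_unique (hd : IsNTree d) {x y y₁ y₂ : α} (h₁ : d y y₁ = 1)
    (h₂ : d y y₂ = 1) (h₁' : d x y₁ + 1 = d x y) (h₂' : d x y₂ + 1 = d x y) : y₁ = y₂ := by
  refine hd.uniq x y y₁ y₂ ?_ ?_ (by omega)
  · unfold Btw
    rw [hd.symm y₁ y]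
    omega
  · unfold Btw
    rw [hd.symm y₂ y]
    omega

theorem IsNTree.med_unique (hd : IsNTree d) {x y z m m' : α} (h₁ : Btw d x m y)
    (h₂ : Btw d y m z) (h₃ : Btw d x m z) (h₁' : Btw d x m' y) (h₂' : Btw d y m' z)
    (h₃' : Btw d x m' z) : m = m' := by
  refine hd.uniq x y m m' h₁ h₁' ?_
  unfold Btw at *
  have e1 := hd.symm y m
  have e2 := hd.symm y m'
  omega

/-- A point of `[x,y]` lies on `[x,z]` or on `[z,y]`. -/
theorem IsNTree.thin (hd : IsNTree d) {x y p : α} (z : α) (h : Btw d x p y) :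
    Btw d x p z ∨ Btw d z p y := by
  have hdp := hd.toIsPathMetric
  obtain ⟨m, h1, h2, h3⟩ := hd.med x y z
  rcases hd.split h1 h with h4 | h4
  · exact Or.inl (hdp.trans_left h3 h4).1
  · exact Or.inr (hdp.trans_right (hdp.btw_symm h2) h4).1

/-- Local geodesics are geodesics. -/
theorem IsNTree.glue (hd : IsNTree d) {a f f' b : α} (h₁ : Btw d a f f') (h₂ : Btw d f f' b)
    (h : f ≠ f') : Btw d a f b ∧ Btw d a f' b := by
  have hdp := hd.toIsPathMetric
  obtain ⟨m, h3, h4, h5⟩ := hd.med a f b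
  have hf : Btw d a f b := by
    rcases le_total (d f m) (d f f') with h6 | h6
    · have h7 := (hd.order h4 h₂ h6).1
      have h8 := (hdp.trans_right h₁ h7).2
      have h9 : d f m = 0 := by
        unfold Btw at h8 h3
        have := hd.symm m f
        omega
      have : f = m := (hd.zero_iff _ _).1 h9
      subst this
      exact h5
    · exfalso
      have h7 := (hd.order h₂ h4 h6).1
      have h8 := (hdp.trans_left (hdp.btw_symm h3) h7).1
      have h9 : d f f' = 0 := by
        unfold Btw at h8 h₁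
        have e1 := hd.symm f' a
        have e2 := hd.symm f a
        omega
      exact h ((hd.zero_iff _ _).1 h9)
  exact ⟨hf, (hdp.trans_right hf h₂).1⟩

theorem IsNTree.parity (hd : IsNTree d) (x y z : α) : Even (d x y + d y z + d x z) := by
  obtain ⟨m, h1, h2, h3⟩ := hd.med x y z
  unfold Btw at h1 h2 h3
  have e1 := hd.symm y m
  exact ⟨d x m + d m y + d m z, by omega⟩

/-- Two points of the segments `[x,a]` and `[x,b]` at the same distance from `x`, below the
common part, agree. -/
theorem IsNTree.common (hd : IsNTree d) {x a b p : α} (hp : Btw d x p a)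
    (h : 2 * d x p + d a b ≤ d x a + d x b) : Btw d x p b := by
  have hdp := hd.toIsPathMetric
  obtain ⟨m, h1, h2, h3⟩ := hd.med x a b
  have h4 : d x p ≤ d x m := by
    unfold Btw at h1 h2 h3
    have e1 := hd.symm a m
    omega
  exact (hdp.trans_left h3 (hd.order hp h1 h4).1).1

end Pool.Agent.Helper74.MH
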