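import Pool.Agent.Helper74.MH.NTa

/-! Module NTb (MP_f028d2_al): walks and monotone maps. -/

set_option autoImplicit false

namespace Pool.Agent.Helper74.MH

variable {α : Type*} {d : α → α → ℕ}

private theorem step_same (hd : IsNTree d) {a b z u : α} (hab : d a b ≤ 1) (hb : b ≠ z)
    (hu : d z u = 1) (ha : d a u + 1 = d a z) : d b u + 1 = d b z := by
  rcases hd.adj b hu with h | h
  · exfalso
    have h1 := hd.tri b a u
    have h2 := hd.tri a b z
    have h3 := hd.symm a b
    have hab' : d a b = 1 := by omega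
    have haz : d a z = d b z + 1 := by omega
    have g1 : Btw d a b z := by unfold Btw; omega
    have g2 : Btw d b z u := by unfold Btw; omega
    have g3 := (hd.glue g1 g2 hb).2
    unfold Btw at g3
    omega
  · exact h

/-- A walk with steps of length at most 1 from `w 0` to `w n` visits every point of
`[w 0, w n]`. -/
theorem IsNTree.walk_visits (hd : IsNTree d) (w : ℕ → α) (n : ℕ)
    (hw : ∀ i < n, d (w i) (w (i + 1)) ≤ 1) {z : α} (hz : Btw d (w 0) z (w n)) :
    ∃ i ≤ n, w i = z := by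
  by_contra hcon
  push Not at hcon
  have h0 : z ≠ w 0 := fun h => hcon 0 (Nat.zero_le _) h.symm
  obtain ⟨u, hu1, hu2⟩ := hd.toIsPathMetric.exists_succ h0
  have key : ∀ i ≤ n, d (w i) u + 1 = d (w i) z := by
    intro i
    induction i with
    | zero =>
      intro _
      unfold Btw at hu1
      rw [hd.symm (w 0) u, hd.symm (w 0) z]
      omega
    | succ i ih =>
      intro hi
      exact step_same hd (hw i (by omega)) (hcon (i + 1) hi) hu2 (ih (by omega))
  have h1 := key 0 (Nat.zero_le _)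
  have h2 := key n le_rfl
  have h3 := hd.tri (w 0) u (w n)
  have h4 := hd.symm u (w n)
  have h5 := hd.symm z (w n)
  unfold Btw at hz
  omega

private theorem exists_walk (hd : IsNTree d) (x y : α) :
    ∃ w : ℕ → α, w 0 = x ∧ w (d x y) = y ∧ (∀ i < d x y, d (w i) (w (i + 1)) = 1) ∧
      ∀ i ≤ d x y, Btw d x (w i) y := by
  classical
  have hex : ∀ i, ∃ z, i ≤ d x y → Btw d x z y ∧ d x z = i := by
    intro i
    by_cases hi : i ≤ d x y
    · obtain ⟨z, h1, h2⟩ := hd.geod x y i hi
      exact ⟨z, fun _ => ⟨h1, h2⟩⟩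
    · exact ⟨x, fun h => absurd h hi⟩
  choose w hw using hex
  refine ⟨w, ?_, ?_, ?_, fun i hi => (hw i hi).1⟩
  · exact ((hd.zero_iff _ _).1 (hw 0 (Nat.zero_le _)).2).symm
  · obtain ⟨h1, h2⟩ := hw (d x y) le_rfl
    unfold Btw at h1
    exact (hd.zero_iff _ _).1 (by omega)
  · intro i hi
    obtain ⟨h1, h2⟩ := hw i (by omega)
    obtain ⟨h3, h4⟩ := hw (i + 1) (by omega)
    have h5 := (hd.order h1 h3 (by omega)).1
    unfold Btw at h5
    omega

/-- A map between trees which is 1-Lipschitz with convex fibres is monotone. -/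
theorem IsNTree.mono_of_fibres (hd : IsNTree d) {β : Type*} {e : β → β → ℕ} (he : IsNTree e)
    (f : α → β) (hl : ∀ x y, d x y = 1 → e (f x) (f y) ≤ 1)
    (hf : ∀ x y m, f x = f y → Btw d x m y → f m = f x) {p m q : α} (h : Btw d p m q) :
    Btw e (f p) (f m) (f q) := by
  obtain ⟨m', h1, h2, h3⟩ := he.med (f p) (f m) (f q)
  by_cases hm : m' = f m
  · rw [← hm]; exact h3
  exfalso
  obtain ⟨w, a1, a2, a3, a4⟩ := exists_walk hd p m
  obtain ⟨w', b1, b2, b3, b4⟩ := exists_walk hd m q
  have h1' : Btw e (f (w 0)) m' (f (w (d p m))) := by rw [a1, a2]; exact h1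
  have h2' : Btw e (f (w' 0)) m' (f (w' (d m q))) := by rw [b1, b2]; exact h2
  obtain ⟨i, hi, hi'⟩ := he.walk_visits (fun i => f (w i)) (d p m)
    (fun i hi => hl _ _ (a3 i hi)) h1'
  obtain ⟨j, hj, hj'⟩ := he.walk_visits (fun i => f (w' i)) (d m q)
    (fun i hi => hl _ _ (b3 i hi)) h2'
  have hdp := hd.toIsPathMetric
  have g1 := (hdp.trans_left h (a4 i hi)).2
  have g2 := (hdp.trans_right g1 (b4 j hj)).2
  have g3 := hf (w i) (w' j) m (by rw [hi', hj']) g2
  exact hm (by rw [g3]; exact hi'.symm)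

end Pool.Agent.Helper74.MH
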