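import Pool.Agent.Helper74.MH.Defs
import Pool.Agent.Helper74.MH.NTc

/-! Module Na (MP_f028d2_al): lists as a rooted tree. -/

set_option autoImplicit false

namespace Pool.Agent.Helper74.MH

private theorem dL_le_of_suffix {α : Type*} {s l l' : List α} (h : s <:+ l) (h' : s <:+ l') :
    dL l l' + 2 * s.length ≤ l.length + l'.length := by
  have h1 := h.length_le
  have h2 := h'.length_le
  have hm : (l.length - s.length) + (l'.length - s.length) ∈
      {n | ∃ i j, i ≤ l.length ∧ j ≤ l'.length ∧ l.drop i = l'.drop j ∧ n = i + j} := by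
    refine ⟨l.length - s.length, l'.length - s.length, Nat.sub_le _ _, Nat.sub_le _ _, ?_, rfl⟩
    rw [← List.suffix_iff_eq_drop.1 h, ← List.suffix_iff_eq_drop.1 h']
  have h3 : dL l l' ≤ (l.length - s.length) + (l'.length - s.length) := Nat.sInf_le hm
  omega

private theorem exists_lcs {α : Type*} (l l' : List α) :
    ∃ s : List α, s <:+ l ∧ s <:+ l' ∧ dL l l' + 2 * s.length = l.length + l'.length ∧
      ∀ t : List α, t <:+ l → t <:+ l' → t.length ≤ s.length := by
  have hne : {n | ∃ i j, i ≤ l.length ∧ j ≤ l'.length ∧ l.drop i = l'.drop j ∧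
      n = i + j}.Nonempty := by
    refine ⟨_, l.length, l'.length, le_rfl, le_rfl, ?_, rfl⟩
    rw [List.drop_length, List.drop_length]
  obtain ⟨i, j, hi, hj, hij, hn⟩ := Nat.sInf_mem hne
  have hd : dL l l' = i + j := hn
  have hlen : l.length - i = l'.length - j := by
    have := congrArg List.length hij
    rwa [List.length_drop, List.length_drop] at this
  have e : dL l l' + 2 * (l.drop i).length = l.length + l'.length := by
    rw [List.length_drop]
    omega
  refine ⟨l.drop i, List.drop_suffix _ _, hij ▸ List.drop_suffix _ _, e, ?_⟩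
  intro t h1 h2
  have := dL_le_of_suffix h1 h2
  omega

private theorem dL_symm {α : Type*} (l l' : List α) : dL l l' = dL l' l := by
  obtain ⟨s, h1, h2, h3, _⟩ := exists_lcs l l'
  obtain ⟨t, g1, g2, g3, _⟩ := exists_lcs l' l
  have a := dL_le_of_suffix h2 h1
  have b := dL_le_of_suffix g2 g1
  omega

private theorem dL_zero {α : Type*} (l l' : List α) : dL l l' = 0 ↔ l = l' := by
  obtain ⟨s, h1, h2, h3, _⟩ := exists_lcs l l'
  have a := h1.length_le
  have b := h2.length_le
  constructor
  · intro h
    have e1 := h1.eq_of_length (by omega)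
    have e2 := h2.eq_of_length (by omega)
    rw [← e1, ← e2]
  · rintro rfl
    have := dL_le_of_suffix (List.suffix_refl l) (List.suffix_refl l)
    omega

private theorem dL_tri {α : Type*} (l m n : List α) : dL l n ≤ dL l m + dL m n := by
  obtain ⟨s, h1, h2, h3, _⟩ := exists_lcs l m
  obtain ⟨t, g1, g2, g3, _⟩ := exists_lcs m n
  have a := h2.length_le
  have b := g1.length_le
  rcases le_total s.length t.length with h | h
  · have := dL_le_of_suffix h1 ((List.suffix_of_suffix_length_le h2 g1 h).trans g2)
    omega
  · have := dL_le_of_suffix ((List.suffix_of_suffix_length_le g1 h2 h).trans h1) g2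
    omega

private theorem eq_cons_of_suffix {α : Type*} {s l : List α} (h : s <:+ l)
    (hl : l.length = s.length + 1) : ∃ a, l = a :: s := by
  obtain ⟨u, rfl⟩ := h
  rw [List.length_append] at hl
  have h1 : u.length = 1 := by omega
  obtain ⟨a, rfl⟩ := List.length_eq_one_iff.1 h1
  exact ⟨a, rfl⟩

theorem dL_eq_one {α : Type*} (l l' : List α) :
    dL l l' = 1 ↔ (∃ a, l = a :: l') ∨ (∃ a, l' = a :: l) := by
  constructor
  · intro h
    obtain ⟨s, h1, h2, h3, _⟩ := exists_lcs l l'
    have a := h1.length_le
    have b := h2.length_le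
    by_cases hc : s.length = l.length
    · have e := h1.eq_of_length hc
      subst e
      exact Or.inr (eq_cons_of_suffix h2 (by omega))
    · have hc' : s.length = l'.length := by omega
      have e := h2.eq_of_length hc'
      subst e
      exact Or.inl (eq_cons_of_suffix h1 (by omega))
  · have key : ∀ (m : List α) (a : α), dL (a :: m) m = 1 := by
      intro m a
      have h1 := dL_le_of_suffix (List.suffix_cons a m) (List.suffix_refl m)
      have h2 : dL (a :: m) m ≠ 0 := by
        intro h
        have := congrArg List.length ((dL_zero _ _).1 h)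
        rw [List.length_cons] at this
        omega
      rw [List.length_cons] at h1
      omega
    rintro (⟨a, rfl⟩ | ⟨a, rfl⟩)
    · exact key _ _
    · rw [dL_symm]
      exact key _ _

/-- the closer neighbour is the next suffix of `x`, or the tail -/
private theorem closer {α : Type*} {x y y' : List α} (h1 : dL y y' = 1)
    (h2 : dL x y' + 1 = dL x y) :
    (y <:+ x ∧ y' <:+ x ∧ ∃ a, y' = a :: y) ∨ (¬ y <:+ x ∧ ∃ a, y = a :: y') := by
  obtain ⟨s, a1, a2, a3, a4⟩ := exists_lcs x y
  obtain ⟨t, b1, b2, b3, b4⟩ := exists_lcs x y'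
  rcases (dL_eq_one _ _).1 h1 with ⟨a, ha⟩ | ⟨a, ha⟩
  · right
    refine ⟨fun hyx => ?_, a, ha⟩
    have c1 := a4 y hyx (List.suffix_refl y)
    have c2 := b2.length_le
    have c3 : y.length = y'.length + 1 := by rw [ha, List.length_cons]
    omega
  · left
    have c3 : y'.length = y.length + 1 := by rw [ha, List.length_cons]
    have hst : t.length = s.length + 1 := by omega
    have ht : t = y' := by
      rw [ha] at b2
      rcases List.suffix_cons_iff.1 b2 with h | h
      · rw [h, ha]
      · have := a4 t b1 h
        omega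
    subst ht
    refine ⟨?_, b1, a, ha⟩
    refine List.IsSuffix.trans ?_ b1
    rw [ha]
    exact List.suffix_cons a y

theorem isNTree_dL {α : Type*} (R : List α → Prop) (hnil : R [])
    (htail : ∀ a l, R (a :: l) → R l) :
    IsNTree (fun u w : {l : List α // R l} => dL u.1 w.1) := by
  have hsuf : ∀ l : List α, R l → ∀ s, s <:+ l → R s := by
    intro l
    induction l with
    | nil =>
      intro h s hs
      rw [List.suffix_nil.1 hs]
      exact hnil
    | cons a l ih =>
      intro h s hs
      rcases List.suffix_cons_iff.1 hs with h1 | h1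
      · rw [h1]; exact h
      · exact ih (htail a l h) s h1
  apply isNTree_of_closer
  · intro x y
    rw [dL_zero]
    exact Subtype.ext_iff.symm
  · intro x y
    exact dL_symm _ _
  · intro x y z
    exact dL_tri _ _ _
  · rintro ⟨x, hx⟩ ⟨y, hy⟩ hxy
    have hxy' : x ≠ y := fun h => hxy (Subtype.ext h)
    obtain ⟨s, a1, a2, a3, a4⟩ := exists_lcs x y
    by_cases hyx : y <:+ x
    · -- the next suffix
      have hlen : y.length < x.length := by
        rcases lt_or_eq_of_le hyx.length_le with h | h
        · exact h
        · exact absurd (hyx.eq_of_length h).symm hxy'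
      have c1 := a4 y hyx (List.suffix_refl y)
      have c2 := a2.length_le
      obtain ⟨y', hy', hl'⟩ : ∃ y', y' <:+ x ∧ y'.length = y.length + 1 := by
        refine ⟨x.drop (x.length - (y.length + 1)), List.drop_suffix _ _, ?_⟩
        rw [List.length_drop]
        omega
      have hyy' : y <:+ y' := List.suffix_of_suffix_length_le hyx hy' (by omega)
      refine ⟨⟨y', hsuf x hx y' hy'⟩, ?_, ?_⟩
      · show dL y y' = 1
        exact (dL_eq_one _ _).2 (Or.inr (eq_cons_of_suffix hyy' hl'))
      · show dL x y' + 1 = dL x y
        obtain ⟨t, b1, b2, b3, b4⟩ := exists_lcs x y'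
        have c3 := b4 y' hy' (List.suffix_refl y')
        have c4 := b2.length_le
        omega
    · -- the tail
      cases y with
      | nil => exact absurd (List.nil_suffix) hyx
      | cons a y' =>
        refine ⟨⟨y', htail a y' hy⟩, ?_, ?_⟩
        · show dL (a :: y') y' = 1
          exact (dL_eq_one _ _).2 (Or.inl ⟨a, rfl⟩)
        · show dL x y' + 1 = dL x (a :: y')
          obtain ⟨t, b1, b2, b3, b4⟩ := exists_lcs x y'
          have c1 : s <:+ y' := by
            rcases List.suffix_cons_iff.1 a2 with h | h
            · exact absurd (h ▸ a1) hyx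
            · exact h
          have c2 := b4 s a1 c1
          have c3 := a4 t b1 (b2.trans (List.suffix_cons a y'))
          rw [List.length_cons] at a3
          omega
  · rintro ⟨x, hx⟩ ⟨y, hy⟩ ⟨y₁, hy₁⟩ ⟨y₂, hy₂⟩ h1 h2 h3 h4
    have e1 := closer h1 h3
    have e2 := closer h2 h4
    apply Subtype.ext
    show y₁ = y₂
    rcases e1 with ⟨p1, p2, a, p3⟩ | ⟨p1, a, p3⟩ <;> rcases e2 with ⟨q1, q2, b, q3⟩ | ⟨q1, b, q3⟩
    · have hl : y₁.length = y₂.length := by
        have r1 : y₁.length = y.length + 1 := by rw [show y₁ = a :: y from p3, List.length_cons]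
        have r2 : y₂.length = y.length + 1 := by rw [show y₂ = b :: y from q3, List.length_cons]
        omega
      exact (List.suffix_of_suffix_length_le p2 q2 hl.le).eq_of_length hl
    · exact absurd p1 q1
    · exact absurd q1 p1
    · have : a :: y₁ = b :: y₂ := p3.symm.trans q3
      exact (List.cons.inj this).2
  · rintro ⟨x, hx⟩ ⟨y, hy⟩ ⟨y', hy'⟩ h1 h2
    have h1' : dL y y' = 1 := h1
    have h2' : dL x y = dL x y' := h2
    obtain ⟨s, _, _, a3, _⟩ := exists_lcs x y
    obtain ⟨t, _, _, b3, _⟩ := exists_lcs x y'
    rcases (dL_eq_one _ _).1 h1' with ⟨a, ha⟩ | ⟨a, ha⟩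
    · have := congrArg List.length ha
      rw [List.length_cons] at this
      omega
    · have := congrArg List.length ha
      rw [List.length_cons] at this
      omega

end Pool.Agent.Helper74.MH
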