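import Pool.Agent.Helper74.MH.Se

/-! Module Sf (MP_f028d2_al): the local structure of stretch data is good. -/

set_option autoImplicit false

namespace Pool.Agent.Helper74.MH

variable {F T : Type*} [Group F] {d : F → F → ℕ} {φ : T → F →* F} {h Q : ℕ}
  {pr : T → F → F}

private theorem btw_inv (hS : Stretch F T d φ h Q) (g : F) {p m q : F} (hm : Btw d p m q) :
    Btw d (g * p) (g * m) (g * q) := by
  unfold Btw at hm ⊢
  rw [hS.ltree.inv, hS.ltree.inv, hS.ltree.inv]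
  exact hm

theorem Stretch.good (hS : Stretch F T d φ h Q) (hpr : IsProj d φ pr) :
    (locOf d φ pr h Q).Good where
  tree := hS.ltree.tree
  pr_io := by
    intro j m
    show pr j.1.1 (j.1.2⁻¹ * (j.1.2 * φ j.1.1 m)) = m
    rw [inv_mul_cancel_left]
    exact hS.pr_phi hpr _ _
  io_mem := by
    intro j m
    show j.1.2⁻¹ * (j.1.2 * φ j.1.1 m) ∈ hullY d φ pr j.1.1
    rw [inv_mul_cancel_left]
    exact hS.phi_mem_hull hpr _ _
  conv := by
    intro j p m q hp hq hm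
    exact hS.hull_conv hpr j.1.1 (p := j.1.2⁻¹ * p) (q := j.1.2⁻¹ * q) hp hq (btw_inv hS _ hm)
  lip := by
    intro j p q
    show d (pr j.1.1 (j.1.2⁻¹ * p)) (pr j.1.1 (j.1.2⁻¹ * q)) ≤ d p q
    have h1 := hS.pr_lip hpr j.1.1 (j.1.2⁻¹ * p) (j.1.2⁻¹ * q)
    rwa [hS.ltree.inv] at h1
  mono := by
    intro j p m q hm
    exact hS.pr_mono hpr j.1.1 (btw_inv hS j.1.2⁻¹ hm)
  mem_Y := by
    intro j p m q hm hp hq
    exact hS.hull_mem hpr j.1.1 (btw_inv hS j.1.2⁻¹ hm) hp hq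
  near := by
    intro j m hm
    show d m (j.1.2 * φ j.1.1 (pr j.1.1 (j.1.2⁻¹ * m))) ≤ h
    have h1 := hS.hull_near hpr j.1.1 (f := j.1.2⁻¹ * m) hm
    have h2 := hS.ltree.inv j.1.2 (j.1.2⁻¹ * m) (φ j.1.1 (pr j.1.1 (j.1.2⁻¹ * m)))
    rw [mul_inv_cancel_left] at h2
    rw [h2]
    exact h1
  diam := by
    intro j j' hj p q h1 h2 h3 h4
    refine hS.hull_diam hpr j.1.1 j'.1.1 j.1.2 j'.1.2 j.2 j'.2 ?_ p q h1 h2 h3 h4
    rintro ⟨e1, e2⟩
    exact hj (Subtype.ext (Prod.ext e1 e2))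
  far := by
    intro j p q hpq
    show 2 * h ≤ d p q
    have h1 := hS.pr_far hpr j.1.1 (p := j.1.2⁻¹ * p) (q := j.1.2⁻¹ * q) hpq
    rwa [hS.ltree.inv] at h1
  hL := by
    show 4 * Q - 1 + 5 ≤ 2 * h
    have h1 := hS.hQ
    have h2 := hS.hh
    omega

end Pool.Agent.Helper74.MH
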