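import Pool.Agent.Helper74.MH.Na
import Pool.Agent.Helper74.MH.Sf

/-! Module Nb (MP_f028d2_al): the tree of trees of stretch data is good. -/

set_option autoImplicit false

namespace Pool.Agent.Helper74.MH

variable {F T : Type*} [Group F] {d : F → F → ℕ} {φ : T → F →* F} {h Q : ℕ}
  {pr : T → F → F}

private theorem nb_okp {u : VV pr} {a b : T × Option F} {l : List (T × Option F)}
    (hu : u.1 = a :: b :: l) : Okp a b := by
  have h1 := u.2.2
  rw [hu, List.isChain_cons_cons] at h1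
  exact h1.1

private theorem nb_len {α : Type*} {l l' : List α} {a b : α} (h : l = a :: l')
    (h' : l' = b :: l) : False := by
  have h1 := congrArg List.length h
  have h2 := congrArg List.length h'
  simp only [List.length_cons] at h1 h2
  omega

private theorem nb_ext {j j' : JJ pr} (h1 : j.1.1 = j'.1.1) (h2 : j.1.2 = j'.1.2) : j = j' :=
  Subtype.ext (Prod.ext h1 h2)

/-- The parent of `u` through the letter `t` is unique. -/
theorem ChV.parent_unique {j j' : JJ pr} {u w w' : VV pr} (h : ChV pr j u w)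
    (h' : ChV pr j' u w') (ht : j.1.1 = j'.1.1) : j = j' ∧ w = w' := by
  rcases h with h | ⟨h1, h⟩ <;> rcases h' with h' | ⟨h1', h'⟩
  · rw [h, List.cons.injEq, Prod.mk.injEq, Option.some.injEq] at h'
    exact ⟨nb_ext h'.1.1 h'.1.2, Subtype.ext h'.2⟩
  · exfalso
    rw [h] at h'
    exact nb_okp h' ⟨ht.symm, Or.inr ⟨rfl, Option.some_ne_none _⟩⟩
  · exfalso
    rw [h'] at h
    exact nb_okp h ⟨ht, Or.inr ⟨rfl, Option.some_ne_none _⟩⟩
  · refine ⟨nb_ext ht (h1.trans h1'.symm), Subtype.ext ?_⟩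
    rw [h, h', ht]

theorem Stretch.ttOf_good (hS : Stretch F T d φ h Q) (hpr : IsProj d φ pr) :
    (ttOf d φ pr h Q).Good where
  gloc := hS.good hpr
  tree := by
    refine isNTree_dL (fun l : List (T × Option F) =>
      (∀ a ∈ l, ∀ r, a.2 = some r → pr a.1 r⁻¹ = 1) ∧ l.IsChain Okp) ?_ ?_
    · exact ⟨by simp, List.isChain_nil⟩
    · rintro a l ⟨h1, h2⟩
      exact ⟨fun b hb => h1 b (List.mem_cons_of_mem _ hb), h2.tail⟩
  adj := by
    intro u w
    show dL u.1 w.1 = 1 ↔ (∃ j, ChV pr j u w) ∨ ∃ j, ChV pr j w u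
    rw [dL_eq_one]
    constructor
    · rintro (⟨⟨t, o⟩, hu⟩ | ⟨⟨t, o⟩, hw⟩)
      · rcases o with _ | r
        · exact Or.inr ⟨⟨(t, 1), by rw [inv_one]; exact hS.pr_one hpr t⟩, Or.inr ⟨rfl, hu⟩⟩
        · refine Or.inl ⟨⟨(t, r), ?_⟩, Or.inl hu⟩
          exact u.2.1 (t, some r) (by rw [hu]; exact List.mem_cons_self) r rfl
      · rcases o with _ | r
        · exact Or.inl ⟨⟨(t, 1), by rw [inv_one]; exact hS.pr_one hpr t⟩, Or.inr ⟨rfl, hw⟩⟩
        · refine Or.inr ⟨⟨(t, r), ?_⟩, Or.inl hw⟩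
          exact w.2.1 (t, some r) (by rw [hw]; exact List.mem_cons_self) r rfl
    · rintro (⟨j, hj | ⟨_, hj⟩⟩ | ⟨j, hj | ⟨_, hj⟩⟩)
      · exact Or.inl ⟨_, hj⟩
      · exact Or.inr ⟨_, hj⟩
      · exact Or.inr ⟨_, hj⟩
      · exact Or.inl ⟨_, hj⟩
  idx := by
    intro j j' u w h1 h2
    rcases h1 with h1 | ⟨e1, h1⟩ <;> rcases h2 with h2 | ⟨e2, h2⟩
    · rw [h1, List.cons.injEq, Prod.mk.injEq, Option.some.injEq] at h2
      exact nb_ext h2.1.1 h2.1.2
    · exact (nb_len h1 h2).elim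
    · exact (nb_len h2 h1).elim
    · rw [h1, List.cons.injEq, Prod.mk.injEq] at h2
      exact nb_ext h2.1.1 (e1.trans e2.symm)
  fn := by
    intro j u u' w h1 h2
    rcases h1 with h1 | ⟨e1, h1⟩ <;> rcases h2 with h2 | ⟨e2, h2⟩
    · exact Subtype.ext (h1.trans h2.symm)
    · exfalso
      rw [h2, e2] at h1
      exact nb_okp h1 ⟨rfl, Or.inl ⟨rfl, rfl⟩⟩
    · exfalso
      rw [h1, e1] at h2
      exact nb_okp h2 ⟨rfl, Or.inl ⟨rfl, rfl⟩⟩
    · rw [h1, List.cons.injEq] at h2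
      exact Subtype.ext h2.2
  asym := by
    intro j j' u w h1 h2
    rcases h1 with h1 | ⟨e1, h1⟩ <;> rcases h2 with h2 | ⟨e2, h2⟩
    · exact nb_len h1 h2
    · rw [h1, List.cons.injEq, Prod.mk.injEq] at h2
      exact Option.some_ne_none _ h2.1.2
    · rw [h1, List.cons.injEq, Prod.mk.injEq] at h2
      exact Option.some_ne_none _ h2.1.2.symm
    · exact nb_len h1 h2

end Pool.Agent.Helper74.MH
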