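import Pool.Agent.Helper74.MH.Defs2

/-! Module Nc (MP_f028d2_al): normal forms of the group `HG X T W`. -/

set_option autoImplicit false

namespace Pool.Agent.Helper74.MH

variable {X T : Type*} (W : T → X → List X) (pr : T → FreeGroup X → FreeGroup X)

section NcAux

variable {pr}

private theorem nc_tail {v : VV pr} {a : T × Option (FreeGroup X)}
    {m : List (T × Option (FreeGroup X))} (h : v.1 = a :: m) : ∃ w : VV pr, w.1 = m := by
  obtain ⟨l, h1, h2⟩ := v
  simp only at h
  subst h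
  refine ⟨⟨m, fun b hb => h1 b (List.mem_cons_of_mem _ hb), ?_⟩, rfl⟩
  cases m with
  | nil => exact List.isChain_nil
  | cons b m => exact (List.isChain_cons_cons.1 h2).2

private theorem nc_okp {v : VV pr} {a b : T × Option (FreeGroup X)}
    {m : List (T × Option (FreeGroup X))} (h : v.1 = a :: b :: m) : Okp a b := by
  obtain ⟨l, h1, h2⟩ := v
  simp only at h
  subst h
  exact (List.isChain_cons_cons.1 h2).1

private theorem nc_cons (v : VV pr) (a : T × Option (FreeGroup X))
    (ha : ∀ r, a.2 = some r → pr a.1 r⁻¹ = 1)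
    (hok : ∀ b m, v.1 = b :: m → Okp a b) : ∃ w : VV pr, w.1 = a :: v.1 := by
  obtain ⟨l, h1, h2⟩ := v
  refine ⟨⟨a :: l, ?_, ?_⟩, rfl⟩
  · intro b hb
    rw [List.mem_cons] at hb
    obtain rfl | hb := hb
    · exact ha
    · exact h1 b hb
  · cases l with
    | nil => exact List.isChain_singleton _
    | cons b m => exact List.isChain_cons_cons.2 ⟨hok b m rfl, h2⟩

private theorem nc_mem {v : VV pr} {t : T} {r : FreeGroup X}
    {m : List (T × Option (FreeGroup X))} (h : v.1 = (t, some r) :: m) : pr t r⁻¹ = 1 := by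
  obtain ⟨l, h1, h2⟩ := v
  simp only at h
  subst h
  exact h1 (t, some r) List.mem_cons_self r rfl

/-- the graph of the right multiplication by `t` -/
private def NcR (W : T → X → List X) (pr : T → FreeGroup X → FreeGroup X) (t : T)
    (p q : VV pr × FreeGroup X) : Prop :=
  ∃ j : JJ pr, j.1.1 = t ∧ ChV pr j p.1 q.1 ∧ q.2 = j.1.2 * phi W t p.2

private theorem ncR_iff (t : T) (p q : VV pr × FreeGroup X) :
    NcR W pr t p q ↔ ∃ r, pr t r⁻¹ = 1 ∧ (p.1.1 = (t, some r) :: q.1.1 ∨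
      (r = 1 ∧ q.1.1 = (t, none) :: p.1.1)) ∧ q.2 = r * phi W t p.2 := by
  constructor
  · rintro ⟨⟨⟨t', r⟩, hj⟩, h1, h2, h3⟩
    simp only at h1
    subst h1
    exact ⟨r, hj, h2, h3⟩
  · rintro ⟨r, hr, h2, h3⟩
    exact ⟨⟨(t, r), hr⟩, rfl, h2, h3⟩

private theorem nc_fw (h2 : ∀ t, pr t 1 = 1) (t : T) (p : VV pr × FreeGroup X) :
    ∃ q, NcR W pr t p q := by
  by_cases h : ∃ r m, p.1.1 = (t, some r) :: m
  · obtain ⟨r, m, h⟩ := h
    obtain ⟨w, hw⟩ := nc_tail h
    refine ⟨(w, r * phi W t p.2), (ncR_iff W t _ _).2 ⟨r, nc_mem h, Or.inl ?_, rfl⟩⟩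
    rw [h, hw]
  · obtain ⟨w, hw⟩ := nc_cons p.1 (t, none) (by intro r hr; simp at hr) (by
      intro b m hb
      rintro ⟨e1, e2⟩
      simp only [reduceCtorEq, false_and, true_and, false_or] at e2
      obtain ⟨b1, b2⟩ := b
      simp only at e1 e2
      subst e1
      obtain ⟨r, hr⟩ := Option.ne_none_iff_exists'.1 e2
      subst hr
      exact h ⟨r, m, hb⟩)
    refine ⟨(w, phi W t p.2), (ncR_iff W t _ _).2 ⟨1, ?_, Or.inr ⟨rfl, hw⟩, (one_mul _).symm⟩⟩
    rw [inv_one]; exact h2 t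

private theorem nc_fw_unique (t : T) (p q q' : VV pr × FreeGroup X) (h : NcR W pr t p q)
    (h' : NcR W pr t p q') : q = q' := by
  rw [ncR_iff] at h h'
  obtain ⟨r, hr, h1, h2⟩ := h
  obtain ⟨r', hr', h1', h2'⟩ := h'
  have key : q.1.1 = q'.1.1 ∧ r = r' := by
    rcases h1 with h1 | ⟨e, h1⟩
    · rcases h1' with h1' | ⟨e', h1'⟩
      · rw [h1] at h1'
        simp only [List.cons.injEq, Prod.mk.injEq, Option.some.injEq, true_and] at h1'
        exact ⟨h1'.2, h1'.1⟩
      · exfalso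
        rw [h1] at h1'
        exact nc_okp h1' ⟨rfl, Or.inr ⟨rfl, by simp⟩⟩
    · rcases h1' with h1' | ⟨e', h1'⟩
      · exfalso
        rw [h1'] at h1
        exact nc_okp h1 ⟨rfl, Or.inr ⟨rfl, by simp⟩⟩
      · exact ⟨by rw [h1, h1'], by rw [e, e']⟩
  refine Prod.ext (Subtype.ext key.1) ?_
  rw [h2, h2', key.2]

private theorem nc_bw (h1 : ∀ t u f, pr t (phi W t u * f) = u * pr t f) (t : T)
    (q : VV pr × FreeGroup X) : ∃ p, NcR W pr t p q := by
  obtain ⟨w, f⟩ := q
  have hr : pr t (f * (phi W t (pr t f⁻¹)⁻¹)⁻¹)⁻¹ = 1 := by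
    rw [mul_inv_rev, inv_inv, h1, inv_mul_cancel]
  by_cases h : ∃ m, w.1 = (t, none) :: m ∧ f * (phi W t (pr t f⁻¹)⁻¹)⁻¹ = 1
  · obtain ⟨m, hm, hf⟩ := h
    obtain ⟨v, hv⟩ := nc_tail hm
    refine ⟨(v, (pr t f⁻¹)⁻¹), (ncR_iff W t _ _).2 ⟨1, ?_, Or.inr ⟨rfl, ?_⟩, ?_⟩⟩
    · rw [hf] at hr; exact hr
    · rw [hm, hv]
    · rw [one_mul]
      exact mul_inv_eq_one.1 hf
  · obtain ⟨v, hv⟩ := nc_cons w (t, some (f * (phi W t (pr t f⁻¹)⁻¹)⁻¹)) (by
      intro r hr'
      simp only [Option.some.injEq] at hr'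
      rw [← hr']; exact hr) (by
      intro b m hb
      rintro ⟨e1, e2⟩
      simp only [Option.some.injEq, reduceCtorEq, false_and, or_false] at e2
      obtain ⟨b1, b2⟩ := b
      simp only at e1 e2
      subst e1
      obtain ⟨e2, e3⟩ := e2
      subst e3
      exact h ⟨m, hb, e2⟩)
    refine ⟨(v, (pr t f⁻¹)⁻¹), (ncR_iff W t _ _).2 ⟨_, hr, Or.inl hv, ?_⟩⟩
    show f = _
    rw [mul_assoc, inv_mul_cancel, mul_one]

private theorem nc_bw_unique (h1 : ∀ t u f, pr t (phi W t u * f) = u * pr t f) (t : T)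
    (p p' q : VV pr × FreeGroup X) (h : NcR W pr t p q) (h' : NcR W pr t p' q) : p = p' := by
  rw [ncR_iff] at h h'
  obtain ⟨r, hr, h2, h3⟩ := h
  obtain ⟨r', hr', h2', h3'⟩ := h'
  have hp : ∀ (r : FreeGroup X) (f : FreeGroup X), pr t r⁻¹ = 1 →
      pr t (r * phi W t f)⁻¹ = f⁻¹ := by
    intro r f hr
    rw [mul_inv_rev, ← map_inv, h1, hr, mul_one]
  have e2 : p.2 = p'.2 := by
    have a1 := hp r p.2 hr
    have a2 := hp r' p'.2 hr'
    rw [← h3] at a1
    rw [← h3', a1] at a2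
    exact inv_injective a2
  have er : r = r' := by
    rw [h3, e2] at h3'
    exact mul_right_cancel h3'
  subst er
  refine Prod.ext (Subtype.ext ?_) e2
  rcases h2 with h2 | ⟨e, h2⟩
  · rcases h2' with h2' | ⟨e', h2'⟩
    · rw [h2, h2']
    · exfalso
      rw [h2'] at h2
      refine nc_okp h2 ⟨rfl, Or.inl ⟨?_, rfl⟩⟩
      rw [e']
  · rcases h2' with h2' | ⟨e', h2'⟩
    · exfalso
      rw [h2] at h2'
      refine nc_okp h2' ⟨rfl, Or.inl ⟨?_, rfl⟩⟩
      rw [e]
    · rw [h2] at h2'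
      simp only [List.cons.injEq, true_and] at h2'
      exact h2'

end NcAux

/-- The letter `t` acts on normal forms from the right by a bijection. -/
theorem exists_act (h1 : ∀ t u f, pr t (phi W t u * f) = u * pr t f) (h2 : ∀ t, pr t 1 = 1)
    (t : T) : ∃ σ : Equiv.Perm (VV pr × FreeGroup X),
      (∀ p, ∃ j : JJ pr, j.1.1 = t ∧ ChV pr j p.1 (σ p).1 ∧
        (σ p).2 = j.1.2 * phi W t p.2) ∧
      (∀ (p : VV pr × FreeGroup X) (f : FreeGroup X),
        σ (p.1, p.2 * f) = ((σ p).1, (σ p).2 * phi W t f)) := by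
  choose s hs using nc_fw W h2 t
  have hb : Function.Bijective s := by
    constructor
    · intro p p' h
      have e1 := hs p
      rw [h] at e1
      exact nc_bw_unique W h1 t p p' _ e1 (hs p')
    · intro q
      obtain ⟨p, hp⟩ := nc_bw W h1 t q
      exact ⟨p, nc_fw_unique W t p _ _ (hs p) hp⟩
  refine ⟨Equiv.ofBijective s hb, fun p => hs p, fun p f => ?_⟩
  refine nc_fw_unique W t (p.1, p.2 * f) _ _ (hs _) ?_
  obtain ⟨j, j1, j2, j3⟩ := hs p
  refine ⟨j, j1, j2, ?_⟩
  show (s p).2 * phi W t f = j.1.2 * phi W t (p.2 * f)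
  rw [j3, map_mul, mul_assoc]

section NcAux2

/-- the symbols as elements of the group -/
private def ncE : List (T × Option (FreeGroup X)) → HG X T W
  | [] => 1
  | (t, none) :: l => ncE l * tt W t
  | (t, some r) :: l => ncE l * iX W r * (tt W t)⁻¹

private theorem nc_rel (t : T) (f : FreeGroup X) :
    iX W f * tt W t = tt W t * iX W (phi W t f) := by
  have h1 : ∀ x, (tt W t)⁻¹ * iX W (FreeGroup.of x) * tt W t = iX W (pw (W t x)) := by
    intro x
    have h2 : PresentedGroup.mk (hrels X T W) ((FreeGroup.of (Sum.inr t))⁻¹ *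
        FreeGroup.of (Sum.inl x) * FreeGroup.of (Sum.inr t) *
        (FreeGroup.map Sum.inl (pw (W t x)))⁻¹) = 1 := by
      refine PresentedGroup.one_of_mem ?_
      exact ⟨t, x, rfl⟩
    have h3 : ∀ g : FreeGroup X, PresentedGroup.mk (hrels X T W) (FreeGroup.map Sum.inl g) =
        iX W g := by
      intro g
      have : (PresentedGroup.mk (hrels X T W)).comp (FreeGroup.map Sum.inl) = iX W := by
        refine FreeGroup.ext_hom _ _ fun x => ?_
        simp only [MonoidHom.comp_apply, FreeGroup.map.of, iX, FreeGroup.lift_apply_of]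
        rfl
      exact DFunLike.congr_fun this g
    rw [map_mul, map_mul, map_mul, map_inv, map_inv, h3, mul_inv_eq_one] at h2
    rw [← h2]
    simp only [iX, FreeGroup.lift_apply_of]
    rfl
  have h2 : (MulAut.conj (tt W t)⁻¹).toMonoidHom.comp (iX W) = (iX W).comp (phi W t) := by
    refine FreeGroup.ext_hom _ _ fun x => ?_
    have := h1 x
    simp only [MonoidHom.comp_apply, MulEquiv.coe_toMonoidHom, MulAut.conj_apply, inv_inv]
    rw [this]
    simp only [phi, FreeGroup.lift_apply_of]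
  have h3 := DFunLike.congr_fun h2 f
  simp only [MonoidHom.comp_apply, MulEquiv.coe_toMonoidHom, MulAut.conj_apply, inv_inv] at h3
  rw [← h3]
  group

private noncomputable def ncEv (p : VV pr × FreeGroup X) : HG X T W := ncE W p.1.1 * iX W p.2

private theorem ncEv_R {t : T} {p q : VV pr × FreeGroup X} (h : NcR W pr t p q) :
    ncEv W pr q = ncEv W pr p * tt W t := by
  rw [ncR_iff] at h
  obtain ⟨r, hr, h1, h2⟩ := h
  unfold ncEv
  rw [h2, map_mul]
  rcases h1 with h1 | ⟨e, h1⟩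
  · rw [h1, ncE, mul_assoc (ncE W q.1.1 * iX W r * (tt W t)⁻¹), nc_rel]
    group
  · rw [h1, ncE, e, map_one, one_mul, mul_assoc, mul_assoc, nc_rel]

/-- the action of the free group -/
private def ncRR : FreeGroup X →* Equiv.Perm (VV pr × FreeGroup X) where
  toFun f :=
    { toFun := fun p => (p.1, p.2 * f⁻¹)
      invFun := fun p => (p.1, p.2 * f)
      left_inv := fun p => by simp
      right_inv := fun p => by simp }
  map_one' := by ext p <;> simp
  map_mul' f g := by
    apply Equiv.ext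
    intro p
    simp [mul_assoc]

private theorem ncRR_apply (f : FreeGroup X) (p : VV pr × FreeGroup X) :
    ncRR pr f p = (p.1, p.2 * f⁻¹) := rfl

end NcAux2

theorem exists_nf (h1 : ∀ t u f, pr t (phi W t u * f) = u * pr t f) (h2 : ∀ t, pr t 1 = 1) :
    ∃ Θ : HG X T W ≃ VV pr × FreeGroup X,
      (∀ g f, Θ (g * iX W f) = ((Θ g).1, (Θ g).2 * f)) ∧
      (∀ g t, ∃ j : JJ pr, j.1.1 = t ∧ ChV pr j (Θ g).1 (Θ (g * tt W t)).1 ∧
        (Θ (g * tt W t)).2 = j.1.2 * phi W t (Θ g).2) := by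
  choose σ hσ1 hσ2 using exists_act W pr h1 h2
  have hrel : ∀ r ∈ hrels X T W, FreeGroup.lift
      (Sum.elim (fun x => ncRR pr (FreeGroup.of x)) fun t => (σ t)⁻¹) r = 1 := by
    rintro _ ⟨t, x, rfl⟩
    have hm : ∀ g : FreeGroup X, FreeGroup.lift
        (Sum.elim (fun x => ncRR pr (FreeGroup.of x)) fun t => (σ t)⁻¹)
        (FreeGroup.map Sum.inl g) = ncRR pr g := by
      intro g
      have : (FreeGroup.lift
          (Sum.elim (fun x => ncRR pr (FreeGroup.of x)) fun t => (σ t)⁻¹)).comp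
          (FreeGroup.map Sum.inl) = ncRR pr := by
        refine FreeGroup.ext_hom _ _ fun x => ?_
        simp only [MonoidHom.comp_apply, FreeGroup.map.of, FreeGroup.lift_apply_of, Sum.elim_inl]
      exact DFunLike.congr_fun this g
    rw [map_mul, map_mul, map_mul, map_inv, map_inv, hm, FreeGroup.lift_apply_of,
      FreeGroup.lift_apply_of, Sum.elim_inl, Sum.elim_inr, mul_inv_eq_one, inv_inv]
    rw [mul_inv_eq_iff_eq_mul]
    apply Equiv.ext
    intro p
    rw [Equiv.Perm.mul_apply, Equiv.Perm.mul_apply, ncRR_apply, hσ2, ncRR_apply]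
    refine Prod.ext rfl ?_
    show (σ t p).2 * phi W t (FreeGroup.of x)⁻¹ = (σ t p).2 * (pw (W t x))⁻¹
    rw [map_inv]
    simp only [phi, FreeGroup.lift_apply_of]
  obtain ⟨ρ, hρx, hρt⟩ : ∃ ρ : HG X T W →* Equiv.Perm (VV pr × FreeGroup X),
      (∀ f, ρ (iX W f) = ncRR pr f) ∧ ∀ t, ρ (tt W t) = (σ t)⁻¹ := by
    refine ⟨PresentedGroup.toGroup hrel, fun f => ?_, fun t => ?_⟩
    · have : (PresentedGroup.toGroup hrel).comp (iX W) = ncRR pr := by
        refine FreeGroup.ext_hom _ _ fun x => ?_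
        simp only [MonoidHom.comp_apply, iX, FreeGroup.lift_apply_of]
        rw [PresentedGroup.toGroup.of, Sum.elim_inl]
      exact DFunLike.congr_fun this f
    · unfold tt
      rw [PresentedGroup.toGroup.of, Sum.elim_inr]
  have hev : ∀ g p, ncEv W pr ((ρ g)⁻¹ p) = ncEv W pr p * g := by
    let H : Subgroup (HG X T W) :=
      { carrier := {g | ∀ p, ncEv W pr ((ρ g)⁻¹ p) = ncEv W pr p * g}
        one_mem' := by
          intro p
          rw [map_one, inv_one, mul_one]
          rfl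
        mul_mem' := by
          intro g h hg hh p
          rw [map_mul, mul_inv_rev, Equiv.Perm.mul_apply, hh, hg, mul_assoc]
        inv_mem' := by
          intro g hg p
          have := hg (ρ g p)
          rw [← Equiv.Perm.mul_apply, inv_mul_cancel, Equiv.Perm.one_apply] at this
          rw [this, map_inv, inv_inv, mul_assoc, mul_inv_cancel, mul_one] }
    have hH : ∀ g, g ∈ H := by
      intro g
      refine PresentedGroup.generated_by _ H ?_ g
      rintro (x | t)
      · intro p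
        have e : (PresentedGroup.of (Sum.inl x) : HG X T W) = iX W (FreeGroup.of x) := by
          simp only [iX, FreeGroup.lift_apply_of]
        rw [e, hρx, ← map_inv, ncRR_apply, inv_inv]
        unfold ncEv
        rw [map_mul, mul_assoc]
      · intro p
        have e : (PresentedGroup.of (Sum.inr t) : HG X T W) = tt W t := rfl
        rw [e, hρt, inv_inv]
        exact ncEv_R W pr (hσ1 t p)
    exact hH
  obtain ⟨b, hb⟩ : ∃ b : VV pr, b.1 = [] := ⟨⟨[], by simp, List.isChain_nil⟩, rfl⟩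
  obtain ⟨Θ, hΘ⟩ : ∃ Θ : HG X T W → VV pr × FreeGroup X, ∀ g, Θ g = (ρ g)⁻¹ (b, 1) :=
    ⟨_, fun _ => rfl⟩
  have hx : ∀ g f, Θ (g * iX W f) = ((Θ g).1, (Θ g).2 * f) := by
    intro g f
    rw [hΘ, hΘ, map_mul, mul_inv_rev, Equiv.Perm.mul_apply, hρx, ← map_inv, ncRR_apply, inv_inv]
  have ht : ∀ g t, Θ (g * tt W t) = σ t (Θ g) := by
    intro g t
    rw [hΘ, hΘ, map_mul, mul_inv_rev, Equiv.Perm.mul_apply, hρt, inv_inv]
  have hEv : ∀ g, ncEv W pr (Θ g) = g := by
    intro g
    rw [hΘ, hev]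
    unfold ncEv
    rw [hb, map_one]
    simp [ncE]
  have hnf : ∀ (l : List (T × Option (FreeGroup X))) (v : VV pr), v.1 = l →
      Θ (ncE W l) = (v, 1) := by
    intro l
    induction l with
    | nil =>
      intro v hv
      rw [ncE, hΘ, map_one, inv_one]
      show (b, (1 : FreeGroup X)) = (v, 1)
      rw [show b = v from Subtype.ext (hb.trans hv.symm)]
    | cons a l ih =>
      intro v hv
      obtain ⟨w, hw⟩ := nc_tail hv
      obtain ⟨t, o⟩ := a
      cases o with
      | none =>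
        rw [ncE, ht, ih w hw]
        refine nc_fw_unique W t (w, 1) _ _ (hσ1 t (w, 1)) ?_
        refine (ncR_iff W t _ _).2 ⟨1, by rw [inv_one]; exact h2 t, Or.inr ⟨rfl, ?_⟩, ?_⟩
        · show v.1 = (t, none) :: w.1
          rw [hv, hw]
        · show (1 : FreeGroup X) = 1 * phi W t 1
          rw [map_one, one_mul]
      | some r =>
        have h3 : σ t (v, 1) = (w, r) := by
          refine nc_fw_unique W t (v, 1) _ _ (hσ1 t (v, 1)) ?_
          refine (ncR_iff W t _ _).2 ⟨r, nc_mem hv, Or.inl ?_, ?_⟩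
          · show v.1 = (t, some r) :: w.1
            rw [hv, hw]
          · show r = r * phi W t 1
            rw [map_one, mul_one]
        have h4 := ht (ncE W l * iX W r * (tt W t)⁻¹) t
        rw [inv_mul_cancel_right, hx, ih w hw] at h4
        rw [ncE]
        apply (σ t).injective
        rw [← h4, h3]
        simp
  have hbij : Function.Bijective Θ := by
    constructor
    · intro g g' h
      rw [← hEv g, ← hEv g', h]
    · rintro ⟨v, f⟩
      refine ⟨ncE W v.1 * iX W f, ?_⟩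
      rw [hx, hnf v.1 v rfl]
      simp
  refine ⟨Equiv.ofBijective Θ hbij, hx, fun g t => ?_⟩
  have h3 := hσ1 t (Θ g)
  rw [← ht] at h3
  exact h3

theorem iX_injective (h1 : ∀ t u f, pr t (phi W t u * f) = u * pr t f)
    (h2 : ∀ t, pr t 1 = 1) : Function.Injective (iX (T := T) W) := by
  obtain ⟨Θ, hΘ, -⟩ := exists_nf W pr h1 h2
  intro f f' h
  have e1 := hΘ 1 f
  have e2 := hΘ 1 f'
  rw [h, e2] at e1
  exact (mul_left_cancel (congrArg Prod.snd e1)).symm

end Pool.Agent.Helper74.MH
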