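import Pool.Agent.Helper74.MH.Defs2

/-! Module Nd (MP_f028d2_al): word metrics are path metrics. -/

set_option autoImplicit false

namespace Pool.Agent.Helper74.MH

variable {G ι : Type*} [Group G] {g : ι → G}

/-- the value of a word in the generators and their inverses -/
private def ev (g : ι → G) (l : List (ι × Bool)) : G :=
  (l.map (fun p => if p.2 then g p.1 else (g p.1)⁻¹)).prod

private theorem ev_append (l m : List (ι × Bool)) : ev g (l ++ m) = ev g l * ev g m := by
  unfold ev
  rw [List.map_append, List.prod_append]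

private theorem ev_inv (l : List (ι × Bool)) :
    ∃ m : List (ι × Bool), m.length = l.length ∧ ev g m = (ev g l)⁻¹ := by
  induction l with
  | nil => exact ⟨[], rfl, by simp [ev]⟩
  | cons p l ih =>
    obtain ⟨m, h1, h2⟩ := ih
    refine ⟨m ++ [(p.1, !p.2)], by simp [h1], ?_⟩
    have e1 : ev g (p :: l) = ev g [p] * ev g l := ev_append [p] l
    have e2 : ev g [(p.1, !p.2)] = (ev g [p])⁻¹ := by
      unfold ev
      cases h : p.2 <;> simp [h]
    rw [ev_append, h2, e1, e2, mul_inv_rev]

private theorem exists_word (hg : Subgroup.closure (Set.range g) = ⊤) (x : G) :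
    ∃ l : List (ι × Bool), ev g l = x := by
  have hx : x ∈ Subgroup.closure (Set.range g) := by rw [hg]; trivial
  induction hx using Subgroup.closure_induction with
  | mem x hx =>
    obtain ⟨i, rfl⟩ := hx
    exact ⟨[(i, true)], by simp [ev]⟩
  | one => exact ⟨[], by simp [ev]⟩
  | mul x y _ _ hx hy =>
    obtain ⟨l, rfl⟩ := hx
    obtain ⟨m, rfl⟩ := hy
    exact ⟨l ++ m, ev_append l m⟩
  | inv x _ hx =>
    obtain ⟨l, rfl⟩ := hx
    obtain ⟨m, _, hm⟩ := ev_inv (g := g) l
    exact ⟨m, hm⟩

private theorem wd_eq (x y : G) :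
    wd g x y = sInf {k : ℕ | ∃ l : List (ι × Bool), l.length = k ∧ ev g l = x⁻¹ * y} := rfl

private theorem wd_le {x y : G} {l : List (ι × Bool)} (h : ev g l = x⁻¹ * y) :
    wd g x y ≤ l.length := by
  rw [wd_eq]
  exact Nat.sInf_le ⟨l, rfl, h⟩

private theorem wd_spec (hg : Subgroup.closure (Set.range g) = ⊤) (x y : G) :
    ∃ l : List (ι × Bool), l.length = wd g x y ∧ ev g l = x⁻¹ * y := by
  have hne : {k : ℕ | ∃ l : List (ι × Bool), l.length = k ∧ ev g l = x⁻¹ * y}.Nonempty := by
    obtain ⟨l, hl⟩ := exists_word hg (x⁻¹ * y)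
    exact ⟨l.length, l, rfl, hl⟩
  exact Nat.sInf_mem hne

private theorem wd_symm_le (hg : Subgroup.closure (Set.range g) = ⊤) (x y : G) :
    wd g x y ≤ wd g y x := by
  obtain ⟨l, h1, h2⟩ := wd_spec hg y x
  obtain ⟨m, h3, h4⟩ := ev_inv (g := g) l
  rw [← h1, ← h3]
  refine wd_le ?_
  rw [h4, h2, mul_inv_rev, inv_inv]

private theorem wd_tri (hg : Subgroup.closure (Set.range g) = ⊤) (x y z : G) :
    wd g x z ≤ wd g x y + wd g y z := by
  obtain ⟨l, h1, h2⟩ := wd_spec hg x y
  obtain ⟨m, h3, h4⟩ := wd_spec hg y z
  rw [← h1, ← h3, ← List.length_append]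
  refine wd_le ?_
  rw [ev_append, h2, h4]
  group

theorem wd_isPathMetric (hg : Subgroup.closure (Set.range g) = ⊤) : IsPathMetric (wd g) := by
  refine ⟨?_, ?_, ?_, ?_⟩
  · intro x y
    constructor
    · intro h
      obtain ⟨l, h1, h2⟩ := wd_spec hg x y
      rw [h] at h1
      have h3 : l = [] := List.length_eq_zero_iff.1 h1
      rw [h3] at h2
      have h4 : x⁻¹ * y = 1 := by rw [← h2]; simp [ev]
      exact inv_mul_eq_one.1 h4
    · rintro rfl
      have h1 : wd g x x ≤ ([] : List (ι × Bool)).length := wd_le (by simp [ev])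
      simpa using h1
  · intro x y
    exact le_antisymm (wd_symm_le hg x y) (wd_symm_le hg y x)
  · exact wd_tri hg
  · intro x y k hk
    obtain ⟨l, h1, h2⟩ := wd_spec hg x y
    refine ⟨x * ev g (l.take k), ?_, ?_⟩
    · have h3 : wd g x (x * ev g (l.take k)) ≤ (l.take k).length :=
        wd_le (by rw [inv_mul_cancel_left])
      have h4 : wd g (x * ev g (l.take k)) y ≤ (l.drop k).length := by
        refine wd_le ?_
        have h5 : ev g (l.take k) * ev g (l.drop k) = x⁻¹ * y := by
          rw [← ev_append, List.take_append_drop, h2]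
        rw [mul_inv_rev, mul_assoc, ← h5, inv_mul_cancel_left]
      have h6 := wd_tri hg x (x * ev g (l.take k)) y
      have h7 : (l.take k).length + (l.drop k).length = l.length := by
        rw [← List.length_append, List.take_append_drop]
      unfold Btw
      omega
    · have h3 : wd g x (x * ev g (l.take k)) ≤ (l.take k).length :=
        wd_le (by rw [inv_mul_cancel_left])
      have h4 : wd g (x * ev g (l.take k)) y ≤ (l.drop k).length := by
        refine wd_le ?_
        have h5 : ev g (l.take k) * ev g (l.drop k) = x⁻¹ * y := by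
          rw [← ev_append, List.take_append_drop, h2]
        rw [mul_inv_rev, mul_assoc, ← h5, inv_mul_cancel_left]
      have h6 := wd_tri hg x (x * ev g (l.take k)) y
      have h7 : (l.take k).length + (l.drop k).length = l.length := by
        rw [← List.length_append, List.take_append_drop]
      have h8 : (l.take k).length = k := by
        rw [List.length_take]
        omega
      omega

theorem wd_le_one_iff (hg : Subgroup.closure (Set.range g) = ⊤) (x y : G) :
    wd g x y ≤ 1 ↔ x = y ∨ (∃ i, y = x * g i) ∨ (∃ i, x = y * g i) := by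
  constructor
  · intro h
    obtain ⟨l, h1, h2⟩ := wd_spec hg x y
    rcases l with _ | ⟨p, l⟩
    · left
      have h4 : x⁻¹ * y = 1 := by rw [← h2]; simp [ev]
      exact inv_mul_eq_one.1 h4
    · right
      have h3 : l = [] := by
        rw [List.length_cons] at h1
        exact List.length_eq_zero_iff.1 (by omega)
      subst h3
      rcases p with ⟨i, b⟩
      cases b
      · right
        refine ⟨i, ?_⟩
        have h5 : (g i)⁻¹ = x⁻¹ * y := by rw [← h2]; simp [ev]
        have h6 : y = x * (g i)⁻¹ := by rw [h5, mul_inv_cancel_left]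
        rw [h6, inv_mul_cancel_right]
      · left
        refine ⟨i, ?_⟩
        have h5 : g i = x⁻¹ * y := by rw [← h2]; simp [ev]
        rw [h5, mul_inv_cancel_left]
  · rintro (rfl | ⟨i, rfl⟩ | ⟨i, rfl⟩)
    · have h1 : wd g x x ≤ ([] : List (ι × Bool)).length := wd_le (by simp [ev])
      exact h1.trans (by simp)
    · exact wd_le (l := [(i, true)]) (by simp [ev])
    · exact wd_le (l := [(i, false)]) (by simp [ev])

/-- Reindexing the generators does not change the word metric. -/
theorem wd_comp_equiv {κ : Type*} (e : κ ≃ ι) (x y : G) : wd (g ∘ e) x y = wd g x y := by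
  rw [wd_eq, wd_eq]
  congr 1
  ext k
  constructor
  · rintro ⟨l, h1, h2⟩
    refine ⟨l.map (fun p => (e p.1, p.2)), by simpa using h1, ?_⟩
    rw [← h2]
    unfold ev
    rw [List.map_map]
    rfl
  · rintro ⟨l, h1, h2⟩
    refine ⟨l.map (fun p => (e.symm p.1, p.2)), by simpa using h1, ?_⟩
    rw [← h2]
    unfold ev
    rw [List.map_map]
    congr 1
    refine List.map_congr_left fun p _ => ?_
    simp

theorem closure_gens {X T : Type*} (W : T → X → List X) :
    Subgroup.closure (Set.range (fun i : X ⊕ T => (PresentedGroup.of i : HG X T W))) = ⊤ :=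
  PresentedGroup.closure_range_of _

end Pool.Agent.Helper74.MH
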