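import Pool.Agent.Helper74.MH.Nb
import Pool.Agent.Helper74.MH.Nc
import Pool.Agent.Helper74.MH.Nd

/-! Module Ne (MP_f028d2_al): the word metric of `HG X T W` as the total metric of a tree of
trees. -/

set_option autoImplicit false

namespace Pool.Agent.Helper74.MH

variable {X T : Type} [DecidableEq X] {W : T → X → List X} {h Q : ℕ}
  {pr : T → FreeGroup X → FreeGroup X}

omit [DecidableEq X] in
private theorem iX_of (x : X) :
    iX W (FreeGroup.of x) = (PresentedGroup.of (Sum.inl x) : HG X T W) := by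
  unfold iX
  exact FreeGroup.lift_apply_of

/-- The word metric is bounded by the norm in the free group. -/
private theorem wd_iX (g : HG X T W) (f : FreeGroup X) :
    wd (fun i : X ⊕ T => (PresentedGroup.of i : HG X T W)) g (g * iX W f) ≤ f.norm := by
  refine Nat.sInf_le ⟨f.toWord.map (fun p => (Sum.inl p.1, p.2)), ?_, ?_⟩
  · rw [List.length_map]
    rfl
  · rw [inv_mul_cancel_left]
    conv_rhs => rw [← FreeGroup.mk_toWord (x := f)]
    unfold iX
    rw [FreeGroup.lift_mk, List.map_map]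
    congr 1
    refine List.map_congr_left fun p _ => ?_
    rcases p with ⟨x, b⟩
    cases b <;> rfl

theorem metric_of_nf (hS : Stretch (FreeGroup X) T dF (phi W) h Q) (hpr : IsProj dF (phi W) pr)
    (Θ : HG X T W ≃ VV pr × FreeGroup X)
    (hΘ : ∀ g f, Θ (g * iX W f) = ((Θ g).1, (Θ g).2 * f))
    (hΘt : ∀ g t, ∃ j : JJ pr, j.1.1 = t ∧ ChV pr j (Θ g).1 (Θ (g * tt W t)).1 ∧
        (Θ (g * tt W t)).2 = j.1.2 * phi W t (Θ g).2) :
    (ttOf dF (phi W) pr h Q).Metric
      (fun p q => wd (fun i : X ⊕ T => (PresentedGroup.of i : HG X T W)) (Θ.symm p) (Θ.symm q)) := by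
  have hcl := closure_gens (T := T) W
  have hP := wd_isPathMetric hcl
  -- one generator step
  have hstep : ∀ (p q : VV pr × FreeGroup X) (i : X ⊕ T),
      Θ.symm q = Θ.symm p * PresentedGroup.of i →
      (p.1 = q.1 ∧ dF p.2 q.2 ≤ 1) ∨ (∃ j : JJ pr, ChV pr j p.1 q.1 ∧
        q.2 = j.1.2 * phi W j.1.1 p.2) := by
    intro p q i hi
    rcases i with x | t
    · left
      have h1 := hΘ (Θ.symm p) (FreeGroup.of x)
      rw [iX_of, ← hi, Θ.apply_symm_apply, Θ.apply_symm_apply] at h1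
      rw [h1]
      refine ⟨rfl, ?_⟩
      unfold dF
      simp only [inv_mul_cancel_left]
      rw [FreeGroup.norm_of]
    · right
      obtain ⟨j, hj, hc, h2⟩ := hΘt (Θ.symm p) t
      have e1 : Θ (Θ.symm p * tt W t) = q := by
        have : Θ.symm p * tt W t = Θ.symm q := hi.symm
        rw [this, Θ.apply_symm_apply]
      rw [e1, Θ.apply_symm_apply] at hc h2
      refine ⟨j, hc, ?_⟩
      rw [h2, hj]
  refine ⟨⟨?_, ?_, ?_, ?_⟩, ?_, ?_, ?_⟩
  · intro p q
    rw [hP.zero_iff]
    exact Θ.symm.injective.eq_iff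
  · intro p q
    exact hP.symm _ _
  · intro p q r
    exact hP.tri _ _ _
  · intro p q k hk
    obtain ⟨z, hz, hz'⟩ := hP.geod _ _ k hk
    refine ⟨Θ z, ?_, ?_⟩
    · unfold Btw at hz ⊢
      simp only [Θ.symm_apply_apply]
      exact hz
    · simp only [Θ.symm_apply_apply]
      exact hz'
  · intro v m m'
    have h1 := hΘ (Θ.symm (v, m)) (m⁻¹ * m')
    rw [Θ.apply_symm_apply] at h1
    simp only [mul_inv_cancel_left] at h1
    have h2 : Θ.symm (v, m') = Θ.symm (v, m) * iX W (m⁻¹ * m') := by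
      rw [← h1, Θ.symm_apply_apply]
    simp only [h2]
    exact wd_iX _ _
  · intro j u w m hj
    have hj' : ChV pr j u w := hj
    obtain ⟨j', ht, hc, h2⟩ := hΘt (Θ.symm (u, m)) j.1.1
    rw [Θ.apply_symm_apply] at hc h2
    obtain ⟨e1, e2⟩ := ChV.parent_unique hj' hc ht.symm
    subst e1
    have h3 : Θ (Θ.symm (u, m) * tt W j.1.1) = (w, j.1.2 * phi W j.1.1 m) :=
      Prod.ext e2.symm h2
    have h4 : Θ.symm (w, j.1.2 * phi W j.1.1 m) = Θ.symm (u, m) * tt W j.1.1 := by
      rw [← h3, Θ.symm_apply_apply]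
    change wd (fun i : X ⊕ T => (PresentedGroup.of i : HG X T W)) (Θ.symm (u, m))
      (Θ.symm (w, j.1.2 * phi W j.1.1 m)) ≤ 1
    rw [wd_le_one_iff hcl]
    exact Or.inr (Or.inl ⟨Sum.inr j.1.1, h4⟩)
  · intro p q hpq
    rw [wd_le_one_iff hcl] at hpq
    rcases hpq with h1 | ⟨i, hi⟩ | ⟨i, hi⟩
    · have h2 : p = q := Θ.symm.injective h1
      subst h2
      left
      refine ⟨rfl, ?_⟩
      change dF p.2 p.2 ≤ 1
      unfold dF
      simp
    · rcases hstep p q i hi with h1 | ⟨j, h1, h2⟩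
      · exact Or.inl h1
      · exact Or.inr (Or.inl ⟨j, h1, h2⟩)
    · rcases hstep q p i hi with h1 | ⟨j, h1, h2⟩
      · left
        refine ⟨h1.1.symm, ?_⟩
        have h3 := h1.2
        change dF p.2 q.2 ≤ 1
        unfold dF at h3 ⊢
        rw [← FreeGroup.norm_inv_eq]
        simpa using h3
      · exact Or.inr (Or.inr ⟨j, h1, h2⟩)

end Pool.Agent.Helper74.MH
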