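import Pool.Agent.Helper74.MH.NTa

/-! Module Tb (MP_f028d2_al): existence of gates. -/

set_option autoImplicit false

namespace Pool.Agent.Helper74.MH

variable {V M J : Type*} {S : TT V M J}

open Classical in
/-- The neighbour of `v` towards `x`. -/
private noncomputable def tbNxt (S : TT V M J) (x v : V) : V :=
  if h : ∃ u, S.Tow x v u then h.choose else v

open Classical in
/-- Transport of a point of the fibre over `u` to the fibre over the adjacent vertex `v`. -/
private noncomputable def tbStep (S : TT V M J) (u v : V) (m : M) : M :=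
  if h : ∃ j, S.Ch j u v then S.loc.io h.choose m
  else if h : ∃ j, S.Ch j v u then S.loc.pr h.choose m else m

private noncomputable def tbG (S : TT V M J) (x : V × M) : ℕ → V → M
  | 0, _ => x.2
  | n + 1, v => tbStep S (tbNxt S x.1 v) v (tbG S x n (tbNxt S x.1 v))

private theorem tb_nxt (hS : S.Good) {x v u : V} (h : S.Tow x v u) : tbNxt S x v = u := by
  have hex : ∃ u, S.Tow x v u := ⟨u, h⟩
  unfold tbNxt
  rw [dif_pos hex]
  have h' := hex.choose_spec
  have e1 : S.dV v hex.choose = 1 := by rw [hS.tree.symm]; exact h'.1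
  have e2 : S.dV v u = 1 := by rw [hS.tree.symm]; exact h.1
  exact hS.tree.closer_unique e1 e2 h'.2 h.2

private theorem tb_step_up (hS : S.Good) {j : J} {u w : V} (hc : S.Ch j u w) (m : M) :
    tbStep S u w m = S.loc.io j m := by
  have hex : ∃ j, S.Ch j u w := ⟨j, hc⟩
  unfold tbStep
  rw [dif_pos hex]
  rw [hS.idx _ _ _ _ hex.choose_spec hc]

private theorem tb_step_down (hS : S.Good) {j : J} {u w : V} (hc : S.Ch j u w) (m : M) :
    tbStep S w u m = S.loc.pr j m := by
  have hno : ¬ ∃ j, S.Ch j w u := by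
    rintro ⟨j', h'⟩
    exact hS.asym _ _ _ _ hc h'
  have hex : ∃ j, S.Ch j u w := ⟨j, hc⟩
  unfold tbStep
  rw [dif_neg hno, dif_pos hex]
  rw [hS.idx _ _ _ _ hex.choose_spec hc]

theorem TT.Good.exists_gate (hS : S.Good) : ∃ γ : V × M → V → M, S.IsGate γ := by
  refine ⟨fun x v => tbG S x (S.dV x.1 v) v, ?_⟩
  have hstep : ∀ (x : V × M) (w u : V), S.Tow x.1 w u →
      tbG S x (S.dV x.1 w) w = tbStep S u w (tbG S x (S.dV x.1 u) u) := by
    intro x w u h
    rw [← h.2]
    show tbStep S (tbNxt S x.1 w) w (tbG S x (S.dV x.1 u) (tbNxt S x.1 w)) = _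
    rw [tb_nxt hS h]
  have hup : ∀ (x : V × M) (j : J) (u w : V), S.Ch j u w → S.Tow x.1 w u →
      tbG S x (S.dV x.1 w) w = S.loc.io j (tbG S x (S.dV x.1 u) u) := by
    intro x j u w hc h
    rw [hstep x w u h, tb_step_up hS hc]
  refine ⟨?_, hup, ?_⟩
  · intro x
    show tbG S x (S.dV x.1 x.1) x.1 = x.2
    rw [hS.tree.toIsPathMetric.self]
    rfl
  · intro x j u w hc
    show tbG S x (S.dV x.1 u) u = S.loc.pr j (tbG S x (S.dV x.1 w) w)
    have hadj : S.dV u w = 1 := (hS.adj u w).2 (Or.inl ⟨j, hc⟩)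
    rcases hS.tree.adj x.1 hadj with h | h
    · rw [hup x j u w hc ⟨hadj, h.symm⟩, hS.gloc.pr_io]
    · have hadj' : S.dV w u = 1 := by rw [hS.tree.symm]; exact hadj
      rw [hstep x u w ⟨hadj', h⟩, tb_step_down hS hc]

end Pool.Agent.Helper74.MH
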