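import Pool.Agent.Helper74.MH.Tc

/-! Module Td (MP_f028d2_al): guessed geodesics of adjacent points. -/

set_option autoImplicit false

namespace Pool.Agent.Helper74.MH

variable {V M J : Type*} {S : TT V M J} {γ : V × M → V → M} {D : V × M → V × M → ℕ}

/-- Away from an edge, the two ends of the edge lie in the same direction. -/
private theorem common_next (hS : S.Good) {a b v : V} (hab : S.dV a b = 1) (h1 : v ≠ a)
    (h2 : v ≠ b) : ∃ n, S.Tow a v n ∧ S.Tow b v n := by
  have hd := hS.tree
  rcases hd.adj v hab with h | h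
  · -- `dV v b = dV v a + 1`
    obtain ⟨n, hn⟩ := hS.exists_tow (Ne.symm h1)
    refine ⟨n, hn, hn.1, ?_⟩
    have h3 := hn.2
    have h4 := hd.tri b a n
    have h5 := hd.tri b n v
    have h6 := hn.1
    have e1 := hd.symm v a
    have e2 := hd.symm v b
    have e3 := hd.symm b a
    omega
  · obtain ⟨n, hn⟩ := hS.exists_tow (Ne.symm h2)
    refine ⟨n, ⟨hn.1, ?_⟩, hn⟩
    have h3 := hn.2
    have h4 := hd.tri a b n
    have h5 := hd.tri a n v
    have h6 := hn.1
    have e1 := hd.symm v a
    have e2 := hd.symm v b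
    omega

/-- The gates of the two ends of a vertical edge agree. -/
private theorem gates_agree (hS : S.Good) (hγ : S.IsGate γ) {x y : V × M} {j : J}
    (hc : S.Ch j x.1 y.1) (he : y.2 = S.loc.io j x.2) :
    ∀ N v, S.dV x.1 v ≤ N → γ x v = γ y v := by
  have hd := hS.tree
  have hdp := hd.toIsPathMetric
  have hab : S.dV x.1 y.1 = 1 := (hS.adj _ _).2 (Or.inl ⟨j, hc⟩)
  have e1 : γ x x.1 = γ y x.1 := by
    rw [hγ.self, hγ.down y j x.1 y.1 hc, hγ.self, he, hS.gloc.pr_io]
  have e2 : γ x y.1 = γ y y.1 := by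
    rw [hγ.self, hγ.up x j x.1 y.1 hc ⟨hab, by rw [hdp.self, hab]⟩, hγ.self, he]
  intro N
  induction N with
  | zero =>
    intro v hv
    have : x.1 = v := (hd.zero_iff _ _).1 (Nat.le_zero.1 hv)
    rw [← this]
    exact e1
  | succ N ih =>
    intro v hv
    by_cases h1 : v = x.1
    · rw [h1]
      exact e1
    · by_cases h2 : v = y.1
      · rw [h2]
        exact e2
      · obtain ⟨n, hn1, hn2⟩ := common_next hS hab h1 h2
        have h3 := ih n (by have := hn1.2; omega)
        rcases (hS.adj n v).1 hn1.1 with ⟨k, hk⟩ | ⟨k, hk⟩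
        · rw [hγ.up x k n v hk hn1, hγ.up y k n v hk hn2, h3]
        · rw [hγ.down x k v n hk, hγ.down y k v n hk, h3]

private theorem edge_case (hS : S.Good) (hγ : S.IsGate γ) {x y : V × M} {j : J}
    (hc : S.Ch j x.1 y.1) (he : y.2 = S.loc.io j x.2) :
    ∀ p ∈ S.LL γ x y, p = x ∨ p = y := by
  have hd := hS.tree
  have hab : S.dV x.1 y.1 = 1 := (hS.adj _ _).2 (Or.inl ⟨j, hc⟩)
  rintro ⟨v, q⟩ ⟨hrel, hb, -⟩
  change S.Rel γ v x y at hrel
  change Btw S.loc.d (γ x v) q (γ y v) at hb
  have hg := gates_agree hS hγ hc he _ v le_rfl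
  rw [← hg] at hb
  have hq : q = γ x v := hS.gloc.tree.toIsPathMetric.btw_self hb
  by_cases h1 : v = x.1
  · left
    subst h1
    rw [hq, hγ.self]
  · by_cases h2 : v = y.1
    · right
      subst h2
      rw [hq, hg, hγ.self]
    · exfalso
      obtain ⟨n, hn1, hn2⟩ := common_next hS hab h1 h2
      rcases hrel with h | h
      · exact h n ⟨hn1, hn2⟩
      · rw [hg, hS.gloc.tree.toIsPathMetric.self] at h
        omega

/-- Gates of adjacent points of one fibre in a vertex whose parent is the next vertex. -/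
private theorem same_close (hS : S.Good) (hγ : S.IsGate γ) {x y : V × M} (hxy : x.1 = y.1)
    (hdd : S.loc.d x.2 y.2 ≤ 1) : ∀ N v n j, S.dV x.1 v ≤ N → S.Ch j v n → S.Tow x.1 v n →
      S.loc.d (γ x v) (γ y v) ≤ 1 := by
  intro N
  induction N with
  | zero =>
    intro v n j hv _ ht
    have := ht.2
    omega
  | succ N ih =>
    intro v n j hv hc ht
    rw [hγ.down x j v n hc, hγ.down y j v n hc]
    by_cases hn : x.1 = n
    · refine (hS.gloc.lip j _ _).trans ?_
      subst hn
      rw [hγ.self]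
      have : γ y x.1 = y.2 := by rw [hxy, hγ.self]
      rw [this]
      exact hdd
    · obtain ⟨n', hn'⟩ := hS.exists_tow hn
      rcases (hS.adj n' n).1 hn'.1 with ⟨k, hk⟩ | ⟨k, hk⟩
      · have hkj : k ≠ j := by
          intro hkj
          subst hkj
          have := hS.fn k n' v n hk hc
          subst this
          exact hS.tow_asymm ht hn'
        exact hS.gloc.two_proj hkj (hS.gate_mem hγ hk hn')
          (hS.gate_mem hγ hk (by rw [← hxy]; exact hn'))
      · refine (hS.gloc.lip j _ _).trans (ih n n' k ?_ hk hn')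
        have := ht.2
        omega

theorem TT.Good.LL_adj (hS : S.Good) (hγ : S.IsGate γ) (hD : S.Metric D) (x y : V × M)
    (h : D x y ≤ 1) : ∀ p ∈ S.LL γ x y, D x p ≤ 1 := by
  have hd := hS.gloc.tree
  have hdp := hd.toIsPathMetric
  rcases hD.adj x y h with ⟨h1, h2⟩ | ⟨j, h1, h2⟩ | ⟨j, h1, h2⟩
  · rintro ⟨v, q⟩ ⟨hrel, hb, hnh⟩
    change S.Rel γ v x y at hrel
    change Btw S.loc.d (γ x v) q (γ y v) at hb
    change ¬ S.Hid γ v q x y at hnh
    by_cases hv : x.1 = v
    · subst hv
      have h3 := hD.fib x.1 x.2 q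
      have h4 : γ y x.1 = y.2 := by rw [h1, hγ.self]
      rw [hγ.self, h4] at hb
      unfold Btw at hb
      have h5 : D x (x.1, q) = D (x.1, x.2) (x.1, q) := rfl
      omega
    · exfalso
      obtain ⟨n, hn⟩ := hS.exists_tow hv
      have hn' : S.Tow y.1 v n := by rw [← h1]; exact hn
      rcases (hS.adj n v).1 hn.1 with ⟨j, hj⟩ | ⟨j, hj⟩
      · exact hnh ⟨j, n, hj, Or.inl hn, Or.inl hn'⟩
      · rcases hrel with h3 | h3
        · exact h3 n ⟨hn, hn'⟩
        · have h4 := same_close hS hγ h1 h2 _ v n j le_rfl hj hn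
          omega
  · intro p hp
    rcases edge_case hS hγ h1 h2 p hp with rfl | rfl
    · rw [hD.path.self]
      omega
    · exact h
  · intro p hp
    rw [hS.LL_symm γ x y] at hp
    rcases edge_case hS hγ h1 h2 p hp with rfl | rfl
    · exact h
    · rw [hD.path.self]
      omega

end Pool.Agent.Helper74.MH
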