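import Pool.Agent.Helper74.MH.Tc

/-! Module Tf (MP_f028d2_al): thinness, case B (the point is hidden with respect to `x, z`). -/

set_option autoImplicit false

namespace Pool.Agent.Helper74.MH

variable {V M J : Type*} {S : TT V M J} {γ : V × M → V → M} {D : V × M → V × M → ℕ}

/-- Case B-i. -/
theorem TT.Good.thin_caseBi (hS : S.Good) (hγ : S.IsGate γ) (hD : S.Metric D) (x y z : V × M)
    (w : V) (p m : M) (hp : (w, p) ∈ S.LL γ x y)
    (hm₁ : Btw S.loc.d (γ x w) m (γ y w)) (hm₂ : Btw S.loc.d (γ y w) m (γ z w))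
    (hm₃ : Btw S.loc.d (γ x w) m (γ z w)) (hpm : Btw S.loc.d (γ x w) p m)
    (hr : S.Rel γ w x z) (j : J) (u : V) (hc : S.Ch j u w)
    (hx : S.Far γ j u w p x) (hz : S.Far γ j u w p z)
    (h₁ : ¬ S.Tow z.1 w u) (h₂ : S.loc.d (S.loc.pr j p) (γ z u) ≤ 4) :
    ∃ q ∈ S.LL γ x z, D (w, p) q ≤ 2 * S.loc.Lam + 6 := by
  have hd := hS.gloc.tree
  have hdp := hd.toIsPathMetric
  have hzu : γ z u = S.loc.pr j (γ z w) := hγ.down z j u w hc
  have hxu : γ x u = S.loc.pr j (γ x w) := hγ.down x j u w hc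
  have hz3 : 3 ≤ S.loc.d (S.loc.pr j p) (S.loc.pr j (γ z w)) := by
    rcases hz with h | h
    · exact absurd h h₁
    · rwa [hzu] at h
  rw [hzu] at h₂
  obtain ⟨hapc, hpmc⟩ := hdp.trans_left hm₃ hpm
  have hpY : p ∈ S.loc.Y j := hS.far_mem hγ hc hapc hx hz
  obtain ⟨e, e', k1, k2, k3, k4, k5, k6, k7⟩ := hd.exists_first
    (p := p) (q := γ z w) (fun r => S.loc.pr j r = S.loc.pr j (γ z w))
    (fun h => by
      have h' : S.loc.pr j p = S.loc.pr j (γ z w) := h
      rw [h', hdp.self] at hz3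
      omega) rfl
  have he : S.loc.pr j e ≠ S.loc.pr j (γ z w) := k7 e (hdp.btw_right p e)
  have k6' : S.loc.pr j e' = S.loc.pr j (γ z w) := k6
  have heY : e ∈ S.loc.Y j := hS.gloc.mem_Y j p e (γ z w) k4 (Or.inr hpY) (Or.inl he)
  obtain ⟨haec, hape⟩ := hdp.trans_right hapc k4
  obtain ⟨hae'c, haee'⟩ := hdp.trans_right haec k3
  have hmo := hS.gloc.mono j p e (γ z w) k4
  have hne : S.loc.d (S.loc.pr j e) (S.loc.pr j (γ z w)) ≠ 0 := fun h =>
    he ((hd.zero_iff _ _).1 h)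
  refine ⟨(w, e'), ⟨hr, hae'c, ?_⟩, ?_⟩
  · rintro ⟨j2, u2, hc2, hx2, hz2⟩
    change S.Ch j2 u2 w at hc2
    change S.Far γ j2 u2 w e' x at hx2
    change S.Far γ j2 u2 w e' z at hz2
    by_cases hj : j2 = j
    · subst hj
      have hu2 : u2 = u := hS.fn j2 u2 u w hc2 hc
      subst hu2
      rcases hz2 with h | h
      · exact h₁ h
      · have h' : 3 ≤ S.loc.d (S.loc.pr j2 e') (γ z u2) := h
        rw [hzu, k6', hdp.self] at h'
        omega
    · have he'Y : e' ∈ S.loc.Y j2 := hS.far_mem hγ hc2 hae'c hx2 hz2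
      have hlip : S.loc.d (S.loc.pr j2 e) (S.loc.pr j2 e') ≤ 1 := by
        rw [← k5]
        exact hS.gloc.lip j2 e e'
      have ha2 : 2 ≤ S.loc.d (S.loc.pr j2 e) (S.loc.pr j2 (γ x w)) ∨ γ x w ∈ S.loc.Y j2 := by
        rcases hS.far_cases hγ hc2 hx2 with h | h
        · left
          have h4 := hd.tri (S.loc.pr j2 e') (S.loc.pr j2 e) (S.loc.pr j2 (γ x w))
          rw [hd.symm (S.loc.pr j2 e') (S.loc.pr j2 e)] at h4
          omega
        · exact Or.inr h
      have heY2 : e ∈ S.loc.Y j2 := by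
        refine hS.gloc.mem_Y j2 (γ x w) e e' haee' ?_ (Or.inr he'Y)
        rcases ha2 with h | h
        · left
          intro h'
          rw [h', hdp.self] at h
          omega
        · exact Or.inr h
      have hmo2 := hS.gloc.mono j (γ x w) p e hape
      have hge : S.loc.d (S.loc.pr j p) (S.loc.pr j (γ x w)) ≤
          S.loc.d (S.loc.pr j e) (S.loc.pr j (γ x w)) := by
        unfold Btw at hmo2
        rw [hd.symm (S.loc.pr j p), hd.symm (S.loc.pr j e)]
        omega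
      have ha1 : 2 ≤ S.loc.d (S.loc.pr j e) (S.loc.pr j (γ x w)) ∨ γ x w ∈ S.loc.Y j := by
        rcases hS.far_cases hγ hc hx with h | h
        · left
          omega
        · exact Or.inr h
      refine hS.gloc.overlap (fun h => hj h.symm) heY heY2 ha1 ha2 ?_
      rcases hx with h | h
      · rcases hx2 with h2 | h2
        · exfalso
          have hu := hS.tow_unique h h2
          subst hu
          exact hj (hS.idx j2 j u w hc2 hc)
        · right
          have h2' : 3 ≤ S.loc.d (S.loc.pr j2 e') (γ x u2) := h2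
          rw [hγ.down x j2 u2 w hc2] at h2'
          have h4 := hd.tri (S.loc.pr j2 e') (S.loc.pr j2 e) (S.loc.pr j2 (γ x w))
          rw [hd.symm (S.loc.pr j2 e') (S.loc.pr j2 e)] at h4
          omega
      · left
        rw [hxu] at h
        omega
  · have h1 := hD.path.tri (w, p) (w, e) (w, e')
    have h2 := hS.dist_le hD hc hpY heY
    have h3 := hD.fib w e e'
    unfold Btw at hmo
    omega

/-- Case B-ii. -/
theorem TT.Good.thin_caseBii (hS : S.Good) (hγ : S.IsGate γ) (hD : S.Metric D) (x y z : V × M)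
    (w : V) (p m : M) (hp : (w, p) ∈ S.LL γ x y)
    (hm₁ : Btw S.loc.d (γ x w) m (γ y w)) (hm₂ : Btw S.loc.d (γ y w) m (γ z w))
    (hm₃ : Btw S.loc.d (γ x w) m (γ z w)) (hpm : Btw S.loc.d (γ x w) p m)
    (hr : S.Rel γ w x z) (j : J) (u : V) (hc : S.Ch j u w)
    (hx : S.Far γ j u w p x) (hz : S.Far γ j u w p z)
    (h₁ : S.Tow z.1 w u ∨ 5 ≤ S.loc.d (S.loc.pr j p) (γ z u)) :
    ∃ q ∈ S.LL γ z y, D (w, p) q ≤ 2 * S.loc.Lam + 6 := by
  have hd := hS.gloc.tree
  have hdp := hd.toIsPathMetric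
  obtain ⟨hrel, hapb, hnh⟩ := hp
  have hzu : γ z u = S.loc.pr j (γ z w) := hγ.down z j u w hc
  have hyu : γ y u = S.loc.pr j (γ y w) := hγ.down y j u w hc
  rw [hzu] at h₁
  have hny : ¬ S.Far γ j u w p y := fun h => hnh ⟨j, u, hc, hx, h⟩
  have hyt : ¬ S.Tow y.1 w u := fun h => hny (Or.inl h)
  have hy2 : S.loc.d (S.loc.pr j p) (S.loc.pr j (γ y w)) ≤ 2 := by
    by_contra h
    refine hny (Or.inr ?_)
    rw [hyu]
    omega
  obtain ⟨hapc, hpmc⟩ := hdp.trans_left hm₃ hpm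
  obtain ⟨-, hpmb⟩ := hdp.trans_left hm₁ hpm
  have hpY : p ∈ S.loc.Y j := hS.far_mem hγ hc hapc hx hz
  have hmomb := hS.gloc.mono j p m (γ y w) hpmb
  have hpm2 : S.loc.d (S.loc.pr j p) (S.loc.pr j m) ≤ 2 := by
    unfold Btw at hmomb
    omega
  have hmY : m ∈ S.loc.Y j := by
    refine hS.gloc.mem_Y j p m (γ z w) hpmc (Or.inr hpY) ?_
    rcases h₁ with h | h
    · exact Or.inr (hS.gate_mem hγ hc h)
    · left
      intro h'
      rw [h'] at hpm2
      omega
  have hcmb : Btw S.loc.d (γ z w) m (γ y w) := hdp.btw_symm hm₂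
  -- the pair `f, e*`
  obtain ⟨f, e', hfY, hfe, hmfe, hmeb, hee, hpf⟩ : ∃ f e', f ∈ S.loc.Y j ∧ S.loc.d f e' ≤ 1 ∧
      Btw S.loc.d m f e' ∧ Btw S.loc.d m e' (γ y w) ∧
      S.loc.pr j e' = S.loc.pr j (γ y w) ∧
      S.loc.d (S.loc.pr j p) (S.loc.pr j f) ≤ 2 := by
    by_cases hmb : S.loc.pr j m = S.loc.pr j (γ y w)
    · refine ⟨m, m, hmY, ?_, hdp.btw_left m m, hdp.btw_left m _, hmb, hpm2⟩
      rw [hdp.self]
      omega
    · obtain ⟨e, e', k1, k2, k3, k4, k5, k6, k7⟩ := hd.exists_first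
        (p := m) (q := γ y w) (fun r => S.loc.pr j r = S.loc.pr j (γ y w)) hmb rfl
      have he : S.loc.pr j e ≠ S.loc.pr j (γ y w) := k7 e (hdp.btw_right m e)
      obtain ⟨hpeb, -⟩ := hdp.trans_right hpmb k4
      have heY : e ∈ S.loc.Y j := hS.gloc.mem_Y j p e (γ y w) hpeb (Or.inr hpY) (Or.inl he)
      have hmo := hS.gloc.mono j p e (γ y w) hpeb
      refine ⟨e, e', heY, k5.le, k1, k2, k6, ?_⟩
      unfold Btw at hmo
      omega
  obtain ⟨hceb, hcme⟩ := hdp.trans_right hcmb hmeb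
  obtain ⟨hcfe, -⟩ := hdp.trans_right hcme hmfe
  refine ⟨(w, e'), ⟨?_, hceb, ?_⟩, ?_⟩
  · -- relevance
    by_contra hnr
    have hnr1 : ¬ ∀ u, ¬ (S.Tow z.1 w u ∧ S.Tow y.1 w u) := fun h => hnr (Or.inl h)
    have hnr2 : ¬ 3 ≤ S.loc.d (γ z w) (γ y w) := fun h => hnr (Or.inr h)
    push Not at hnr1
    obtain ⟨u', hu1, hu2⟩ := hnr1
    rcases h₁ with h | h
    · have := hS.tow_unique h hu1
      subst this
      exact hyt hu2
    · have h4 := hd.tri (S.loc.pr j p) (S.loc.pr j (γ y w)) (S.loc.pr j (γ z w))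
      have h5 := hS.gloc.lip j (γ y w) (γ z w)
      rw [hd.symm (γ y w) (γ z w)] at h5
      omega
  · rintro ⟨j2, u2, hc2, hz2, hy2'⟩
    change S.Ch j2 u2 w at hc2
    change S.Far γ j2 u2 w e' z at hz2
    change S.Far γ j2 u2 w e' y at hy2'
    by_cases hj : j2 = j
    · subst hj
      have hu2 : u2 = u := hS.fn j2 u2 u w hc2 hc
      subst hu2
      rcases hy2' with h | h
      · exact hyt h
      · have h' : 3 ≤ S.loc.d (S.loc.pr j2 e') (γ y u2) := h
        rw [hyu, hee, hdp.self] at h'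
        omega
    · have he'Y : e' ∈ S.loc.Y j2 := hS.far_mem hγ hc2 hceb hz2 hy2'
      have hlip : S.loc.d (S.loc.pr j2 f) (S.loc.pr j2 e') ≤ 1 :=
        (hS.gloc.lip j2 f e').trans hfe
      have ha2 : 2 ≤ S.loc.d (S.loc.pr j2 f) (S.loc.pr j2 (γ z w)) ∨ γ z w ∈ S.loc.Y j2 := by
        rcases hS.far_cases hγ hc2 hz2 with h | h
        · left
          have h4 := hd.tri (S.loc.pr j2 e') (S.loc.pr j2 f) (S.loc.pr j2 (γ z w))
          rw [hd.symm (S.loc.pr j2 e') (S.loc.pr j2 f)] at h4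
          omega
        · exact Or.inr h
      have hfY2 : f ∈ S.loc.Y j2 := by
        refine hS.gloc.mem_Y j2 (γ z w) f e' hcfe ?_ (Or.inr he'Y)
        rcases ha2 with h | h
        · left
          intro h'
          rw [h', hdp.self] at h
          omega
        · exact Or.inr h
      have hfc : 5 ≤ S.loc.d (S.loc.pr j p) (S.loc.pr j (γ z w)) →
          2 ≤ S.loc.d (S.loc.pr j f) (S.loc.pr j (γ z w)) := by
        intro h
        have h4 := hd.tri (S.loc.pr j p) (S.loc.pr j f) (S.loc.pr j (γ z w))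
        omega
      have ha1 : 2 ≤ S.loc.d (S.loc.pr j f) (S.loc.pr j (γ z w)) ∨ γ z w ∈ S.loc.Y j := by
        rcases h₁ with h | h
        · exact Or.inr (hS.gate_mem hγ hc h)
        · exact Or.inl (hfc h)
      refine hS.gloc.overlap (fun h => hj h.symm) hfY hfY2 ha1 ha2 ?_
      rcases h₁ with h | h
      · rcases hz2 with h2 | h2
        · exfalso
          have hu := hS.tow_unique h h2
          subst hu
          exact hj (hS.idx j2 j u w hc2 hc)
        · right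
          have h2' : 3 ≤ S.loc.d (S.loc.pr j2 e') (γ z u2) := h2
          rw [hγ.down z j2 u2 w hc2] at h2'
          have h4 := hd.tri (S.loc.pr j2 e') (S.loc.pr j2 f) (S.loc.pr j2 (γ z w))
          rw [hd.symm (S.loc.pr j2 e') (S.loc.pr j2 f)] at h4
          omega
      · exact Or.inl (hfc h)
  · have h1 := hD.path.tri (w, p) (w, f) (w, e')
    have h2 := hS.dist_le hD hc hpY hfY
    have h3 := hD.fib w f e'
    omega

end Pool.Agent.Helper74.MH
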