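import Pool.Agent.Helper74.MH.Te
import Pool.Agent.Helper74.MH.Tf

/-! Module Tg (MP_f028d2_al): thinness of guessed geodesic triangles. -/

set_option autoImplicit false

namespace Pool.Agent.Helper74.MH

variable {V M J : Type*} {S : TT V M J} {γ : V × M → V → M} {D : V × M → V × M → ℕ}

private theorem tg_half (hS : S.Good) (hγ : S.IsGate γ) (hD : S.Metric D) (x y z : V × M)
    (w : V) (p m : M) (hp : (w, p) ∈ S.LL γ x y)
    (hm₁ : Btw S.loc.d (γ x w) m (γ y w)) (hm₂ : Btw S.loc.d (γ y w) m (γ z w))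
    (hm₃ : Btw S.loc.d (γ x w) m (γ z w)) (hpm : Btw S.loc.d (γ x w) p m) :
    ∃ q ∈ S.LL γ x z ∪ S.LL γ z y, D (w, p) q ≤ 2 * S.loc.Lam + 6 := by
  have hDp := hD.path
  by_cases hr : S.Rel γ w x z
  · by_cases hh : S.Hid γ w p x z
    · obtain ⟨j, u, hc, hx, hz⟩ := hh
      by_cases h : ¬ S.Tow z.1 w u ∧ S.loc.d (S.loc.pr j p) (γ z u) ≤ 4
      · obtain ⟨q, hq, hd⟩ := hS.thin_caseBi hγ hD x y z w p m hp hm₁ hm₂ hm₃ hpm hr j u hc hx hz
          h.1 h.2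
        exact ⟨q, Or.inl hq, hd⟩
      · have h' : S.Tow z.1 w u ∨ 5 ≤ S.loc.d (S.loc.pr j p) (γ z u) := by
          by_cases h1 : S.Tow z.1 w u
          · exact Or.inl h1
          · right
            by_contra h2
            exact h ⟨h1, by omega⟩
        obtain ⟨q, hq, hd⟩ := hS.thin_caseBii hγ hD x y z w p m hp hm₁ hm₂ hm₃ hpm hr j u hc hx hz
          h'
        exact ⟨q, Or.inr hq, hd⟩
    · refine ⟨(w, p), Or.inl ⟨hr, ?_, hh⟩, ?_⟩
      · exact (hS.gloc.tree.toIsPathMetric.trans_left hm₃ hpm).1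
      · rw [hDp.self]
        exact Nat.zero_le _
  · by_cases hr' : S.Rel γ w z y
    · obtain ⟨h1, h2⟩ := hS.thin_caseA hγ hD x y z w p m hp hm₁ hm₂ hm₃ hpm hr hr'
      exact ⟨(w, m), Or.inr h1, by omega⟩
    · obtain ⟨q, hq, hd⟩ := hS.thin_caseC hγ hD x y z w p m hp hm₁ hm₂ hm₃ hpm hr hr'
      exact ⟨q, hq, by omega⟩

theorem TT.Good.LL_thin (hS : S.Good) (hγ : S.IsGate γ) (hD : S.Metric D) (x y z : V × M) :
    ∀ p ∈ S.LL γ x y, ∃ q ∈ S.LL γ x z ∪ S.LL γ z y, D p q ≤ 2 * S.loc.Lam + 6 := by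
  rintro ⟨w, p⟩ hp
  have hT := hS.gloc.tree
  have hTp := hT.toIsPathMetric
  obtain ⟨m, hm₁, hm₂, hm₃⟩ := hT.med (γ x w) (γ y w) (γ z w)
  rcases hT.split hm₁ hp.2.1 with hpm | hpm
  · exact tg_half hS hγ hD x y z w p m hp hm₁ hm₂ hm₃ hpm
  · have hp' : (w, p) ∈ S.LL γ y x := by
      rw [hS.LL_symm]
      exact hp
    obtain ⟨q, hq, hd⟩ := tg_half hS hγ hD y x z w p m hp' (hTp.btw_symm hm₁) hm₃ hm₂
      (hTp.btw_symm hpm)
    refine ⟨q, ?_, hd⟩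
    rcases hq with hq | hq
    · right
      rw [hS.LL_symm]
      exact hq
    · left
      rw [hS.LL_symm]
      exact hq

end Pool.Agent.Helper74.MH
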