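import Pool.Agent.Helper74.MH.Tc

/-! Module Ti (MP_f028d2_al): links between adjacent vertices of the vertex geodesic. -/

set_option autoImplicit false

namespace Pool.Agent.Helper74.MH

variable {V M J : Type*} {S : TT V M J} {γ : V × M → V → M} {D : V × M → V × M → ℕ}

/-- Relevance of both ends of an edge separating `x` and `y`. -/
private theorem ti_rel_w (hS : S.Good) {x y : V × M} {u w : V}
    (hx : S.Tow x.1 u w) (hy : S.Tow y.1 w u) : S.Rel γ w x y := by
  left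
  rintro u' ⟨h1, h2⟩
  have : u' = u := hS.tow_unique h2 hy
  subst this
  exact hS.tow_asymm hx h1

private theorem ti_rel_u (hS : S.Good) {x y : V × M} {u w : V}
    (hx : S.Tow x.1 u w) (hy : S.Tow y.1 w u) : S.Rel γ u x y := by
  left
  rintro u' ⟨h1, h2⟩
  have : u' = w := hS.tow_unique h1 hx
  subst this
  exact hS.tow_asymm hy h2

/-- A point of the fibre over the child which is close to the gate of `x` is not hidden. -/
private theorem ti_unhid_u (hS : S.Good) (hγ : S.IsGate γ) {x y : V × M} {j : J} {u w : V}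
    {m : M} (hc : S.Ch j u w) (hx : S.Tow x.1 u w) (hm : S.loc.d m (γ x u) ≤ 2) :
    ¬ S.Hid γ u m x y := by
  rintro ⟨j2, u2, hc2, h1, -⟩
  rcases h1 with h1 | h1
  · have : u2 = w := hS.tow_unique h1 hx
    subst this
    exact hS.asym _ _ _ _ hc hc2
  · rw [hγ.down x j2 u2 u hc2] at h1
    have := hS.gloc.lip j2 m (γ x u)
    omega

/-- A point `s` of the fibre over `w` which is in the hull of the child `u` with projection close
to the gate of `x` is not hidden. -/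
private theorem ti_unhid_w (hS : S.Good) (hγ : S.IsGate γ) {x y : V × M} {j : J} {u w : V}
    {s : M} (hc : S.Ch j u w) (hx : S.Tow x.1 u w) (hy : S.Tow y.1 w u)
    (hb : Btw S.loc.d (γ x w) s (γ y w)) (hs : s ∈ S.loc.Y j)
    (hm : S.loc.d (S.loc.pr j s) (γ x u) ≤ 2) : ¬ S.Hid γ w s x y := by
  rintro ⟨j', u', hc', h1, h2⟩
  by_cases hu : u' = u
  · subst hu
    have hj : j' = j := hS.idx _ _ _ _ hc' hc
    subst hj
    rcases h1 with h1 | h1
    · exact hS.tow_asymm hx h1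
    · omega
  · have hj : j ≠ j' := by
      rintro rfl
      exact hu (hS.fn _ _ _ _ hc' hc)
    have hs' : s ∈ S.loc.Y j' := hS.far_mem hγ hc' hb h1 h2
    have h3 : 3 ≤ S.loc.d (S.loc.pr j' s) (S.loc.pr j' (γ y w)) := by
      rcases h2 with h2 | h2
      · exact absurd (hS.tow_unique h2 hy) hu
      · rwa [hγ.down y j' u' w hc'] at h2
    exact hS.gloc.overlap hj hs hs' (Or.inr (hS.gate_mem hγ hc hy)) (Or.inl (by omega))
      (Or.inr (by omega))

/-- Going down from `w` to its child `u`, which lies towards `y`. -/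
theorem TT.Good.link_down (hS : S.Good) (hγ : S.IsGate γ) (hD : S.Metric D) (x y : V × M)
    (j : J) (u w : V) (hc : S.Ch j u w) (hx : S.Tow x.1 u w) (hy : S.Tow y.1 w u) :
    ∃ s s', (w, s) ∈ S.LL γ x y ∧ (u, s') ∈ S.LL γ x y ∧ D (w, s) (u, s') ≤ S.loc.Lam + 1 := by
  have hP := hS.gloc.tree.toIsPathMetric
  have hau : γ x u = S.loc.pr j (γ x w) := hγ.down x j u w hc
  have hbu : γ y u = S.loc.pr j (γ y w) := hγ.down y j u w hc
  have hbw : γ y w = S.loc.io j (γ y u) := hγ.up y j u w hc hy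
  have hbY : γ y w ∈ S.loc.Y j := hS.gate_mem hγ hc hy
  by_cases h2 : S.loc.d (γ y u) (γ x u) ≤ 2
  · refine ⟨γ y w, γ y u, ⟨ti_rel_w hS hx hy, hP.btw_right _ _, ?_⟩,
      ⟨ti_rel_u hS hx hy, hP.btw_right _ _, ti_unhid_u hS hγ hc hx h2⟩, ?_⟩
    · refine ti_unhid_w hS hγ hc hx hy (hP.btw_right _ _) hbY ?_
      show S.loc.d (S.loc.pr j (γ y w)) (γ x u) ≤ 2
      rw [← hbu]
      exact h2
    · have h3 := hD.edge j u w (γ y u) hc
      rw [← hbw, hD.path.symm] at h3
      omega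
  · have hPa : ¬ (3 ≤ S.loc.d (S.loc.pr j (γ x w)) (γ x u)) := by
      rw [← hau, hP.self]
      omega
    have hPb : 3 ≤ S.loc.d (S.loc.pr j (γ y w)) (γ x u) := by
      rw [← hbu]
      omega
    obtain ⟨e, e', -, -, -, h6, h7, h8, h9⟩ :=
      hP.exists_first (fun r => 3 ≤ S.loc.d (S.loc.pr j r) (γ x u)) hPa hPb
    have h10 : S.loc.d (S.loc.pr j e) (S.loc.pr j e') ≤ 1 := (hS.gloc.lip j e e').trans h7.le
    have h11 := hP.tri (S.loc.pr j e') (S.loc.pr j e) (γ x u)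
    rw [hP.symm (S.loc.pr j e') (S.loc.pr j e)] at h11
    have h8' : S.loc.d (S.loc.pr j e) (γ x u) ≤ 2 := by
      have : ¬ (3 ≤ S.loc.d (S.loc.pr j e) (γ x u)) := h8
      omega
    have h9' : 3 ≤ S.loc.d (S.loc.pr j e') (γ x u) := h9
    have hne : S.loc.pr j (γ x w) ≠ S.loc.pr j e := by
      intro h
      rw [← h, ← hau, hP.self] at h11
      rw [hau] at h9'
      rw [← h] at h10
      rw [hP.symm] at h9'
      omega
    have heY : e ∈ S.loc.Y j := hS.gloc.mem_Y j _ _ _ h6 (Or.inl hne) (Or.inr hbY)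
    refine ⟨e, S.loc.pr j e, ⟨ti_rel_w hS hx hy, h6, ti_unhid_w hS hγ hc hx hy h6 heY h8'⟩,
      ⟨ti_rel_u hS hx hy, ?_, ti_unhid_u hS hγ hc hx h8'⟩, hS.dist_pr_le hD hc heY⟩
    show Btw S.loc.d (γ x u) (S.loc.pr j e) (γ y u)
    rw [hau, hbu]
    exact hS.gloc.mono j _ _ _ h6

/-- Linking adjacent vertices `v, v'` of the vertex geodesic from `x` to `y`. -/
theorem TT.Good.link (hS : S.Good) (hγ : S.IsGate γ) (hD : S.Metric D) (x y : V × M)
    (v v' : V) (hx : S.Tow x.1 v' v) (hy : S.Tow y.1 v v') :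
    ∃ s s', (v, s) ∈ S.LL γ x y ∧ (v', s') ∈ S.LL γ x y ∧ D (v, s) (v', s') ≤ S.loc.Lam + 1 := by
  rcases (hS.adj v' v).1 hy.1 with ⟨j, hj⟩ | ⟨j, hj⟩
  · exact hS.link_down hγ hD x y j v' v hj hx hy
  · obtain ⟨s, s', h1, h2, h3⟩ := hS.link_down hγ hD y x j v v' hj hy hx
    refine ⟨s', s, ?_, ?_, ?_⟩
    · rw [hS.LL_symm γ x y]
      exact h2
    · rw [hS.LL_symm γ x y]
      exact h1
    · rw [hD.path.symm]
      exact h3

end Pool.Agent.Helper74.MH
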