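import Pool.Agent.Helper74.MH.Th
import Pool.Agent.Helper74.MH.Ti

/-! Module Tj (MP_f028d2_al): chains along guessed geodesics. -/

set_option autoImplicit false

namespace Pool.Agent.Helper74.MH

variable {V M J : Type*} {S : TT V M J} {γ : V × M → V → M} {D : V × M → V × M → ℕ}

theorem TT.Good.LL_chain (hS : S.Good) (hγ : S.IsGate γ) (hD : S.Metric D) (x y : V × M) :
    Chain D (S.LL γ x y) (2 * S.loc.Lam + 6) x y := by
  have hV := hS.tree
  have hVp := hV.toIsPathMetric
  have hx : x ∈ S.LL γ x y := hS.self_mem_LL hγ x y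
  have hy : y ∈ S.LL γ x y := by
    rw [hS.LL_symm]
    exact hS.self_mem_LL hγ y x
  have key : ∀ n : ℕ, ∀ v : V, S.dV x.1 v = n → Btw S.dV x.1 v y.1 →
      ∀ s : M, (v, s) ∈ S.LL γ x y → Chain D (S.LL γ x y) (2 * S.loc.Lam + 6) x (v, s) := by
    intro n
    induction n with
    | zero =>
      intro v hv _ s hs
      have hxv : x.1 = v := (hVp.zero_iff _ _).1 hv
      subst hxv
      exact hS.chain_vertex hγ hD x y x.1 x.2 s hx hs
    | succ n ih =>
      intro v' hv' hb s' hs'
      obtain ⟨v, hvb, hvn⟩ := hVp.geod x.1 v' n (by omega)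
      obtain ⟨h1, h2⟩ := hVp.trans_left hb hvb
      have hvv : S.dV v v' = 1 := by
        unfold Btw at hvb
        omega
      have ht1 : S.Tow x.1 v' v := ⟨hvv, by omega⟩
      have ht2 : S.Tow y.1 v v' := by
        refine ⟨by rw [hVp.symm]; exact hvv, ?_⟩
        rw [hVp.symm y.1 v', hVp.symm y.1 v]
        unfold Btw at hb h1
        omega
      obtain ⟨t, t', h3, h4, h5⟩ := hS.link hγ hD x y v v' ht1 ht2
      have c1 := ih v hvn h1 t h3
      have c2 := hS.chain_vertex hγ hD x y v' t' s' h4 hs'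
      have c3 : Chain D (S.LL γ x y) (2 * S.loc.Lam + 6) (v, t) (v', t') :=
        Relation.ReflTransGen.single ⟨h3, h4, by omega⟩
      exact (c1.trans c3).trans c2
  exact key _ y.1 rfl (hVp.btw_right _ _) y.2 hy

end Pool.Agent.Helper74.MH
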