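import Pool.Agent.Helper74.MH.GGe
import Pool.Agent.Helper74.MH.Tb
import Pool.Agent.Helper74.MH.Td
import Pool.Agent.Helper74.MH.Tg
import Pool.Agent.Helper74.MH.Tj

/-! Module Tk (MP_f028d2_al): trees of trees satisfy the four point condition. -/

set_option autoImplicit false

namespace Pool.Agent.Helper74.MH

variable {V M J : Type*} {S : TT V M J} {D : V × M → V × M → ℕ}

theorem TT.Good.fourPt (hS : S.Good) (hD : S.Metric D) : FourPt D := by
  obtain ⟨γ, hγ⟩ := hS.exists_gate
  exact fourPt_of_guess hD.path (fun x y => S.LL γ x y) (2 * S.loc.Lam + 6)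
    (fun x y => hS.self_mem_LL hγ x y)
    (fun x y h p hp => (hS.LL_adj hγ hD x y h p hp).trans (by omega))
    (fun x y z p hp => hS.LL_thin hγ hD x y z p hp)
    (fun x y => hS.LL_chain hγ hD x y)

end Pool.Agent.Helper74.MH
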