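import Pool.Agent.Helper74.MH.Ne
import Pool.Agent.Helper74.MH.Tk

/-! Module Nf (MP_f028d2_al): hyperbolicity. -/

set_option autoImplicit false

namespace Pool.Agent.Helper74.MH

theorem fourPt_HG {X T : Type} [DecidableEq X] {W : T → X → List X} {h Q : ℕ}
    (hS : Stretch (FreeGroup X) T dF (phi W) h Q) :
    FourPt (wd (fun i : X ⊕ T => (PresentedGroup.of i : HG X T W))) := by
  obtain ⟨pr, hpr⟩ := hS.exists_proj
  obtain ⟨Θ, hΘ, hΘt⟩ := exists_nf W pr (fun t u f => hS.pr_mul hpr t u f)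
    (fun t => hS.pr_one hpr t)
  obtain ⟨δ, hδ⟩ := TT.Good.fourPt (hS.ttOf_good hpr) (metric_of_nf hS hpr Θ hΘ hΘt)
  refine ⟨δ, fun x y z w => ?_⟩
  have := hδ (Θ x) (Θ y) (Θ z) (Θ w)
  simpa using this

end Pool.Agent.Helper74.MH
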