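import Pool.Agent.Helper74.MH.Defs3

/-! Module Pa (MP_f028d2_al): length functions on free products. -/

set_option autoImplicit false

namespace Pool.Agent.Helper74.MH

namespace PaAux

open Classical

variable {K A : Type*} [Group K]

/-- Raw normal forms. -/
private abbrev Raw (K A : Type*) := List (K × (A × Bool)) × K

/-- The reducedness relation. -/
private def RR (p q : K × (A × Bool)) : Prop := ¬ (q.1 = 1 ∧ p.2.1 = q.2.1 ∧ p.2.2 ≠ q.2.2)

/-- Left multiplication by an element of `K`. -/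
private def mk (k : K) : Raw K A → Raw K A
  | ([], g) => ([], k * g)
  | ((k1, y) :: l, g) => ((k * k1, y) :: l, g)

/-- Left multiplication by a letter. -/
private noncomputable def ml (y : A) (b : Bool) : Raw K A → Raw K A
  | ([], g) => ([(1, (y, b))], g)
  | (q :: l, g) => if q = (1, (y, !b)) then (l, g) else ((1, (y, b)) :: q :: l, g)

private theorem mk_one (ω : Raw K A) : mk 1 ω = ω := by
  rcases ω with ⟨_ | ⟨⟨k1, y⟩, l⟩, g⟩ <;> simp [mk]

private theorem mk_mul (k k' : K) (ω : Raw K A) : mk (k * k') ω = mk k (mk k' ω) := by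
  rcases ω with ⟨_ | ⟨⟨k1, y⟩, l⟩, g⟩ <;> simp [mk, mul_assoc]

private theorem mk_chain (k : K) {ω : Raw K A} (h : ω.1.IsChain RR) : (mk k ω).1.IsChain RR := by
  rcases ω with ⟨_ | ⟨⟨k1, y⟩, _ | ⟨q, l⟩⟩, g⟩
  · simp [mk]
  · simp [mk]
  · simp only [mk, List.isChain_cons_cons] at h ⊢
    exact ⟨h.1, h.2⟩

private theorem mk_length (k : K) (ω : Raw K A) : (mk k ω).1.length = ω.1.length := by
  rcases ω with ⟨_ | ⟨⟨k1, y⟩, l⟩, g⟩ <;> simp [mk]

private theorem ml_chain (y : A) (b : Bool) {ω : Raw K A} (h : ω.1.IsChain RR) :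
    (ml y b ω).1.IsChain RR := by
  rcases ω with ⟨_ | ⟨q, l⟩, g⟩
  · simp [ml]
  · by_cases hq : q = (1, (y, !b))
    · simp only [ml, hq, if_true]
      exact List.IsChain.tail h
    · simp only [ml, hq, if_false, List.isChain_cons_cons]
      refine ⟨?_, h⟩
      rintro ⟨h1, h2, h3⟩
      apply hq
      rcases q with ⟨k, y', b'⟩
      simp only at h1 h2 h3
      subst h1 h2
      cases b <;> cases b' <;> simp_all

private theorem ml_ml (y : A) (b : Bool) {ω : Raw K A} (h : ω.1.IsChain RR) :
    ml y (!b) (ml y b ω) = ω := by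
  rcases ω with ⟨_ | ⟨q, l⟩, g⟩
  · simp [ml]
  · by_cases hq : q = (1, (y, !b))
    · simp only [ml, hq, if_true]
      rcases l with _ | ⟨q', l⟩
      · simp [ml]
      · have h1 : RR q q' := (List.isChain_cons_cons.1 h).1
        have h2 : ¬ q' = (1, (y, !!b)) := by
          rintro rfl
          apply h1
          subst hq
          cases b <;> simp
        simp only [ml, h2, if_false]
    · simp [ml, hq]

/-- The set of normal forms. -/
private abbrev Om (K A : Type*) [Group K] := {ω : Raw K A // ω.1.IsChain RR}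

/-- `K` acts on normal forms. -/
private def actK (K A : Type*) [Group K] : K →* Equiv.Perm (Om K A) where
  toFun k :=
    { toFun := fun ω => ⟨mk k ω.1, mk_chain k ω.2⟩
      invFun := fun ω => ⟨mk k⁻¹ ω.1, mk_chain _ ω.2⟩
      left_inv := fun ω => Subtype.ext (by simp [← mk_mul, mk_one])
      right_inv := fun ω => Subtype.ext (by simp [← mk_mul, mk_one]) }
  map_one' := by
    ext ω : 1
    exact Subtype.ext (mk_one _)
  map_mul' k k' := by
    ext ω : 1
    exact Subtype.ext (mk_mul _ _ _)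

/-- A letter acts on normal forms. -/
private noncomputable def actL (K : Type*) {A : Type*} [Group K] (y : A) : Equiv.Perm (Om K A) where
  toFun := fun ω => ⟨ml y true ω.1, ml_chain _ _ ω.2⟩
  invFun := fun ω => ⟨ml y false ω.1, ml_chain _ _ ω.2⟩
  left_inv := fun ω => Subtype.ext (ml_ml y true ω.2)
  right_inv := fun ω => Subtype.ext (ml_ml y false ω.2)

/-- The action of the free product. -/
private noncomputable def act (K A : Type*) [Group K] :
    Monoid.Coprod K (FreeGroup A) →* Equiv.Perm (Om K A) :=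
  Monoid.Coprod.lift (actK K A) (FreeGroup.lift (actL K))

private theorem act_inl (k : K) (ω : Om K A) :
    (act K A (Monoid.Coprod.inl k) ω).1 = mk k ω.1 := by
  simp [act, actK]

private theorem act_ltr (y : A) (b : Bool) (ω : Om K A) :
    (act K A (Monoid.Coprod.inr (ltr y b)) ω).1 = ml y b ω.1 := by
  cases b
  · have h : ltr y false = (FreeGroup.of y)⁻¹ := by simp [ltr, FreeGroup.of, FreeGroup.inv_mk, FreeGroup.invRev]
    rw [h]
    simp only [act, Monoid.Coprod.lift_apply_inr, map_inv, FreeGroup.lift_apply_of]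
    rfl
  · have h : ltr y true = FreeGroup.of y := rfl
    rw [h]
    simp only [act, Monoid.Coprod.lift_apply_inr, FreeGroup.lift_apply_of]
    rfl

/-- Evaluation. -/
private def ev (ω : Raw K A) : Monoid.Coprod K (FreeGroup A) :=
  (ω.1.map (fun q => Monoid.Coprod.inl q.1 * Monoid.Coprod.inr (ltr q.2.1 q.2.2))).prod *
    Monoid.Coprod.inl ω.2

private theorem ev_mk (k : K) (ω : Raw K A) : ev (mk k ω) = Monoid.Coprod.inl k * ev ω := by
  rcases ω with ⟨_ | ⟨⟨k1, y⟩, l⟩, g⟩ <;> simp [mk, ev, mul_assoc]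

private theorem ltr_true (y : A) : ltr y true = FreeGroup.of y := rfl

private theorem ltr_false (y : A) : ltr y false = (FreeGroup.of y)⁻¹ := by
  simp [ltr, FreeGroup.of, FreeGroup.inv_mk, FreeGroup.invRev]

private theorem ltr_mul (y : A) (b : Bool) : ltr y b * ltr y (!b) = 1 := by
  cases b
  · rw [Bool.not_false, ltr_true, ltr_false, inv_mul_cancel]
  · rw [Bool.not_true, ltr_true, ltr_false, mul_inv_cancel]

private theorem ltr_inv (y : A) (b : Bool) : (ltr y b)⁻¹ = ltr y (!b) :=
  inv_eq_of_mul_eq_one_right (ltr_mul y b)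

private theorem ev_ml (y : A) (b : Bool) (ω : Raw K A) :
    ev (ml y b ω) = Monoid.Coprod.inr (ltr y b) * ev ω := by
  rcases ω with ⟨_ | ⟨q, l⟩, g⟩
  · simp [ml, ev]
  · by_cases hq : q = (1, (y, !b))
    · simp only [ml, hq, if_true, ev, List.map_cons, List.prod_cons, map_one, one_mul]
      rw [← mul_assoc, ← mul_assoc, ← map_mul, ltr_mul, map_one, one_mul]
    · simp [ml, hq, ev, mul_assoc]

/-- The base point. -/
private def o (K A : Type*) [Group K] : Om K A := ⟨([], 1), List.isChain_nil⟩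

private theorem ev_act (γ : Monoid.Coprod K (FreeGroup A)) :
    ∀ ω : Om K A, ev (act K A γ ω).1 = γ * ev ω.1 := by
  have hinr : ∀ f : FreeGroup A, ∀ ω : Om K A, ev (act K A (Monoid.Coprod.inr f) ω).1 =
      Monoid.Coprod.inr f * ev ω.1 := by
    intro f
    induction f using FreeGroup.induction_on with
    | C1 => intro ω; simp
    | of y =>
      intro ω
      have := act_ltr (K := K) y true ω
      rw [ltr_true] at this
      rw [this, ev_ml, ltr_true]
    | inv_of y _ =>
      intro ω
      have := act_ltr (K := K) y false ω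
      rw [ltr_false] at this
      rw [this, ev_ml, ltr_false]
    | mul f g hf hg =>
      intro ω
      rw [map_mul, map_mul, Equiv.Perm.mul_apply, hf, hg, mul_assoc]
  induction γ using Monoid.Coprod.induction_on' with
  | one => intro ω; simp
  | inl_mul k γ ih =>
    intro ω
    rw [map_mul, Equiv.Perm.mul_apply, act_inl, ev_mk, ih, mul_assoc]
  | inr_mul f γ ih =>
    intro ω
    rw [map_mul, Equiv.Perm.mul_apply, hinr, ih, mul_assoc]

/-- The length function. -/
private noncomputable def len (γ : Monoid.Coprod K (FreeGroup A)) : ℕ :=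
  (act K A γ (o K A)).1.1.length

private theorem len_left (k : K) (γ : Monoid.Coprod K (FreeGroup A)) :
    len (Monoid.Coprod.inl k * γ) = len γ := by
  simp only [len]
  rw [map_mul, Equiv.Perm.mul_apply, act_inl, mk_length]

private theorem len_zero (k : K) :
    len (Monoid.Coprod.inl k : Monoid.Coprod K (FreeGroup A)) = 0 := by
  simp only [len]
  rw [act_inl]
  simp [o, mk]

private theorem ml_length (y : A) (b : Bool) (ω : Raw K A) :
    (ml y b ω).1.length = ω.1.length + 1 ∨ ((ml y b ω).1.length + 1 = ω.1.length ∧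
      ∃ l, ω.1 = (1, (y, !b)) :: l) := by
  rcases ω with ⟨_ | ⟨q, l⟩, g⟩
  · simp [ml]
  · by_cases hq : q = (1, (y, !b))
    · right
      simp [ml, hq]
    · left
      simp [ml, hq]

private theorem len_step (y : A) (b : Bool) (γ : Monoid.Coprod K (FreeGroup A)) :
    len (Monoid.Coprod.inr (ltr y b) * γ) = len γ + 1 ∨
      len (Monoid.Coprod.inr (ltr y b) * γ) + 1 = len γ := by
  simp only [len]
  rw [map_mul, Equiv.Perm.mul_apply, act_ltr]
  rcases ml_length y b (act K A γ (o K A)).1 with h | h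
  · exact Or.inl h
  · exact Or.inr h.1

private theorem len_beg (γ : Monoid.Coprod K (FreeGroup A)) (k : K) (y : A) (b : Bool)
    (h : len ((Monoid.Coprod.inl k * Monoid.Coprod.inr (ltr y b))⁻¹ * γ) < len γ) :
    ∃ l, (act K A γ (o K A)).1.1 = (k, (y, b)) :: l := by
  have h1 : (Monoid.Coprod.inl k * Monoid.Coprod.inr (ltr y b))⁻¹ * γ =
      Monoid.Coprod.inr (ltr y (!b)) * (Monoid.Coprod.inl k⁻¹ * γ) := by
    rw [mul_inv_rev, ← map_inv, ltr_inv, ← map_inv, mul_assoc]
  rw [h1] at h
  simp only [len] at h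
  rw [map_mul, Equiv.Perm.mul_apply, act_ltr, map_mul, Equiv.Perm.mul_apply, act_inl] at h
  rcases ml_length y (!b) (mk k⁻¹ (act K A γ (o K A)).1) with h2 | ⟨_, l, h2⟩
  · rw [h2, mk_length] at h
    omega
  · rw [Bool.not_not] at h2
    rcases hω : (act K A γ (o K A)).1 with ⟨_ | ⟨⟨k1, y1⟩, l1⟩, g⟩
    · rw [hω] at h2
      simp [mk] at h2
    · rw [hω] at h2
      simp only [mk, List.cons.injEq, Prod.mk.injEq] at h2
      refine ⟨l1, ?_⟩
      have : k1 = k := by
        have := h2.1.1
        rw [inv_mul_eq_one] at this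
        exact this.symm
      rw [this, h2.1.2]

private theorem len_mul_letter (f : Monoid.Coprod K (FreeGroup A) →* Monoid.Coprod K (FreeGroup A))
    (h1 : ∀ k, ∃ k', f (Monoid.Coprod.inl k) = Monoid.Coprod.inl k')
    (h2 : ∀ y, ∃ k y' k', f (Monoid.Coprod.inr (FreeGroup.of y)) =
      Monoid.Coprod.inl k * Monoid.Coprod.inr (FreeGroup.of y') * Monoid.Coprod.inl k')
    (y : A) (b : Bool) (γ : Monoid.Coprod K (FreeGroup A)) :
    len (f (Monoid.Coprod.inr (ltr y b)) * γ) ≤ len γ + 1 := by
  obtain ⟨k, y', k', h⟩ := h2 y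
  have h3 : ∃ c c' b', f (Monoid.Coprod.inr (ltr y b)) =
      Monoid.Coprod.inl c * Monoid.Coprod.inr (ltr y' b') * Monoid.Coprod.inl c' := by
    cases b
    · refine ⟨k'⁻¹, k⁻¹, false, ?_⟩
      rw [ltr_false, ltr_false, map_inv, map_inv, h, mul_inv_rev, mul_inv_rev, map_inv, map_inv,
        map_inv, mul_assoc]
    · exact ⟨k, k', true, h⟩
  obtain ⟨c, c', b', h4⟩ := h3
  rw [h4, mul_assoc, mul_assoc, len_left]
  rcases len_step y' b' (Monoid.Coprod.inl c' * γ) with h5 | h5 <;> rw [len_left] at h5 <;> omega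

private theorem len_hom (f : Monoid.Coprod K (FreeGroup A) →* Monoid.Coprod K (FreeGroup A))
    (h1 : ∀ k, ∃ k', f (Monoid.Coprod.inl k) = Monoid.Coprod.inl k')
    (h2 : ∀ y, ∃ k y' k', f (Monoid.Coprod.inr (FreeGroup.of y)) =
      Monoid.Coprod.inl k * Monoid.Coprod.inr (FreeGroup.of y') * Monoid.Coprod.inl k')
    (l : List (K × (A × Bool))) (g : K) : len (f (ev (l, g))) ≤ l.length := by
  induction l with
  | nil =>
    obtain ⟨k', hk⟩ := h1 g
    simp only [ev, List.map_nil, List.prod_nil, one_mul, hk, len_zero, le_refl, List.length_nil]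
  | cons q l ih =>
    have h3 : ev (q :: l, g) =
        Monoid.Coprod.inl q.1 * (Monoid.Coprod.inr (ltr q.2.1 q.2.2) * ev (l, g)) := by
      simp [ev, mul_assoc]
    obtain ⟨k', hk⟩ := h1 q.1
    rw [h3, map_mul, hk, len_left, map_mul, List.length_cons]
    exact (len_mul_letter f h1 h2 _ _ _).trans (by omega)

end PaAux

open PaAux in
theorem exists_lenFn (K A : Type*) [Group K] :
    ∃ ℓ : Monoid.Coprod K (FreeGroup A) → ℕ, LenFn ℓ := by
  refine ⟨len, len_zero, len_left, len_step, ?_, ?_⟩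
  · intro γ k y b k' y' b' h h'
    obtain ⟨l, hl⟩ := len_beg γ k y b h
    obtain ⟨l', hl'⟩ := len_beg γ k' y' b' h'
    rw [hl] at hl'
    simp only [List.cons.injEq, Prod.mk.injEq] at hl'
    exact ⟨hl'.1.1, hl'.1.2.1, hl'.1.2.2⟩
  · intro f h1 h2 γ
    have h3 := ev_act γ (o K A)
    have h4 : ev (o K A).1 = (1 : Monoid.Coprod K (FreeGroup A)) := by simp [ev, o]
    rw [h4, mul_one] at h3
    have h5 := len_hom f h1 h2 (act K A γ (o K A)).1.1 (act K A γ (o K A)).1.2
    rw [Prod.mk.eta, h3] at h5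
    exact h5

end Pool.Agent.Helper74.MH
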