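import Pool.Agent.Helper74.MH.Defs3

/-! Module Pb (MP_f028d2_al): the action of `G1` on the free product `K * F(A)`. -/

set_option autoImplicit false

namespace Pool.Agent.Helper74.MH

variable {A T : Type} {p : ℕ} {M : Mach A T} {Z : Noise A T p} {L : ℕ}

/-- The value in `K` of the noise part of `W t y`. -/
def vt {K : Type*} [Group K] (M : Mach A T) (Z : Noise A T p) (L : ℕ) (nn : ZMod p → K) (t : T)
    (y : A) : K := ((nV M Z L t (Sum.inl y)).map nn).prod

/-- Automorphisms of a free product with a free group. -/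
private theorem exists_auto {K : Type*} [Group K] (h : K) (σ : Equiv.Perm A) (v : A → K) :
    ∃ θ : Monoid.Coprod K (FreeGroup A) ≃* Monoid.Coprod K (FreeGroup A),
      (∀ k, θ.symm (Monoid.Coprod.inl k) = Monoid.Coprod.inl (h⁻¹ * k * h)) ∧
      (∀ y, θ.symm (Monoid.Coprod.inr (FreeGroup.of y)) =
        Monoid.Coprod.inr (FreeGroup.of (σ y)) * Monoid.Coprod.inl (v y)) := by
  set ψ : Monoid.Coprod K (FreeGroup A) →* Monoid.Coprod K (FreeGroup A) :=
    Monoid.Coprod.lift (Monoid.Coprod.inl.comp (MulAut.conj h⁻¹).toMonoidHom)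
      (FreeGroup.lift (fun y => Monoid.Coprod.inr (FreeGroup.of (σ y)) *
        Monoid.Coprod.inl (v y))) with hψ
  set ψ' : Monoid.Coprod K (FreeGroup A) →* Monoid.Coprod K (FreeGroup A) :=
    Monoid.Coprod.lift (Monoid.Coprod.inl.comp (MulAut.conj h).toMonoidHom)
      (FreeGroup.lift (fun y => Monoid.Coprod.inr (FreeGroup.of (σ.symm y)) *
        Monoid.Coprod.inl (h * (v (σ.symm y))⁻¹ * h⁻¹))) with hψ'
  have a1 : ∀ k, ψ (Monoid.Coprod.inl k) = Monoid.Coprod.inl (h⁻¹ * k * h) := by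
    intro k
    simp [hψ]
  have a2 : ∀ y, ψ (Monoid.Coprod.inr (FreeGroup.of y)) =
      Monoid.Coprod.inr (FreeGroup.of (σ y)) * Monoid.Coprod.inl (v y) := by
    intro y
    simp [hψ]
  have b1 : ∀ k, ψ' (Monoid.Coprod.inl k) = Monoid.Coprod.inl (h * k * h⁻¹) := by
    intro k
    simp [hψ']
  have b2 : ∀ y, ψ' (Monoid.Coprod.inr (FreeGroup.of y)) =
      Monoid.Coprod.inr (FreeGroup.of (σ.symm y)) *
        Monoid.Coprod.inl (h * (v (σ.symm y))⁻¹ * h⁻¹) := by
    intro y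
    simp only [hψ', Monoid.Coprod.lift_apply_inr, FreeGroup.lift_apply_of]
  have c1 : ψ.comp ψ' = MonoidHom.id _ := by
    refine Monoid.Coprod.hom_ext ?_ ?_
    · ext k
      simp only [MonoidHom.coe_comp, Function.comp_apply, MonoidHom.id_apply, b1, a1]
      congr 1
      group
    · ext y
      show ψ (ψ' (Monoid.Coprod.inr (FreeGroup.of y))) = Monoid.Coprod.inr (FreeGroup.of y)
      have e : v (σ.symm y) * (h⁻¹ * (h * (v (σ.symm y))⁻¹ * h⁻¹) * h) = 1 := by group
      rw [b2, map_mul ψ, a2, a1, Equiv.apply_symm_apply, mul_assoc, ← map_mul, e, map_one, mul_one]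
  have c2 : ψ'.comp ψ = MonoidHom.id _ := by
    refine Monoid.Coprod.hom_ext ?_ ?_
    · ext k
      simp only [MonoidHom.coe_comp, Function.comp_apply, MonoidHom.id_apply, b1, a1]
      congr 1
      group
    · ext y
      show ψ' (ψ (Monoid.Coprod.inr (FreeGroup.of y))) = Monoid.Coprod.inr (FreeGroup.of y)
      have e : h * (v y)⁻¹ * h⁻¹ * (h * v y * h⁻¹) = 1 := by group
      rw [a2, map_mul ψ', b2, b1, Equiv.symm_apply_apply, mul_assoc, ← map_mul, e, map_one, mul_one]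
  refine ⟨{ ψ' with
    invFun := ψ
    left_inv := fun γ => DFunLike.congr_fun c1 γ
    right_inv := fun γ => DFunLike.congr_fun c2 γ }, a1, a2⟩

theorem exists_rho {K : Type*} [Group K] (nn : ZMod p → K) (th : T → K)
    (hrel : ∀ t n, (th t)⁻¹ * nn n * th t = ((nV M Z L t (Sum.inr (Sum.inr n))).map nn).prod) :
    ∃ (ρ : G1 M Z L →* Equiv.Perm (Monoid.Coprod K (FreeGroup A)))
      (θ : T → Monoid.Coprod K (FreeGroup A) ≃* Monoid.Coprod K (FreeGroup A)),
      (∀ y γ, ρ (iX _ (ga y)) γ = Monoid.Coprod.inr (FreeGroup.of y) * γ) ∧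
      (∀ n γ, ρ (iX _ (gn n)) γ = Monoid.Coprod.inl (nn n) * γ) ∧
      (∀ t γ, ρ (tt _ t) γ = θ t γ) ∧
      (∀ t k, (θ t).symm (Monoid.Coprod.inl k) = Monoid.Coprod.inl ((th t)⁻¹ * k * th t)) ∧
      (∀ t y, (θ t).symm (Monoid.Coprod.inr (FreeGroup.of y)) =
        Monoid.Coprod.inr (FreeGroup.of (M.sg t y)) * Monoid.Coprod.inl (vt M Z L nn t y)) := by
  choose θ h1 h2 using fun t => exists_auto (th t) (M.sg t) (vt M Z L nn t)
  set P : Monoid.Coprod K (FreeGroup A) →* Equiv.Perm (Monoid.Coprod K (FreeGroup A)) :=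
    MulAction.toPermHom _ _ with hP
  set a : A ⊕ ZMod p → Monoid.Coprod K (FreeGroup A) :=
    Sum.elim (fun y => Monoid.Coprod.inr (FreeGroup.of y)) (fun n => Monoid.Coprod.inl (nn n))
    with ha
  have key : ∀ t x, (θ t).symm (a x) = ((W1 M Z L t x).map a).prod := by
    intro t x
    rcases x with y | n
    · show (θ t).symm (Monoid.Coprod.inr (FreeGroup.of y)) = _
      rw [h2]
      simp only [W1, List.map_cons, List.prod_cons, List.map_map]
      congr 1
      unfold vt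
      rw [map_list_prod, List.map_map]
      rfl
    · show (θ t).symm (Monoid.Coprod.inl (nn n)) = _
      rw [h1, hrel]
      simp only [W1, List.map_map]
      rw [map_list_prod, List.map_map]
      rfl
  obtain ⟨ρ, r1, r2⟩ := hg_lift (K := Equiv.Perm (Monoid.Coprod K (FreeGroup A))) (W1 M Z L)
    (fun x => P (a x)) (fun t => (θ t).toEquiv) (by
      intro t x
      have e : ((W1 M Z L t x).map (fun x => P (a x))).prod = P ((θ t).symm (a x)) := by
        rw [key, map_list_prod, List.map_map]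
        rfl
      rw [e]
      ext γ
      show (θ t).symm (a x * θ t γ) = (θ t).symm (a x) * γ
      rw [map_mul, MulEquiv.symm_apply_apply])
  refine ⟨ρ, θ, ?_, ?_, ?_, h1, h2⟩
  · intro y γ
    rw [r1]
    simp only [ga, FreeGroup.lift_apply_of]
    rfl
  · intro n γ
    rw [r1]
    simp only [gn, FreeGroup.lift_apply_of]
    rfl
  · intro t γ
    rw [r2]
    rfl

/-- Beginnings are preserved by the automorphisms (negative letters). -/
theorem beg_theta {K : Type*} [Group K] {nn : ZMod p → K} {th : T → K}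
    {ℓ : Monoid.Coprod K (FreeGroup A) → ℕ} (hℓ : LenFn ℓ)
    (θ : Monoid.Coprod K (FreeGroup A) ≃* Monoid.Coprod K (FreeGroup A)) (t : T)
    (h1 : ∀ k, θ.symm (Monoid.Coprod.inl k) = Monoid.Coprod.inl ((th t)⁻¹ * k * th t))
    (h2 : ∀ y, θ.symm (Monoid.Coprod.inr (FreeGroup.of y)) =
        Monoid.Coprod.inr (FreeGroup.of (M.sg t y)) * Monoid.Coprod.inl (vt M Z L nn t y))
    (γ : Monoid.Coprod K (FreeGroup A)) (y : A) :
    γ ∈ Beg ℓ 1 y false ↔ θ.symm γ ∈ Beg ℓ (vt M Z L nn t y)⁻¹ (M.sg t y) false := by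
  have h3 : ∀ k, θ (Monoid.Coprod.inl k) = Monoid.Coprod.inl (th t * k * (th t)⁻¹) := by
    intro k
    rw [← MulEquiv.eq_symm_apply, h1]
    congr 1
    group
  have h4 : ∀ y, θ (Monoid.Coprod.inr (FreeGroup.of y)) =
      Monoid.Coprod.inl 1 * Monoid.Coprod.inr (FreeGroup.of ((M.sg t).symm y)) *
        Monoid.Coprod.inl (th t * (vt M Z L nn t ((M.sg t).symm y))⁻¹ * (th t)⁻¹) := by
    intro y
    have e : vt M Z L nn t ((M.sg t).symm y) * ((th t)⁻¹ *
        (th t * (vt M Z L nn t ((M.sg t).symm y))⁻¹ * (th t)⁻¹) * th t) = 1 := by group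
    have e' : (th t)⁻¹ * 1 * th t = 1 := by group
    rw [← MulEquiv.eq_symm_apply, map_mul θ.symm, map_mul θ.symm, h2, h1, h1,
      Equiv.apply_symm_apply, e', map_one, one_mul, mul_assoc, ← map_mul, e, map_one, mul_one]
  have h5 : ∀ γ, ℓ (θ.symm γ) ≤ ℓ γ := by
    intro γ
    refine hℓ.hom θ.symm.toMonoidHom (fun k => ⟨_, h1 k⟩) (fun y => ⟨1, M.sg t y, vt M Z L nn t y, ?_⟩) γ
    show θ.symm (Monoid.Coprod.inr (FreeGroup.of y)) = _
    rw [h2, map_one, one_mul]
  have h6 : ∀ γ, ℓ (θ γ) ≤ ℓ γ := by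
    intro γ
    exact hℓ.hom θ.toMonoidHom (fun k => ⟨_, h3 k⟩) (fun y => ⟨_, _, _, h4 y⟩) γ
  have h7 : ∀ γ, ℓ (θ.symm γ) = ℓ γ := by
    intro γ
    refine le_antisymm (h5 γ) ?_
    have := h6 (θ.symm γ)
    rwa [MulEquiv.apply_symm_apply] at this
  have e1 : ∀ y : A, (ltr y false)⁻¹ = FreeGroup.of y := by
    intro y
    simp [ltr, FreeGroup.of, FreeGroup.inv_mk, FreeGroup.invRev]
  have e2 : (Monoid.Coprod.inl (1 : K) * Monoid.Coprod.inr (ltr y false))⁻¹ * γ =
      Monoid.Coprod.inr (FreeGroup.of y) * γ := by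
    rw [map_one, one_mul, ← map_inv, e1]
  have e3 : (Monoid.Coprod.inl (vt M Z L nn t y)⁻¹ *
      Monoid.Coprod.inr (ltr (M.sg t y) false))⁻¹ * θ.symm γ =
      θ.symm (Monoid.Coprod.inr (FreeGroup.of y) * γ) := by
    rw [map_mul, h2, mul_inv_rev, ← map_inv, ← map_inv, inv_inv, e1]
  show ℓ _ < ℓ _ ↔ ℓ _ < ℓ _
  rw [e2, e3, h7, h7]

end Pool.Agent.Helper74.MH
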