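import Mathlib

/-! Module Pc (MP_f028d2_al): the ping-pong lemma in the form needed. -/

set_option autoImplicit false

namespace Pool.Agent.Helper74.MH

open Monoid

universe uT uN

/-- Letters of the factors. -/
private abbrev EE (T : Type uT) (N : Type uN) : T ⊕ Fin 3 → Type uN :=
  Sum.elim (fun _ => PUnit.{uN + 1}) (fun _ => N)

private def ff {G : Type*} {T : Type uT} {N : Type uN} [Group G] (s : T → G)
    (f : Fin 3 → FreeGroup N →* G) : (i : T ⊕ Fin 3) → EE T N i → G
  | Sum.inl t => fun _ => s t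
  | Sum.inr j => fun n => f j (FreeGroup.of n)

private def toC {T : Type uT} {N : Type uN} (q : T ⊕ (Fin 3 × N)) :
    CoprodI (fun i : T ⊕ Fin 3 => FreeGroup (EE T N i)) :=
  match q with
  | Sum.inl t => CoprodI.of (i := Sum.inl t) (FreeGroup.of (α := EE T N (Sum.inl t)) PUnit.unit)
  | Sum.inr q => CoprodI.of (i := Sum.inr q.1) (FreeGroup.of (α := EE T N (Sum.inr q.1)) q.2)

private def fromC {T : Type uT} {N : Type uN} :
    (i : T ⊕ Fin 3) → EE T N i → FreeGroup (T ⊕ (Fin 3 × N))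
  | Sum.inl t => fun _ => FreeGroup.of (Sum.inl t)
  | Sum.inr j => fun n => FreeGroup.of (Sum.inr (j, n))

private theorem pow_mem {Ω : Type*} (σ : Equiv.Perm Ω) (P M : Set Ω) (hd : Disjoint P M)
    (h : ∀ ω, ω ∉ M → σ ω ∈ P) (n : ℕ) (ω : Ω) (hω : ω ∉ M) : (σ ^ (n + 1)) ω ∈ P := by
  induction n with
  | zero => simpa using h ω hω
  | succ n ih =>
    rw [pow_succ', Equiv.Perm.mul_apply]
    exact h _ (fun h' => Set.disjoint_left.1 hd ih h')

private theorem unit_case {G : Type*} [Group G] (h : FreeGroup PUnit.{uN + 1}) (hne : h ≠ 1) :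
    ∃ n : ℤ, n ≠ 0 ∧ ∀ g : PUnit.{uN + 1} → G, FreeGroup.lift g h = g PUnit.unit ^ n := by
  have hex : ∃ n : ℤ, h = (FreeGroup.of PUnit.unit) ^ n := by
    induction h using FreeGroup.induction_on with
    | C1 => exact ⟨0, by simp⟩
    | of x => exact ⟨1, by simp⟩
    | inv_of x _ => exact ⟨-1, by simp⟩
    | mul x y hx hy =>
      by_cases hx1 : x = 1
      · subst hx1
        rw [one_mul] at hne ⊢
        exact hy hne
      · by_cases hy1 : y = 1
        · subst hy1
          rw [mul_one] at hne ⊢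
          exact hx hne
        · obtain ⟨a, rfl⟩ := hx hx1
          obtain ⟨b, rfl⟩ := hy hy1
          exact ⟨a + b, (zpow_add _ _ _).symm⟩
  obtain ⟨n, rfl⟩ := hex
  refine ⟨n, ?_, fun g => ?_⟩
  · rintro rfl
    exact hne (zpow_zero _)
  · rw [map_zpow, FreeGroup.lift_apply_of]

theorem pingpong {G Ω T N : Type*} [Group G] (ρ : G →* Equiv.Perm Ω) (s : T → G)
    (f : Fin 3 → FreeGroup N →* G) (Xp Xm : T → Set Ω) (X : Fin 3 → Set Ω)
    (hXp : ∀ t, (Xp t).Nonempty) (hX : ∀ i, (X i).Nonempty)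
    (d1 : ∀ t t', t ≠ t' → Disjoint (Xp t) (Xp t'))
    (d2 : ∀ t t', t ≠ t' → Disjoint (Xm t) (Xm t'))
    (d3 : ∀ t t', Disjoint (Xp t) (Xm t')) (d4 : ∀ t i, Disjoint (Xp t) (X i))
    (d5 : ∀ t i, Disjoint (Xm t) (X i)) (d6 : ∀ i j, i ≠ j → Disjoint (X i) (X j))
    (hs : ∀ t ω, ω ∉ Xm t → ρ (s t) ω ∈ Xp t)
    (hs' : ∀ t ω, ω ∉ Xp t → ρ (s t)⁻¹ ω ∈ Xm t)
    (hf : ∀ i n, n ≠ 1 → ∀ ω, ω ∉ X i → ρ (f i n) ω ∈ X i) :
    Function.Injective (FreeGroup.lift
      (Sum.elim s (fun q : Fin 3 × N => f q.1 (FreeGroup.of q.2)))) := by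
  classical
  have hcomp : FreeGroup.lift (Sum.elim s (fun q : Fin 3 × N => f q.1 (FreeGroup.of q.2))) =
      (CoprodI.lift fun i : T ⊕ Fin 3 => FreeGroup.lift (ff s f i)).comp
        (FreeGroup.lift (toC (T := T) (N := N))) := by
    ext q
    rcases q with t | ⟨j, n⟩
    · rw [MonoidHom.comp_apply, FreeGroup.lift_apply_of, FreeGroup.lift_apply_of]
      change s t = CoprodI.lift (fun i : T ⊕ Fin 3 => FreeGroup.lift (ff s f i))
        (CoprodI.of (i := Sum.inl t) (FreeGroup.of (α := EE T N (Sum.inl t)) PUnit.unit))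
      rw [CoprodI.lift_of]
      exact (FreeGroup.lift_apply_of (f := ff s f (Sum.inl t))).symm
    · rw [MonoidHom.comp_apply, FreeGroup.lift_apply_of, FreeGroup.lift_apply_of]
      change f j (FreeGroup.of n) = CoprodI.lift (fun i : T ⊕ Fin 3 => FreeGroup.lift (ff s f i))
        (CoprodI.of (i := Sum.inr j) (FreeGroup.of (α := EE T N (Sum.inr j)) n))
      rw [CoprodI.lift_of]
      exact (FreeGroup.lift_apply_of (f := ff s f (Sum.inr j))).symm
  rw [hcomp, MonoidHom.coe_comp]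
  have hinj : Function.Injective (FreeGroup.lift (toC (T := T) (N := N))) := by
    have hid : (CoprodI.lift fun i : T ⊕ Fin 3 => FreeGroup.lift (fromC (T := T) (N := N) i)).comp
        (FreeGroup.lift (toC (T := T) (N := N))) = MonoidHom.id _ := by
      ext q
      rcases q with t | ⟨j, n⟩
      · rw [MonoidHom.comp_apply, FreeGroup.lift_apply_of, MonoidHom.id_apply]
        change CoprodI.lift (fun i : T ⊕ Fin 3 => FreeGroup.lift (fromC (T := T) (N := N) i))
          (CoprodI.of (i := Sum.inl t) (FreeGroup.of (α := EE T N (Sum.inl t)) PUnit.unit)) = _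
        rw [CoprodI.lift_of]
        exact FreeGroup.lift_apply_of (f := fromC (T := T) (N := N) (Sum.inl t))
      · rw [MonoidHom.comp_apply, FreeGroup.lift_apply_of, MonoidHom.id_apply]
        change CoprodI.lift (fun i : T ⊕ Fin 3 => FreeGroup.lift (fromC (T := T) (N := N) i))
          (CoprodI.of (i := Sum.inr j) (FreeGroup.of (α := EE T N (Sum.inr j)) n)) = _
        rw [CoprodI.lift_of]
        exact FreeGroup.lift_apply_of (f := fromC (T := T) (N := N) (Sum.inr j))
    intro x y hxy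
    have h1 := DFunLike.congr_fun hid x
    have h2 := DFunLike.congr_fun hid y
    simp only [MonoidHom.coe_comp, Function.comp_apply, MonoidHom.id_apply] at h1 h2
    rw [← h1, ← h2, hxy]
  refine Function.Injective.comp ?_ hinj
  letI : MulAction G Ω := MulAction.compHom Ω ρ
  have hsm : ∀ (g : G) (ω : Ω), g • ω = ρ g ω := fun _ _ => rfl
  let X' : T ⊕ Fin 3 → Set Ω := Sum.elim (fun t => Xp t ∪ Xm t) X
  haveI : Nontrivial (T ⊕ Fin 3) := ⟨Sum.inr 0, Sum.inr 1, by simp⟩
  have hcard : 3 ≤ Cardinal.mk (T ⊕ Fin 3) := by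
    rw [Cardinal.mk_sum, Cardinal.mk_fin]
    simp
  have hdisj : Pairwise (Function.onFun Disjoint X') := by
    rintro (t | i) (t' | i') hne
    · have hne' : t ≠ t' := fun h => hne (by rw [h])
      change Disjoint (Xp t ∪ Xm t) (Xp t' ∪ Xm t')
      rw [Set.disjoint_union_left, Set.disjoint_union_right, Set.disjoint_union_right]
      exact ⟨⟨d1 t t' hne', d3 t t'⟩, (d3 t' t).symm, d2 t t' hne'⟩
    · change Disjoint (Xp t ∪ Xm t) (X i')
      rw [Set.disjoint_union_left]
      exact ⟨d4 t i', d5 t i'⟩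
    · change Disjoint (X i) (Xp t' ∪ Xm t')
      rw [Set.disjoint_union_right]
      exact ⟨(d4 t' i).symm, (d5 t' i).symm⟩
    · exact d6 i i' fun h => hne (by rw [h])
  refine CoprodI.lift_injective_of_ping_pong (fun i : T ⊕ Fin 3 => FreeGroup.lift (ff s f i))
    (Or.inl hcard) X' ?_ hdisj ?_
  · rintro (t | i)
    · exact (hXp t).mono Set.subset_union_left
    · exact hX i
  · intro i j hij h hne
    rintro _ ⟨ω, hω, rfl⟩
    have hω' : ω ∉ X' i := fun h' => Set.disjoint_left.1 (hdisj hij) h' hω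
    change FreeGroup.lift (ff s f i) h • ω ∈ X' i
    rw [hsm]
    rcases i with t | i
    · have hp : ω ∉ Xp t := fun h' => hω' (Or.inl h')
      have hm : ω ∉ Xm t := fun h' => hω' (Or.inr h')
      change FreeGroup PUnit at h
      obtain ⟨n, hn, hv⟩ := unit_case (G := G) h hne
      have hval : FreeGroup.lift (ff s f (Sum.inl t)) h = s t ^ n := hv (fun _ => s t)
      change ρ (FreeGroup.lift (ff s f (Sum.inl t)) h) ω ∈ Xp t ∪ Xm t
      rw [hval]
      obtain ⟨k, rfl | rfl⟩ : ∃ k : ℕ, n = ((k + 1 : ℕ) : ℤ) ∨ n = -((k + 1 : ℕ) : ℤ) := by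
        obtain ⟨m, hm | hm⟩ := Int.eq_nat_or_neg n
        · exact ⟨m - 1, Or.inl (by omega)⟩
        · exact ⟨m - 1, Or.inr (by omega)⟩
      · left
        rw [zpow_natCast, map_pow]
        exact pow_mem _ _ _ (d3 t t) (hs t) k ω hm
      · right
        rw [zpow_neg, zpow_natCast, ← inv_pow, map_pow]
        exact pow_mem _ _ _ (d3 t t).symm (hs' t) k ω hp
    · have hval : FreeGroup.lift (ff s f (Sum.inr i)) = f i := by
        ext n
        rw [FreeGroup.lift_apply_of]
        rfl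
      change ρ (FreeGroup.lift (ff s f (Sum.inr i)) h) ω ∈ X i
      rw [hval]
      exact hf i h hne ω hω'

end Pool.Agent.Helper74.MH
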