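import Pool.Agent.Helper74.MH.Pa
import Pool.Agent.Helper74.MH.Pb
import Pool.Agent.Helper74.MH.Pc

/-! Module Pd (MP_f028d2_al): freeness of the intersection of `H` with `G1`. -/

set_option autoImplicit false

namespace Pool.Agent.Helper74.MH

variable {A T : Type} {p : ℕ} {M : Mach A T} {Z : Noise A T p} {L : ℕ}

section Aux

variable {K A : Type*} [Group K] {ℓ : Monoid.Coprod K (FreeGroup A) → ℕ}

/-- The head of the normal form is trivial. -/
private def H1 (ℓ : Monoid.Coprod K (FreeGroup A) → ℕ) (γ : Monoid.Coprod K (FreeGroup A)) : Prop :=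
  γ = 1 ∨ ∃ y b, γ ∈ Beg ℓ 1 y b

private theorem ltr_true' (y : A) : ltr y true = FreeGroup.of y := rfl

private theorem ltr_false' (y : A) : ltr y false = (FreeGroup.of y)⁻¹ := by
  simp [ltr, FreeGroup.of, FreeGroup.inv_mk, FreeGroup.invRev]

private theorem ltr_inv' (y : A) (b : Bool) : (ltr y b)⁻¹ = ltr y (!b) := by
  cases b
  · rw [Bool.not_false, ltr_true', ltr_false', inv_inv]
  · rw [Bool.not_true, ltr_true', ltr_false']

private theorem mem_beg_one {γ : Monoid.Coprod K (FreeGroup A)} {y : A} {b : Bool} :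
    γ ∈ Beg ℓ 1 y b ↔ ℓ (Monoid.Coprod.inr (ltr y (!b)) * γ) < ℓ γ := by
  simp only [Beg, Set.mem_ofPred_eq, map_one, one_mul]
  rw [← map_inv, ltr_inv']

private theorem one_not_beg (hℓ : LenFn ℓ) (k k' : K) (y : A) (b : Bool) :
    (Monoid.Coprod.inl k : Monoid.Coprod K (FreeGroup A)) ∉ Beg ℓ k' y b := by
  intro h
  simp only [Beg, Set.mem_ofPred_eq, hℓ.zero] at h
  omega

private theorem beg_of_not (hℓ : LenFn ℓ) {γ : Monoid.Coprod K (FreeGroup A)} {y : A} {b : Bool}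
    (h : γ ∉ Beg ℓ 1 y (!b)) : Monoid.Coprod.inr (ltr y b) * γ ∈ Beg ℓ 1 y b := by
  rw [mem_beg_one, Bool.not_not] at h
  rw [mem_beg_one, ← mul_assoc, ← map_mul, ← ltr_inv', inv_mul_cancel, map_one, one_mul]
  rcases hℓ.step y b γ with h1 | h1 <;> omega

private theorem beg_left (hℓ : LenFn ℓ) {γ : Monoid.Coprod K (FreeGroup A)} {k : K} {y : A}
    {b : Bool} (k' : K) (h : γ ∈ Beg ℓ k y b) :
    Monoid.Coprod.inl k' * γ ∈ Beg ℓ (k' * k) y b := by
  simp only [Beg, Set.mem_ofPred_eq, hℓ.left] at h ⊢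
  have : (Monoid.Coprod.inl (k' * k) * Monoid.Coprod.inr (ltr y b))⁻¹ * (Monoid.Coprod.inl k' * γ) =
      (Monoid.Coprod.inl k * Monoid.Coprod.inr (ltr y b))⁻¹ * γ := by
    rw [map_mul]; group
  rw [this]
  exact h

private theorem not_H1 (hℓ : LenFn ℓ) {γ : Monoid.Coprod K (FreeGroup A)} {k : K} (hk : k ≠ 1)
    (h : H1 ℓ γ) : ¬ H1 ℓ (Monoid.Coprod.inl k * γ) := by
  rcases h with rfl | ⟨y, b, h⟩
  · rw [mul_one]
    rintro (h | ⟨y, b, h⟩)
    · exact hk (Monoid.Coprod.inl_injective (by rw [h, map_one]))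
    · exact one_not_beg hℓ _ _ _ _ h
  · have h1 := beg_left hℓ k h
    rintro (h2 | ⟨y', b', h2⟩)
    · rw [h2] at h1
      have h3 := one_not_beg hℓ 1 (k * 1) y b
      rw [map_one] at h3
      exact h3 h1
    · exact hk (by simpa using (hℓ.uniq _ _ _ _ _ _ _ h1 h2).1)

end Aux

/-- `K` is any group with a copy of the noise group. -/
theorem gen1_injective (hM : M.Good) {K : Type*} [Group K] (nn : ZMod p → K) (th : T → K)
    (hrel : ∀ t n, (th t)⁻¹ * nn n * th t = ((nV M Z L t (Sum.inr (Sum.inr n))).map nn).prod)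
    (hnn : Function.Injective (FreeGroup.lift nn)) :
    Function.Injective (FreeGroup.lift (gen1 M Z L)) := by
  classical
  obtain ⟨ρ, θ, hy, hn, ht, hk, hA⟩ := exists_rho nn th hrel
  obtain ⟨ℓ, hℓ⟩ := exists_lenFn K A
  have hbt := fun t γ y => beg_theta (M := M) (Z := Z) (L := L) (nn := nn) (th := th) hℓ (θ t) t
    (hk t) (hA t) γ y
  -- the sets
  set s : T → G1 M Z L := fun t => iX _ (ga (M.a t)) * tt _ t with hs_def
  set f : Fin 3 → FreeGroup (ZMod p) →* G1 M Z L := fun i =>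
    (MulAut.conj (iX (W1 M Z L) (c1 p M i))).toMonoidHom.comp
      ((iX (W1 M Z L)).comp (FreeGroup.map Sum.inr)) with hf_def
  set Xp : T → Set (Monoid.Coprod K (FreeGroup A)) := fun t => Beg ℓ 1 (M.a t) true with hXp
  set Xm : T → Set (Monoid.Coprod K (FreeGroup A)) := fun t =>
    Beg ℓ (vt M Z L nn t (M.a t))⁻¹ (M.sg t (M.a t)) false with hXm
  set X1 : Set (Monoid.Coprod K (FreeGroup A)) := {γ | γ ∈ Beg ℓ 1 M.r1 true ∧
    ¬ H1 ℓ (Monoid.Coprod.inr (ltr M.r1 false) * γ)} with hX1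
  set X2 : Set (Monoid.Coprod K (FreeGroup A)) := {γ | γ ∈ Beg ℓ 1 M.r1 true ∧
    Monoid.Coprod.inr (ltr M.r1 false) * γ ∈ Beg ℓ 1 M.r2 true ∧
    ¬ H1 ℓ (Monoid.Coprod.inr (ltr M.r2 false) * (Monoid.Coprod.inr (ltr M.r1 false) * γ))}
    with hX2
  set X0 : Set (Monoid.Coprod K (FreeGroup A)) :=
    {γ | (∀ t, γ ∉ Xp t) ∧ (∀ t, γ ∉ Xm t) ∧ γ ∉ X1 ∧ γ ∉ X2} with hX0
  -- the action
  have hρn : ∀ (n : FreeGroup (ZMod p)) ω, ρ (iX _ (FreeGroup.map Sum.inr n)) ω =
      Monoid.Coprod.inl (FreeGroup.lift nn n) * ω := by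
    have : ρ.comp ((iX (W1 M Z L)).comp (FreeGroup.map Sum.inr)) =
        (MulAction.toPermHom (Monoid.Coprod K (FreeGroup A)) (Monoid.Coprod K (FreeGroup A))).comp
          ((Monoid.Coprod.inl).comp (FreeGroup.lift nn)) := by
      ext n ω
      simp only [MonoidHom.coe_comp, Function.comp_apply, FreeGroup.map.of,
        MulAction.toPermHom_apply, FreeGroup.lift_apply_of]
      exact hn n ω
    intro n ω
    exact congrArg (fun e => e ω) (DFunLike.congr_fun this n)
  have hy' : ∀ y ω, ρ (iX _ (ga y)) ω = Monoid.Coprod.inr (ltr y true) * ω := hy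
  have hyi : ∀ y ω, (ρ (iX _ (ga y)))⁻¹ ω = Monoid.Coprod.inr (ltr y false) * ω := by
    intro y ω
    rw [Equiv.Perm.inv_eq_iff_eq, hy', ← mul_assoc, ← map_mul, ← Bool.not_true, ← ltr_inv',
      mul_inv_cancel, map_one, one_mul]
  have hki : ∀ n : FreeGroup (ZMod p), n ≠ 1 → FreeGroup.lift nn n ≠ 1 := by
    intro n hn1 h
    exact hn1 (hnn (by rw [h, map_one]))
  have hbool : ∀ {γ : Monoid.Coprod K (FreeGroup A)} {k k' : K} {y y' : A},
      γ ∈ Beg ℓ k y true → γ ∈ Beg ℓ k' y' false → False := by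
    intro γ k k' y y' h h'
    exact Bool.noConfusion (hℓ.uniq _ _ _ _ _ _ _ h h').2.2
  have cancel1 : ∀ (y : A) (ω : Monoid.Coprod K (FreeGroup A)),
      Monoid.Coprod.inr (ltr y false) * (Monoid.Coprod.inr (ltr y true) * ω) = ω := by
    intro y ω
    rw [← mul_assoc, ← map_mul, ← Bool.not_true, ← ltr_inv', inv_mul_cancel, map_one, one_mul]
  have hfi : ∀ i n, f i n = iX (W1 M Z L) (c1 p M i) * iX (W1 M Z L) (FreeGroup.map Sum.inr n) *
      (iX (W1 M Z L) (c1 p M i))⁻¹ := fun i n => rfl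
  -- ping-pong for the noise groups
  have hf0 : ∀ n, n ≠ 1 → ∀ ω, ω ∉ X0 → ρ (f 0 n) ω ∈ X0 := by
    intro n hn1 ω hω
    have hρ : ρ (f 0 n) ω = Monoid.Coprod.inl (FreeGroup.lift nn n) * ω := by
      have h0 : c1 p M 0 = 1 := rfl
      rw [hfi, h0, map_one, one_mul, inv_one, mul_one]
      exact hρn n ω
    rw [hρ]
    have hk1 := hki n hn1
    generalize FreeGroup.lift nn n = k at hk1 ⊢
    have hcase : (∃ y, ω ∈ Beg ℓ 1 y true) ∨ ∃ t, ω ∈ Xm t := by
      by_contra hcon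
      push Not at hcon
      apply hω
      refine ⟨fun t h => hcon.1 _ h, fun t h => hcon.2 t h, fun h => hcon.1 _ h.1,
        fun h => hcon.1 _ h.1⟩
    rcases hcase with ⟨y, h⟩ | ⟨t, h⟩
    · have h1 := beg_left hℓ k h
      have h2 : ∀ y', Monoid.Coprod.inl k * ω ∉ Beg ℓ 1 y' true := by
        intro y' h3
        exact hk1 (by simpa using (hℓ.uniq _ _ _ _ _ _ _ h1 h3).1)
      exact ⟨fun t => h2 _, fun t h3 => hbool h1 h3, fun h3 => h2 _ h3.1, fun h3 => h2 _ h3.1⟩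
    · have h1 := beg_left hℓ k h
      refine ⟨fun t' h3 => hbool h3 h1, fun t' h3 => ?_, fun h3 => hbool h3.1 h1,
        fun h3 => hbool h3.1 h1⟩
      have h4 := hℓ.uniq _ _ _ _ _ _ _ h1 h3
      have h5 : t = t' := hM.inj_a' h4.2.1
      subst h5
      exact hk1 (by simpa using h4.1)
  have hf1 : ∀ n, n ≠ 1 → ∀ ω, ω ∉ X1 → ρ (f 1 n) ω ∈ X1 := by
    intro n hn1 ω hω
    have hρ : ρ (f 1 n) ω = Monoid.Coprod.inr (ltr M.r1 true) *
        (Monoid.Coprod.inl (FreeGroup.lift nn n) * (Monoid.Coprod.inr (ltr M.r1 false) * ω)) := by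
      have h0 : c1 p M 1 = ga M.r1 := rfl
      rw [hfi, h0, MonoidHom.map_mul, MonoidHom.map_mul, Equiv.Perm.mul_apply,
        Equiv.Perm.mul_apply, MonoidHom.map_inv, hyi, hρn, hy']
    rw [hρ]
    have hk1 := hki n hn1
    generalize FreeGroup.lift nn n = k at hk1 ⊢
    have h1 : H1 ℓ (Monoid.Coprod.inr (ltr M.r1 false) * ω) := by
      by_cases h : ω ∈ Beg ℓ 1 M.r1 true
      · by_contra h2
        exact hω ⟨h, h2⟩
      · exact Or.inr ⟨_, _, beg_of_not hℓ (b := false) h⟩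
    have h2 := not_H1 hℓ hk1 h1
    refine ⟨beg_of_not hℓ (b := true) (fun h3 => h2 (Or.inr ⟨_, _, h3⟩)), ?_⟩
    rw [cancel1]
    exact h2
  have hf2 : ∀ n, n ≠ 1 → ∀ ω, ω ∉ X2 → ρ (f 2 n) ω ∈ X2 := by
    intro n hn1 ω hω
    have hρ : ρ (f 2 n) ω = Monoid.Coprod.inr (ltr M.r1 true) *
        (Monoid.Coprod.inr (ltr M.r2 true) *
        (Monoid.Coprod.inl (FreeGroup.lift nn n) * (Monoid.Coprod.inr (ltr M.r2 false) *
          (Monoid.Coprod.inr (ltr M.r1 false) * ω)))) := by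
      have h0 : c1 p M 2 = ga M.r1 * ga M.r2 := rfl
      rw [hfi, h0, MonoidHom.map_mul, MonoidHom.map_mul, MonoidHom.map_mul, mul_inv_rev,
        MonoidHom.map_mul, MonoidHom.map_mul, Equiv.Perm.mul_apply,
        Equiv.Perm.mul_apply, Equiv.Perm.mul_apply, Equiv.Perm.mul_apply, MonoidHom.map_inv,
        MonoidHom.map_inv, hyi, hyi, hρn, hy', hy']
    rw [hρ]
    have hk1 := hki n hn1
    generalize FreeGroup.lift nn n = k at hk1 ⊢
    have h1 : H1 ℓ (Monoid.Coprod.inr (ltr M.r2 false) *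
        (Monoid.Coprod.inr (ltr M.r1 false) * ω)) := by
      by_cases h : Monoid.Coprod.inr (ltr M.r1 false) * ω ∈ Beg ℓ 1 M.r2 true
      · by_cases h' : ω ∈ Beg ℓ 1 M.r1 true
        · by_contra h2
          exact hω ⟨h', h, h2⟩
        · exact (hbool h (beg_of_not hℓ (b := false) h')).elim
      · exact Or.inr ⟨_, _, beg_of_not hℓ (b := false) h⟩
    have h2 := not_H1 hℓ hk1 h1
    have h3 := beg_of_not hℓ (b := true) (y := M.r2) (fun h3 => h2 (Or.inr ⟨_, _, h3⟩))
    have h4 := beg_of_not hℓ (b := true) (y := M.r1) (fun h4 => hbool h3 h4)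
    refine ⟨h4, ?_, ?_⟩
    · rw [cancel1]
      exact h3
    · rw [cancel1, cancel1]
      exact h2
  have one_not : ∀ k y b, (1 : Monoid.Coprod K (FreeGroup A)) ∉ Beg ℓ k y b := by
    intro k y b
    have := one_not_beg hℓ 1 k y b
    rwa [map_one] at this
  have hof : (FreeGroup.of (0 : ZMod p)) ≠ 1 := FreeGroup.of_ne_one _
  have main := pingpong ρ s f Xp Xm ![X0, X1, X2]
    (fun t => ⟨_, beg_of_not hℓ (b := true) (one_not _ _ _)⟩)
    (by
      intro i
      fin_cases i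
      · exact ⟨1, fun t => one_not _ _ _, fun t => one_not _ _ _, fun h => one_not _ _ _ h.1,
          fun h => one_not _ _ _ h.1⟩
      · exact ⟨_, hf1 _ hof 1 (fun h => one_not _ _ _ h.1)⟩
      · exact ⟨_, hf2 _ hof 1 (fun h => one_not _ _ _ h.1)⟩)
    (by
      intro t t' htt
      rw [Set.disjoint_left]
      intro γ h h'
      exact htt (hM.inj_a (hℓ.uniq _ _ _ _ _ _ _ h h').2.1))
    (by
      intro t t' htt
      rw [Set.disjoint_left]
      intro γ h h'
      exact htt (hM.inj_a' (hℓ.uniq _ _ _ _ _ _ _ h h').2.1))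
    (by
      intro t t'
      rw [Set.disjoint_left]
      intro γ h h'
      exact hbool h h')
    (by
      intro t i
      rw [Set.disjoint_left]
      intro γ h h'
      fin_cases i
      · exact h'.1 t h
      · exact hM.r1_not t (hℓ.uniq _ _ _ _ _ _ _ h h'.1).2.1
      · exact hM.r1_not t (hℓ.uniq _ _ _ _ _ _ _ h h'.1).2.1)
    (by
      intro t i
      rw [Set.disjoint_left]
      intro γ h h'
      fin_cases i
      · exact h'.2.1 t h
      · exact hbool h'.1 h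
      · exact hbool h'.1 h)
    (by
      intro i j hij
      rw [Set.disjoint_left]
      intro γ h h'
      fin_cases i <;> fin_cases j
      · exact hij rfl
      · exact h.2.2.1 h'
      · exact h.2.2.2 h'
      · exact h'.2.2.1 h
      · exact hij rfl
      · exact h.2 (Or.inr ⟨_, _, h'.2.1⟩)
      · exact h'.2.2.2 h
      · exact h'.2 (Or.inr ⟨_, _, h.2.1⟩)
      · exact hij rfl)
    (by
      intro t ω hω
      have h1 : ρ (s t) ω = Monoid.Coprod.inr (ltr (M.a t) true) * θ t ω := by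
        simp only [hs_def, map_mul, Equiv.Perm.mul_apply]
        rw [ht, hy']
      rw [h1]
      refine beg_of_not hℓ (b := true) (fun h2 => hω ?_)
      have := (hbt t (θ t ω) (M.a t)).1 h2
      rwa [MulEquiv.symm_apply_apply] at this)
    (by
      intro t ω hω
      have h1 : ρ (s t)⁻¹ ω = (θ t).symm (Monoid.Coprod.inr (ltr (M.a t) false) * ω) := by
        have h0 : (s t)⁻¹ = (tt _ t)⁻¹ * (iX _ (ga (M.a t)))⁻¹ := mul_inv_rev _ _
        rw [h0, MonoidHom.map_mul, Equiv.Perm.mul_apply, MonoidHom.map_inv, MonoidHom.map_inv, hyi,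
          Equiv.Perm.inv_eq_iff_eq, ht, MulEquiv.apply_symm_apply]
      rw [h1]
      exact (hbt t _ (M.a t)).1 (beg_of_not hℓ (b := false) hω))
    (by
      intro i n hn1 ω hω
      fin_cases i
      · exact hf0 n hn1 ω hω
      · exact hf1 n hn1 ω hω
      · exact hf2 n hn1 ω hω)
  have heq : gen1 M Z L = Sum.elim s (fun q : Fin 3 × ZMod p => f q.1 (FreeGroup.of q.2)) := by
    funext x
    rcases x with t | ⟨i, n⟩
    · rfl
    · simp only [gen1, Sum.elim_inr, hf_def, MonoidHom.coe_comp, Function.comp_apply,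
        MulEquiv.toMonoidHom_eq_coe, MonoidHom.coe_coe, MulAut.conj_apply, FreeGroup.map.of,
        map_mul, map_inv]
      rfl
  rw [heq]
  exact main

end Pool.Agent.Helper74.MH
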