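import Pool.Agent.Helper74.MH.NTa

/-! Module Sa (MP_f028d2_al): existence and uniqueness of the nearest lattice index. -/

set_option autoImplicit false

namespace Pool.Agent.Helper74.MH

variable {F T : Type*} [Group F] {d : F → F → ℕ} {φ : T → F →* F} {h Q : ℕ}
  {pr : T → F → F}

/-- The four point condition of a tree. -/
private theorem sa_four {α : Type*} {d : α → α → ℕ} (hd : IsNTree d) (f a b c : α) :
    d f b + d a c ≤ d f a + d b c ∨ d f b + d a c ≤ d f c + d a b := by
  obtain ⟨m, h1, h2, h3⟩ := hd.med f a c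
  have h4 := hd.tri f m b
  have e1 := hd.symm m b
  have e2 := hd.symm m a
  rcases hd.thin b h2 with h5 | h5
  · right
    unfold Btw at *
    omega
  · left
    unfold Btw at *
    omega

private theorem sa_one (hS : Stretch F T d φ h Q) (x y : F) : d 1 (x⁻¹ * y) = d x y := by
  have := hS.ltree.inv x 1 (x⁻¹ * y)
  rw [mul_one, mul_inv_cancel_left] at this
  exact this.symm

private theorem sa_inv (hS : Stretch F T d φ h Q) {s : F} (hs : d 1 s = 1) : d 1 s⁻¹ = 1 := by
  have h1 := hS.ltree.inv s 1 s⁻¹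
  rw [mul_one, mul_inv_cancel] at h1
  rw [← h1, hS.ltree.tree.symm]
  exact hs

/-- The increments of the distance to the lattice points along a geodesic of indices. -/
theorem Stretch.key (hS : Stretch F T d φ h Q) (t : T) {f u s s' : F} (hs : d 1 s = 1)
    (hs' : d 1 s' = 1) (hne : s' ≠ s⁻¹) (hlt : d f (φ t u) < d f (φ t (u * s))) :
    d f (φ t (u * s)) + (2 * h - 1) ≤ d f (φ t (u * s * s')) := by
  have hQ := hS.hQ
  have hh := hS.hh
  have h1 : d (φ t u) (φ t (u * s)) = 2 * h + 1 := by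
    rw [map_mul, ← hS.len t s hs, ← hS.ltree.inv (φ t u) 1, mul_one]
  have h2 : d (φ t (u * s)) (φ t (u * s * s')) = 2 * h + 1 := by
    rw [map_mul (φ t) (u * s) s', ← hS.len t s' hs', ← hS.ltree.inv (φ t (u * s)) 1, mul_one]
  have h3 : 4 * h ≤ d (φ t u) (φ t (u * s * s')) := by
    have h4 := hS.sep t s⁻¹ s' (sa_inv hS hs) hs' hne.symm
    rw [← hS.ltree.inv (φ t (u * s)), ← map_mul, ← map_mul, mul_inv_cancel_right] at h4
    exact h4
  rcases sa_four hS.ltree.tree f (φ t u) (φ t (u * s)) (φ t (u * s * s')) with h5 | h5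
  · omega
  · omega

/-- If `u` is locally nearest and `u'` is any other index, then the distance from `f` to the
lattice points increases along the geodesic from `u` to `u'`; last step. -/
theorem Stretch.increase (hS : Stretch F T d φ h Q) (t : T) {f u v v' : F}
    (hu : ∀ s, d 1 s = 1 → d f (φ t u) < d f (φ t (u * s))) (hv : d v v' = 1)
    (hb : Btw d u v v') :
    d f (φ t v) < d f (φ t v') ∧ (u ≠ v → d f (φ t v) + (2 * h - 1) ≤ d f (φ t v')) := by
  have hQ := hS.hQ
  have hh := hS.hh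
  have hd := hS.ltree.tree.toIsPathMetric
  obtain ⟨n, hn⟩ : ∃ n, d u v = n := ⟨_, rfl⟩
  induction n generalizing v v' with
  | zero =>
    have h0 : u = v := (hd.zero_iff _ _).1 hn
    subst h0
    refine ⟨?_, fun h => absurd rfl h⟩
    have h1 := hu (u⁻¹ * v') (by rw [sa_one hS]; exact hv)
    rwa [mul_inv_cancel_left] at h1
  | succ n ih =>
    obtain ⟨v0, h1, h2⟩ := hd.geod u v n (by omega)
    have h3 : d v0 v = 1 := by
      unfold Btw at h1
      omega
    have h4 := (ih h3 h1 h2).1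
    have h5 : v⁻¹ * v' ≠ (v0⁻¹ * v)⁻¹ := by
      intro h6
      rw [mul_inv_rev, inv_inv] at h6
      have h7 : v' = v0 := mul_left_cancel h6
      subst h7
      unfold Btw at hb
      omega
    have h6 := hS.key t (f := f) (u := v0) (s := v0⁻¹ * v) (s' := v⁻¹ * v')
      (by rw [sa_one hS]; exact h3) (by rw [sa_one hS]; exact hv) h5
      (by rw [mul_inv_cancel_left]; exact h4)
    rw [mul_inv_cancel_left, mul_inv_cancel_left] at h6
    exact ⟨by omega, fun _ => h6⟩

theorem Stretch.exists_proj (hS : Stretch F T d φ h Q) : ∃ pr : T → F → F, IsProj d φ pr := by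
  have h1 : ∀ (t : T) (f : F), ∃ u, ∀ u', d f (φ t u) ≤ d f (φ t u') := by
    intro t f
    have hwf := WellFounded.has_min (measure fun u => d f (φ t u)).wf Set.univ ⟨1, trivial⟩
    obtain ⟨u, -, hu⟩ := hwf
    exact ⟨u, fun u' => not_lt.1 (hu u' trivial)⟩
  choose pr hpr using h1
  refine ⟨pr, fun t f s hs => lt_of_le_of_ne (hpr t f _) ?_⟩
  intro heq
  have h2 := hS.ltree.tree.parity f (φ t (pr t f)) (φ t (pr t f * s))
  have h3 : d (φ t (pr t f)) (φ t (pr t f * s)) = 2 * h + 1 := by
    rw [map_mul, ← hS.len t s hs, ← hS.ltree.inv (φ t (pr t f)) 1, mul_one]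
  rw [h3, ← heq] at h2
  obtain ⟨k, hk⟩ := h2
  omega

theorem Stretch.proj_unique (hS : Stretch F T d φ h Q) (hpr : IsProj d φ pr) (t : T) {f u : F}
    (hu : ∀ s, d 1 s = 1 → d f (φ t u) < d f (φ t (u * s))) : pr t f = u := by
  by_contra hne
  have hd := hS.ltree.tree.toIsPathMetric
  have h0 : d u (pr t f) ≠ 0 := fun h0 => hne ((hd.zero_iff _ _).1 h0).symm
  obtain ⟨v, h1, h2⟩ := hd.geod u (pr t f) (d u (pr t f) - 1) (Nat.sub_le _ _)
  have h3 : d v (pr t f) = 1 := by
    unfold Btw at h1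
    omega
  have h4 := (hS.increase t hu h3 h1).1
  have h5 := hpr t f ((pr t f)⁻¹ * v) (by rw [sa_one hS, hd.symm]; exact h3)
  rw [mul_inv_cancel_left] at h5
  omega

theorem Stretch.pr_mul (hS : Stretch F T d φ h Q) (hpr : IsProj d φ pr) (t : T) (u f : F) :
    pr t (φ t u * f) = u * pr t f := by
  refine hS.proj_unique hpr t fun s hs => ?_
  rw [mul_assoc, map_mul, map_mul (φ t) u, hS.ltree.inv, hS.ltree.inv]
  exact hpr t f s hs

theorem Stretch.pr_one (hS : Stretch F T d φ h Q) (hpr : IsProj d φ pr) (t : T) :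
    pr t 1 = 1 := by
  refine hS.proj_unique hpr t fun s hs => ?_
  rw [map_one, one_mul, hS.len t s hs, hS.ltree.tree.toIsPathMetric.self]
  omega

theorem Stretch.pr_phi (hS : Stretch F T d φ h Q) (hpr : IsProj d φ pr) (t : T) (u : F) :
    pr t (φ t u) = u := by
  have := hS.pr_mul hpr t u 1
  rwa [mul_one, hS.pr_one hpr, mul_one] at this

end Pool.Agent.Helper74.MH
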