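import Pool.Agent.Helper74.MH.Sa
import Pool.Agent.Helper74.MH.NTb

/-! Module Sb (MP_f028d2_al): the projection is 1-Lipschitz, monotone, with convex fibres. -/

set_option autoImplicit false

namespace Pool.Agent.Helper74.MH

variable {F T : Type*} [Group F] {d : F → F → ℕ} {φ : T → F →* F} {h Q : ℕ}
  {pr : T → F → F}

theorem Stretch.pr_adj (hS : Stretch F T d φ h Q) (hpr : IsProj d φ pr) (t : T) {f f' : F}
    (hf : d f f' = 1) : d (pr t f) (pr t f') ≤ 1 := by
  have hT := hS.ltree.tree
  have hP := hT.toIsPathMetric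
  by_contra hcon
  obtain ⟨v, hv, hdv⟩ := hP.geod (pr t f) (pr t f') (d (pr t f) (pr t f') - 1) (Nat.sub_le _ _)
  have hv' := hv
  unfold Btw at hv'
  have hv1 : d v (pr t f') = 1 := by omega
  have hne : pr t f ≠ v := by
    intro h'
    rw [h', hP.self] at hdv
    rw [h'] at hcon
    omega
  have h1 := (hS.increase t (hpr t f) hv1 hv).2 hne
  have hs : d 1 ((pr t f')⁻¹ * v) = 1 := by
    have := hS.ltree.inv (pr t f')⁻¹ (pr t f') v
    rw [inv_mul_cancel] at this
    rw [this, hP.symm, hv1]
  have h2 := hpr t f' _ hs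
  rw [mul_inv_cancel_left] at h2
  have h3 := hP.tri f f' (φ t (pr t f'))
  have h4 := hP.tri f' f (φ t v)
  have h5 := hP.symm f' f
  have hQ := hS.hQ
  have hh := hS.hh
  omega

theorem Stretch.pr_lip (hS : Stretch F T d φ h Q) (hpr : IsProj d φ pr) (t : T) (f f' : F) :
    d (pr t f) (pr t f') ≤ d f f' := by
  have hP := hS.ltree.tree.toIsPathMetric
  have key : ∀ n : ℕ, ∀ f', d f f' = n → d (pr t f) (pr t f') ≤ n := by
    intro n
    induction n with
    | zero =>
      intro f' hf'
      rw [(hP.zero_iff _ _).1 hf', hP.self]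
    | succ n ih =>
      intro f' hf'
      obtain ⟨z, hz, hdz⟩ := hP.geod f f' n (by omega)
      have h1 := ih z hdz
      unfold Btw at hz
      have h2 := hS.pr_adj hpr t (show d z f' = 1 by omega)
      have h3 := hP.tri (pr t f) (pr t z) (pr t f')
      omega
  exact key _ f' rfl

theorem Stretch.fib_conv (hS : Stretch F T d φ h Q) (hpr : IsProj d φ pr) (t : T) {f f' m : F}
    (hf : pr t f = pr t f') (hm : Btw d f m f') : pr t m = pr t f := by
  have hT := hS.ltree.tree
  have hP := hT.toIsPathMetric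
  refine hS.proj_unique hpr t ?_
  intro s hs
  have h1 := hpr t f s hs
  have h2 := hpr t f' s hs
  rw [← hf] at h2
  by_contra hcon
  rcases hT.thin (φ t (pr t f)) hm with h3 | h3
  · unfold Btw at h3
    have h4 := hP.tri f m (φ t (pr t f * s))
    omega
  · unfold Btw at h3
    have h4 := hP.tri f' m (φ t (pr t f * s))
    have e1 := hP.symm f' m
    have e2 := hP.symm m (φ t (pr t f))
    have e3 := hP.symm f' (φ t (pr t f))
    omega

theorem Stretch.pr_mono (hS : Stretch F T d φ h Q) (hpr : IsProj d φ pr) (t : T) {p m q : F}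
    (hm : Btw d p m q) : Btw d (pr t p) (pr t m) (pr t q) :=
  hS.ltree.tree.mono_of_fibres hS.ltree.tree (pr t) (fun _ _ hxy => hS.pr_adj hpr t hxy)
    (fun _ _ _ hxy hb => hS.fib_conv hpr t hxy hb) hm

end Pool.Agent.Helper74.MH
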