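import Pool.Agent.Helper74.MH.Sb

/-! Module Sc (MP_f028d2_al): crossing edges and the expansion of the lattice. -/

set_option autoImplicit false

namespace Pool.Agent.Helper74.MH

variable {F T : Type*} [Group F] {d : F → F → ℕ} {φ : T → F →* F} {h Q : ℕ}
  {pr : T → F → F}

private theorem sc_inv (hS : Stretch F T d φ h Q) (u u' : F) : d 1 (u⁻¹ * u') = d u u' := by
  have := hS.ltree.inv u 1 (u⁻¹ * u')
  rw [mul_one, mul_inv_cancel_left] at this
  exact this.symm

private theorem sc_phi (hS : Stretch F T d φ h Q) (t : T) {u u' : F} (hu : d u u' = 1) :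
    d (φ t u) (φ t u') = 2 * h + 1 := by
  have h1 := hS.len t (u⁻¹ * u') (by rw [sc_inv hS]; exact hu)
  rw [map_mul, map_inv, sc_inv hS] at h1
  exact h1

private theorem sc_proj (hS : Stretch F T d φ h Q) (hpr : IsProj d φ pr) (t : T) (f : F) {v : F}
    (hv : d (pr t f) v = 1) : d f (φ t (pr t f)) < d f (φ t v) := by
  have h1 := hpr t f ((pr t f)⁻¹ * v) (by rw [sc_inv hS]; exact hv)
  rw [mul_inv_cancel_left] at h1
  exact h1

/-- Adjacent points with different projections are the middle edge of a lattice segment. -/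
theorem Stretch.exit (hS : Stretch F T d φ h Q) (hpr : IsProj d φ pr) (t : T) {f f' : F}
    (hf : d f f' = 1) (hne : pr t f ≠ pr t f') :
    d (pr t f) (pr t f') = 1 ∧ Btw d (φ t (pr t f)) f (φ t (pr t f')) ∧
      Btw d (φ t (pr t f)) f' (φ t (pr t f')) ∧ d (φ t (pr t f)) f = h ∧
      d (φ t (pr t f')) f' = h := by
  have hd := hS.ltree.tree
  have h0 : d (pr t f) (pr t f') ≠ 0 := fun h0 => hne ((hd.zero_iff _ _).1 h0)
  have h1 := hS.pr_adj hpr t hf
  have h2 : d (pr t f) (pr t f') = 1 := by omega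
  have h3 : d (pr t f') (pr t f) = 1 := by rw [hd.symm]; exact h2
  have p1 := sc_proj hS hpr t f h2
  have p2 := sc_proj hS hpr t f' h3
  have hl := sc_phi hS t h2
  set a := φ t (pr t f) with ha
  set b := φ t (pr t f') with hb
  have t1 := hd.tri f' f a
  have t2 := hd.tri f f' b
  have e1 := hd.symm f' f
  have e2 := hd.symm a f
  have e3 := hd.symm a f'
  have e4 := hd.symm b f'
  have g1 : Btw d a f f' := by unfold Btw; omega
  have g2 : Btw d f f' b := by unfold Btw; omega
  have hff : f ≠ f' := by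
    rintro rfl
    rw [hd.toIsPathMetric.self] at hf
    omega
  obtain ⟨g3, g4⟩ := hd.glue g1 g2 hff
  refine ⟨h2, g3, g4, ?_, ?_⟩
  · unfold Btw at g1 g2 g3 g4
    omega
  · unfold Btw at g1 g2 g3 g4
    omega

theorem Stretch.lattice_far (hS : Stretch F T d φ h Q) (t : T) {u u' : F} (hu : u ≠ u') :
    2 * h + 1 ≤ d (φ t u) (φ t u') := by
  have hd := hS.ltree.tree
  have hloc : ∀ s, d 1 s = 1 → d (φ t u) (φ t u) < d (φ t u) (φ t (u * s)) := by
    intro s hs
    have h1 : d (φ t u) (φ t (u * s)) = 2 * h + 1 := by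
      refine sc_phi hS t ?_
      have h2 := hS.ltree.inv u 1 s
      rw [mul_one] at h2
      rw [h2, hs]
    rw [hd.toIsPathMetric.self, h1]
    omega
  have key : ∀ n u', d u u' = n → u ≠ u' → 2 * h + 1 ≤ d (φ t u) (φ t u') := by
    intro n
    induction n with
    | zero =>
      intro u' h1 h2
      exact absurd ((hd.zero_iff _ _).1 h1) h2
    | succ n ih =>
      intro u' h1 h2
      obtain ⟨v, hv, hdv⟩ := hd.geod u u' n (by omega)
      have hvu : d v u' = 1 := by
        unfold Btw at hv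
        omega
      by_cases huv : u = v
      · subst huv
        exact (sc_phi hS t hvu).ge
      · have h3 := ih v hdv huv
        have h4 := (hS.increase t hloc hvu hv).2 huv
        omega
  exact key _ u' rfl hu

theorem Stretch.pr_far (hS : Stretch F T d φ h Q) (hpr : IsProj d φ pr) (t : T) {p q : F}
    (hpq : 2 ≤ d (pr t p) (pr t q)) : 2 * h ≤ d p q := by
  have hd := hS.ltree.tree
  have hdp := hd.toIsPathMetric
  have hne : pr t q ≠ pr t p := by
    intro h0
    rw [h0, hdp.self] at hpq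
    omega
  obtain ⟨r0, r, a1, a2, a3, a4, a5, a6, a7⟩ :=
    hdp.exists_first (p := p) (q := q) (fun x => pr t x ≠ pr t p) (by simp) hne
  have a6' : pr t r0 = pr t p := by
    by_contra h0
    exact a6 h0
  have x1 := hS.exit hpr t a5 (by rw [a6']; exact a7.symm)
  rw [a6'] at x1
  obtain ⟨b1, b2, b3, b4, b5⟩ := x1
  have hne2 : pr t q ≠ pr t r := by
    intro h0
    rw [h0, b1] at hpq
    omega
  obtain ⟨s0, s, c1, c2, c3, c4, c5, c6, c7⟩ :=
    hdp.exists_first (p := r) (q := q) (fun x => pr t x ≠ pr t r) (by simp) hne2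
  have c6' : pr t s0 = pr t r := by
    by_contra h0
    exact c6 h0
  have x2 := hS.exit hpr t c5 (by rw [c6']; exact c7.symm)
  rw [c6'] at x2
  obtain ⟨e1, e2, e3, e4, e5⟩ := x2
  -- the second exit leads to a third lattice point
  have hne3 : pr t s ≠ pr t p := by
    intro h0
    have m1 : Btw d r0 r s := by
      have m2 := (hdp.trans_left (hdp.btw_symm a3) (hdp.btw_symm c2)).2
      exact hdp.btw_symm m2
    have m3 := hS.fib_conv hpr t (f := r0) (f' := s) (m := r) (by rw [a6', h0]) m1
    exact a7 (by rw [m3, a6'])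
  have hsep := hS.sep t ((pr t r)⁻¹ * pr t p) ((pr t r)⁻¹ * pr t s)
    (by rw [sc_inv hS, hd.symm]; exact b1) (by rw [sc_inv hS]; exact e1)
    (by
      intro h0
      exact hne3 (mul_left_cancel h0).symm)
  rw [map_mul, map_mul, hS.ltree.inv] at hsep
  have l1 := sc_phi hS t b1
  have l2 := sc_phi hS t e1
  have t1 := hd.tri (φ t (pr t p)) r (φ t (pr t s))
  have t2 := hd.tri r s0 (φ t (pr t s))
  have s1 := hd.symm r (φ t (pr t r))
  have s2 := hd.symm s0 (φ t (pr t s))
  unfold Btw at a1 a2 a3 a4 b2 b3 c1 c2 c3 c4 e2 e3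
  omega

end Pool.Agent.Helper74.MH
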