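import Pool.Agent.Helper74.MH.Sc

/-! Module Sd (MP_f028d2_al): the hull of the lattice. -/

set_option autoImplicit false

namespace Pool.Agent.Helper74.MH

variable {F T : Type*} [Group F] {d : F → F → ℕ} {φ : T → F →* F} {h Q : ℕ}
  {pr : T → F → F}

private theorem sd_len (hS : Stretch F T d φ h Q) (t : T) (u : F) {s : F} (hs : d 1 s = 1) :
    d (φ t u) (φ t (u * s)) = 2 * h + 1 := by
  have h1 := hS.ltree.inv (φ t u) 1 (φ t s)
  rw [mul_one, ← map_mul, hS.len t s hs] at h1
  exact h1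

private theorem sd_uniq (hS : Stretch F T d φ h Q) (t : T) {u s s' m : F} (hs : d 1 s = 1)
    (hs' : d 1 s' = 1) (h1 : Btw d (φ t u) m (φ t (u * s)))
    (h2 : Btw d (φ t u) m (φ t (u * s'))) (hm : 2 ≤ d (φ t u) m) : s = s' := by
  by_contra hne
  have h3 := hS.sep t s s' hs hs' hne
  have h4 := hS.ltree.inv (φ t u) (φ t s) (φ t s')
  rw [← map_mul, ← map_mul] at h4
  have h5 := sd_len hS t u hs
  have h6 := sd_len hS t u hs'
  have h7 := hS.ltree.tree.tri (φ t (u * s)) m (φ t (u * s'))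
  have h8 := hS.ltree.tree.symm (φ t (u * s)) m
  unfold Btw at h1 h2
  omega

private theorem sd_dist (hS : Stretch F T d φ h Q) (u v : F) : d 1 (u⁻¹ * v) = d u v := by
  have h1 := hS.ltree.inv u 1 (u⁻¹ * v)
  rw [mul_one, mul_inv_cancel_left] at h1
  exact h1.symm

theorem Stretch.hull_near (hS : Stretch F T d φ h Q) (hpr : IsProj d φ pr) (t : T) {f : F}
    (hf : f ∈ hullY d φ pr t) : d f (φ t (pr t f)) ≤ h := by
  have hdp := hS.ltree.tree.toIsPathMetric
  obtain ⟨s, hs, hb⟩ := hf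
  rcases Nat.eq_zero_or_pos (d 1 s) with h0 | h0
  · have h1 : (1 : F) = s := (hdp.zero_iff _ _).1 h0
    subst h1
    rw [mul_one] at hb
    have h2 := hdp.btw_self hb
    nth_rewrite 1 [h2]
    rw [hdp.self]
    exact Nat.zero_le _
  · have hs1 : d 1 s = 1 := by omega
    have h1 := hpr t f s hs1
    have h2 := sd_len hS t (pr t f) hs1
    have h3 := hdp.symm f (φ t (pr t f))
    unfold Btw at hb
    omega

theorem Stretch.phi_mem_hull (hS : Stretch F T d φ h Q) (hpr : IsProj d φ pr) (t : T) (u : F) :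
    φ t u ∈ hullY d φ pr t := by
  have hdp := hS.ltree.tree.toIsPathMetric
  refine ⟨1, by rw [hdp.self]; exact Nat.zero_le _, ?_⟩
  rw [hS.pr_phi hpr]
  exact hdp.btw_left _ _

/-- Points between a hull point and its lattice point. -/
theorem Stretch.hull_prefix (hS : Stretch F T d φ h Q) (hpr : IsProj d φ pr) (t : T) {f m : F}
    (hf : f ∈ hullY d φ pr t) (hm : Btw d (φ t (pr t f)) m f) :
    pr t m = pr t f ∧ m ∈ hullY d φ pr t := by
  have hdp := hS.ltree.tree.toIsPathMetric
  have h1 : pr t m = pr t f := by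
    have h2 := hS.pr_mono hpr t hm
    rw [hS.pr_phi hpr] at h2
    exact hdp.btw_self h2
  refine ⟨h1, ?_⟩
  obtain ⟨s, hs, hb⟩ := hf
  refine ⟨s, hs, ?_⟩
  rw [h1]
  exact (hdp.trans_left hb hm).1

private theorem sd_side (hS : Stretch F T d φ h Q) (hpr : IsProj d φ pr) (t : T) {m x : F}
    (hx : pr t m ≠ pr t x ∨ x ∈ hullY d φ pr t) :
    ∃ r, Btw d m r x ∧ r ∈ hullY d φ pr t ∧ pr t r = pr t m := by
  have hdp := hS.ltree.tree.toIsPathMetric
  by_cases he : pr t x = pr t m
  · rcases hx with hx | hx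
    · exact absurd he.symm hx
    · exact ⟨x, hdp.btw_right _ _, hx, he⟩
  · obtain ⟨e, e', h1, h2, h3, h4, h5, h6, h7⟩ := hS.ltree.tree.exists_first (p := m) (q := x)
      (fun r => pr t r ≠ pr t m) (fun h => h rfl) he
    have h8 : pr t e = pr t m := by
      have := h7 e (hdp.btw_right _ _)
      exact not_not.1 this
    have hne : pr t e ≠ pr t e' := by
      rw [h8]
      exact Ne.symm h6
    obtain ⟨k1, k2, -, -, -⟩ := hS.exit hpr t h5 hne
    refine ⟨e, h4, ⟨(pr t e)⁻¹ * pr t e', ?_, ?_⟩, h8⟩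
    · rw [sd_dist hS, k1]
    · rw [mul_inv_cancel_left]
      exact k2

theorem Stretch.hull_mem (hS : Stretch F T d φ h Q) (hpr : IsProj d φ pr) (t : T) {p m q : F}
    (hm : Btw d p m q) (hp : pr t p ≠ pr t m ∨ p ∈ hullY d φ pr t)
    (hq : pr t m ≠ pr t q ∨ q ∈ hullY d φ pr t) : m ∈ hullY d φ pr t := by
  have hdp := hS.ltree.tree.toIsPathMetric
  have hp' : pr t m ≠ pr t p ∨ p ∈ hullY d φ pr t := hp.imp_left Ne.symm
  obtain ⟨r, hr1, hr2, hr3⟩ := sd_side hS hpr t hp'
  obtain ⟨r', hr1', hr2', hr3'⟩ := sd_side hS hpr t hq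
  have hb : Btw d r m r' := by
    have e1 := hdp.symm p m
    have e2 := hdp.symm r p
    have e3 := hdp.symm r m
    have e4 := hdp.tri p r q
    have e5 := hdp.tri r r' q
    have e6 := hdp.tri r m r'
    unfold Btw at *
    omega
  rcases hS.ltree.tree.thin (φ t (pr t m)) hb with h1 | h1
  · have h2 := hdp.btw_symm h1
    rw [← hr3] at h2
    exact (hS.hull_prefix hpr t hr2 h2).2
  · rw [← hr3'] at h1
    exact (hS.hull_prefix hpr t hr2' h1).2

theorem Stretch.hull_conv (hS : Stretch F T d φ h Q) (hpr : IsProj d φ pr) (t : T) {p m q : F}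
    (hp : p ∈ hullY d φ pr t) (hq : q ∈ hullY d φ pr t) (hm : Btw d p m q) :
    m ∈ hullY d φ pr t := by
  exact hS.hull_mem hpr t hm (Or.inr hp) (Or.inr hq)

/-- The neighbours in the hull of a hull point which is at distance at least 2 from its lattice
point stay on the same lattice segment. -/
theorem Stretch.hull_nbr (hS : Stretch F T d φ h Q) (hpr : IsProj d φ pr) (t : T) {m m' s : F}
    (hs : d 1 s = 1) (hb : Btw d (φ t (pr t m)) m (φ t (pr t m * s)))
    (h2 : 2 ≤ d (φ t (pr t m)) m) (hm' : m' ∈ hullY d φ pr t) (hadj : d m m' = 1) :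
    Btw d (φ t (pr t m)) m' (φ t (pr t m * s)) := by
  have hdp := hS.ltree.tree.toIsPathMetric
  by_cases he : pr t m' = pr t m
  · obtain ⟨s', hs', hb'⟩ := hm'
    rw [he] at hb'
    rcases hS.ltree.tree.adj (φ t (pr t m)) hadj with h3 | h3
    · have h4 : Btw d (φ t (pr t m)) m m' := by
        unfold Btw
        omega
      have h5 := (hdp.trans_left hb' h4).1
      rcases Nat.eq_zero_or_pos (d 1 s') with h0 | h0
      · exfalso
        have h6 : (1 : F) = s' := (hdp.zero_iff _ _).1 h0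
        rw [← h6, mul_one] at hb'
        have h7 := hdp.btw_self hb'
        rw [h7, hdp.self] at h3
        omega
      · have hs1 : d 1 s' = 1 := by omega
        have h6 := sd_uniq hS t hs hs1 hb h5 h2
        rw [h6]
        exact hb'
    · have h4 : Btw d (φ t (pr t m)) m' m := by
        have := hdp.symm m m'
        unfold Btw
        omega
      exact (hdp.trans_left hb h4).1
  · obtain ⟨k1, k2, k3, -, -⟩ := hS.exit hpr t hadj (Ne.symm he)
    have hs1 : d 1 ((pr t m)⁻¹ * pr t m') = 1 := by rw [sd_dist hS, k1]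
    have e1 : pr t m * ((pr t m)⁻¹ * pr t m') = pr t m' := mul_inv_cancel_left _ _
    have h6 := sd_uniq hS t hs hs1 hb (by rw [e1]; exact k2) h2
    rw [h6, e1]
    exact k3

end Pool.Agent.Helper74.MH
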