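import Pool.Agent.Helper74.MH.Sd

/-! Module Se (MP_f028d2_al): hulls of different children have small overlap. -/

set_option autoImplicit false

namespace Pool.Agent.Helper74.MH

variable {F T : Type*} [Group F] {d : F → F → ℕ} {φ : T → F →* F} {h Q : ℕ}
  {pr : T → F → F}

private theorem btw_mul (hL : LTree F d) (g : F) {x m y : F} (hb : Btw d x m y) :
    Btw d (g * x) (g * m) (g * y) := by
  unfold Btw at *
  rw [hL.inv, hL.inv, hL.inv]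
  exact hb

/-- Two bad points are near or far. -/
private theorem bad_pair (hS : Stretch F T d φ h Q) (t : T) (r : F)
    {m n : F} (hm : d (r⁻¹ * m) (φ t (pr t (r⁻¹ * m))) < Q)
    (hn : d (r⁻¹ * n) (φ t (pr t (r⁻¹ * n))) < Q) :
    d m n + 2 ≤ 2 * Q ∨ 2 * h + 3 ≤ d m n + 2 * Q := by
  have hp := hS.ltree.tree.toIsPathMetric
  have hi : d (r⁻¹ * m) (r⁻¹ * n) = d m n := hS.ltree.inv _ _ _
  by_cases he : pr t (r⁻¹ * m) = pr t (r⁻¹ * n)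
  · left
    rw [← he] at hn
    have h1 := hp.tri (r⁻¹ * m) (φ t (pr t (r⁻¹ * m))) (r⁻¹ * n)
    have h2 := hp.symm (φ t (pr t (r⁻¹ * m))) (r⁻¹ * n)
    omega
  · right
    have h0 := hS.lattice_far t he
    have h1 := hp.tri (φ t (pr t (r⁻¹ * m))) (r⁻¹ * m) (φ t (pr t (r⁻¹ * n)))
    have h2 := hp.tri (r⁻¹ * m) (r⁻¹ * n) (φ t (pr t (r⁻¹ * n)))
    have h3 := hp.symm (φ t (pr t (r⁻¹ * m))) (r⁻¹ * m)
    omega

/-- The data of a good point for one child. -/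
private theorem good_data (hS : Stretch F T d φ h Q) (hpr : IsProj d φ pr) (t : T) (r : F)
    {m m₁ m₂ : F} (hm : r⁻¹ * m ∈ hullY d φ pr t) (hm₁ : r⁻¹ * m₁ ∈ hullY d φ pr t)
    (hm₂ : r⁻¹ * m₂ ∈ hullY d φ pr t) (h₁ : d m₁ m = 1) (h₂ : d m m₂ = 1)
    (hg : Q ≤ d (r⁻¹ * m) (φ t (pr t (r⁻¹ * m)))) :
    ∃ s, d 1 s = 1 ∧ Q ≤ d (r * φ t (pr t (r⁻¹ * m))) m ∧ d (r * φ t (pr t (r⁻¹ * m))) m ≤ h ∧
      Btw d (r * φ t (pr t (r⁻¹ * m))) m (r * φ t (pr t (r⁻¹ * m)) * φ t s) ∧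
      Btw d (r * φ t (pr t (r⁻¹ * m))) m₁ (r * φ t (pr t (r⁻¹ * m)) * φ t s) ∧
      Btw d (r * φ t (pr t (r⁻¹ * m))) m₂ (r * φ t (pr t (r⁻¹ * m)) * φ t s) := by
  have hp := hS.ltree.tree.toIsPathMetric
  have hi := hS.ltree.inv
  have hQ := hS.hQ
  obtain ⟨s, hs, hb⟩ := id hm
  have hdist : d (r * φ t (pr t (r⁻¹ * m))) m = d (r⁻¹ * m) (φ t (pr t (r⁻¹ * m))) := by
    have h3 := hi r (φ t (pr t (r⁻¹ * m))) (r⁻¹ * m)
    rw [mul_inv_cancel_left] at h3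
    rw [h3, hp.symm]
  have hs1 : d 1 s = 1 := by
    rcases Nat.lt_or_ge (d 1 s) 1 with h3 | h3
    · exfalso
      have h4 : d 1 s = 0 := by omega
      have h5 : (1 : F) = s := (hp.zero_iff _ _).1 h4
      rw [← h5, mul_one] at hb
      have h6 := hp.btw_self hb
      have h7 : d (r⁻¹ * m) (φ t (pr t (r⁻¹ * m))) = 0 := (hp.zero_iff _ _).2 h6
      omega
    · omega
  have h2' : 2 ≤ d (φ t (pr t (r⁻¹ * m))) (r⁻¹ * m) := by
    rw [hp.symm]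
    omega
  have hn₁ := hS.hull_nbr hpr t hs1 hb h2' hm₁ (by rw [hi, hp.symm]; exact h₁)
  have hn₂ := hS.hull_nbr hpr t hs1 hb h2' hm₂ (by rw [hi]; exact h₂)
  have hmul : r * φ t (pr t (r⁻¹ * m) * s) = r * φ t (pr t (r⁻¹ * m)) * φ t s := by
    rw [map_mul, mul_assoc]
  refine ⟨s, hs1, by rw [hdist]; exact hg, by rw [hdist]; exact hS.hull_near hpr t hm, ?_, ?_, ?_⟩
  · have h3 := btw_mul hS.ltree r hb
    rw [mul_inv_cancel_left, hmul] at h3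
    exact h3
  · have h3 := btw_mul hS.ltree r hn₁
    rw [mul_inv_cancel_left, hmul] at h3
    exact h3
  · have h3 := btw_mul hS.ltree r hn₂
    rw [mul_inv_cancel_left, hmul] at h3
    exact h3

theorem Stretch.hull_diam (hS : Stretch F T d φ h Q) (hpr : IsProj d φ pr) (t t' : T) (r r' : F)
    (hr : pr t r⁻¹ = 1) (hr' : pr t' r'⁻¹ = 1) (hne : ¬ (t = t' ∧ r = r')) (p q : F)
    (h1 : r⁻¹ * p ∈ hullY d φ pr t) (h2 : r⁻¹ * q ∈ hullY d φ pr t)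
    (h3 : r'⁻¹ * p ∈ hullY d φ pr t') (h4 : r'⁻¹ * q ∈ hullY d φ pr t') :
    d p q ≤ 4 * Q - 1 := by
  have hd := hS.ltree.tree
  have hp := hd.toIsPathMetric
  have hQ := hS.hQ
  have hh := hS.hh
  by_contra hcon
  have hpq : 4 * Q ≤ d p q := by omega
  -- no point which is good for both children
  have key : ∀ m, Btw d p m q → 1 ≤ d p m → d p m < d p q →
      d (r⁻¹ * m) (φ t (pr t (r⁻¹ * m))) < Q ∨ d (r'⁻¹ * m) (φ t' (pr t' (r'⁻¹ * m))) < Q := by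
    intro m hm hm1 hm2
    by_contra hgood
    rw [not_or, not_lt, not_lt] at hgood
    obtain ⟨hg, hg'⟩ := hgood
    -- neighbours
    obtain ⟨m₁, hm₁, hdm₁⟩ := hp.geod p m (d p m - 1) (Nat.sub_le _ _)
    have hmq : m ≠ q := by
      intro he
      rw [he] at hm2
      exact lt_irrefl _ hm2
    obtain ⟨m₂, hm₂, hdm₂⟩ := hp.exists_succ hmq
    have e1 : d m₁ m = 1 := by
      unfold Btw at hm₁
      omega
    have b1 : Btw d p m₁ q := (hp.trans_left hm hm₁).1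
    have b2 : Btw d p m₂ q := (hp.trans_right hm hm₂).1
    have c2 : Btw d p m m₂ := (hp.trans_right hm hm₂).2
    have hne12 : m₁ ≠ m₂ := by
      intro he
      rw [← he] at c2
      unfold Btw at c2
      omega
    have hull : ∀ (u : T) (k : F), k⁻¹ * p ∈ hullY d φ pr u → k⁻¹ * q ∈ hullY d φ pr u →
        ∀ z, Btw d p z q → k⁻¹ * z ∈ hullY d φ pr u := fun u k hkp hkq z hz =>
      hS.hull_conv hpr u hkp hkq (btw_mul hS.ltree k⁻¹ hz)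
    obtain ⟨s, hs, a1, a2, a3, a4, a5⟩ := good_data hS hpr t r (hull t r h1 h2 m hm)
      (hull t r h1 h2 m₁ b1) (hull t r h1 h2 m₂ b2) e1 hdm₂ hg
    obtain ⟨s', hs', a1', a2', a3', a4', a5'⟩ := good_data hS hpr t' r' (hull t' r' h3 h4 m hm)
      (hull t' r' h3 h4 m₁ b1) (hull t' r' h3 h4 m₂ b2) e1 hdm₂ hg'
    obtain ⟨ht, w, hw⟩ := hS.turn t t' s s' _ _ m m₁ m₂ hs hs' e1 hdm₂ hne12 a1 a2 a3 a4 a5
      a1' a2' a3' a4' a5'
    subst ht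
    apply hne
    refine ⟨rfl, ?_⟩
    have hrr : r' = r * φ t (pr t (r⁻¹ * m) * w * (pr t (r'⁻¹ * m))⁻¹) := by
      rw [map_mul, map_mul, hw, map_inv]
      group
    have hinv : r'⁻¹ = φ t (pr t (r⁻¹ * m) * w * (pr t (r'⁻¹ * m))⁻¹)⁻¹ * r⁻¹ := by
      rw [map_inv]
      conv_lhs => rw [hrr]
      rw [mul_inv_rev]
    have hpm := hS.pr_mul hpr t (pr t (r⁻¹ * m) * w * (pr t (r'⁻¹ * m))⁻¹)⁻¹ r⁻¹
    rw [← hinv, hr, hr', mul_one] at hpm
    have h1' : pr t (r⁻¹ * m) * w * (pr t (r'⁻¹ * m))⁻¹ = 1 := inv_eq_one.1 hpm.symm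
    rw [h1', map_one, mul_one] at hrr
    exact hrr.symm
  -- the three points
  obtain ⟨x₁, hx₁, hd₁⟩ := hp.geod p q 1 (by omega)
  obtain ⟨x₂, hx₂, hd₂⟩ := hp.geod p q (2 * Q) (by omega)
  obtain ⟨x₃, hx₃, hd₃⟩ := hp.geod p q (4 * Q - 1) (by omega)
  have d12 : d x₁ x₂ = 2 * Q - 1 := by
    have := (hd.order hx₁ hx₂ (by omega)).1
    unfold Btw at this
    omega
  have d13 : d x₁ x₃ = 4 * Q - 2 := by
    have := (hd.order hx₁ hx₃ (by omega)).1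
    unfold Btw at this
    omega
  have d23 : d x₂ x₃ = 2 * Q - 1 := by
    have := (hd.order hx₂ hx₃ (by omega)).1
    unfold Btw at this
    omega
  have n12 : ∀ (u : T) (k : F), ¬ (d (k⁻¹ * x₁) (φ u (pr u (k⁻¹ * x₁))) < Q ∧
      d (k⁻¹ * x₂) (φ u (pr u (k⁻¹ * x₂))) < Q) := fun u k hk => by
    have := bad_pair hS u k hk.1 hk.2
    omega
  have n13 : ∀ (u : T) (k : F), ¬ (d (k⁻¹ * x₁) (φ u (pr u (k⁻¹ * x₁))) < Q ∧
      d (k⁻¹ * x₃) (φ u (pr u (k⁻¹ * x₃))) < Q) := fun u k hk => by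
    have := bad_pair hS u k hk.1 hk.2
    omega
  have n23 : ∀ (u : T) (k : F), ¬ (d (k⁻¹ * x₂) (φ u (pr u (k⁻¹ * x₂))) < Q ∧
      d (k⁻¹ * x₃) (φ u (pr u (k⁻¹ * x₃))) < Q) := fun u k hk => by
    have := bad_pair hS u k hk.1 hk.2
    omega
  have k1 := key x₁ hx₁ (by omega) (by omega)
  have k2 := key x₂ hx₂ (by omega) (by omega)
  have k3 := key x₃ hx₃ (by omega) (by omega)
  rcases k1 with k1 | k1
  · rcases k2 with k2 | k2
    · exact n12 t r ⟨k1, k2⟩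
    · rcases k3 with k3 | k3
      · exact n13 t r ⟨k1, k3⟩
      · exact n23 t' r' ⟨k2, k3⟩
  · rcases k2 with k2 | k2
    · rcases k3 with k3 | k3
      · exact n23 t r ⟨k2, k3⟩
      · exact n13 t' r' ⟨k1, k3⟩
    · exact n12 t' r' ⟨k1, k2⟩

end Pool.Agent.Helper74.MH
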