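import Pool.Agent.Helper74.MH.NTa

/-! Module Ta (MP_f028d2_al): the overlap lemma for two children of one fibre. -/

set_option autoImplicit false

namespace Pool.Agent.Helper74.MH

variable {M J : Type*} {S : Loc M J}

/-- A far point of the hull in the direction of `c`. -/
private theorem reach (hS : S.Good) {j : J} {p c : M} (hp : p ∈ S.Y j)
    (h : 2 ≤ S.d (S.pr j p) (S.pr j c)) :
    ∃ c1, Btw S.d p c1 c ∧ c1 ∈ S.Y j ∧ S.L0 ≤ S.d p c1 + 1 := by
  have hT := hS.tree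
  have hd := hT.toIsPathMetric
  have hne : S.pr j p ≠ S.pr j c := by
    intro h0
    rw [h0, hd.self] at h
    omega
  obtain ⟨e, e', h1, h2, h3, h4, h5, h6, h7⟩ :=
    hT.exists_first (p := c) (q := p) (fun r => S.pr j r ≠ S.pr j c) (fun h0 => h0 rfl) hne
  have he : S.pr j e = S.pr j c := by
    by_contra h0
    exact h7 e (hd.btw_right c e) h0
  refine ⟨e', hd.btw_symm h2, hS.mem_Y j p e' c (hd.btw_symm h2) (Or.inr hp) (Or.inl h6), ?_⟩
  have h8 : S.L0 ≤ S.d p e := by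
    refine hS.far j p e ?_
    rw [he]
    exact h
  have h9 := hd.tri p e' e
  rw [hd.symm e' e, h5] at h9
  omega

private theorem overlap_aux (hS : S.Good) {j j' : J} (hjj : j ≠ j') {p c : M} (hp : p ∈ S.Y j)
    (hp' : p ∈ S.Y j') (h1 : 2 ≤ S.d (S.pr j p) (S.pr j c))
    (h2 : 2 ≤ S.d (S.pr j' p) (S.pr j' c) ∨ c ∈ S.Y j') : False := by
  have hT := hS.tree
  have hd := hT.toIsPathMetric
  have hL := hS.hL
  obtain ⟨c1, hb1, hY1, hd1⟩ := reach hS hp h1
  have h3 : ∃ c2, Btw S.d p c2 c ∧ c2 ∈ S.Y j' ∧ S.L0 ≤ S.d p c2 + 1 := by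
    rcases h2 with h2 | h2
    · exact reach hS hp' h2
    · refine ⟨c, hd.btw_right p c, h2, ?_⟩
      have := hS.far j p c h1
      omega
  obtain ⟨c2, hb2, hY2, hd2⟩ := h3
  rcases le_total (S.d p c1) (S.d p c2) with h4 | h4
  · have h5 := (hT.order hb1 hb2 h4).1
    have h6 := hS.conv j' p c1 c2 hp' hY2 h5
    have h7 := hS.diam j j' hjj p c1 hp hY1 hp' h6
    omega
  · have h5 := (hT.order hb2 hb1 h4).1
    have h6 := hS.conv j p c2 c1 hp hY1 h5
    have h7 := hS.diam j j' hjj p c2 hp h6 hp' hY2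
    omega

/-- Overlap lemma. -/
theorem Loc.Good.overlap (hS : S.Good) {j j' : J} (hjj : j ≠ j') {p c : M} (hp : p ∈ S.Y j)
    (hp' : p ∈ S.Y j') (h1 : 2 ≤ S.d (S.pr j p) (S.pr j c) ∨ c ∈ S.Y j)
    (h2 : 2 ≤ S.d (S.pr j' p) (S.pr j' c) ∨ c ∈ S.Y j')
    (h3 : 2 ≤ S.d (S.pr j p) (S.pr j c) ∨ 2 ≤ S.d (S.pr j' p) (S.pr j' c)) : False := by
  rcases h3 with h3 | h3
  · exact overlap_aux hS hjj hp hp' h3 h2
  · exact overlap_aux hS (Ne.symm hjj) hp' hp h3 h1

/-- The hull of one child projects to a set of diameter at most one in any other child. -/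
theorem Loc.Good.two_proj (hS : S.Good) {j j' : J} (hjj : j ≠ j') {m m' : M} (hm : m ∈ S.Y j)
    (hm' : m' ∈ S.Y j) : S.d (S.pr j' m) (S.pr j' m') ≤ 1 := by
  by_contra hcon
  have hT := hS.tree
  have hd := hT.toIsPathMetric
  have hL := hS.hL
  have h2 : 2 ≤ S.d (S.pr j' m) (S.pr j' m') := by omega
  have hne : S.pr j' m ≠ S.pr j' m' := by
    intro h0
    rw [h0, hd.self] at h2
    omega
  obtain ⟨e1, r1, a1, a2, a3, a4, a5, a6, a7⟩ :=
    hT.exists_first (p := m) (q := m') (fun r => S.pr j' r ≠ S.pr j' m) (fun h0 => h0 rfl)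
      (Ne.symm hne)
  obtain ⟨e2, r2, b1, b2, b3, b4, b5, b6, b7⟩ :=
    hT.exists_first (p := m') (q := m) (fun r => S.pr j' r ≠ S.pr j' m') (fun h0 => h0 rfl) hne
  have he1 : S.pr j' e1 = S.pr j' m := by
    by_contra h0
    exact a7 e1 (hd.btw_right m e1) h0
  have he2 : S.pr j' e2 = S.pr j' m' := by
    by_contra h0
    exact b7 e2 (hd.btw_right m' e2) h0
  have l1 := hS.lip j' e1 r1
  have l2 := hS.lip j' e2 r2
  rw [he1, a5] at l1
  rw [he2, b5] at l2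
  have n1 : S.pr j' r1 ≠ S.pr j' m' := by
    intro h0
    rw [h0] at l1
    omega
  have n2 : S.pr j' r2 ≠ S.pr j' m := by
    intro h0
    rw [h0, hd.symm] at l2
    omega
  have y1 : r1 ∈ S.Y j' := hS.mem_Y j' m r1 m' a2 (Or.inl (Ne.symm a6)) (Or.inl n1)
  have y2 : r2 ∈ S.Y j' := hS.mem_Y j' m' r2 m b2 (Or.inl (Ne.symm b6)) (Or.inl n2)
  have z1 : r1 ∈ S.Y j := hS.conv j m r1 m' hm hm' a2
  have z2 : r2 ∈ S.Y j := hS.conv j m' r2 m hm' hm b2
  have k := hS.diam j j' hjj r1 r2 z1 z2 y1 y2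
  have f : S.L0 ≤ S.d e1 e2 := by
    refine hS.far j' e1 e2 ?_
    rw [he1, he2]
    exact h2
  have t1 := hd.tri e1 r1 e2
  have t2 := hd.tri r1 r2 e2
  rw [hd.symm r2 e2] at t2
  omega

/-- Strict contraction. -/
theorem Loc.Good.strict (hS : S.Good) {j : J} {p q : M} (h : 2 ≤ S.d (S.pr j p) (S.pr j q)) :
    S.d (S.pr j p) (S.pr j q) < S.d p q := by
  have hT := hS.tree
  have hd := hT.toIsPathMetric
  have hL := hS.hL
  obtain ⟨e, e', h1, h2, h3, h4, h5, h6, h7⟩ :=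
    hT.exists_first (p := p) (q := q) (fun r => 2 ≤ S.d (S.pr j p) (S.pr j r))
      (by rw [hd.self]; omega) h
  have h8 : ¬ 2 ≤ S.d (S.pr j p) (S.pr j e) := h7 e (hd.btw_right p e)
  have l1 := hS.lip j e e'
  rw [h5] at l1
  have t1 := hd.tri (S.pr j p) (S.pr j e) (S.pr j e')
  have f := hS.far j p e' h6
  have t2 := hd.tri (S.pr j p) (S.pr j e') (S.pr j q)
  have l2 := hS.lip j e' q
  unfold Btw at h2
  omega

end Pool.Agent.Helper74.MH
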