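import Pool.Agent.Helper74.MH.Ta

/-! Module Tc (MP_f028d2_al): basic facts on gates, hidden points and the total metric. -/

set_option autoImplicit false

namespace Pool.Agent.Helper74.MH

variable {V M J : Type*} {S : TT V M J} {γ : V × M → V → M} {D : V × M → V × M → ℕ}

/-- Across an edge exactly one end is closer to `x`. -/
theorem TT.Good.tow_or (hS : S.Good) (x : V) {j : J} {u w : V} (hc : S.Ch j u w) :
    S.Tow x w u ∨ S.Tow x u w := by
  have h1 : S.dV u w = 1 := (hS.adj u w).2 (Or.inl ⟨j, hc⟩)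
  have h2 : S.dV w u = 1 := by rw [hS.tree.symm]; exact h1
  rcases hS.tree.adj x h1 with h | h
  · exact Or.inl ⟨h1, h.symm⟩
  · exact Or.inr ⟨h2, h⟩

theorem TT.Good.tow_unique (hS : S.Good) {x w u u' : V} (h : S.Tow x w u) (h' : S.Tow x w u') :
    u = u' := by
  obtain ⟨h1, h2⟩ := h
  obtain ⟨h3, h4⟩ := h'
  exact hS.tree.closer_unique (x := x) (y := w) (by rw [hS.tree.symm]; exact h1)
    (by rw [hS.tree.symm]; exact h3) h2 h4

theorem TT.Good.tow_asymm (hS : S.Good) {x w u : V} (h : S.Tow x w u) : ¬ S.Tow x u w := by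
  have _ := hS
  rintro ⟨-, h2⟩
  have h3 := h.2
  omega

/-- Existence of the next vertex. -/
theorem TT.Good.exists_tow (hS : S.Good) {x w : V} (h : x ≠ w) : ∃ u, S.Tow x w u := by
  obtain ⟨u, h1, h2⟩ := hS.tree.toIsPathMetric.exists_succ (x := w) (y := x) (Ne.symm h)
  refine ⟨u, by rw [hS.tree.symm]; exact h2, ?_⟩
  unfold Btw at h1
  rw [hS.tree.symm x u, hS.tree.symm x w]
  omega

/-- If `x` lies behind the child `u = u_j` of `w` then the gate of `x` in `w` is in the hull. -/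
theorem TT.Good.gate_mem (hS : S.Good) (hγ : S.IsGate γ) {x : V × M} {j : J} {u w : V}
    (hc : S.Ch j u w) (h : S.Tow x.1 w u) : γ x w ∈ S.loc.Y j := by
  rw [hγ.up x j u w hc h]
  exact hS.gloc.io_mem j _

/-- `Far` implies: projections differ or the gate is in the hull (with slack). -/
theorem TT.Good.far_cases (hS : S.Good) (hγ : S.IsGate γ) {x : V × M} {j : J} {u w : V} {p : M}
    (hc : S.Ch j u w) (h : S.Far γ j u w p x) :
    3 ≤ S.loc.d (S.loc.pr j p) (S.loc.pr j (γ x w)) ∨ γ x w ∈ S.loc.Y j := by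
  rcases h with h | h
  · exact Or.inr (hS.gate_mem hγ hc h)
  · rw [hγ.down x j u w hc] at h
    exact Or.inl h

/-- `Far` is monotone: if `q` is between `p` and the gate of `x` and `q` is far from `x`
then `p` is far from `x`. -/
theorem TT.Good.far_mono (hS : S.Good) (hγ : S.IsGate γ) {x : V × M} {j : J} {u w : V} {p q : M}
    (hc : S.Ch j u w) (hb : Btw S.loc.d p q (γ x w)) (h : S.Far γ j u w q x) :
    S.Far γ j u w p x := by
  rcases h with h | h
  · exact Or.inl h
  · right
    have h1 := hS.gloc.mono j _ _ _ hb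
    rw [← hγ.down x j u w hc] at h1
    unfold Btw at h1
    omega

/-- A point hidden by the child `u = u_j` lies in the hull. -/
theorem TT.Good.far_mem (hS : S.Good) (hγ : S.IsGate γ) {x y : V × M} {j : J} {u w : V} {p : M}
    (hc : S.Ch j u w) (hb : Btw S.loc.d (γ x w) p (γ y w)) (hx : S.Far γ j u w p x)
    (hy : S.Far γ j u w p y) : p ∈ S.loc.Y j := by
  have key : ∀ z : V × M, S.Far γ j u w p z →
      S.loc.pr j p ≠ S.loc.pr j (γ z w) ∨ γ z w ∈ S.loc.Y j := by
    intro z hz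
    rcases hS.far_cases hγ hc hz with h | h
    · left
      intro he
      rw [he, hS.gloc.tree.toIsPathMetric.self] at h
      omega
    · exact Or.inr h
  refine hS.gloc.mem_Y j _ _ _ hb ?_ (key y hy)
  rcases key x hx with h | h
  · exact Or.inl (Ne.symm h)
  · exact Or.inr h

/-- Points of the hull of a child are close if their projections are close. -/
theorem TT.Good.dist_le (hS : S.Good) (hD : S.Metric D) {j : J} {u w : V} {p q : M}
    (hc : S.Ch j u w) (hp : p ∈ S.loc.Y j) (hq : q ∈ S.loc.Y j) :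
    D (w, p) (w, q) ≤ 2 * S.loc.Lam + 2 + S.loc.d (S.loc.pr j p) (S.loc.pr j q) := by
  have h1 : D (w, p) (w, S.loc.io j (S.loc.pr j p)) ≤ S.loc.Lam :=
    (hD.fib _ _ _).trans (hS.gloc.near j p hp)
  have h2 : D (w, q) (w, S.loc.io j (S.loc.pr j q)) ≤ S.loc.Lam :=
    (hD.fib _ _ _).trans (hS.gloc.near j q hq)
  have h3 := hD.edge j u w (S.loc.pr j p) hc
  have h4 := hD.edge j u w (S.loc.pr j q) hc
  have h5 := hD.fib u (S.loc.pr j p) (S.loc.pr j q)
  rw [hD.path.symm] at h2 h3
  have t1 := hD.path.tri (w, p) (w, S.loc.io j (S.loc.pr j p)) (w, q)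
  have t2 := hD.path.tri (w, S.loc.io j (S.loc.pr j p)) (u, S.loc.pr j p) (w, q)
  have t3 := hD.path.tri (u, S.loc.pr j p) (u, S.loc.pr j q) (w, q)
  have t4 := hD.path.tri (u, S.loc.pr j q) (w, S.loc.io j (S.loc.pr j q)) (w, q)
  omega

theorem TT.Good.dist_pr_le (hS : S.Good) (hD : S.Metric D) {j : J} {u w : V} {p : M}
    (hc : S.Ch j u w) (hp : p ∈ S.loc.Y j) :
    D (w, p) (u, S.loc.pr j p) ≤ S.loc.Lam + 1 := by
  have h1 : D (w, p) (w, S.loc.io j (S.loc.pr j p)) ≤ S.loc.Lam :=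
    (hD.fib _ _ _).trans (hS.gloc.near j p hp)
  have h3 := hD.edge j u w (S.loc.pr j p) hc
  rw [hD.path.symm] at h3
  have t1 := hD.path.tri (w, p) (w, S.loc.io j (S.loc.pr j p)) (u, S.loc.pr j p)
  omega

/-- Two adjacent points cannot be hidden by different children. -/
theorem TT.Good.hid_adj (hS : S.Good) (hγ : S.IsGate γ) {x y : V × M} {j j' : J} {u u' w : V}
    {p q : M} (hc : S.Ch j u w) (hc' : S.Ch j' u' w) (hpq : S.loc.d p q ≤ 1)
    (hb : Btw S.loc.d (γ x w) p (γ y w)) (hb' : Btw S.loc.d p q (γ y w))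
    (hx : S.Far γ j u w p x) (hy : S.Far γ j u w p y)
    (hx' : S.Far γ j' u' w q x) (hy' : S.Far γ j' u' w q y) : j = j' := by
  by_contra hjj
  have hdp := hS.gloc.tree.toIsPathMetric
  have hbq : Btw S.loc.d (γ x w) q (γ y w) := (hdp.trans_right hb hb').1
  have hpY : p ∈ S.loc.Y j := hS.far_mem hγ hc hb hx hy
  have hqY' : q ∈ S.loc.Y j' := hS.far_mem hγ hc' hbq hx' hy'
  have hlip := hS.gloc.lip j p q
  have h1 : 2 ≤ S.loc.d (S.loc.pr j q) (S.loc.pr j (γ y w)) ∨ γ y w ∈ S.loc.Y j := by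
    rcases hS.far_cases hγ hc hy with h | h
    · left
      have := hdp.tri (S.loc.pr j p) (S.loc.pr j q) (S.loc.pr j (γ y w))
      omega
    · exact Or.inr h
  have h2 : 2 ≤ S.loc.d (S.loc.pr j' q) (S.loc.pr j' (γ y w)) ∨ γ y w ∈ S.loc.Y j' := by
    rcases hS.far_cases hγ hc' hy' with h | h
    · exact Or.inl (by omega)
    · exact Or.inr h
  have hqY : q ∈ S.loc.Y j := by
    refine hS.gloc.mem_Y j _ _ _ hb' (Or.inr hpY) ?_
    rcases h1 with h | h
    · left
      intro he
      rw [he, hdp.self] at h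
      omega
    · exact Or.inr h
  refine hS.gloc.overlap hjj hqY hqY' h1 h2 ?_
  by_contra hno
  push Not at hno
  have ht : S.Tow y.1 w u := by
    rcases hy with h | h
    · exact h
    · exfalso
      rw [hγ.down y j u w hc] at h
      have := hdp.tri (S.loc.pr j p) (S.loc.pr j q) (S.loc.pr j (γ y w))
      omega
  have ht' : S.Tow y.1 w u' := by
    rcases hy' with h | h
    · exact h
    · exfalso
      rw [hγ.down y j' u' w hc'] at h
      omega
  have huu := hS.tow_unique ht ht'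
  subst huu
  exact hjj (hS.idx j j' u w hc hc')

/-- The point `x` belongs to its guessed geodesics. -/
theorem TT.Good.self_mem_LL (hS : S.Good) (hγ : S.IsGate γ) (x y : V × M) : x ∈ S.LL γ x y := by
  have hdp := hS.gloc.tree.toIsPathMetric
  have h0 : ∀ u, ¬ S.Tow x.1 x.1 u := by
    rintro u ⟨-, h⟩
    rw [hS.tree.toIsPathMetric.self] at h
    omega
  refine ⟨Or.inl fun u h => h0 u h.1, ?_, ?_⟩
  · rw [hγ.self x]
    exact hdp.btw_left _ _
  · rintro ⟨j, u, hc, hx, -⟩
    rcases hx with h | h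
    · exact h0 u h
    · rw [hγ.down x j u x.1 hc, hγ.self x, hdp.self] at h
      omega

theorem TT.Good.LL_symm (hS : S.Good) (γ : V × M → V → M) (x y : V × M) :
    S.LL γ x y = S.LL γ y x := by
  have hdp := hS.gloc.tree.toIsPathMetric
  have key : ∀ x y : V × M, S.LL γ x y ⊆ S.LL γ y x := by
    rintro x y p ⟨h1, h2, h3⟩
    refine ⟨?_, hdp.btw_symm h2, ?_⟩
    · rcases h1 with h | h
      · exact Or.inl fun u hu => h u ⟨hu.2, hu.1⟩
      · right
        rw [hdp.symm]
        exact h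
    · rintro ⟨j, u, hc, hx, hy⟩
      exact h3 ⟨j, u, hc, hy, hx⟩
  exact Set.Subset.antisymm (key x y) (key y x)

end Pool.Agent.Helper74.MH
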