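import Pool.Agent.Helper74.MH.Tc

/-! Module Te (MP_f028d2_al): thinness, cases A and C. -/

set_option autoImplicit false

namespace Pool.Agent.Helper74.MH

variable {V M J : Type*} {S : TT V M J} {γ : V × M → V → M} {D : V × M → V × M → ℕ}

/-- Case A: `w` is not relevant for `x, z` but relevant for `z, y`. -/
theorem TT.Good.thin_caseA (hS : S.Good) (hγ : S.IsGate γ) (hD : S.Metric D) (x y z : V × M)
    (w : V) (p m : M) (hp : (w, p) ∈ S.LL γ x y)
    (hm₁ : Btw S.loc.d (γ x w) m (γ y w)) (hm₂ : Btw S.loc.d (γ y w) m (γ z w))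
    (hm₃ : Btw S.loc.d (γ x w) m (γ z w)) (hpm : Btw S.loc.d (γ x w) p m)
    (hr : ¬ S.Rel γ w x z) (hr' : S.Rel γ w z y) :
    (w, m) ∈ S.LL γ z y ∧ D (w, p) (w, m) ≤ 2 := by
  have hd := hS.gloc.tree
  have hdp := hd.toIsPathMetric
  obtain ⟨hrel, hapb, hnh⟩ := hp
  change Btw S.loc.d (γ x w) p (γ y w) at hapb
  change ¬ S.Hid γ w p x y at hnh
  obtain ⟨-, hpmb⟩ := hdp.trans_left hm₁ hpm
  have hr1 : ¬ ∀ u, ¬ (S.Tow x.1 w u ∧ S.Tow z.1 w u) := fun h => hr (Or.inl h)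
  have hr2 : ¬ 3 ≤ S.loc.d (γ x w) (γ z w) := fun h => hr (Or.inr h)
  push Not at hr1
  obtain ⟨n0, hn1, hn2⟩ := hr1
  refine ⟨⟨hr', hdp.btw_symm hm₂, ?_⟩, ?_⟩
  · rintro ⟨j, u, hc, hz, hy⟩
    change S.Ch j u w at hc
    change S.Far γ j u w m z at hz
    change S.Far γ j u w m y at hy
    rcases hz with h | h
    · have hn := hS.tow_unique h hn2
      subst hn
      have hny : ¬ S.Far γ j u w p y := fun h' => hnh ⟨j, u, hc, Or.inl hn1, h'⟩
      rcases hy with h2 | h2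
      · exact hny (Or.inl h2)
      · refine hny (Or.inr ?_)
        rw [hγ.down y j u w hc] at h2 ⊢
        have h3 := hS.gloc.mono j p m (γ y w) hpmb
        unfold Btw at h3
        omega
    · rw [hγ.down z j u w hc] at h
      have h1 := hS.gloc.lip j m (γ z w)
      unfold Btw at hm₃
      omega
  · have h1 := hD.fib w p m
    unfold Btw at hm₃ hpm
    omega

/-- The point over the parent vertex. -/
private theorem up_aux (hS : S.Good) (hγ : S.IsGate γ) (x z : V × M) {w n : V} {j : J} {m' : M}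
    (hc : S.Ch j w n) (hx : S.Tow x.1 w n) (hm : Btw S.loc.d (γ x n) m' (γ z n))
    (hmY : m' ∈ S.loc.Y j) (h1 : S.loc.d (S.loc.pr j m') (S.loc.pr j (γ x n)) = 2) :
    (n, m') ∈ S.LL γ x z := by
  have hd := hS.gloc.tree
  have hdp := hd.toIsPathMetric
  refine ⟨Or.inr ?_, hm, ?_⟩
  · change 3 ≤ S.loc.d (γ x n) (γ z n)
    have h2 := hS.gloc.far j m' (γ x n) h1.ge
    have h3 := hS.gloc.hL
    have h4 := hd.symm m' (γ x n)
    unfold Btw at hm
    omega
  · rintro ⟨j1, u1, hc1, hx1, hz1⟩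
    change S.Ch j1 u1 n at hc1
    change S.Far γ j1 u1 n m' x at hx1
    change S.Far γ j1 u1 n m' z at hz1
    by_cases hj : j1 = j
    · subst hj
      have hu : u1 = w := hS.fn j1 u1 w n hc1 hc
      subst hu
      rcases hx1 with h | h
      · exact hS.tow_asymm hx h
      · rw [hγ.down x j1 u1 n hc1] at h
        omega
    · have hmY1 : m' ∈ S.loc.Y j1 := hS.far_mem hγ hc1 hm hx1 hz1
      refine hS.gloc.overlap (fun h => hj h.symm) hmY hmY1 (c := γ x n) (Or.inl h1.ge) ?_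
        (Or.inl h1.ge)
      rcases hS.far_cases hγ hc1 hx1 with h | h
      · left
        omega
      · exact Or.inr h

/-- Case C: `w` is relevant neither for `x, z` nor for `z, y`. -/
theorem TT.Good.thin_caseC (hS : S.Good) (hγ : S.IsGate γ) (hD : S.Metric D) (x y z : V × M)
    (w : V) (p m : M) (hp : (w, p) ∈ S.LL γ x y)
    (hm₁ : Btw S.loc.d (γ x w) m (γ y w)) (hm₂ : Btw S.loc.d (γ y w) m (γ z w))
    (hm₃ : Btw S.loc.d (γ x w) m (γ z w)) (hpm : Btw S.loc.d (γ x w) p m)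
    (hr : ¬ S.Rel γ w x z) (hr' : ¬ S.Rel γ w z y) :
    ∃ q ∈ S.LL γ x z ∪ S.LL γ z y, D (w, p) q ≤ S.loc.Lam + 3 := by
  have hd := hS.gloc.tree
  have hdp := hd.toIsPathMetric
  obtain ⟨hrel, hapb, hnh⟩ := hp
  change Btw S.loc.d (γ x w) p (γ y w) at hapb
  change ¬ S.Hid γ w p x y at hnh
  change S.Rel γ w x y at hrel
  have hr1 : ¬ ∀ u, ¬ (S.Tow x.1 w u ∧ S.Tow z.1 w u) := fun h => hr (Or.inl h)
  have hr2 : ¬ 3 ≤ S.loc.d (γ x w) (γ z w) := fun h => hr (Or.inr h)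
  have hs1 : ¬ ∀ u, ¬ (S.Tow z.1 w u ∧ S.Tow y.1 w u) := fun h => hr' (Or.inl h)
  have hs2 : ¬ 3 ≤ S.loc.d (γ z w) (γ y w) := fun h => hr' (Or.inr h)
  push Not at hr1 hs1
  obtain ⟨n, hn1, hn2⟩ := hr1
  obtain ⟨n', hn3, hn4⟩ := hs1
  have hnn := hS.tow_unique hn2 hn3
  subst hnn
  have hab : 3 ≤ S.loc.d (γ x w) (γ y w) := by
    rcases hrel with h | h
    · exact absurd ⟨hn1, hn4⟩ (h n)
    · exact h
  rcases (hS.adj n w).1 hn1.1 with ⟨j, hc⟩ | ⟨j, hc⟩
  · exact absurd ⟨j, n, hc, Or.inl hn1, Or.inl hn4⟩ hnh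
  · have ex := hγ.down x j w n hc
    have ey := hγ.down y j w n hc
    have ez := hγ.down z j w n hc
    obtain ⟨m', k1, k2, k3⟩ := hd.med (γ x n) (γ y n) (γ z n)
    have l1 := hS.gloc.mono j _ _ _ k1
    have l2 := hS.gloc.mono j _ _ _ k2
    have l3 := hS.gloc.mono j _ _ _ k3
    rw [← ex, ← ey] at l1
    rw [← ey, ← ez] at l2
    rw [← ex, ← ez] at l3
    have hm : m = S.loc.pr j m' := hd.med_unique hm₁ hm₂ hm₃ l1 l2 l3
    have q1 := hm₁
    have q2 := hm₂
    have q3 := hm₃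
    unfold Btw at q1 q2 q3
    have s1 := hd.symm (γ y w) m
    have s2 := hd.symm (γ y w) (γ z w)
    have s3 := hd.symm (γ x w) m
    have s4 := hd.symm (γ z w) m
    have hmY : m' ∈ S.loc.Y j := by
      refine hS.gloc.mem_Y j _ _ _ k1 (Or.inl ?_) (Or.inl ?_)
      · intro h
        rw [← hm, ← ex] at h
        have h0 := (hd.zero_iff _ _).2 h
        omega
      · intro h
        rw [← hm, ← ey] at h
        have h0 := (hd.zero_iff _ _).2 h
        omega
    have hdist : D (w, p) (n, m') ≤ S.loc.Lam + 3 := by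
      have h1 := hD.path.tri (w, p) (w, m) (n, m')
      have h2 := hD.path.tri (w, m) (n, S.loc.io j m) (n, m')
      have h3 := hD.fib w p m
      have h4 := hD.edge j w n m hc
      have h5 := hD.fib n (S.loc.io j m) m'
      have h6 := hS.gloc.near j m' hmY
      rw [← hm, hd.symm] at h6
      unfold Btw at hpm
      omega
    by_cases h2 : 2 ≤ S.loc.d (γ x w) m
    · refine ⟨(n, m'), Or.inl (up_aux hS hγ x z hc hn1 k3 hmY ?_), hdist⟩
      rw [← hm, ← ex]
      omega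
    · refine ⟨(n, m'), Or.inr ?_, hdist⟩
      rw [hS.LL_symm γ z y]
      refine up_aux hS hγ y z hc hn4 k2 hmY ?_
      rw [← hm, ← ey]
      omega

end Pool.Agent.Helper74.MH
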