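import Pool.Agent.Helper74.MH.Tc

/-! Module Th (MP_f028d2_al): chains inside one vertex, jumping over hidden intervals. -/

set_option autoImplicit false

namespace Pool.Agent.Helper74.MH

variable {V M J : Type*} {S : TT V M J} {γ : V × M → V → M} {D : V × M → V × M → ℕ}

/-- Jump over a hidden interval: `s` is not hidden, its successor `s'` is hidden by `u = u_j`.
Then the projection of `s` is an unhidden point of the fibre over `u`, close to `s`. -/
theorem TT.Good.jump (hS : S.Good) (hγ : S.IsGate γ) (hD : S.Metric D) {x y : V × M} {v : V}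
    {s s' : M} (hs : (v, s) ∈ S.LL γ x y) (hss : S.loc.d s s' = 1)
    (hb : Btw S.loc.d (γ x v) s s') (hb' : Btw S.loc.d (γ x v) s' (γ y v)) {j : J} {u : V}
    (hc : S.Ch j u v) (hx : S.Far γ j u v s' x) (hy : S.Far γ j u v s' y) :
    (u, S.loc.pr j s) ∈ S.LL γ x y ∧ D (v, s) (u, S.loc.pr j s) ≤ S.loc.Lam + 1 ∧
      3 ≤ S.loc.d (γ x u) (γ y u) ∧ S.loc.d (γ x u) (γ y u) < S.loc.d (γ x v) (γ y v) := by
  have hL := hS.gloc
  have hT := hL.tree
  have hP := hT.toIsPathMetric
  obtain ⟨-, hsb, hnh⟩ := hs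
  change Btw S.loc.d (γ x v) s (γ y v) at hsb
  change ¬ S.Hid γ v s x y at hnh
  obtain ⟨-, hsb'⟩ := hP.trans_left hb' hb
  -- the `y` side
  have hfy : S.Far γ j u v s y := hS.far_mono hγ hc hsb' hy
  have hfx : ¬ S.Far γ j u v s x := fun h => hnh ⟨j, u, hc, h, hfy⟩
  have hntow : ¬ S.Tow x.1 v u := fun h => hfx (Or.inl h)
  have hle : S.loc.d (S.loc.pr j s) (γ x u) ≤ 2 := by
    by_contra h
    exact hfx (Or.inr (by omega))
  have hge : 3 ≤ S.loc.d (S.loc.pr j s') (γ x u) := by
    rcases hx with h | h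
    · exact absurd h hntow
    · exact h
  have hl1 : S.loc.d (S.loc.pr j s) (S.loc.pr j s') ≤ 1 := hss ▸ hL.lip j s s'
  have ht1 := hP.tri (S.loc.pr j s') (S.loc.pr j s) (γ x u)
  have hsy1 := hP.symm (S.loc.pr j s') (S.loc.pr j s)
  have heq : S.loc.d (S.loc.pr j s) (γ x u) = 2 := by omega
  have hgx : γ x u = S.loc.pr j (γ x v) := hγ.down x j u v hc
  have hgy : γ y u = S.loc.pr j (γ y v) := hγ.down y j u v hc
  have hne : S.loc.pr j (γ x v) ≠ S.loc.pr j s := by
    intro h
    rw [hgx, h, hP.self] at heq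
    omega
  have hne' : S.loc.pr j s ≠ S.loc.pr j (γ y v) ∨ γ y v ∈ S.loc.Y j := by
    rcases hS.far_cases hγ hc hfy with h | h
    · left
      intro h'
      rw [h', hP.self] at h
      omega
    · exact Or.inr h
  have hY : s ∈ S.loc.Y j := hL.mem_Y j _ _ _ hsb (Or.inl hne) hne'
  have hm1 : Btw S.loc.d (γ x u) (S.loc.pr j s) (γ y u) := by
    rw [hgx, hgy]; exact hL.mono j _ _ _ hsb
  have hm2 : Btw S.loc.d (γ x u) (S.loc.pr j s') (γ y u) := by
    rw [hgx, hgy]; exact hL.mono j _ _ _ hb'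
  have h3 : 3 ≤ S.loc.d (γ x u) (γ y u) := by
    unfold Btw at hm2
    have := hP.symm (S.loc.pr j s') (γ x u)
    omega
  have hstr : S.loc.d (γ x u) (γ y u) < S.loc.d (γ x v) (γ y v) := by
    have h4 := h3
    rw [hgx, hgy] at h4 ⊢
    exact hL.strict (by omega)
  refine ⟨⟨Or.inr h3, hm1, ?_⟩, hS.dist_pr_le hD hc hY, h3, hstr⟩
  rintro ⟨j2, u2, hc2, hfx2, -⟩
  change S.Far γ j2 u2 u (S.loc.pr j s) x at hfx2
  have htow : S.Tow x.1 u v := by
    rcases hS.tow_or x.1 hc with h | h
    · exact absurd h hntow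
    · exact h
  rcases hfx2 with h | h
  · have := hS.tow_unique h htow
    subst this
    exact hS.asym _ _ _ _ hc hc2
  · rw [hγ.down x j2 u2 u hc2] at h
    have := hL.lip j2 (S.loc.pr j s) (γ x u)
    omega

private theorem chain_symm (hD : IsPathMetric D) {L : Set (V × M)} {h : ℕ} {p q : V × M}
    (hc : Chain D L h p q) : Chain D L h q p := by
  unfold Chain at *
  induction hc with
  | refl => exact Relation.ReflTransGen.refl
  | tail _ hbc ih =>
    refine Relation.ReflTransGen.head ⟨hbc.2.1, hbc.1, ?_⟩ ih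
    rw [hD.symm]
    exact hbc.2.2

/-- Chains inside one vertex. -/
theorem TT.Good.chain_vertex (hS : S.Good) (hγ : S.IsGate γ) (hD : S.Metric D) (x y : V × M)
    (v : V) (s t : M) (hs : (v, s) ∈ S.LL γ x y) (ht : (v, t) ∈ S.LL γ x y) :
    Chain D (S.LL γ x y) (2 * S.loc.Lam + 6) (v, s) (v, t) := by
  have hL := hS.gloc
  have hT := hL.tree
  have hP := hT.toIsPathMetric
  have key : ∀ n : ℕ, ∀ v s t, S.loc.d (γ x v) (γ y v) = n → (v, s) ∈ S.LL γ x y →
      (v, t) ∈ S.LL γ x y → Chain D (S.LL γ x y) (2 * S.loc.Lam + 6) (v, s) (v, t) := by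
    intro n
    induction n using Nat.strong_induction_on with
    | _ n ihn =>
    intro v s t hn hs ht
    -- the ordered case
    have ord : ∀ k : ℕ, ∀ s t, S.loc.d s t = k → (v, s) ∈ S.LL γ x y → (v, t) ∈ S.LL γ x y →
        S.loc.d (γ x v) s ≤ S.loc.d (γ x v) t →
        Chain D (S.LL γ x y) (2 * S.loc.Lam + 6) (v, s) (v, t) := by
      intro k
      induction k using Nat.strong_induction_on with
      | _ k ihk =>
      intro s t hk hs ht hst
      by_cases hne : s = t
      · subst hne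
        exact Relation.ReflTransGen.refl
      have hsb : Btw S.loc.d (γ x v) s (γ y v) := hs.2.1
      have htb : Btw S.loc.d (γ x v) t (γ y v) := ht.2.1
      obtain ⟨hast, hstb⟩ := hT.order hsb htb hst
      obtain ⟨s', hs't, hss'⟩ := hP.exists_succ hne
      -- `a, s, s', t, b` are in this order
      obtain ⟨has't, hass'⟩ := hP.trans_right hast hs't
      obtain ⟨has'b, hs'tb⟩ := hP.trans_left htb has't
      have hds't : S.loc.d s' t < k := by
        unfold Btw at hs't
        omega
      by_cases hs'L : (v, s') ∈ S.LL γ x y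
      · refine Relation.ReflTransGen.head ⟨hs, hs'L, ?_⟩ (ihk _ hds't s' t rfl hs'L ht ?_)
        · exact (hD.fib v s s').trans (by omega)
        · unfold Btw at has't
          omega
      · have hhid : S.Hid γ v s' x y := by
          by_contra h
          exact hs'L ⟨hs.1, has'b, h⟩
        obtain ⟨j, u, hc, hfx, hfy⟩ := hhid
        have hPt : ¬ (S.Far γ j u v t x ∧ S.Far γ j u v t y) := fun h =>
          ht.2.2 ⟨j, u, hc, h.1, h.2⟩
        obtain ⟨t0, t', g1, g2, g3, g4, g5, g6, g7⟩ := hP.exists_first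
          (fun r => ¬ (S.Far γ j u v r x ∧ S.Far γ j u v r y)) (p := s') (q := t)
          (fun h => h ⟨hfx, hfy⟩) hPt
        have g6' : S.Far γ j u v t0 x ∧ S.Far γ j u v t0 y := by
          by_contra h
          exact g6 h
        -- order: `a, s', t0, t', t, b`
        obtain ⟨hat't, has't'⟩ := hP.trans_right has't g2
        obtain ⟨hat0t', _⟩ := hP.trans_right has't' g1
        obtain ⟨hat't'b, ht'tb⟩ := hP.trans_left htb hat't
        obtain ⟨hat0b, ht0t'b⟩ := hP.trans_left hat't'b hat0t'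
        have ht'L : (v, t') ∈ S.LL γ x y := by
          refine ⟨hs.1, hat't'b, ?_⟩
          rintro ⟨j2, u2, hc2, hfx2, hfy2⟩
          have hjj := hS.hid_adj hγ hc hc2 (by omega : S.loc.d t0 t' ≤ 1) hat0b ht0t'b
            g6'.1 g6'.2 hfx2 hfy2
          subst hjj
          have huu := hS.fn _ _ _ _ hc hc2
          subst huu
          exact g7 ⟨hfx2, hfy2⟩
        obtain ⟨j1, j2, j3, j4⟩ := hS.jump hγ hD hs hss' hass' has'b hc hfx hfy
        have ht'L' : (v, t') ∈ S.LL γ y x := by
          rw [hS.LL_symm]; exact ht'L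
        obtain ⟨k1, k2, k3, k4⟩ := hS.jump hγ hD (x := y) (y := x) ht'L'
          ((hP.symm t' t0).trans g5) (hP.btw_symm ht0t'b) (hP.btw_symm hat0b) hc g6'.2 g6'.1
        rw [hS.LL_symm] at k1
        have hmid := ihn _ (by omega) u (S.loc.pr j s) (S.loc.pr j t') rfl j1 k1
        have hlast := ihk (S.loc.d t' t) (by unfold Btw at g2; omega) t' t rfl ht'L ht
          (by unfold Btw at hat't; omega)
        refine Relation.ReflTransGen.head ⟨hs, j1, by omega⟩ (hmid.trans ?_)
        refine Relation.ReflTransGen.head ⟨k1, ht'L, ?_⟩ hlast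
        rw [hD.path.symm]
        omega
    rcases le_total (S.loc.d (γ x v) s) (S.loc.d (γ x v) t) with h | h
    · exact ord _ s t rfl hs ht h
    · exact chain_symm hD.path (ord _ t s rfl ht hs h)
  exact key _ v s t rfl hs ht

end Pool.Agent.Helper74.MH
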