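import Pool.Agent.Helper74.MH.Defs2

/-! Module Za (MP_f028d2_al): undecidability of the word list predicate; finite presentation of
finite rank free groups. -/

set_option autoImplicit false

namespace Pool.Agent.Helper74.MH

theorem undec {nA nT p n : ℕ} [NeZero p] {M : Mach (Fin nA) (Fin nT)}
    {Z : Noise (Fin nA) (Fin nT) p} {L : ℕ} (e : Fin n ≃ XX (Fin nA) p ⊕ Fin nT)
    (H : Subgroup (GG M Z L)) (enc : ℕ → List (Fin nA)) (henc : Computable enc) (P : ℕ → Prop)
    (hP : ¬ ComputablePred P) (hH : ∀ k, testEl M Z L (enc k) ∈ H ↔ P k) :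
    ¬ ComputablePred (fun l : List (Fin n × Bool) =>
      (l.map (fun q => if q.2 then (PresentedGroup.of (e q.1) : GG M Z L)
        else (PresentedGroup.of (e q.1))⁻¹)).prod ∈ H) := by
  intro hcomp
  apply hP
  let F1 : Fin nA → Fin n × Bool := fun y => (e.symm (Sum.inl (Sum.inl y)), true)
  let F2 : Fin nA → Fin n × Bool := fun y => (e.symm (Sum.inl (Sum.inl y)), false)
  let mid : List (Fin n × Bool) := [(e.symm (Sum.inl (Sum.inr (Sum.inl ()))), true),
    (e.symm (Sum.inl (Sum.inr (Sum.inr 0))), true),
    (e.symm (Sum.inl (Sum.inr (Sum.inl ()))), false)]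
  let h : List (Fin nA) → List (Fin n × Bool) :=
    fun w => w.map F1 ++ (mid ++ (w.reverse).map F2)
  have hh : Primrec h := by
    refine Primrec.list_append.comp ?_ (Primrec.list_append.comp (Primrec.const mid) ?_)
    · exact Primrec.list_map Primrec.id ((Primrec.dom_finite F1).comp Primrec.snd).to₂
    · exact Primrec.list_map Primrec.list_reverse ((Primrec.dom_finite F2).comp Primrec.snd).to₂
  refine ComputablePred.computable_of_manyOneReducible
    ⟨fun k => h (enc k), hh.to_comp.comp henc, fun k => ?_⟩ hcomp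
  rw [← hH k]
  have key : ∀ w : List (Fin nA), ((h w).map (fun q => if q.2 then
      (PresentedGroup.of (e q.1) : GG M Z L) else (PresentedGroup.of (e q.1))⁻¹)).prod =
      testEl M Z L w := by
    intro w
    have h1 : iX (WW M Z L) (w.map fa).prod =
        (w.map (fun y => (PresentedGroup.of (Sum.inl (Sum.inl y)) : GG M Z L))).prod := by
      rw [map_list_prod, List.map_map]
      congr 1
    have h2 : (iX (WW M Z L) (w.map fa).prod)⁻¹ =
        (w.reverse.map
          (fun y => (PresentedGroup.of (Sum.inl (Sum.inl y)) : GG M Z L)⁻¹)).prod := by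
      rw [h1, List.prod_inv_reverse, List.map_map, ← List.map_reverse]
      rfl
    unfold testEl
    simp only [map_mul, map_inv]
    rw [h2, h1]
    simp [h, F1, F2, mid, iX, fe, fn, mul_assoc, Function.comp_def]
  rw [key]

theorem fp_of_free {G ι : Type*} [Group G] [Finite ι] (H : Subgroup G)
    (f : FreeGroup ι →* G) (hf : Function.Injective f) (hH : f.range = H) :
    ∃ (m : ℕ) (rels : Set (FreeGroup (Fin m))), rels.Finite ∧
      Nonempty (H ≃* PresentedGroup rels) := by
  subst hH
  refine ⟨Nat.card ι, ∅, Set.finite_empty, ⟨?_⟩⟩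
  have e1 : f.range ≃* FreeGroup ι := (MonoidHom.ofInjective hf).symm
  have e2 : FreeGroup ι ≃* FreeGroup (Fin (Nat.card ι)) :=
    FreeGroup.freeGroupCongr (Finite.equivFin ι)
  have e3 : FreeGroup (Fin (Nat.card ι)) ≃*
      PresentedGroup (∅ : Set (FreeGroup (Fin (Nat.card ι)))) := by
    have h0 : ∀ r ∈ (∅ : Set (FreeGroup (Fin (Nat.card ι)))),
        FreeGroup.lift FreeGroup.of r = (1 : FreeGroup (Fin (Nat.card ι))) := by simp
    refine MonoidHom.toMulEquiv (PresentedGroup.mk ∅)
      (PresentedGroup.toGroup h0) ?_ ?_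
    · ext x
      exact PresentedGroup.toGroup.of h0
    · ext x
      simp
      rfl
  exact (e1.trans e2).trans e3

end Pool.Agent.Helper74.MH
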