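import Pool.Agent.Helper74.MH.Nf
import Pool.Agent.Helper74.MH.Fe
import Pool.Agent.Helper74.MH.He
import Pool.Agent.Helper74.MH.Kd
import Pool.Agent.Helper74.MH.Za

/-! Module Zb (MP_f028d2_al): final assembly, conditional on Part M only. -/

set_option autoImplicit false

namespace Pool.Agent.Helper74.MH

theorem final_of_partM (hM : PartM) :
    ∃ (G : Type) (_ : Group G) (n : ℕ) (g : Fin n → G),
      Subgroup.closure (Set.range g) = ⊤ ∧
      (∃ d : G → G → ℕ,
        (∀ x y : G, d x y = sInf {k : ℕ | ∃ l : List (Fin n × Bool), l.length = k ∧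
          (l.map (fun p => if p.2 then g p.1 else (g p.1)⁻¹)).prod = x⁻¹ * y}) ∧
        ∃ δ : ℕ, ∀ x y z w : G,
          min ((d w x : ℤ) + (d w y : ℤ) - (d x y : ℤ))
              ((d w y : ℤ) + (d w z : ℤ) - (d y z : ℤ)) - 2 * (δ : ℤ)
            ≤ (d w x : ℤ) + (d w z : ℤ) - (d x z : ℤ)) ∧
      ∃ H : Subgroup G,
        (∃ (m : ℕ) (rels : Set (FreeGroup (Fin m))), rels.Finite ∧
          Nonempty (H ≃* PresentedGroup rels)) ∧
        ¬ ComputablePred (fun l : List (Fin n × Bool) =>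
          (l.map (fun p => if p.2 then g p.1 else (g p.1)⁻¹)).prod ∈ H) := by
  obtain ⟨nA, nT, M, hG, enc, henc, henc2, hund⟩ := hM
  -- parameters
  obtain ⟨P, hP⟩ : ∃ P : ℕ, ∀ t, (M.g t).length + 1 ≤ P :=
    ⟨(Finset.univ.sup fun t => (M.g t).length + 1), fun t =>
      Finset.le_sup (f := fun t => (M.g t).length + 1) (Finset.mem_univ t)⟩
  set P' := P + 1 with hP'
  set Q := P' + 2 with hQ
  set h := 3 * Q with hh
  set L := 2 * h + 1 with hL
  obtain ⟨p, hp, Z, hZ⟩ := exists_noise (Fin nA) (Fin nT) L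
  have hS : Stretch (FreeGroup (XX (Fin nA) p)) (Fin nT) dF (phi (WW M Z L)) h Q :=
    stretch_WW (P := P') hZ hL (fun t => (hP t).trans (by omega)) (by omega) (by omega) (by omega)
  obtain ⟨pr, hpr⟩ := hS.exists_proj
  have hinj : Function.Injective (iX (T := Fin nT) (WW M Z L)) :=
    iX_injective (WW M Z L) pr (fun t u f => hS.pr_mul hpr t u f) (fun t => hS.pr_one hpr t)
  have e : Fin (Fintype.card (XX (Fin nA) p ⊕ Fin nT)) ≃ XX (Fin nA) p ⊕ Fin nT :=
    (Fintype.equivFin _).symm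
  set gen : XX (Fin nA) p ⊕ Fin nT → GG M Z L := fun i => PresentedGroup.of i with hgen
  refine ⟨GG M Z L, inferInstance, _, gen ∘ e, ?_, ⟨wd (gen ∘ e), fun x y => rfl, ?_⟩,
    (hPhi M Z L).range, fp_of_free _ (hPhi M Z L) (hPhi_injective hG hinj) rfl, ?_⟩
  · rw [EquivLike.range_comp]
    exact closure_gens _
  · obtain ⟨δ, hδ⟩ := fourPt_HG hS
    refine ⟨δ, fun x y z w => ?_⟩
    have := hδ x y z w
    simp only [wd_comp_equiv e]
    exact this
  · exact undec e (hPhi M Z L).range enc henc _ hund (fun k =>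
      test_mem_iff hG ⟨h, hL⟩ (fun t => (hP t).trans (by omega)) (enc k) (henc2 k))

end Pool.Agent.Helper74.MH
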